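import Mathlib

/-! # Board TF47: finite multigraphs, colourings and 2-tree-connected sets (definitions)

A finite multigraph is given by a finite set `S` of vertices, a finite set `E` of edges and two maps `p`, `q` (the ends). -/

set_option autoImplicit false

namespace Pool.Agent.LibTF47

open Finset
open scoped Classical

variable {α β : Type}

/-- finite multigraphs without loops -/
structure MG (S : Finset α) (E : Finset β) (p q : β → α) : Prop where
  hp : ∀ e ∈ E, p e ∈ S
  hq : ∀ e ∈ E, q e ∈ S
  ne : ∀ e ∈ E, p e ≠ q e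

/-- the edges inside `R` -/
noncomputable def ei (E : Finset β) (p q : β → α) (R : Finset α) : Finset β := E.filter fun e => p e ∈ R ∧ q e ∈ R

/-- the edges leaving `R` -/
noncomputable def eo (E : Finset β) (p q : β → α) (R : Finset α) : Finset β :=
  E.filter fun e => (p e ∈ R ∧ q e ∉ R) ∨ (p e ∉ R ∧ q e ∈ R)

/-- the edges inside `R` joining different colours -/
noncomputable def cr (E : Finset β) (p q : β → α) (κ : α → ℕ) (R : Finset α) : Finset β :=
  E.filter fun e => (p e ∈ R ∧ q e ∈ R) ∧ κ (p e) ≠ κ (q e)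

/-- the degree -/
noncomputable def dg (E : Finset β) (p q : β → α) (f : α) : ℕ := (E.filter fun e => p e = f ∨ q e = f).card

/-- the edges between `v` and `R` -/
noncomputable def eb (E : Finset β) (p q : β → α) (v : α) (R : Finset α) : Finset β :=
  E.filter fun e => (p e = v ∧ q e ∈ R) ∨ (q e = v ∧ p e ∈ R)

/-- 2-tree-connected sets (partition form): every partition into `m` parts has at least `2 m - 2` crossing edges -/
def TC (E : Finset β) (p q : β → α) (R : Finset α) : Prop :=
  R.Nonempty ∧ ∀ κ : α → ℕ, 2 * (R.image κ).card ≤ (cr E p q κ R).card + 2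

/-- overfull sets: more edges than two spanning trees -/
def Ft (E : Finset β) (p q : β → α) (R : Finset α) : Prop := R.Nonempty ∧ 2 * R.card ≤ (ei E p q R).card + 1

/-- the total excess of the degrees over four -/
noncomputable def xx (E : Finset β) (p q : β → α) (R : Finset α) : ℤ := ∑ f ∈ R, ((dg E p q f : ℤ) - 4)

/-- the excess of the number of leaving edges over four -/
noncomputable def xd (E : Finset β) (p q : β → α) (R : Finset α) : ℤ := ((eo E p q R).card : ℤ) - 4

/-- a colour class -/
noncomputable def cl (κ : α → ℕ) (U : Finset α) (c : ℕ) : Finset α := U.filter fun x => κ x = c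

/-- optimal colourings: all classes are 2-tree-connected, every 2-tree-connected subset is in one class, and
(number of crossing edges) - 2 (number of classes) is minimal -/
structure Opt (E : Finset β) (p q : β → α) (U : Finset α) (κ : α → ℕ) : Prop where
  tc : ∀ c ∈ U.image κ, TC E p q (cl κ U c)
  sub : ∀ R, R ⊆ U → TC E p q R → ∃ c ∈ U.image κ, R ⊆ cl κ U c
  le : ∀ κ' : α → ℕ, (cr E p q κ U).card + 2 * (U.image κ').card ≤ (cr E p q κ' U).card + 2 * (U.image κ).card

/-- at least four edges leave every proper set -/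
def C4 (S : Finset α) (E : Finset β) (p q : β → α) : Prop :=
  ∀ R, R ⊆ S → R.Nonempty → R ≠ S → 4 ≤ (eo E p q R).card

/-- connected sets, in terms of cuts -/
def Cn (E : Finset β) (p q : β → α) (R : Finset α) : Prop :=
  ∀ K, K ⊆ R → K.Nonempty → K ≠ R → ∃ e ∈ E, (p e ∈ K ∧ q e ∈ R \ K) ∨ (p e ∈ R \ K ∧ q e ∈ K)

/-- `w` is weak: a partition of the complement of `w` has too few crossing edges -/
def Wk (S : Finset α) (E : Finset β) (p q : β → α) (w : Finset α) : Prop :=
  ∃ κ : α → ℕ, (cr E p q κ (S \ w)).card + 5 ≤ 2 * ((S \ w).image κ).card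

/-- a 4-edge-connected graph with a family `T` of triangles, all of them weak -/
structure Sys (S : Finset α) (E : Finset β) (p q : β → α) (T : Finset α → Prop) : Prop where
  mg : MG S E p q
  c4 : C4 S E p q
  d4 : ∀ f ∈ S, 4 ≤ dg E p q f
  tr : ∀ w, T w → w ⊆ S ∧ w.card = 3 ∧ (ei E p q w).card = 3
  ftT : ∀ R, R ⊆ S → R ≠ S → TC E p q R → Ft E p q R → Cn E p q (S \ R) → ∃ w, T w ∧ w ⊆ R
  wk : ∀ w, T w → Wk S E p q w
  ex : ∃ w, T w

/-- an extremal set: maximal among the 2-tree-connected sets whose complement contains an overfull set -/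
structure Ext (S : Finset α) (E : Finset β) (p q : β → α) (Φ : Finset α) : Prop where
  sub : Φ ⊆ S
  tc : TC E p q Φ
  ft : ∃ R, R ⊆ S \ Φ ∧ Ft E p q R
  mx : ∀ Φ', Φ ⊂ Φ' → Φ' ⊆ S → TC E p q Φ' → ∀ R, R ⊆ S \ Φ' → ¬ Ft E p q R

/-- adjacency by the edges in `A` -/
def ad (p q : β → α) (A : Finset β) (x y : α) : Prop := ∃ e ∈ A, (p e = x ∧ q e = y) ∨ (p e = y ∧ q e = x)

/-- the number of classes of `S` connected by the edges in `A` -/
noncomputable def nc (p q : β → α) (S : Finset α) (A : Finset β) : ℕ :=
  (S.image fun a => S.filter fun b => Relation.EqvGen (ad p q A) a b).card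

end Pool.Agent.LibTF47
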