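import Mathlib
import Pool.Agent.LibTF47.Gr

/-! Row A1. Board TF47. Counting edges of a finite multigraph (S, E, p, q). xd R = |eo R| - 4, xx R = sum over R of (dg - 4).
(hs) double counting: sum over f in R of dg f = sum over e in E of (number of ends of e in R), p e ≠ q e (MG.ne): 2 for e in ei R, 1 for e in eo R, 0 otherwise
(dg as a card of a filter; sum_card_bipartite.. or write card (filter) as a sum of ite and Finset.sum_comm; for one e: ∑ f ∈ R, (if p e = f ∨ q e = f then 1 else 0) = (if p e ∈ R) + (if q e ∈ R)).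
(xx_eq) from hs, push_cast. (part_eo) an edge e is in eo (cl κ U c) for: two values of c if e ∈ cr κ U, exactly one value if e ∈ eo U, none otherwise (an edge inside U with κ (p e) = κ (q e) is in no eo of a class).
(part_ei) an edge inside U with equal colours lies in ei (cl κ U c) for exactly c = κ (p e); the others are cr. (part_card), (part_xx): Finset.sum_fiberwise_of_maps_to / card_eq_sum_card_image.
(eo_compl) all ends are in S: p e ∉ R ↔ p e ∈ S \ R. (xx_mono) the terms are ≥ 0 on S. (xx_le_of_not_ft) R nonempty and not Ft: |ei R| + 2 ≤ 2 |R|; xx_eq. -/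

set_option autoImplicit false

namespace Pool.Agent.LibTF47

open Finset
open scoped Classical

variable {α β : Type} {S : Finset α} {E : Finset β} {p q : β → α}

private lemma sum_ind_or (R : Finset α) (a b : α) (hab : a ≠ b) :
    ∑ f ∈ R, (if a = f ∨ b = f then 1 else 0 : ℕ) = (if a ∈ R then 1 else 0) + (if b ∈ R then 1 else 0) := by
  have h1 : ∀ f ∈ R, (if a = f ∨ b = f then 1 else 0 : ℕ) = (if a = f then 1 else 0) + (if b = f then 1 else 0) := by
    intro f _
    by_cases h1 : a = f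
    · by_cases h2 : b = f
      · exact absurd (h1.trans h2.symm) hab
      · simp [h1, h2]
    · by_cases h2 : b = f
      · simp [h1, h2]
      · simp [h1, h2]
  rw [Finset.sum_congr rfl h1, Finset.sum_add_distrib, Finset.sum_ite_eq, Finset.sum_ite_eq]

/-- A1: handshake -/
theorem hs (h : MG S E p q) (R : Finset α) : ∑ f ∈ R, dg E p q f = 2 * (ei E p q R).card + (eo E p q R).card := by
  unfold dg ei eo
  simp only [Finset.card_filter]
  rw [Finset.sum_comm, Finset.mul_sum, ← Finset.sum_add_distrib]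
  refine Finset.sum_congr rfl fun e he => ?_
  rw [sum_ind_or R (p e) (q e) (h.ne e he)]
  by_cases h1 : p e ∈ R <;> by_cases h2 : q e ∈ R <;> simp [h1, h2]

/-- A1: the excess -/
theorem xx_eq (h : MG S E p q) (R : Finset α) :
    xx E p q R = 2 * ((ei E p q R).card : ℤ) + ((eo E p q R).card : ℤ) - 4 * (R.card : ℤ) := by
  have h1 := hs h R
  unfold xx
  rw [Finset.sum_sub_distrib, Finset.sum_const, ← Nat.cast_sum, h1]
  push_cast
  simp only [nsmul_eq_mul]
  ring

private lemma mem_cl (κ : α → ℕ) (U : Finset α) (c : ℕ) (x : α) : x ∈ cl κ U c ↔ x ∈ U ∧ κ x = c := by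
  unfold cl
  rw [Finset.mem_filter]

private lemma sum_one (κ : α → ℕ) (U : Finset α) (a : α) (ha : a ∈ U) (F : ℕ → ℕ)
    (h1 : F (κ a) = 1) (h0 : ∀ c, c ≠ κ a → F c = 0) :
    ∑ c ∈ U.image κ, F c = 1 := by
  rw [Finset.sum_eq_single (κ a) (fun c _ hc => h0 c hc)
    (fun h => absurd (Finset.mem_image_of_mem κ ha) h), h1]

/-- A1: the classes of a colouring: leaving edges -/
theorem part_eo (h : MG S E p q) (κ : α → ℕ) (U : Finset α) :
    ∑ c ∈ U.image κ, (eo E p q (cl κ U c)).card = 2 * (cr E p q κ U).card + (eo E p q U).card := by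
  unfold eo cr
  simp only [Finset.card_filter]
  rw [Finset.sum_comm, Finset.mul_sum, ← Finset.sum_add_distrib]
  refine Finset.sum_congr rfl fun e he => ?_
  simp only [mem_cl]
  by_cases h1 : p e ∈ U
  · by_cases h2 : q e ∈ U
    · by_cases h3 : κ (p e) = κ (q e)
      · have h0 : ∀ c ∈ U.image κ, (if ((p e ∈ U ∧ κ (p e) = c) ∧ ¬ (q e ∈ U ∧ κ (q e) = c)) ∨
            (¬ (p e ∈ U ∧ κ (p e) = c) ∧ (q e ∈ U ∧ κ (q e) = c)) then 1 else 0 : ℕ) = 0 := by
          intro c _
          rw [if_neg]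
          rintro (⟨⟨_, h5⟩, h6⟩ | ⟨h5, ⟨_, h6⟩⟩)
          · exact h6 ⟨h2, h3 ▸ h5⟩
          · exact h5 ⟨h1, h3 ▸ h6⟩
        rw [Finset.sum_congr rfl h0]
        simp [h1, h2, h3]
      · -- two classes
        have h0 : ∀ c ∈ U.image κ, (if ((p e ∈ U ∧ κ (p e) = c) ∧ ¬ (q e ∈ U ∧ κ (q e) = c)) ∨
            (¬ (p e ∈ U ∧ κ (p e) = c) ∧ (q e ∈ U ∧ κ (q e) = c)) then 1 else 0 : ℕ) =
            (if c = κ (p e) then 1 else 0) + (if c = κ (q e) then 1 else 0) := by
          intro c _
          by_cases h5 : c = κ (p e)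
          · have h6 : c ≠ κ (q e) := fun h6 => h3 (h5.symm.trans h6)
            rw [if_pos (Or.inl ⟨⟨h1, h5.symm⟩, fun h7 => h6 h7.2.symm⟩), if_pos h5, if_neg h6]
          · by_cases h6 : c = κ (q e)
            · rw [if_pos (Or.inr ⟨fun h7 => h5 h7.2.symm, ⟨h2, h6.symm⟩⟩), if_neg h5, if_pos h6]
            · rw [if_neg, if_neg h5, if_neg h6]
              rintro (⟨⟨_, h7⟩, _⟩ | ⟨_, ⟨_, h7⟩⟩)
              · exact h5 h7.symm
              · exact h6 h7.symm
        rw [Finset.sum_congr rfl h0, Finset.sum_add_distrib, Finset.sum_ite_eq', Finset.sum_ite_eq',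
          if_pos (Finset.mem_image_of_mem κ h1), if_pos (Finset.mem_image_of_mem κ h2)]
        simp [h1, h2, h3]
    · rw [sum_one κ U (p e) h1]
      · simp [h1, h2]
      · exact if_pos (Or.inl ⟨⟨h1, rfl⟩, fun h8 => h2 h8.1⟩)
      · intro c hc
        refine if_neg ?_
        rintro (⟨⟨_, h7⟩, _⟩ | ⟨_, ⟨h7, _⟩⟩)
        · exact hc h7.symm
        · exact absurd h7 h2
  · by_cases h2 : q e ∈ U
    · rw [sum_one κ U (q e) h2]
      · simp [h1, h2]
      · exact if_pos (Or.inr ⟨fun h8 => h1 h8.1, ⟨h2, rfl⟩⟩)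
      · intro c hc
        refine if_neg ?_
        rintro (⟨⟨h7, _⟩, _⟩ | ⟨_, ⟨_, h7⟩⟩)
        · exact absurd h7 h1
        · exact hc h7.symm
    · simp [h1, h2]

/-- A1: the classes of a colouring: edges inside -/
theorem part_ei (κ : α → ℕ) (U : Finset α) :
    (ei E p q U).card = ∑ c ∈ U.image κ, (ei E p q (cl κ U c)).card + (cr E p q κ U).card := by
  unfold ei cr
  simp only [Finset.card_filter]
  rw [Finset.sum_comm, ← Finset.sum_add_distrib]
  refine Finset.sum_congr rfl fun e he => ?_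
  simp only [mem_cl]
  by_cases h1 : p e ∈ U
  · by_cases h2 : q e ∈ U
    · by_cases h3 : κ (p e) = κ (q e)
      · rw [sum_one κ U (p e) h1]
        · simp [h1, h2, h3]
        · exact if_pos ⟨⟨h1, rfl⟩, ⟨h2, h3.symm⟩⟩
        · intro c hc
          refine if_neg ?_
          rintro ⟨⟨_, h7⟩, _⟩
          exact hc h7.symm
      · have h0 : ∀ c ∈ U.image κ, (if (p e ∈ U ∧ κ (p e) = c) ∧ (q e ∈ U ∧ κ (q e) = c) then 1 else 0 : ℕ) = 0 := by
          intro c _
          rw [if_neg]
          rintro ⟨⟨_, h5⟩, ⟨_, h6⟩⟩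
          exact h3 (h5.trans h6.symm)
        rw [Finset.sum_congr rfl h0]
        simp [h1, h2, h3]
    · simp [h2]
  · simp [h1]

/-- A1: the classes of a colouring: vertices -/
theorem part_card (κ : α → ℕ) (U : Finset α) : U.card = ∑ c ∈ U.image κ, (cl κ U c).card := by
  exact Finset.card_eq_sum_card_image κ U

/-- A1: the classes of a colouring: excess -/
theorem part_xx (κ : α → ℕ) (U : Finset α) : xx E p q U = ∑ c ∈ U.image κ, xx E p q (cl κ U c) := by
  unfold xx cl
  exact (Finset.sum_fiberwise_of_maps_to (fun x hx => Finset.mem_image_of_mem κ hx) _).symm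

/-- A1: the complement has the same leaving edges -/
theorem eo_compl (h : MG S E p q) {R : Finset α} (hR : R ⊆ S) : eo E p q (S \ R) = eo E p q R := by
  unfold eo
  refine Finset.filter_congr fun e he => ?_
  have h1 := h.hp e he
  have h2 := h.hq e he
  simp only [Finset.mem_sdiff, h1, h2, true_and, not_not]
  exact Or.comm

/-- A1: monotonicity of the excess -/
theorem xx_mono (h4 : ∀ f ∈ S, 4 ≤ dg E p q f) {A B : Finset α} (hA : A ⊆ B) (hB : B ⊆ S) :
    xx E p q A ≤ xx E p q B := by
  unfold xx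
  refine Finset.sum_le_sum_of_subset_of_nonneg hA fun f hf _ => ?_
  have := h4 f (hB hf)
  have h5 : (4 : ℤ) ≤ (dg E p q f : ℤ) := by exact_mod_cast this
  linarith

/-- A1: sets which are not overfull -/
theorem xx_le_of_not_ft (h : MG S E p q) {R : Finset α} (hR : R.Nonempty) (hn : ¬ Ft E p q R) :
    xx E p q R ≤ xd E p q R := by
  have h1 : (ei E p q R).card + 2 ≤ 2 * R.card := by
    by_contra h2
    exact hn ⟨hR, by omega⟩
  rw [xx_eq h]
  unfold xd
  have h2 : ((ei E p q R).card : ℤ) + 2 ≤ 2 * (R.card : ℤ) := by exact_mod_cast h1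
  linarith

end Pool.Agent.LibTF47
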