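import Mathlib
import Pool.Agent.LibTF47.Gr
import Pool.Agent.LibTF47.A1

/-! Row A2. Board TF47. 2-tree-connected sets: TC R: R nonempty and for every κ : α → ℕ: 2 |κ(R)| ≤ |cr κ R| + 2.
(tc_single) one colour. (tc_insert) κ on insert v R. If κ v ∈ κ(R): the image is κ(R), cr κ R ⊆ cr κ (insert v R). If not: the image has one more element, and the ≥ 2 edges of eb v R are all in cr κ (insert v R) and not in cr κ R.
(tc_cn) K ⊆ R, K ≠ ∅, K ≠ R: κ := 1 on K, 0 elsewhere: two colours, so |cr κ R| ≥ 2: some edge between K and R \ K.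
(ft_sup) choose an injective ι : α → ℕ on the finite set R' (for instance from Finset.equivFin), κ := 0 on R, ι + 1 elsewhere: |κ(R')| = |R'| - |R| + 1; cr κ R' and ei R are disjoint subsets of ei R', so |ei R'| ≥ 2 (|R'| - |R| + 1) - 2 + 2 |R| - 1 = 2 |R'| - 1. -/

set_option autoImplicit false

namespace Pool.Agent.LibTF47

open Finset
open scoped Classical

variable {α β : Type} {S : Finset α} {E : Finset β} {p q : β → α}

private lemma mem_crA2 (κ : α → ℕ) (R : Finset α) (e : β) :
    e ∈ cr E p q κ R ↔ e ∈ E ∧ (p e ∈ R ∧ q e ∈ R) ∧ κ (p e) ≠ κ (q e) := by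
  unfold cr
  rw [Finset.mem_filter]

private lemma mem_eiA2 (R : Finset α) (e : β) :
    e ∈ ei E p q R ↔ e ∈ E ∧ (p e ∈ R ∧ q e ∈ R) := by
  unfold ei
  rw [Finset.mem_filter]

private lemma mem_ebA2 (v : α) (R : Finset α) (e : β) :
    e ∈ eb E p q v R ↔ e ∈ E ∧ ((p e = v ∧ q e ∈ R) ∨ (q e = v ∧ p e ∈ R)) := by
  unfold eb
  rw [Finset.mem_filter]

/-- A2: single vertices -/
theorem tc_single (x : α) : TC E p q {x} := by
  refine ⟨Finset.singleton_nonempty x, fun κ => ?_⟩
  rw [Finset.image_singleton, Finset.card_singleton]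
  omega

/-- A2: adding a vertex with two edges -/
theorem tc_insert {R : Finset α} (hR : TC E p q R) {v : α} (hv : v ∉ R) (h2 : 2 ≤ (eb E p q v R).card) :
    TC E p q (insert v R) := by
  refine ⟨Finset.insert_nonempty v R, fun κ => ?_⟩
  have h0 := hR.2 κ
  have hsub : cr E p q κ R ⊆ cr E p q κ (insert v R) := by
    intro e he
    rw [mem_crA2] at he ⊢
    exact ⟨he.1, ⟨Finset.mem_insert_of_mem he.2.1.1, Finset.mem_insert_of_mem he.2.1.2⟩, he.2.2⟩
  rw [Finset.image_insert]
  by_cases hk : κ v ∈ R.image κ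
  · rw [Finset.insert_eq_of_mem hk]
    have := Finset.card_le_card hsub
    omega
  · rw [Finset.card_insert_of_notMem hk]
    have hsub2 : eb E p q v R ⊆ cr E p q κ (insert v R) := by
      intro e he
      rw [mem_ebA2] at he
      rw [mem_crA2]
      obtain ⟨he0, ⟨h3, h4⟩ | ⟨h3, h4⟩⟩ := he
      · refine ⟨he0, ⟨by rw [h3]; exact Finset.mem_insert_self v R, Finset.mem_insert_of_mem h4⟩, ?_⟩
        intro h5
        apply hk
        rw [← h3, h5]
        exact Finset.mem_image_of_mem κ h4
      · refine ⟨he0, ⟨Finset.mem_insert_of_mem h4, by rw [h3]; exact Finset.mem_insert_self v R⟩, ?_⟩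
        intro h5
        apply hk
        rw [← h3, ← h5]
        exact Finset.mem_image_of_mem κ h4
    have hdis : Disjoint (cr E p q κ R) (eb E p q v R) := by
      rw [Finset.disjoint_left]
      intro e he he'
      rw [mem_crA2] at he
      rw [mem_ebA2] at he'
      obtain ⟨-, ⟨h3, -⟩ | ⟨h3, -⟩⟩ := he'
      · exact hv (h3 ▸ he.2.1.1)
      · exact hv (h3 ▸ he.2.1.2)
    have h5 := Finset.card_le_card (Finset.union_subset hsub hsub2)
    rw [Finset.card_union_of_disjoint hdis] at h5
    omega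

/-- A2: a 2-tree-connected set containing an overfull set is overfull -/
theorem ft_sup (h : MG S E p q) {R R' : Finset α} (hR' : TC E p q R') (hs : R ⊆ R') (hR : Ft E p q R) : Ft E p q R' := by
  refine ⟨hR'.1, ?_⟩
  obtain ⟨hne, hft⟩ := hR
  obtain ⟨ι, hι⟩ := Set.countable_iff_exists_injOn.1 (R'.countable_toSet)
  have h0 := hR'.2 (fun x => if x ∈ R then 0 else ι x + 1)
  have himg : (R'.image (fun x => if x ∈ R then 0 else ι x + 1)) = insert 0 ((R' \ R).image (fun x => ι x + 1)) := by
    ext c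
    rw [Finset.mem_image, Finset.mem_insert, Finset.mem_image]
    constructor
    · rintro ⟨x, hx, rfl⟩
      by_cases hxR : x ∈ R
      · left
        simp only [if_pos hxR]
      · right
        exact ⟨x, Finset.mem_sdiff.2 ⟨hx, hxR⟩, by simp only [if_neg hxR]⟩
    · rintro (rfl | ⟨x, hx, rfl⟩)
      · obtain ⟨x, hx⟩ := hne
        exact ⟨x, hs hx, by simp only [if_pos hx]⟩
      · rw [Finset.mem_sdiff] at hx
        exact ⟨x, hx.1, by simp only [if_neg hx.2]⟩
  have hnot : (0 : ℕ) ∉ (R' \ R).image (fun x => ι x + 1) := by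
    rw [Finset.mem_image]
    rintro ⟨x, -, hx⟩
    exact absurd hx (Nat.succ_ne_zero _)
  have hinj : ((R' \ R).image (fun x => ι x + 1)).card = (R' \ R).card := by
    apply Finset.card_image_of_injOn
    intro x hx y hy hxy
    have hx' := (Finset.mem_sdiff.1 (Finset.mem_coe.1 hx)).1
    have hy' := (Finset.mem_sdiff.1 (Finset.mem_coe.1 hy)).1
    exact hι (Finset.mem_coe.2 hx') (Finset.mem_coe.2 hy') (Nat.succ_injective hxy)
  rw [himg, Finset.card_insert_of_notMem hnot, hinj] at h0
  have hcard := Finset.card_sdiff_add_card_eq_card hs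
  have hd : Disjoint (cr E p q (fun x => if x ∈ R then 0 else ι x + 1) R') (ei E p q R) := by
    rw [Finset.disjoint_left]
    intro e he he'
    rw [mem_crA2] at he
    rw [mem_eiA2] at he'
    apply he.2.2
    simp only [if_pos he'.2.1, if_pos he'.2.2]
  have hsub : cr E p q (fun x => if x ∈ R then 0 else ι x + 1) R' ∪ ei E p q R ⊆ ei E p q R' := by
    apply Finset.union_subset
    · intro e he
      rw [mem_crA2] at he
      rw [mem_eiA2]
      exact ⟨he.1, he.2.1⟩
    · intro e he
      rw [mem_eiA2] at he ⊢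
      exact ⟨he.1, hs he.2.1, hs he.2.2⟩
  have h5 := Finset.card_le_card hsub
  rw [Finset.card_union_of_disjoint hd] at h5
  omega

/-- A2: 2-tree-connected sets are connected -/
theorem tc_cn {R : Finset α} (hR : TC E p q R) : Cn E p q R := by
  intro K hK hKne hKR
  obtain ⟨x, hx⟩ := hKne
  have hex : ∃ y ∈ R, y ∉ K := by
    by_contra hcon
    push Not at hcon
    exact hKR (Finset.Subset.antisymm hK hcon)
  obtain ⟨y, hyR, hyK⟩ := hex
  have h0 := hR.2 (fun x => if x ∈ K then 1 else 0)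
  have hsub : ({0, 1} : Finset ℕ) ⊆ R.image (fun x => if x ∈ K then 1 else 0) := by
    intro c hc
    rw [Finset.mem_insert, Finset.mem_singleton] at hc
    rw [Finset.mem_image]
    rcases hc with rfl | rfl
    · exact ⟨y, hyR, by simp only [if_neg hyK]⟩
    · exact ⟨x, hK hx, by simp only [if_pos hx]⟩
  have h1 := Finset.card_le_card hsub
  have h2 : ({0, 1} : Finset ℕ).card = 2 := rfl
  rw [h2] at h1
  have h3 : 0 < (cr E p q (fun x => if x ∈ K then 1 else 0) R).card := by omega
  obtain ⟨e, he⟩ := Finset.card_pos.1 h3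
  rw [mem_crA2] at he
  obtain ⟨heE, ⟨hp, hq⟩, hne⟩ := he
  refine ⟨e, heE, ?_⟩
  by_cases hpK : p e ∈ K
  · by_cases hqK : q e ∈ K
    · exfalso
      apply hne
      simp only [if_pos hpK, if_pos hqK]
    · exact Or.inl ⟨hpK, Finset.mem_sdiff.2 ⟨hq, hqK⟩⟩
  · by_cases hqK : q e ∈ K
    · exact Or.inr ⟨Finset.mem_sdiff.2 ⟨hp, hpK⟩, hqK⟩
    · exfalso
      apply hne
      simp only [if_neg hpK, if_neg hqK]

end Pool.Agent.LibTF47
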