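import Mathlib
import Pool.Agent.LibTF47.Gr

/-! Row A3. Board TF47. Optimal colourings exist. Let f κ := |cr κ U| - 2 |κ(U)|.
(min_tc) X := cl κ U c. Suppose κ1 violates TC X: 2 |κ1(X)| > |cr κ1 X| + 2. New colouring κ' x := if κ x = c then 2 κ1 x + 1 else 2 κ x: |κ'(U)| = |κ(U)| - 1 + |κ1(X)| (for x ∈ U: κ x = c iff x ∈ X), |cr κ' U| ≤ |cr κ U| + |cr κ1 X|
(an edge of cr κ' U has ends of different κ colours, or both ends in X). So f κ' < f κ: contradiction to hm.
(merge) R ⊆ U nonempty, c0 a colour of R: κ' x := if κ x ∈ κ(R) then c0 else κ x. κ'(U) = (κ(U) \ κ(R)) ∪ {c0}: |κ'(U)| + |κ(R)| = |κ(U)| + 1. cr κ' U ⊆ cr κ U and it is disjoint from cr κ R ⊆ cr κ U: |cr κ' U| + |cr κ R| ≤ |cr κ U|; TC R: 2 |κ(R)| ≤ |cr κ R| + 2.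
(opt_exists) Choose κ minimizing the natural number (|cr κ U| + 2 |U| - 2 |κ(U)|) * (|U| + 1) + |κ(U)| (|κ(U)| ≤ |U|, so this is lexicographic; exists_minimal for functions to ℕ: Function.argmin or Nat.find on the set of values). le: the first component is minimal. tc: min_tc.
sub: R ⊆ U, TC R: merge gives κ' with f κ' ≤ f κ and |κ'(U)| = |κ(U)| + 1 - |κ(R)|: if |κ(R)| ≥ 2 the value would be smaller. So |κ(R)| = 1 (R nonempty): R is contained in one class. -/

set_option autoImplicit false

namespace Pool.Agent.LibTF47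

open Finset
open scoped Classical

variable {α β : Type} {S : Finset α} {E : Finset β} {p q : β → α}

/-- A3: the classes of a minimal colouring are 2-tree-connected -/
theorem min_tc {U : Finset α} {κ : α → ℕ}
    (hm : ∀ κ' : α → ℕ, (cr E p q κ U).card + 2 * (U.image κ').card ≤ (cr E p q κ' U).card + 2 * (U.image κ).card)
    {c : ℕ} (hc : c ∈ U.image κ) : TC E p q (cl κ U c) := by
  obtain ⟨x0, hx0, hx0c⟩ := Finset.mem_image.1 hc
  refine ⟨⟨x0, Finset.mem_filter.2 ⟨hx0, hx0c⟩⟩, fun κ1 => ?_⟩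
  set X := cl κ U c with hX
  have hmX : ∀ x, x ∈ X ↔ x ∈ U ∧ κ x = c := fun x => Finset.mem_filter
  set κ' : α → ℕ := fun x => if κ x = c then 2 * κ1 x + 1 else 2 * κ x with hκ'
  have h1 := hm κ'
  -- number of colours
  have hdis : Disjoint ((X.image κ1).image fun n => 2 * n + 1) (((U.image κ).erase c).image fun n => 2 * n) := by
    rw [Finset.disjoint_left]
    intro n hn hn'
    obtain ⟨a, -, ha⟩ := Finset.mem_image.1 hn
    obtain ⟨b, -, hb⟩ := Finset.mem_image.1 hn'
    omega
  have himg : U.image κ' = ((X.image κ1).image fun n => 2 * n + 1) ∪ (((U.image κ).erase c).image fun n => 2 * n) := by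
    ext n
    simp only [Finset.mem_union, Finset.mem_image, Finset.mem_erase]
    constructor
    · rintro ⟨x, hx, rfl⟩
      by_cases hc' : κ x = c
      · left
        exact ⟨κ1 x, ⟨x, (hmX x).2 ⟨hx, hc'⟩, rfl⟩, by simp [hκ', hc']⟩
      · right
        exact ⟨κ x, ⟨hc', x, hx, rfl⟩, by simp [hκ', hc']⟩
    · rintro (⟨m, ⟨x, hx, rfl⟩, rfl⟩ | ⟨m, ⟨hm1, x, hx, rfl⟩, rfl⟩)
      · obtain ⟨hxU, hxc⟩ := (hmX x).1 hx
        exact ⟨x, hxU, by simp [hκ', hxc]⟩
      · exact ⟨x, hx, by simp [hκ', hm1]⟩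
  have hinj1 : Function.Injective fun n : ℕ => 2 * n + 1 := fun a b h => by
    have h' : 2 * a + 1 = 2 * b + 1 := h
    omega
  have hinj2 : Function.Injective fun n : ℕ => 2 * n := fun a b h => by
    have h' : 2 * a = 2 * b := h
    omega
  have hcard : (U.image κ').card + 1 = (X.image κ1).card + (U.image κ).card := by
    rw [himg, Finset.card_union_of_disjoint hdis, Finset.card_image_of_injective (X.image κ1) hinj1,
      Finset.card_image_of_injective ((U.image κ).erase c) hinj2, Finset.card_erase_of_mem hc]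
    have : 1 ≤ (U.image κ).card := Finset.card_pos.2 ⟨c, hc⟩
    omega
  -- number of crossing edges
  have hsub : cr E p q κ' U ⊆ cr E p q κ U ∪ cr E p q κ1 X := by
    intro e he
    obtain ⟨heE, ⟨hpU, hqU⟩, hne⟩ := Finset.mem_filter.1 he
    by_cases hk : κ (p e) = κ (q e)
    · by_cases hc' : κ (p e) = c
      · refine Finset.mem_union_right _ (Finset.mem_filter.2 ⟨heE, ⟨(hmX _).2 ⟨hpU, hc'⟩, (hmX _).2 ⟨hqU, hk ▸ hc'⟩⟩, ?_⟩)
        intro h
        apply hne
        have hc'' : κ (q e) = c := hk ▸ hc'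
        simp [hκ', hc', hc'', h]
      · exfalso
        apply hne
        have hc'' : ¬ κ (q e) = c := hk ▸ hc'
        simp [hκ', hc'', hk]
    · exact Finset.mem_union_left _ (Finset.mem_filter.2 ⟨heE, ⟨hpU, hqU⟩, hk⟩)
  have h2 : (cr E p q κ' U).card ≤ (cr E p q κ U).card + (cr E p q κ1 X).card :=
    (Finset.card_le_card hsub).trans (Finset.card_union_le _ _)
  omega

/-- A3: merging the classes meeting a 2-tree-connected set -/
theorem merge {U : Finset α} (κ : α → ℕ) {R : Finset α} (hR : R ⊆ U) (ht : TC E p q R) :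
    ∃ κ' : α → ℕ, (cr E p q κ' U).card + 2 * (U.image κ).card ≤ (cr E p q κ U).card + 2 * (U.image κ').card ∧
      (U.image κ').card + (R.image κ).card = (U.image κ).card + 1 := by
  obtain ⟨⟨x0, hx0⟩, hT⟩ := ht
  have hc0 : κ x0 ∈ R.image κ := Finset.mem_image_of_mem _ hx0
  have hRU : R.image κ ⊆ U.image κ := Finset.image_subset_image hR
  set κ' : α → ℕ := fun x => if κ x ∈ R.image κ then κ x0 else κ x with hκ'
  have himg : U.image κ' = insert (κ x0) (U.image κ \ R.image κ) := by
    ext n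
    constructor
    · intro hn
      obtain ⟨x, hx, rfl⟩ := Finset.mem_image.1 hn
      by_cases h : κ x ∈ R.image κ
      · have : κ' x = κ x0 := by
          simp only [hκ']
          rw [if_pos h]
        rw [this]
        exact Finset.mem_insert_self _ _
      · have : κ' x = κ x := by
          simp only [hκ']
          rw [if_neg h]
        rw [this]
        exact Finset.mem_insert_of_mem (Finset.mem_sdiff.2 ⟨Finset.mem_image_of_mem _ hx, h⟩)
    · intro hn
      rcases Finset.mem_insert.1 hn with rfl | hn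
      · refine Finset.mem_image.2 ⟨x0, hR hx0, ?_⟩
        simp only [hκ']
        rw [if_pos hc0]
      · obtain ⟨hn1, hn2⟩ := Finset.mem_sdiff.1 hn
        obtain ⟨x, hx, rfl⟩ := Finset.mem_image.1 hn1
        refine Finset.mem_image.2 ⟨x, hx, ?_⟩
        simp only [hκ']
        rw [if_neg hn2]
  have hcard : (U.image κ').card + (R.image κ).card = (U.image κ).card + 1 := by
    rw [himg, Finset.card_insert_of_notMem (fun h => (Finset.mem_sdiff.1 h).2 hc0), Finset.card_sdiff_of_subset hRU]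
    have := Finset.card_le_card hRU
    omega
  refine ⟨κ', ?_, hcard⟩
  have hdis : Disjoint (cr E p q κ' U) (cr E p q κ R) := by
    rw [Finset.disjoint_left]
    intro e he he'
    obtain ⟨-, -, hne⟩ := Finset.mem_filter.1 he
    obtain ⟨-, ⟨hp, hq⟩, -⟩ := Finset.mem_filter.1 he'
    apply hne
    simp only [hκ']
    rw [if_pos (Finset.mem_image_of_mem _ hp), if_pos (Finset.mem_image_of_mem _ hq)]
  have hsub : cr E p q κ' U ∪ cr E p q κ R ⊆ cr E p q κ U := by
    intro e he
    rcases Finset.mem_union.1 he with he | he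
    · obtain ⟨heE, hU, hne⟩ := Finset.mem_filter.1 he
      refine Finset.mem_filter.2 ⟨heE, hU, fun h => hne ?_⟩
      simp only [hκ']
      rw [h]
    · obtain ⟨heE, ⟨hp, hq⟩, hne⟩ := Finset.mem_filter.1 he
      exact Finset.mem_filter.2 ⟨heE, ⟨hR hp, hR hq⟩, hne⟩
  have h1 : (cr E p q κ' U).card + (cr E p q κ R).card ≤ (cr E p q κ U).card := by
    rw [← Finset.card_union_of_disjoint hdis]
    exact Finset.card_le_card hsub
  have h2 := hT κ
  omega

/-- A3: optimal colourings exist -/
theorem opt_exists (U : Finset α) : ∃ κ : α → ℕ, Opt E p q U κ := by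
  -- a minimal colouring
  obtain ⟨κ, hκ⟩ : ∃ κ : α → ℕ, ∀ κ' : α → ℕ,
      ((cr E p q κ U).card + 2 * U.card - 2 * (U.image κ).card) * (U.card + 1) + (U.image κ).card ≤
      ((cr E p q κ' U).card + 2 * U.card - 2 * (U.image κ').card) * (U.card + 1) + (U.image κ').card := by
    have hne : (Set.range fun κ : α → ℕ =>
        ((cr E p q κ U).card + 2 * U.card - 2 * (U.image κ).card) * (U.card + 1) + (U.image κ).card).Nonempty :=
      ⟨_, ⟨fun _ => 0, rfl⟩⟩
    obtain ⟨κ, hκ⟩ := Nat.sInf_mem hne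
    exact ⟨κ, fun κ' => le_of_eq_of_le hκ (Nat.sInf_le ⟨κ', rfl⟩)⟩
  have hU : ∀ κ' : α → ℕ, (U.image κ').card ≤ U.card := fun κ' => Finset.card_image_le
  -- the first component is minimal
  have hle : ∀ κ' : α → ℕ, (cr E p q κ U).card + 2 * (U.image κ').card ≤
      (cr E p q κ' U).card + 2 * (U.image κ).card := by
    intro κ'
    by_contra hcon
    push Not at hcon
    have h1 := hκ κ'
    have h2 := hU κ
    have h3 := hU κ'
    have h4 : ((cr E p q κ' U).card + 2 * U.card - 2 * (U.image κ').card) + 1 ≤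
        ((cr E p q κ U).card + 2 * U.card - 2 * (U.image κ).card) := by omega
    have h5 := Nat.mul_le_mul_right (U.card + 1) h4
    rw [Nat.add_mul] at h5
    omega
  refine ⟨κ, fun c hc => min_tc hle hc, ?_, hle⟩
  intro R hR ht
  obtain ⟨κ', h1, h2⟩ := merge κ hR ht
  have hne : (R.image κ).Nonempty := ht.1.image κ
  have hone : (R.image κ).card = 1 := by
    by_contra hcon
    have hpos : 1 ≤ (R.image κ).card := Finset.card_pos.2 hne
    have h3 := hκ κ'
    have h4 := hU κ
    have h5 := hU κ'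
    have h6 : ((cr E p q κ' U).card + 2 * U.card - 2 * (U.image κ').card) ≤
        ((cr E p q κ U).card + 2 * U.card - 2 * (U.image κ).card) := by omega
    have h7 := Nat.mul_le_mul_right (U.card + 1) h6
    omega
  obtain ⟨c, hc⟩ := Finset.card_eq_one.1 hone
  have hcR : ∀ x ∈ R, κ x = c := fun x hx => by
    have := Finset.mem_image_of_mem κ hx
    rw [hc] at this
    exact Finset.mem_singleton.1 this
  obtain ⟨x0, hx0⟩ := ht.1
  refine ⟨c, Finset.mem_image.2 ⟨x0, hR hx0, hcR x0 hx0⟩, fun x hx => Finset.mem_filter.2 ⟨hR hx, hcR x hx⟩⟩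

end Pool.Agent.LibTF47
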