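import Mathlib
import Pool.Agent.LibTF47.Gr
import Pool.Agent.LibTF47.A1
import Pool.Agent.LibTF47.A2

/-! Row A4. Board TF47. Filling in a component of the complement (tc_fill).
Y is 2-tree-connected, all edges with an end in K stay in Y ∪ K. Let κ be a colouring, W := Y ∪ K, C0 := κ(Y), C1 := κ(W) \ C0. The classes cl κ W c for c ∈ C1 are nonempty subsets of K, different from S (Y is nonempty and disjoint),
so |eo (cl κ W c)| ≥ 4 (C4). Z := the union of these classes = K.filter (κ x ∉ C0) (cl κ W c = cl κ Z c for c ∈ C1, κ(Z) = C1). part_eo for κ, Z: ∑_{c ∈ C1} |eo (cl κ Z c)| = 2 |cr κ Z| + |eo Z|, so 4 |C1| ≤ 2 |cr κ Z| + |eo Z|.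
All edges of eo Z are in cr κ W (the other end is in W \ Z and has a colour in C0), so cr κ Y, cr κ Z, eo Z are three pairwise disjoint subsets of cr κ W (edges of cr κ Y have both ends in Y, Z ∩ Y = ∅).
|cr κ W| ≥ |cr κ Y| + |cr κ Z| + |eo Z| ≥ (2 |C0| - 2) + 2 |C1| = 2 |κ(W)| - 2. -/

set_option autoImplicit false

namespace Pool.Agent.LibTF47

open Finset
open scoped Classical

variable {α β : Type} {S : Finset α} {E : Finset β} {p q : β → α}

private lemma a4_eoZ {Y K : Finset α} (hd : Disjoint Y K) {κ : α → ℕ}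
    (hK : ∀ e ∈ E, (p e ∈ K → q e ∈ Y ∪ K) ∧ (q e ∈ K → p e ∈ Y ∪ K)) :
    (cr E p q κ Y).card + (cr E p q κ (K.filter fun x => κ x ∉ Y.image κ)).card +
      (eo E p q (K.filter fun x => κ x ∉ Y.image κ)).card ≤ (cr E p q κ (Y ∪ K)).card := by
  have hY : ∀ x ∈ Y, x ∉ K := fun x hx hx' => Finset.disjoint_left.1 hd hx hx'
  have hin : ∀ x, x ∈ Y ∪ K → x ∉ (K.filter fun x => κ x ∉ Y.image κ) → κ x ∈ Y.image κ := by
    intro x hx hx'
    rcases Finset.mem_union.1 hx with h1 | h1
    · exact Finset.mem_image_of_mem κ h1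
    · by_contra h2
      exact hx' (Finset.mem_filter.2 ⟨h1, h2⟩)
  have d1 : Disjoint (cr E p q κ Y) (cr E p q κ (K.filter fun x => κ x ∉ Y.image κ)) := by
    rw [Finset.disjoint_left]
    intro e h1 h2
    unfold cr at h1 h2
    rw [Finset.mem_filter] at h1 h2
    exact hY _ h1.2.1.1 (Finset.mem_filter.1 h2.2.1.1).1
  have d2 : Disjoint (cr E p q κ Y ∪ cr E p q κ (K.filter fun x => κ x ∉ Y.image κ))
      (eo E p q (K.filter fun x => κ x ∉ Y.image κ)) := by
    rw [Finset.disjoint_left]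
    intro e h1 h2
    unfold eo at h2
    rw [Finset.mem_filter] at h2
    rcases Finset.mem_union.1 h1 with h3 | h3
    · unfold cr at h3
      rw [Finset.mem_filter] at h3
      rcases h2.2 with h4 | h4
      · exact hY _ h3.2.1.1 (Finset.mem_filter.1 h4.1).1
      · exact hY _ h3.2.1.2 (Finset.mem_filter.1 h4.2).1
    · unfold cr at h3
      rw [Finset.mem_filter] at h3
      rcases h2.2 with h4 | h4
      · exact h4.2 h3.2.1.2
      · exact h4.1 h3.2.1.1
  rw [← Finset.card_union_of_disjoint d1, ← Finset.card_union_of_disjoint d2]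
  refine Finset.card_le_card ?_
  intro e he
  rw [Finset.mem_union, Finset.mem_union] at he
  unfold cr
  rw [Finset.mem_filter]
  rcases he with (h1 | h1) | h1
  · unfold cr at h1
    rw [Finset.mem_filter] at h1
    exact ⟨h1.1, ⟨Finset.mem_union_left _ h1.2.1.1, Finset.mem_union_left _ h1.2.1.2⟩, h1.2.2⟩
  · unfold cr at h1
    rw [Finset.mem_filter] at h1
    exact ⟨h1.1, ⟨Finset.mem_union_right _ (Finset.mem_filter.1 h1.2.1.1).1,
      Finset.mem_union_right _ (Finset.mem_filter.1 h1.2.1.2).1⟩, h1.2.2⟩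
  · unfold eo at h1
    rw [Finset.mem_filter] at h1
    rcases h1.2 with ⟨h2, h3⟩ | ⟨h2, h3⟩
    · have h4 := Finset.mem_filter.1 h2
      have h5 := (hK e h1.1).1 h4.1
      refine ⟨h1.1, ⟨Finset.mem_union_right _ h4.1, h5⟩, fun h6 => h4.2 ?_⟩
      rw [h6]
      exact hin _ h5 h3
    · have h4 := Finset.mem_filter.1 h3
      have h5 := (hK e h1.1).2 h4.1
      refine ⟨h1.1, ⟨h5, Finset.mem_union_right _ h4.1⟩, fun h6 => h4.2 ?_⟩
      rw [← h6]
      exact hin _ h5 h2

/-- A4: filling in a component of the complement -/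
theorem tc_fill (h : MG S E p q) (h4 : C4 S E p q) {Y K : Finset α} (hY : TC E p q Y) (hYS : Y ⊆ S) (hKS : K ⊆ S)
    (hd : Disjoint Y K) (hK : ∀ e ∈ E, (p e ∈ K → q e ∈ Y ∪ K) ∧ (q e ∈ K → p e ∈ Y ∪ K)) :
    TC E p q (Y ∪ K) := by
  refine ⟨hY.1.mono Finset.subset_union_left, fun κ => ?_⟩
  obtain ⟨y, hy⟩ := hY.1
  have hkey := a4_eoZ (κ := κ) hd hK
  have hYκ := hY.2 κ
  have hpart := part_eo h κ (K.filter fun x => κ x ∉ Y.image κ)
  have himg : (Y ∪ K).image κ ⊆ Y.image κ ∪ (K.filter fun x => κ x ∉ Y.image κ).image κ := by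
    intro c hc
    obtain ⟨x, hx, rfl⟩ := Finset.mem_image.1 hc
    rw [Finset.mem_union]
    by_cases h1 : κ x ∈ Y.image κ
    · exact Or.inl h1
    · right
      rcases Finset.mem_union.1 hx with h2 | h2
      · exact absurd (Finset.mem_image_of_mem κ h2) h1
      · exact Finset.mem_image_of_mem κ (Finset.mem_filter.2 ⟨h2, h1⟩)
  have hcard : ((Y ∪ K).image κ).card ≤ (Y.image κ).card +
      ((K.filter fun x => κ x ∉ Y.image κ).image κ).card :=
    (Finset.card_le_card himg).trans (Finset.card_union_le _ _)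
  have hfour : 4 * ((K.filter fun x => κ x ∉ Y.image κ).image κ).card ≤
      ∑ c ∈ (K.filter fun x => κ x ∉ Y.image κ).image κ,
        (eo E p q (cl κ (K.filter fun x => κ x ∉ Y.image κ) c)).card := by
    have h1 := Finset.card_nsmul_le_sum ((K.filter fun x => κ x ∉ Y.image κ).image κ)
      (fun c => (eo E p q (cl κ (K.filter fun x => κ x ∉ Y.image κ) c)).card) 4 ?_
    · rw [smul_eq_mul] at h1
      omega
    · intro c hc
      obtain ⟨x, hx, hxc⟩ := Finset.mem_image.1 hc
      refine h4 _ ?_ ⟨x, ?_⟩ ?_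
      · intro z hz
        unfold cl at hz
        exact hKS (Finset.mem_filter.1 (Finset.mem_filter.1 hz).1).1
      · unfold cl
        exact Finset.mem_filter.2 ⟨hx, hxc⟩
      · intro h2
        have h3 : y ∈ cl κ (K.filter fun x => κ x ∉ Y.image κ) c := by
          rw [h2]
          exact hYS hy
        unfold cl at h3
        exact Finset.disjoint_left.1 hd hy (Finset.mem_filter.1 (Finset.mem_filter.1 h3).1).1
  omega

end Pool.Agent.LibTF47
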