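import Mathlib
import Pool.Agent.LibTF47.Gr
import Pool.Agent.LibTF47.A1
import Pool.Agent.LibTF47.A2
import Pool.Agent.LibTF47.A4
import Pool.Agent.LibTF47.A3

/-! Row A5. Board TF47. ft_class and comp_class.
(ft_class) opt_exists for U := R: κ. ho.le with the constant colouring (cr = ∅, one colour, R nonempty): |cr κ R| + 2 ≤ 2 |κ(R)|. If no class is overfull then |ei (class)| + 2 ≤ 2 |class| for all classes (they are nonempty), so part_ei, part_card:
|ei R| = ∑ |ei class| + |cr| ≤ 2 |R| - 2 |κ(R)| + 2 |κ(R)| - 2 = 2 |R| - 2: contradiction to Ft R. So some class is overfull, and it is TC (ho.tc).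
(comp_class) R := cl κ (S \ Φ) c. Suppose K ⊆ S \ R, K ≠ ∅, K ≠ S \ R, and no edge between K and K' := (S \ R) \ K. Φ ⊆ S \ R, and Φ is connected (tc_cn): Φ ⊆ K or Φ ⊆ K' (otherwise K ∩ Φ is a proper part of Φ and an edge joins it to Φ \ K ⊆ K').
Let L be the other one of K, K': L ≠ ∅, L ∩ Φ = ∅, all edges with an end in L go to R ∪ L (ends are in S). tc_fill (A4): R ∪ L is TC, R ∪ L ⊆ S \ Φ. ho.sub: R ∪ L is contained in one class, which is R (R is nonempty, classes of different colours are disjoint): L ⊆ R, contradiction. -/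

set_option autoImplicit false

namespace Pool.Agent.LibTF47

open Finset
open scoped Classical

variable {α β : Type} {S : Finset α} {E : Finset β} {p q : β → α}

/-- A5: an overfull set contains a 2-tree-connected overfull set -/
theorem ft_class (h : MG S E p q) {R : Finset α} (hR : Ft E p q R) : ∃ R', R' ⊆ R ∧ TC E p q R' ∧ Ft E p q R' := by
  obtain ⟨κ, ho⟩ := opt_exists (E := E) (p := p) (q := q) R
  by_contra hcon
  push Not at hcon
  have h1 := ho.le (fun _ => 0)
  have h2 : (cr E p q (fun _ => 0) R).card = 0 := by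
    rw [Finset.card_eq_zero]
    unfold cr
    rw [Finset.filter_eq_empty_iff]
    intro e _ he
    exact he.2 rfl
  have h3 : (R.image (fun _ : α => (0 : ℕ))).card = 1 := by
    rw [Finset.image_const hR.1, Finset.card_singleton]
  rw [h2, h3] at h1
  have h4 : ∀ c ∈ R.image κ, (ei E p q (cl κ R c)).card + 2 ≤ 2 * (cl κ R c).card := by
    intro c hc
    have hne : (cl κ R c).Nonempty := by
      obtain ⟨x, hx, hxc⟩ := Finset.mem_image.1 hc
      exact ⟨x, Finset.mem_filter.2 ⟨hx, hxc⟩⟩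
    have hnf := hcon (cl κ R c) (Finset.filter_subset _ _) (ho.tc c hc)
    by_contra hlt
    exact hnf ⟨hne, by omega⟩
  have h5 := Finset.sum_le_sum h4
  rw [Finset.sum_add_distrib, Finset.sum_const, ← Finset.mul_sum, ← part_card κ R, smul_eq_mul] at h5
  have h6 := part_ei (E := E) (p := p) (q := q) κ R
  have h7 := hR.2
  omega

private theorem comp_aux (h : MG S E p q) (h4 : C4 S E p q) {Φ : Finset α} {κ : α → ℕ}
    (ho : Opt E p q (S \ Φ) κ) {c : ℕ} (hc : c ∈ (S \ Φ).image κ) {L : Finset α}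
    (hL : L ⊆ S \ cl κ (S \ Φ) c) (hne : L.Nonempty) (hd : Disjoint L Φ)
    (hno : ∀ e ∈ E, ¬ ((p e ∈ L ∧ q e ∈ (S \ cl κ (S \ Φ) c) \ L) ∨ (p e ∈ (S \ cl κ (S \ Φ) c) \ L ∧ q e ∈ L))) :
    False := by
  set R := cl κ (S \ Φ) c with hRdef
  have hRs : R ⊆ S \ Φ := Finset.filter_subset _ _
  have hRS : R ⊆ S := hRs.trans Finset.sdiff_subset
  have hLS : L ⊆ S := hL.trans Finset.sdiff_subset
  have hRL : Disjoint R L := by
    rw [Finset.disjoint_left]
    intro x hx hx2
    exact (Finset.mem_sdiff.1 (hL hx2)).2 hx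
  have hfill : TC E p q (R ∪ L) := by
    apply tc_fill h h4 (ho.tc c hc) hRS hLS hRL
    intro e he
    constructor
    · intro hp
      by_contra hq
      rw [Finset.mem_union, not_or] at hq
      exact hno e he (Or.inl ⟨hp, Finset.mem_sdiff.2 ⟨Finset.mem_sdiff.2 ⟨h.hq e he, hq.1⟩, hq.2⟩⟩)
    · intro hq
      by_contra hp
      rw [Finset.mem_union, not_or] at hp
      exact hno e he (Or.inr ⟨Finset.mem_sdiff.2 ⟨Finset.mem_sdiff.2 ⟨h.hp e he, hp.1⟩, hp.2⟩, hq⟩)
  have hsub : R ∪ L ⊆ S \ Φ := by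
    intro x hx
    rcases Finset.mem_union.1 hx with hx | hx
    · exact hRs hx
    · exact Finset.mem_sdiff.2 ⟨hLS hx, fun hx2 => Finset.disjoint_left.1 hd hx hx2⟩
  obtain ⟨c', _, hc'⟩ := ho.sub _ hsub hfill
  have hRne : R.Nonempty := by
    obtain ⟨x, hx, hxc⟩ := Finset.mem_image.1 hc
    exact ⟨x, Finset.mem_filter.2 ⟨hx, hxc⟩⟩
  obtain ⟨x, hx⟩ := hRne
  have e1 : κ x = c := (Finset.mem_filter.1 hx).2
  have e2 : κ x = c' := (Finset.mem_filter.1 (hc' (Finset.mem_union_left _ hx))).2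
  have e3 : c' = c := e2.symm.trans e1
  subst e3
  obtain ⟨y, hy⟩ := hne
  exact (Finset.mem_sdiff.1 (hL hy)).2 (hc' (Finset.mem_union_right _ hy))

/-- A5: the complement of a class of an optimal colouring of `S \ Φ` is connected -/
theorem comp_class (h : MG S E p q) (h4 : C4 S E p q) {Φ : Finset α} (hΦ : Φ ⊆ S) (ht : TC E p q Φ) {κ : α → ℕ}
    (ho : Opt E p q (S \ Φ) κ) {c : ℕ} (hc : c ∈ (S \ Φ).image κ) : Cn E p q (S \ cl κ (S \ Φ) c) := by
  intro K hK hKne hKn
  by_contra hcon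
  push Not at hcon
  have hno : ∀ e ∈ E, ¬ ((p e ∈ K ∧ q e ∈ (S \ cl κ (S \ Φ) c) \ K) ∨
      (p e ∈ (S \ cl κ (S \ Φ) c) \ K ∧ q e ∈ K)) := by
    intro e he hor
    rcases hor with h1 | h1
    · exact (hcon e he).1 h1.1 h1.2
    · exact (hcon e he).2 h1.1 h1.2
  have hΦR : Φ ⊆ S \ cl κ (S \ Φ) c := by
    intro x hx
    refine Finset.mem_sdiff.2 ⟨hΦ hx, fun hx2 => ?_⟩
    exact (Finset.mem_sdiff.1 (Finset.filter_subset _ _ hx2)).2 hx
  by_cases h1 : Disjoint K Φ
  · exact comp_aux h h4 ho hc hK hKne h1 hno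
  · by_cases h2 : Φ ⊆ K
    · apply comp_aux h h4 ho hc (L := (S \ cl κ (S \ Φ) c) \ K) Finset.sdiff_subset
      · rw [Finset.sdiff_nonempty]
        intro h3
        exact hKn (Finset.Subset.antisymm hK h3)
      · rw [Finset.disjoint_left]
        intro x hx hx2
        exact (Finset.mem_sdiff.1 hx).2 (h2 hx2)
      · intro e he hor
        rw [Finset.sdiff_sdiff_eq_self hK] at hor
        rcases hor with h3 | h3
        · exact hno e he (Or.inr h3)
        · exact hno e he (Or.inl h3)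
    · have h3 : (Φ ∩ K).Nonempty := by
        rw [Finset.not_disjoint_iff] at h1
        obtain ⟨x, hx, hx2⟩ := h1
        exact ⟨x, Finset.mem_inter.2 ⟨hx2, hx⟩⟩
      have h4' : Φ ∩ K ≠ Φ := by
        intro h5
        exact h2 (Finset.inter_eq_left.1 h5)
      obtain ⟨e, he, h5⟩ := tc_cn ht (Φ ∩ K) Finset.inter_subset_left h3 h4'
      apply hno e he
      rcases h5 with h5 | h5
      · left
        refine ⟨(Finset.mem_inter.1 h5.1).2, Finset.mem_sdiff.2 ⟨hΦR (Finset.mem_sdiff.1 h5.2).1, fun h6 => ?_⟩⟩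
        exact (Finset.mem_sdiff.1 h5.2).2 (Finset.mem_inter.2 ⟨(Finset.mem_sdiff.1 h5.2).1, h6⟩)
      · right
        refine ⟨Finset.mem_sdiff.2 ⟨hΦR (Finset.mem_sdiff.1 h5.1).1, fun h6 => ?_⟩, (Finset.mem_inter.1 h5.2).2⟩
        exact (Finset.mem_sdiff.1 h5.1).2 (Finset.mem_inter.2 ⟨(Finset.mem_sdiff.1 h5.1).1, h6⟩)

end Pool.Agent.LibTF47
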