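import Mathlib
import Pool.Agent.LibTF47.Gr
import Pool.Agent.LibTF47.A1
import Pool.Agent.LibTF47.A2
import Pool.Agent.LibTF47.A3

/-! Row A5b. Board TF47. wk_sum, split_sum, good_of. -/

set_option autoImplicit false

namespace Pool.Agent.LibTF47

open Finset
open scoped Classical

variable {α β : Type} {S : Finset α} {E : Finset β} {p q : β → α}

private theorem A5b_sum (h : MG S E p q) {K : Finset α} (hK : K ⊆ S) (κ : α → ℕ) :
    ∑ c ∈ (S \ K).image κ, xd E p q (cl κ (S \ K) c) =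
      2 * ((cr E p q κ (S \ K)).card : ℤ) + ((eo E p q K).card : ℤ) - 4 * (((S \ K).image κ).card : ℤ) := by
  have h1 := part_eo h κ (S \ K)
  rw [eo_compl h hK] at h1
  unfold xd
  rw [Finset.sum_sub_distrib, Finset.sum_const, ← Nat.cast_sum, h1, nsmul_eq_mul]
  push_cast
  ring

/-- A5b: the classes of an optimal colouring of the complement of a weak triangle -/
theorem wk_sum (h : MG S E p q) {w : Finset α} (hw : w ⊆ S) (h3 : w.card = 3) (h3' : (ei E p q w).card = 3)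
    (hb : Wk S E p q w) {κ : α → ℕ} (ho : Opt E p q (S \ w) κ) :
    ∑ c ∈ (S \ w).image κ, xd E p q (cl κ (S \ w) c) ≤ xx E p q w - 4 := by
  obtain ⟨κ0, hκ0⟩ := hb
  have h1 := ho.le κ0
  have h2 : (cr E p q κ (S \ w)).card + 5 ≤ 2 * ((S \ w).image κ).card := by omega
  rw [A5b_sum h hw, xx_eq h, h3, h3']
  have h4 : ((cr E p q κ (S \ w)).card : ℤ) + 5 ≤ 2 * (((S \ w).image κ).card : ℤ) := by exact_mod_cast h2
  push_cast
  linarith

/-- A5b: the classes of an optimal colouring of the complement of `K` -/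
theorem split_sum (h : MG S E p q) {K : Finset α} (hK : K ⊆ S) (hne : (S \ K).Nonempty) (ht : ¬ TC E p q (S \ K))
    {κ : α → ℕ} (ho : Opt E p q (S \ K) κ) :
    ∑ c ∈ (S \ K).image κ, xd E p q (cl κ (S \ K) c) ≤ xd E p q K - 2 := by
  have h0 : ∃ κ0 : α → ℕ, (cr E p q κ0 (S \ K)).card + 3 ≤ 2 * ((S \ K).image κ0).card := by
    by_contra hcon
    push Not at hcon
    exact ht ⟨hne, fun κ0 => by have := hcon κ0; omega⟩
  obtain ⟨κ0, hκ0⟩ := h0
  have h1 := ho.le κ0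
  have h2 : (cr E p q κ (S \ K)).card + 3 ≤ 2 * ((S \ K).image κ).card := by omega
  rw [A5b_sum h hK]
  unfold xd
  have h4 : ((cr E p q κ (S \ K)).card : ℤ) + 3 ≤ 2 * (((S \ K).image κ).card : ℤ) := by exact_mod_cast h2
  linarith

/-- A5b: good triangles -/
theorem good_of (h : MG S E p q) (h4 : C4 S E p q) (hd : ∀ f ∈ S, 4 ≤ dg E p q f) {w : Finset α} (hw : w ⊆ S)
    (h3 : w.card = 3) (h3' : (ei E p q w).card = 3) {Φ : Finset α} (hΦ : Φ ⊆ S \ w) (ht : TC E p q Φ)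
    (hn : ∀ R, R ⊆ S \ Φ → ¬ Ft E p q R) : ¬ Wk S E p q w := by
  intro hb
  obtain ⟨κ, ho⟩ := opt_exists (E := E) (p := p) (q := q) (S \ w)
  obtain ⟨c, hc, hsub⟩ := ho.sub Φ hΦ ht
  have hwne : w.Nonempty := by
    rw [← card_pos, h3]
    norm_num
  have hXS : cl κ (S \ w) c ⊆ S := (filter_subset _ _).trans sdiff_subset
  have hXw : ∀ x ∈ cl κ (S \ w) c, x ∉ w := fun x hx => (mem_sdiff.1 (mem_filter.1 hx).1).2
  have hwX : w ⊆ S \ cl κ (S \ w) c := fun x hx => mem_sdiff.2 ⟨hw hx, fun hx' => hXw x hx' hx⟩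
  have h1 : xx E p q (S \ cl κ (S \ w) c) ≤ xd E p q (S \ cl κ (S \ w) c) := by
    refine xx_le_of_not_ft h (hwne.mono hwX) (hn _ ?_)
    exact sdiff_subset_sdiff (Finset.Subset.refl S) hsub
  have h2 : xd E p q (S \ cl κ (S \ w) c) = xd E p q (cl κ (S \ w) c) := by
    unfold xd
    rw [eo_compl h hXS]
  have h5 : xx E p q w ≤ xx E p q (S \ cl κ (S \ w) c) := xx_mono hd hwX sdiff_subset
  have h6 : ∀ c' ∈ (S \ w).image κ, 0 ≤ xd E p q (cl κ (S \ w) c') := by
    intro c' hc'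
    obtain ⟨x, hx, hxc⟩ := mem_image.1 hc'
    have h7 := h4 (cl κ (S \ w) c') ((filter_subset _ _).trans sdiff_subset) ⟨x, mem_filter.2 ⟨hx, hxc⟩⟩ (by
      intro hS
      obtain ⟨y, hy⟩ := hwne
      have hy' : y ∈ cl κ (S \ w) c' := by
        rw [hS]
        exact hw hy
      exact (mem_sdiff.1 (mem_filter.1 hy').1).2 hy)
    unfold xd
    have : (4 : ℤ) ≤ ((eo E p q (cl κ (S \ w) c')).card : ℤ) := by exact_mod_cast h7
    linarith
  have h8 : xd E p q (cl κ (S \ w) c) ≤ ∑ c' ∈ (S \ w).image κ, xd E p q (cl κ (S \ w) c') :=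
    Finset.single_le_sum h6 hc
  have h9 := wk_sum h hw h3 h3' hb ho
  linarith

end Pool.Agent.LibTF47
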