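import Mathlib
import Pool.Agent.LibTF47.Gr
import Pool.Agent.LibTF47.A5
import Pool.Agent.LibTF47.A5b

/-! Row A6. Board TF47. Extremal sets.
(ext_exists) h.ex: w, T w. h.wk: some κ with 5 ≤ 2 |κ(S \ w)|, so there is f ∈ S \ w. {f} is TC (tc_single). If no R ⊆ S \ {f} were overfull, good_of (Φ := {f}) contradicts h.wk. So the family of all Φ ⊆ S with TC Φ and an overfull R ⊆ S \ Φ is nonempty; take Φ of maximal card (exists_max_image on S.powerset.filter).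
(ext_noT) good_of for Φ' and w (Φ' ⊆ S \ w), with hx.mx, contradicts h.wk. (ext_class) Φ ⊆ S \ w: ho.sub: Φ ⊆ X := class of c. If X ≠ Φ: X is TC (ho.tc), w ⊆ S \ X: ext_noT. (ext_class') the same with K ⊆ S \ X overfull and hx.mx.
(fat_comp) hx.ft, ft_class: R1 TC and overfull, R1 ⊆ S \ Φ. opt_exists for S \ Φ: R1 ⊆ class X (ho.sub), X TC (ho.tc), Ft X (ft_sup), comp_class. -/

set_option autoImplicit false

namespace Pool.Agent.LibTF47

open Finset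
open scoped Classical

variable {α β : Type} {S : Finset α} {E : Finset β} {p q : β → α} {T : Finset α → Prop}

private theorem A6_cl_sub {κ : α → ℕ} {U : Finset α} {c : ℕ} : cl κ U c ⊆ U := by
  intro x hx
  exact (mem_filter.1 hx).1

private theorem A6_swap {A B : Finset α} (hA : A ⊆ S) (hB : B ⊆ S \ A) : A ⊆ S \ B := by
  intro x hx
  rw [mem_sdiff]
  exact ⟨hA hx, fun h => (mem_sdiff.1 (hB h)).2 hx⟩

/-- A6: extremal sets exist -/
theorem ext_exists (h : Sys S E p q T) : ∃ Φ, Ext S E p q Φ := by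
  obtain ⟨w, hw⟩ := h.ex
  obtain ⟨hwS, hw3, hw3'⟩ := h.tr w hw
  have hwk := h.wk w hw
  obtain ⟨κ, hκ⟩ := hwk
  have hne : (S \ w).Nonempty := by
    rw [← Finset.image_nonempty (f := κ), ← Finset.card_pos]
    omega
  obtain ⟨f, hf⟩ := hne
  have hfS : ({f} : Finset α) ⊆ S \ w := by
    rw [singleton_subset_iff]
    exact hf
  have h1 : ∃ R, R ⊆ S \ {f} ∧ Ft E p q R := by
    by_contra hno
    push Not at hno
    exact good_of h.mg h.c4 h.d4 hwS hw3 hw3' hfS (tc_single f) hno (h.wk w hw)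
  obtain ⟨F, hF⟩ : ∃ F : Finset (Finset α), F = S.powerset.filter fun Φ =>
      TC E p q Φ ∧ ∃ R, R ⊆ S \ Φ ∧ Ft E p q R := ⟨_, rfl⟩
  have hFne : F.Nonempty := by
    refine ⟨{f}, ?_⟩
    rw [hF, mem_filter, mem_powerset]
    exact ⟨hfS.trans sdiff_subset, tc_single f, h1⟩
  obtain ⟨Φ, hΦ, hmax⟩ := exists_max_image F Finset.card hFne
  rw [hF, mem_filter, mem_powerset] at hΦ
  refine ⟨Φ, hΦ.1, hΦ.2.1, hΦ.2.2, ?_⟩
  intro Φ' hs hS' ht R hR hft
  have h2 : Φ' ∈ F := by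
    rw [hF, mem_filter, mem_powerset]
    exact ⟨hS', ht, R, hR, hft⟩
  have h3 := hmax Φ' h2
  have h4 := card_lt_card hs
  omega

/-- A6: no triangle avoids a larger 2-tree-connected set -/
theorem ext_noT (h : Sys S E p q T) {Φ : Finset α} (hx : Ext S E p q Φ) {Φ' : Finset α} (h1 : Φ ⊂ Φ') (h2 : Φ' ⊆ S)
    (h3 : TC E p q Φ') {w : Finset α} (hw : T w) : ¬ w ⊆ S \ Φ' := by
  intro hwΦ
  obtain ⟨hwS, hw3, hw3'⟩ := h.tr w hw
  exact good_of h.mg h.c4 h.d4 hwS hw3 hw3' (A6_swap h2 hwΦ) h3 (hx.mx Φ' h1 h2 h3) (h.wk w hw)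

/-- A6: `Φ` is a class for the complement of a triangle -/
theorem ext_class (h : Sys S E p q T) {Φ : Finset α} (hx : Ext S E p q Φ) {w : Finset α} (hw : T w) (hwΦ : w ⊆ S \ Φ)
    {κ : α → ℕ} (ho : Opt E p q (S \ w) κ) : ∃ c ∈ (S \ w).image κ, cl κ (S \ w) c = Φ := by
  obtain ⟨hwS, -, -⟩ := h.tr w hw
  obtain ⟨c, hc, hs⟩ := ho.sub Φ (A6_swap hx.sub hwΦ) hx.tc
  refine ⟨c, hc, ?_⟩
  by_contra hne
  have h1 : Φ ⊂ cl κ (S \ w) c := lt_of_le_of_ne hs (Ne.symm hne)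
  exact ext_noT h hx h1 (A6_cl_sub.trans sdiff_subset) (ho.tc c hc) hw (A6_swap hwS A6_cl_sub)

/-- A6: `Φ` is a class for the complement of an overfull set -/
theorem ext_class' (h : Sys S E p q T) {Φ : Finset α} (hx : Ext S E p q Φ) {K : Finset α} (hK : K ⊆ S \ Φ)
    (hf : Ft E p q K) {κ : α → ℕ} (ho : Opt E p q (S \ K) κ) : ∃ c ∈ (S \ K).image κ, cl κ (S \ K) c = Φ := by
  have hKS : K ⊆ S := hK.trans sdiff_subset
  obtain ⟨c, hc, hs⟩ := ho.sub Φ (A6_swap hx.sub hK) hx.tc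
  refine ⟨c, hc, ?_⟩
  by_contra hne
  have h1 : Φ ⊂ cl κ (S \ K) c := lt_of_le_of_ne hs (Ne.symm hne)
  exact hx.mx _ h1 (A6_cl_sub.trans sdiff_subset) (ho.tc c hc) K (A6_swap hKS A6_cl_sub) hf

/-- A6: an overfull 2-tree-connected set with connected complement outside `Φ` -/
theorem fat_comp (h : Sys S E p q T) {Φ : Finset α} (hx : Ext S E p q Φ) :
    ∃ R, R ⊆ S \ Φ ∧ TC E p q R ∧ Ft E p q R ∧ Cn E p q (S \ R) := by
  obtain ⟨R, hR, hft⟩ := hx.ft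
  obtain ⟨R', hR', ht, hft'⟩ := ft_class h.mg hft
  obtain ⟨κ, ho⟩ := opt_exists (E := E) (p := p) (q := q) (S \ Φ)
  obtain ⟨c, hc, hs⟩ := ho.sub R' (hR'.trans hR) ht
  exact ⟨cl κ (S \ Φ) c, A6_cl_sub, ho.tc c hc, ft_sup h.mg (ho.tc c hc) hs hft',
    comp_class h.mg h.c4 hx.sub hx.tc ho hc⟩

end Pool.Agent.LibTF47
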