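import Mathlib
import Pool.Agent.LibTF47.Gr
import Pool.Agent.LibTF47.A6

/-! Row A7. Board TF47. The main step (bigger).
Let K := cl κ (S \ w) c (overfull, TC by ho.tc, K ≠ Φ). ext_class: Φ is a class of κ, so K ∩ Φ = ∅ (two different classes), K ⊆ S \ Φ. wk_sum and xd ≥ 0 for all classes (C4): xd Φ + xd K ≤ xx w - 4 (*).
U := S \ K. opt_exists: κ2. ext_class' (K overfull): Φ is a class of κ2. U is not TC: otherwise U is contained in a class (ho2.sub), which is Φ (Φ ⊆ U nonempty), but w ⊆ U, w ∩ Φ = ∅, w ≠ ∅. split_sum: ∑ xd (classes of κ2) ≤ xd K - 2 (**).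
Some class Y ≠ Φ of κ2 is overfull: otherwise xx Y ≤ xd Y for all of them (xx_le_of_not_ft), and w ⊆ U \ Φ: xx w ≤ xx (U \ Φ) = ∑_{classes ≠ Φ} xx ≤ ∑_{classes ≠ Φ} xd ≤ xd K - 2 - xd Φ ≤ xx w - 6 - 2 xd Φ, and xd Φ ≥ 0: contradiction.
Y ⊆ U \ Φ, TC, Ft, Y ≠ S, and S \ Y is connected: comp_class with Φ := K (U = S \ K). h.ftT: w' with T w', w' ⊆ Y; w' ⊆ S \ Φ.
opt_exists for S \ Y: κ3. ext_class': Φ is a class of κ3. K ⊆ S \ Y is TC: K ⊆ Z := a class of κ3; Z ≠ Φ (K ∩ Φ = ∅). S \ Y is not TC (as before: it would be = Φ, but K ⊆ S \ Y, K ∩ Φ = ∅, K ≠ ∅). split_sum: xd Φ + xd Z ≤ xd Y - 2. (**): xd Φ + xd Y ≤ xd K - 2. So xd Z < xd K: Z ≠ K, |K| < |Z|.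
opt_exists for S \ w': κ4. Z ⊆ S \ w' (w' ⊆ Y) is TC: Z ⊆ Z' := a class of κ4. Φ is a class of κ4 (ext_class), Z' ≠ Φ (Z ∩ Φ = ∅, Z ≠ ∅). Z' is overfull (ft_sup from K). |K| < |Z| ≤ |Z'|. -/

set_option autoImplicit false

namespace Pool.Agent.LibTF47

open Finset
open scoped Classical

variable {α β : Type} {S : Finset α} {E : Finset β} {p q : β → α} {T : Finset α → Prop}


private theorem A7_cl_sub (κ : α → ℕ) (U : Finset α) (c : ℕ) : cl κ U c ⊆ U := Finset.filter_subset _ _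

private theorem A7_cl_ne {κ : α → ℕ} {U : Finset α} {c : ℕ} (hc : c ∈ U.image κ) : (cl κ U c).Nonempty := by
  obtain ⟨x, hx, rfl⟩ := Finset.mem_image.1 hc
  exact ⟨x, Finset.mem_filter.2 ⟨hx, rfl⟩⟩

private theorem A7_cl_eq {κ : α → ℕ} {U : Finset α} {c c' : ℕ} {x : α} (h1 : x ∈ cl κ U c) (h2 : x ∈ cl κ U c') :
    c = c' :=
  (Finset.mem_filter.1 h1).2.symm.trans (Finset.mem_filter.1 h2).2

private theorem A7_xd_nonneg (h : C4 S E p q) {R : Finset α} (hR : R ⊆ S) (hn : R.Nonempty) (hne : R ≠ S) :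
    0 ≤ xd E p q R := by
  have h1 := h R hR hn hne
  unfold xd
  omega

private theorem A7_two {U : Finset α} {κ : α → ℕ} (hU : U ⊆ S) (hUS : U ≠ S) (h4 : C4 S E p q) {c c' : ℕ}
    (hc : c ∈ U.image κ) (hc' : c' ∈ U.image κ) (hne : c ≠ c') :
    xd E p q (cl κ U c) + xd E p q (cl κ U c') ≤ ∑ i ∈ U.image κ, xd E p q (cl κ U i) := by
  have hnn : ∀ i ∈ U.image κ, 0 ≤ xd E p q (cl κ U i) := by
    intro i hi
    refine A7_xd_nonneg h4 ((A7_cl_sub κ U i).trans hU) (A7_cl_ne hi) ?_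
    intro he
    apply hUS
    exact Finset.Subset.antisymm hU (he ▸ A7_cl_sub κ U i)
  have hs : ({c, c'} : Finset ℕ) ⊆ U.image κ := by
    intro i hi
    rcases Finset.mem_insert.1 hi with rfl | hi
    · exact hc
    · rw [Finset.mem_singleton.1 hi]; exact hc'
  have h1 := Finset.sum_le_sum_of_subset_of_nonneg (f := fun i => xd E p q (cl κ U i)) hs
    (fun i hi _ => hnn i hi)
  rw [Finset.sum_pair hne] at h1
  exact h1

private theorem A7_ntc {Φ U A : Finset α} {κ : α → ℕ} (ho : Opt E p q U κ) {c : ℕ} (hc : c ∈ U.image κ)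
    (he : cl κ U c = Φ) (hA : A ⊆ U) (hAn : A.Nonempty) (hd : Disjoint A Φ) : ¬ TC E p q U := by
  intro ht
  obtain ⟨c', hc', hs⟩ := ho.sub U (Finset.Subset.refl _) ht
  obtain ⟨x, hx⟩ := A7_cl_ne hc
  have h1 : c = c' := A7_cl_eq hx (hs (A7_cl_sub κ U c hx))
  obtain ⟨a, ha⟩ := hAn
  have h2 : a ∈ cl κ U c' := hs (hA ha)
  rw [← h1, he] at h2
  exact Finset.disjoint_left.1 hd ha h2

/-- A7: the step: a larger overfull class -/
theorem bigger (h : Sys S E p q T) {Φ : Finset α} (hx : Ext S E p q Φ) {w : Finset α} (hw : T w) (hwΦ : w ⊆ S \ Φ)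
    {κ : α → ℕ} (ho : Opt E p q (S \ w) κ) {c : ℕ} (hc : c ∈ (S \ w).image κ) (hne : cl κ (S \ w) c ≠ Φ)
    (hf : Ft E p q (cl κ (S \ w) c)) :
    ∃ w' : Finset α, T w' ∧ w' ⊆ S \ Φ ∧ ∃ κ' : α → ℕ, Opt E p q (S \ w') κ' ∧ ∃ c' ∈ (S \ w').image κ',
      cl κ' (S \ w') c' ≠ Φ ∧ Ft E p q (cl κ' (S \ w') c') ∧
      (cl κ (S \ w) c).card < (cl κ' (S \ w') c').card := by
  obtain ⟨hwS, hw3, hw3'⟩ := h.tr w hw
  have hwn : w.Nonempty := by
    rw [← Finset.card_pos, hw3]; omega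
  have hwΦd : Disjoint w Φ := Finset.disjoint_of_subset_left hwΦ Finset.sdiff_disjoint
  obtain ⟨c0, hc0, hΦ0⟩ := ext_class h hx hw hwΦ ho
  have hcc0 : c ≠ c0 := by
    rintro rfl
    exact hne hΦ0
  have hSw : S \ w ≠ S := by
    intro he
    obtain ⟨x, hxw⟩ := hwn
    have h1 : x ∈ S \ w := by rw [he]; exact hwS hxw
    exact (Finset.mem_sdiff.1 h1).2 hxw
  have hΦn : Φ.Nonempty := hx.tc.1
  have hKt : TC E p q (cl κ (S \ w) c) := ho.tc c hc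
  have hKn : (cl κ (S \ w) c).Nonempty := A7_cl_ne hc
  have hKsub : cl κ (S \ w) c ⊆ S \ w := A7_cl_sub _ _ _
  have hKΦ : Disjoint (cl κ (S \ w) c) Φ := by
    rw [Finset.disjoint_left]
    intro x hxK hxΦ
    rw [← hΦ0] at hxΦ
    exact hcc0 (A7_cl_eq hxK hxΦ)
  have hs1 := wk_sum h.mg hwS hw3 hw3' (h.wk w hw) ho
  have hs1' := A7_two (E := E) (p := p) (q := q) Finset.sdiff_subset hSw h.c4 hc hc0 hcc0
  rw [hΦ0] at hs1'
  clear hne
  generalize cl κ (S \ w) c = K at hf hs1' hKΦ hKsub hKn hKt ⊢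
  have hKS : K ⊆ S := hKsub.trans Finset.sdiff_subset
  have hKSΦ : K ⊆ S \ Φ := by
    intro x hxK
    exact Finset.mem_sdiff.2 ⟨hKS hxK, Finset.disjoint_left.1 hKΦ hxK⟩
  have hwK : w ⊆ S \ K := by
    intro x hxw
    refine Finset.mem_sdiff.2 ⟨hwS hxw, fun hxK => ?_⟩
    exact (Finset.mem_sdiff.1 (hKsub hxK)).2 hxw
  have hΦK : Φ ⊆ S \ K := by
    intro x hxΦ
    exact Finset.mem_sdiff.2 ⟨hx.sub hxΦ, fun hxK => Finset.disjoint_left.1 hKΦ hxK hxΦ⟩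
  have hΦS : Φ ≠ S := by
    intro he
    obtain ⟨x, hxw⟩ := hwn
    have := hwΦ hxw
    rw [he] at this
    simp at this
  have hΦ0' : 0 ≤ xd E p q Φ := A7_xd_nonneg h.c4 hx.sub hΦn hΦS
  -- the complement of `K`
  obtain ⟨κ2, ho2⟩ := opt_exists (E := E) (p := p) (q := q) (S \ K)
  obtain ⟨c2, hc2, hΦ2⟩ := ext_class' h hx hKSΦ hf ho2
  have hn2 : ¬ TC E p q (S \ K) := A7_ntc ho2 hc2 hΦ2 hwK hwn hwΦd
  have hs2 := split_sum h.mg hKS (hwn.mono hwK) hn2 ho2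
  have hSK : S \ K ≠ S := by
    intro he
    obtain ⟨x, hxK⟩ := hKn
    have h1 : x ∈ S \ K := by rw [he]; exact hKS hxK
    exact (Finset.mem_sdiff.1 h1).2 hxK
  have hY : ∃ c3 ∈ (S \ K).image κ2, c3 ≠ c2 ∧ Ft E p q (cl κ2 (S \ K) c3) := by
    by_contra hcon
    push Not at hcon
    have e1 : xx E p q (S \ K) = ∑ i ∈ (S \ K).image κ2, xx E p q (cl κ2 (S \ K) i) := part_xx κ2 (S \ K)
    have e2 : ∑ i ∈ ((S \ K).image κ2).erase c2, xx E p q (cl κ2 (S \ K) i) ≤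
        ∑ i ∈ ((S \ K).image κ2).erase c2, xd E p q (cl κ2 (S \ K) i) := by
      apply Finset.sum_le_sum
      intro i hi
      obtain ⟨hi1, hi2⟩ := Finset.mem_erase.1 hi
      exact xx_le_of_not_ft h.mg (A7_cl_ne hi2) (hcon i hi2 hi1)
    have e3 := Finset.add_sum_erase ((S \ K).image κ2) (fun i => xx E p q (cl κ2 (S \ K) i)) hc2
    have e4 := Finset.add_sum_erase ((S \ K).image κ2) (fun i => xd E p q (cl κ2 (S \ K) i)) hc2
    simp only [hΦ2] at e3 e4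
    have e5 : xx E p q ((S \ K) \ Φ) + xx E p q Φ = xx E p q (S \ K) := Finset.sum_sdiff hΦK
    have e6 : xx E p q w ≤ xx E p q ((S \ K) \ Φ) := by
      refine xx_mono h.d4 ?_ (Finset.sdiff_subset.trans Finset.sdiff_subset)
      intro x hxw
      exact Finset.mem_sdiff.2 ⟨hwK hxw, Finset.disjoint_left.1 hwΦd hxw⟩
    linarith
  obtain ⟨c3, hc3, hc32, hYf⟩ := hY
  have hs2' := A7_two (E := E) (p := p) (q := q) Finset.sdiff_subset hSK h.c4 hc3 hc2 hc32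
  rw [hΦ2] at hs2'
  have hYn : (cl κ2 (S \ K) c3).Nonempty := A7_cl_ne hc3
  have hYt : TC E p q (cl κ2 (S \ K) c3) := ho2.tc c3 hc3
  have hYsub : cl κ2 (S \ K) c3 ⊆ S \ K := A7_cl_sub _ _ _
  have hYΦ : Disjoint (cl κ2 (S \ K) c3) Φ := by
    rw [Finset.disjoint_left]
    intro x hxK hxΦ
    rw [← hΦ2] at hxΦ
    exact hc32 (A7_cl_eq hxK hxΦ)
  have hYc := comp_class h.mg h.c4 hKS hKt ho2 hc3
  generalize cl κ2 (S \ K) c3 = Y at hYf hs2' hYΦ hYsub hYn hYt hYc ⊢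
  have hYS : Y ⊆ S := hYsub.trans Finset.sdiff_subset
  have hYSΦ : Y ⊆ S \ Φ := by
    intro x hxY
    exact Finset.mem_sdiff.2 ⟨hYS hxY, Finset.disjoint_left.1 hYΦ hxY⟩
  have hKY : K ⊆ S \ Y := by
    intro x hxK
    refine Finset.mem_sdiff.2 ⟨hKS hxK, fun hxY => ?_⟩
    exact (Finset.mem_sdiff.1 (hYsub hxY)).2 hxK
  have hYne : Y ≠ S := by
    rintro rfl
    obtain ⟨x, hxK⟩ := hKn
    exact (Finset.mem_sdiff.1 (hKY hxK)).2 (hKS hxK)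
  obtain ⟨w', hw', hw'Y⟩ := h.ftT Y hYS hYne hYt hYf hYc
  -- the complement of `Y`
  obtain ⟨κ3, ho3⟩ := opt_exists (E := E) (p := p) (q := q) (S \ Y)
  obtain ⟨c5, hc5, hΦ5⟩ := ext_class' h hx hYSΦ hYf ho3
  obtain ⟨c6, hc6, hK6⟩ := ho3.sub K hKY hKt
  have hc65 : c6 ≠ c5 := by
    rintro rfl
    obtain ⟨x, hxK⟩ := hKn
    have h1 := hK6 hxK
    rw [hΦ5] at h1
    exact Finset.disjoint_left.1 hKΦ hxK h1
  have hn3 : ¬ TC E p q (S \ Y) := A7_ntc ho3 hc5 hΦ5 hKY hKn hKΦ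
  have hs3 := split_sum h.mg hYS (hKn.mono hKY) hn3 ho3
  have hSY : S \ Y ≠ S := by
    intro he
    obtain ⟨x, hxY⟩ := hYn
    have h1 : x ∈ S \ Y := by rw [he]; exact hYS hxY
    exact (Finset.mem_sdiff.1 h1).2 hxY
  have hs3' := A7_two (E := E) (p := p) (q := q) Finset.sdiff_subset hSY h.c4 hc6 hc5 hc65
  rw [hΦ5] at hs3'
  have hZt : TC E p q (cl κ3 (S \ Y) c6) := ho3.tc c6 hc6
  have hZsub : cl κ3 (S \ Y) c6 ⊆ S \ Y := A7_cl_sub _ _ _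
  have hlt : K.card < (cl κ3 (S \ Y) c6).card := by
    apply Finset.card_lt_card
    refine ⟨hK6, fun hZK => ?_⟩
    have he : cl κ3 (S \ Y) c6 = K := Finset.Subset.antisymm hZK hK6
    rw [he] at hs3'
    linarith
  -- the complement of `w'`
  obtain ⟨κ4, ho4⟩ := opt_exists (E := E) (p := p) (q := q) (S \ w')
  have hZw : cl κ3 (S \ Y) c6 ⊆ S \ w' := by
    intro x hxZ
    obtain ⟨h1, h2⟩ := Finset.mem_sdiff.1 (hZsub hxZ)
    exact Finset.mem_sdiff.2 ⟨h1, fun h3 => h2 (hw'Y h3)⟩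
  obtain ⟨c7, hc7, hZ7⟩ := ho4.sub _ hZw hZt
  have hK7 : K ⊆ cl κ4 (S \ w') c7 := hK6.trans hZ7
  refine ⟨w', hw', hw'Y.trans hYSΦ, κ4, ho4, c7, hc7, ?_, ?_, ?_⟩
  · intro he
    obtain ⟨x, hxK⟩ := hKn
    have h1 := hK7 hxK
    rw [he] at h1
    exact Finset.disjoint_left.1 hKΦ hxK h1
  · exact ft_sup h.mg (ho4.tc c7 hc7) hK7 hf
  · exact lt_of_lt_of_le hlt (Finset.card_le_card hZ7)

end Pool.Agent.LibTF47
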