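import Mathlib
import Pool.Agent.LibTF47.Gr
import Pool.Agent.LibTF47.A6
import Pool.Agent.LibTF47.A7

/-! Row A8. Board TF47. no_fat and final_ineq.
(no_fat) By contradiction with bigger (A7): strong induction on S.card - (card of the class) (all classes are ⊆ S): an overfull class different from Φ gives a larger one for another triangle, forever.
Formally: prove ∀ n, ∀ w κ c, T w → w ⊆ S \ Φ → Opt .. → c ∈ .. → class ≠ Φ → Ft class → S.card - class.card = n → False by strong induction on n.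
(final_ineq) opt_exists for S \ w: κ. ext_class: Φ = the class of c0. For all classes X ≠ Φ: not Ft (no_fat), nonempty: xx X ≤ xd X (xx_le_of_not_ft). wk_sum: xx w - 4 ≥ ∑ xd = xd Φ + ∑_{c ≠ c0} xd ≥ xd Φ + ∑_{c ≠ c0} xx = xd Φ + xx ((S \ w) \ Φ) (part_xx: ∑ over all classes of xx = xx (S \ w), minus xx Φ)
and xx (S \ w) - xx Φ = xx (S \ Φ) - xx w (sums over disjoint sets). -/

set_option autoImplicit false

namespace Pool.Agent.LibTF47

open Finset
open scoped Classical

variable {α β : Type} {S : Finset α} {E : Finset β} {p q : β → α} {T : Finset α → Prop}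

private theorem no_fat_aux (h : Sys S E p q T) {Φ : Finset α} (hx : Ext S E p q Φ) :
    ∀ n : ℕ, ∀ (w : Finset α) (κ : α → ℕ) (c : ℕ), T w → w ⊆ S \ Φ → Opt E p q (S \ w) κ →
      c ∈ (S \ w).image κ → cl κ (S \ w) c ≠ Φ → Ft E p q (cl κ (S \ w) c) →
      S.card - (cl κ (S \ w) c).card = n → False := by
  intro n
  induction n using Nat.strong_induction_on with
  | _ n ih =>
    intro w κ c hw hwΦ ho hc hne hf hn
    obtain ⟨w', hw', hwΦ', κ', ho', c', hc', hne', hf', hlt⟩ := bigger h hx hw hwΦ ho hc hne hf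
    have hle : (cl κ' (S \ w') c').card ≤ S.card := by
      apply Finset.card_le_card
      intro x hx
      have := (Finset.mem_filter.1 hx).1
      exact (Finset.mem_sdiff.1 this).1
    exact ih _ (by omega) w' κ' c' hw' hwΦ' ho' hc' hne' hf' rfl

/-- A8: only `Φ` can be an overfull class -/
theorem no_fat (h : Sys S E p q T) {Φ : Finset α} (hx : Ext S E p q Φ) {w : Finset α} (hw : T w) (hwΦ : w ⊆ S \ Φ)
    {κ : α → ℕ} (ho : Opt E p q (S \ w) κ) {c : ℕ} (hc : c ∈ (S \ w).image κ) (hne : cl κ (S \ w) c ≠ Φ) :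
    ¬ Ft E p q (cl κ (S \ w) c) := by
  intro hf
  exact no_fat_aux h hx _ w κ c hw hwΦ ho hc hne hf rfl

/-- A8: the inequality for all triangles outside `Φ` -/
theorem final_ineq (h : Sys S E p q T) {Φ : Finset α} (hx : Ext S E p q Φ) {w : Finset α} (hw : T w) (hwΦ : w ⊆ S \ Φ) :
    4 + xd E p q Φ + xx E p q (S \ Φ) ≤ 2 * xx E p q w := by
  obtain ⟨κ, ho⟩ := opt_exists (E := E) (p := p) (q := q) (S \ w)
  obtain ⟨c0, hc0, hΦc⟩ := ext_class h hx hw hwΦ ho
  obtain ⟨hwS, h3, h3'⟩ := h.tr w hw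
  have hsum := wk_sum h.mg hwS h3 h3' (h.wk w hw) ho
  have hxx := part_xx (E := E) (p := p) (q := q) κ (S \ w)
  rw [← Finset.add_sum_erase _ _ hc0, hΦc] at hsum hxx
  have hle : ∑ c ∈ ((S \ w).image κ).erase c0, xx E p q (cl κ (S \ w) c) ≤
      ∑ c ∈ ((S \ w).image κ).erase c0, xd E p q (cl κ (S \ w) c) := by
    apply Finset.sum_le_sum
    intro c hc
    obtain ⟨hcne, hcm⟩ := Finset.mem_erase.1 hc
    obtain ⟨x, hxU, hxc⟩ := Finset.mem_image.1 hcm
    have hxcl : x ∈ cl κ (S \ w) c := Finset.mem_filter.2 ⟨hxU, hxc⟩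
    have hne : cl κ (S \ w) c ≠ Φ := by
      intro heq
      rw [heq, ← hΦc] at hxcl
      have := (Finset.mem_filter.1 hxcl).2
      exact hcne (hxc.symm.trans this)
    exact xx_le_of_not_ft h.mg ⟨x, hxcl⟩ (no_fat h hx hw hwΦ ho hcm hne)
  have hΦw : Φ ⊆ S \ w := by
    intro x hxΦ
    refine Finset.mem_sdiff.2 ⟨hx.sub hxΦ, fun hxw => ?_⟩
    exact (Finset.mem_sdiff.1 (hwΦ hxw)).2 hxΦ
  have e1 : xx E p q ((S \ w) \ Φ) + xx E p q Φ = xx E p q (S \ w) := Finset.sum_sdiff hΦw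
  have e2 : xx E p q ((S \ Φ) \ w) + xx E p q w = xx E p q (S \ Φ) := Finset.sum_sdiff hwΦ
  have e3 : (S \ w) \ Φ = (S \ Φ) \ w := by
    ext x
    simp only [Finset.mem_sdiff]
    tauto
  rw [e3] at e1
  linarith

end Pool.Agent.LibTF47
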