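import Mathlib
import Pool.Agent.LibTF47.Gr
import Pool.Agent.LibTF47.A1

/-! Row A9. Board TF47. A minimal cut around f0. Among all D with f0 ∈ D ⊆ S \ Φ take one with minimal |eo D|, and among these one with minimal |D| (nonempty finite family: S \ Φ is a member; exists_min_image twice, or minimize |eo D| * (|S| + 1) + |D|).
S \ D is nonempty (contains Φ). Cn (S \ D): let K ⊆ S \ D be nonempty, ≠ S \ D, with no edge between K and K' := (S \ D) \ K. Φ ⊆ S \ D is connected: Φ ⊆ K or Φ ⊆ K' (otherwise K ∩ Φ is a proper part of Φ and an edge joins it to Φ \ K). Let L be the other one: L ≠ ∅, L ∩ Φ = ∅, all edges leaving L go to D.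
So eo (D ∪ L) = eo D \ eo L and eo L ⊆ eo D: |eo (D ∪ L)| = |eo D| - |eo L| ≤ |eo D| - 4 (C4: L ≠ S), and f0 ∈ D ∪ L ⊆ S \ Φ: contradiction. -/

set_option autoImplicit false

namespace Pool.Agent.LibTF47

open Finset
open scoped Classical

variable {α β : Type} {S : Finset α} {E : Finset β} {p q : β → α}

/-- the contradiction: a set `L` without edges to the rest of `S \ D` can be moved to `D` -/
private theorem A9_move (h : MG S E p q) (h4 : C4 S E p q) {Φ D L : Finset α} (hΦ : Φ ⊆ S) (hne : Φ.Nonempty)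
    {f0 : α} (hf : f0 ∈ D) (hD : D ⊆ S \ Φ)
    (hmin : ∀ D', f0 ∈ D' → D' ⊆ S \ Φ → (eo E p q D).card ≤ (eo E p q D').card)
    (hL : L ⊆ S \ D) (hLn : L.Nonempty) (hLΦ : ∀ x ∈ L, x ∉ Φ)
    (hno : ∀ e ∈ E, ¬ ((p e ∈ L ∧ q e ∈ (S \ D) \ L) ∨ (p e ∈ (S \ D) \ L ∧ q e ∈ L))) : False := by
  have hLS : ∀ x ∈ L, x ∈ S ∧ x ∉ D := fun x hx => mem_sdiff.1 (hL hx)
  have hLne : L ≠ S := by
    rintro rfl
    obtain ⟨x, hx⟩ := hne
    exact hLΦ x (hΦ hx) hx
  have c4 := h4 L (fun x hx => (hLS x hx).1) hLn hLne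
  have hDL : D ∪ L ⊆ S \ Φ := by
    intro x hx
    rcases mem_union.1 hx with hx | hx
    · exact hD hx
    · exact mem_sdiff.2 ⟨(hLS x hx).1, hLΦ x hx⟩
  have hm := hmin (D ∪ L) (mem_union_left _ hf) hDL
  have hdis : Disjoint (eo E p q (D ∪ L)) (eo E p q L) := by
    rw [disjoint_left]
    intro e h1 h2
    simp only [eo, mem_filter, mem_union, not_or] at h1 h2
    obtain ⟨he, h1⟩ := h1
    obtain ⟨-, h2⟩ := h2
    have hno' := hno e he
    simp only [mem_sdiff, not_or, not_and] at hno'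
    have hpS := h.hp e he
    have hqS := h.hq e he
    rcases h2 with ⟨h2, h3⟩ | ⟨h2, h3⟩
    · rcases h1 with ⟨_, h4, h5⟩ | ⟨⟨h4, h5⟩, _⟩
      · exact hno'.1 h2 ⟨hqS, h4⟩ h3
      · exact h5 h2
    · rcases h1 with ⟨_, _, h5⟩ | ⟨⟨h4, h5⟩, _⟩
      · exact h5 h3
      · exact hno'.2 ⟨⟨hpS, h4⟩, h2⟩ h3
  have hsub : eo E p q (D ∪ L) ∪ eo E p q L ⊆ eo E p q D := by
    intro e he
    rcases mem_union.1 he with h1 | h1
    · simp only [eo, mem_filter, mem_union, not_or] at h1 ⊢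
      obtain ⟨he, h1⟩ := h1
      have hno' := hno e he
      simp only [mem_sdiff, not_or, not_and] at hno'
      have hpS := h.hp e he
      have hqS := h.hq e he
      refine ⟨he, ?_⟩
      rcases h1 with ⟨h2, h3, h4⟩ | ⟨⟨h2, h3⟩, h4⟩
      · rcases h2 with h2 | h2
        · exact Or.inl ⟨h2, h3⟩
        · exact absurd h4 (hno'.1 h2 ⟨hqS, h3⟩)
      · rcases h4 with h4 | h4
        · exact Or.inr ⟨h2, h4⟩
        · exact absurd h4 (hno'.2 ⟨⟨hpS, h2⟩, h3⟩)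
    · simp only [eo, mem_filter] at h1 ⊢
      obtain ⟨he, h1⟩ := h1
      have hno' := hno e he
      simp only [mem_sdiff, not_or, not_and] at hno'
      have hpS := h.hp e he
      have hqS := h.hq e he
      refine ⟨he, ?_⟩
      rcases h1 with ⟨h2, h3⟩ | ⟨h2, h3⟩
      · by_cases hqD : q e ∈ D
        · exact Or.inr ⟨(hLS _ h2).2, hqD⟩
        · exact absurd h3 (hno'.1 h2 ⟨hqS, hqD⟩)
      · by_cases hpD : p e ∈ D
        · exact Or.inl ⟨hpD, (hLS _ h3).2⟩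
        · exact absurd h3 (hno'.2 ⟨⟨hpS, hpD⟩, h2⟩)
  have hc := card_le_card hsub
  rw [card_union_of_disjoint hdis] at hc
  omega

/-- A9: a minimal cut -/
theorem min_cut (h : MG S E p q) (h4 : C4 S E p q) {Φ : Finset α} (hΦ : Φ ⊆ S) (hne : Φ.Nonempty) (hcn : Cn E p q Φ)
    {f0 : α} (hf : f0 ∈ S \ Φ) :
    ∃ D, f0 ∈ D ∧ D ⊆ S \ Φ ∧ (S \ D).Nonempty ∧ Cn E p q (S \ D) ∧ (eo E p q D).card ≤ (eo E p q (S \ Φ)).card ∧
      ∀ D', f0 ∈ D' → D' ⊆ S \ Φ → (eo E p q D').card ≤ (eo E p q D).card → D.card ≤ D'.card := by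
  obtain ⟨D, hDF, hDm⟩ := exists_min_image ((S \ Φ).powerset.filter fun D => f0 ∈ D)
    (fun D => (eo E p q D).card * (S.card + 1) + D.card)
    ⟨S \ Φ, mem_filter.2 ⟨mem_powerset.2 (Subset.refl _), hf⟩⟩
  rw [mem_filter, mem_powerset] at hDF
  obtain ⟨hD, hf0⟩ := hDF
  have hcard : ∀ D' : Finset α, D' ⊆ S \ Φ → D'.card ≤ S.card := fun D' hD' =>
    card_le_card fun x hx => (mem_sdiff.1 (hD' hx)).1
  have hmul : ∀ D', f0 ∈ D' → D' ⊆ S \ Φ →
      (eo E p q D).card * (S.card + 1) + D.card ≤ (eo E p q D').card * (S.card + 1) + D'.card :=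
    fun D' h1 h2 => hDm D' (mem_filter.2 ⟨mem_powerset.2 h2, h1⟩)
  have hmin : ∀ D', f0 ∈ D' → D' ⊆ S \ Φ → (eo E p q D).card ≤ (eo E p q D').card := by
    intro D' h1 h2
    have h3 := hmul D' h1 h2
    have h5 := hcard D' h2
    by_contra h6
    have h7 : (eo E p q D').card + 1 ≤ (eo E p q D).card := by omega
    have h8 := Nat.mul_le_mul_right (S.card + 1) h7
    have h9 : ((eo E p q D').card + 1) * (S.card + 1) = (eo E p q D').card * (S.card + 1) + (S.card + 1) := by ring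
    omega
  refine ⟨D, hf0, hD, ?_, ?_, hmin _ hf (Subset.refl _), ?_⟩
  · obtain ⟨x, hx⟩ := hne
    exact ⟨x, mem_sdiff.2 ⟨hΦ hx, fun hxD => (mem_sdiff.1 (hD hxD)).2 hx⟩⟩
  · intro K hK hKn hKne
    by_contra hno
    push Not at hno
    have hΦD : ∀ x ∈ Φ, x ∈ S ∧ x ∉ D := fun x hx => ⟨hΦ hx, fun hxD => (mem_sdiff.1 (hD hxD)).2 hx⟩
    by_cases h1 : ∃ x ∈ Φ, x ∈ K
    · by_cases h2 : ∃ x ∈ Φ, x ∉ K
      · -- `Φ` is cut by `K`
        have h3 : (Φ.filter fun x => x ∈ K) ⊆ Φ := filter_subset _ _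
        obtain ⟨x, hx, hxK⟩ := h1
        obtain ⟨y, hy, hyK⟩ := h2
        obtain ⟨e, he, h5⟩ := hcn (Φ.filter fun x => x ∈ K) h3 ⟨x, mem_filter.2 ⟨hx, hxK⟩⟩ (by
          intro h6
          have : y ∈ Φ.filter fun x => x ∈ K := by rw [h6]; exact hy
          exact hyK (mem_filter.1 this).2)
        have h7 := hno e he
        simp only [mem_sdiff, mem_filter] at h5 h7
        rcases h5 with ⟨⟨_, h8⟩, h9, h10⟩ | ⟨⟨h9, h10⟩, _, h8⟩
        · exact h7.1 h8 ⟨hΦD _ h9, fun h11 => h10 ⟨h9, h11⟩⟩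
        · exact h7.2 ⟨hΦD _ h9, fun h11 => h10 ⟨h9, h11⟩⟩ h8
      · push Not at h2
        refine A9_move h h4 hΦ hne hf0 hD hmin (L := (S \ D) \ K) sdiff_subset ?_ ?_ ?_
        · rw [sdiff_nonempty]
          exact fun h3 => hKne (Subset.antisymm hK h3)
        · intro x hx hxΦ
          exact (mem_sdiff.1 hx).2 (h2 x hxΦ)
        · intro e he h5
          have h7 := hno e he
          rw [Finset.sdiff_sdiff_eq_self hK] at h5
          rcases h5 with ⟨h5, h6⟩ | ⟨h5, h6⟩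
          · exact h7.2 h5 h6
          · exact h7.1 h5 h6
    · push Not at h1
      refine A9_move h h4 hΦ hne hf0 hD hmin (L := K) hK hKn (fun x hx hxΦ => h1 x hxΦ hx) ?_
      intro e he h5
      have h7 := hno e he
      rcases h5 with ⟨h5, h6⟩ | ⟨h5, h6⟩
      · exact h7.1 h5 h6
      · exact h7.2 h5 h6
  · intro D' h1 h2 h3
    have h5 := hmul D' h1 h2
    have h6 := hmin D' h1 h2
    have h7 : (eo E p q D').card = (eo E p q D).card := le_antisymm h3 h6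
    rw [h7] at h5
    omega

end Pool.Agent.LibTF47
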