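import Mathlib
import Pool.Agent.LibTF47.Gr
import Pool.Agent.LibTF47.A3

/-! Row B1. Board TF47. nc p q S A = the number of classes of S under EqvGen (ad p q A).
(nc_le) The map (class of x) ↦ (class of φ x) is well defined on representatives and injective on classes: choose for each class C of (S, A) a representative x ∈ S and map it to the class of φ x; equal images give EqvGen (ad p' q' A') (φ x) (φ y), so EqvGen (ad p q A) x y and the classes agree
(Finset.card_le_card_of_injOn with Classical.choose of the representative; classes as filters S.filter (EqvGen .. a ·) are equal iff the representatives are equivalent, EqvGen.is_equivalence).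
(nc_one) card ≤ 1 iff all classes are equal (card_le_one; S nonempty). (nc_card) card_image_le. (nc_erase) the image over S is contained, after restricting classes to S.erase v, in the classes of S.erase v plus the class of v:
or use: S = insert v (S.erase v) (if v ∈ S; otherwise S.erase v = S), the image over S = insert (class of v) (image over S.erase v of the classes in S), and the latter has at most nc (S.erase v) elements (nc_le type argument with φ = id). -/

set_option autoImplicit false

namespace Pool.Agent.LibTF47

open Finset
open scoped Classical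

variable {α β : Type} {S : Finset α} {E : Finset β} {p q : β → α}

/-- every partition into `m` parts has at least `2 m - 2 - δ` crossing edges -/
def Cnd (S : Finset α) (E : Finset β) (p q : β → α) (δ : ℕ) : Prop :=
  ∀ κ : α → ℕ, 2 * (S.image κ).card ≤ (cr E p q κ S).card + 2 + δ

/-- two disjoint sets of edges with at most `2 + δ` classes together -/
def Con (S : Finset α) (E : Finset β) (p q : β → α) (δ : ℕ) : Prop :=
  ∃ A B : Finset β, A ⊆ E ∧ B ⊆ E ∧ Disjoint A B ∧ nc p q S A + nc p q S B ≤ 2 + δ

/-- the induction hypothesis -/
def IH (α β : Type) (n : ℕ) : Prop :=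
  ∀ (S : Finset α) (E : Finset β) (p q : β → α) (δ : ℕ), MG S E p q → S.Nonempty → Cnd S E p q δ →
    S.card + E.card < n → Con S E p q δ

private theorem cimg {γ δ : Type} [DecidableEq γ] [DecidableEq δ] (T : Finset α) (f : α → γ) (g : α → δ)
    (h : ∀ a ∈ T, ∀ b ∈ T, g a = g b → f a = f b) : (T.image f).card ≤ (T.image g).card := by
  rcases T.eq_empty_or_nonempty with hT | ⟨t, ht⟩
  · subst hT
    simp
  · have hr : ∀ c : γ, ∃ a : α, a ∈ T ∧ (c ∈ T.image f → f a = c) := by
      intro c
      by_cases hc : c ∈ T.image f
      · obtain ⟨a, ha, hac⟩ := Finset.mem_image.1 hc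
        exact ⟨a, ha, fun _ => hac⟩
      · exact ⟨t, ht, fun h' => absurd h' hc⟩
    choose r hr1 hr2 using hr
    refine Finset.card_le_card_of_injOn (fun c => g (r c)) ?_ ?_
    · intro c _
      exact Finset.mem_coe.2 (Finset.mem_image_of_mem g (hr1 c))
    · intro c hc c' hc' hcc
      have h1 := h (r c) (hr1 c) (r c') (hr1 c') hcc
      rw [hr2 c (Finset.mem_coe.1 hc), hr2 c' (Finset.mem_coe.1 hc')] at h1
      exact h1

private theorem cls_eq {A : Finset β} {x y : α} (h : Relation.EqvGen (ad p q A) x y) :
    (S.filter fun b => Relation.EqvGen (ad p q A) x b) = S.filter fun b => Relation.EqvGen (ad p q A) y b := by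
  apply Finset.filter_congr
  intro b _
  exact ⟨fun h' => Relation.EqvGen.trans _ _ _ (Relation.EqvGen.symm _ _ h) h',
    fun h' => Relation.EqvGen.trans _ _ _ h h'⟩

private theorem eq_cls {A : Finset β} {x y : α} (hy : y ∈ S)
    (h : (S.filter fun b => Relation.EqvGen (ad p q A) x b) = S.filter fun b => Relation.EqvGen (ad p q A) y b) :
    Relation.EqvGen (ad p q A) x y := by
  have h1 : y ∈ S.filter fun b => Relation.EqvGen (ad p q A) y b :=
    Finset.mem_filter.2 ⟨hy, Relation.EqvGen.refl _⟩
  rw [← h] at h1
  exact (Finset.mem_filter.1 h1).2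

/-- B1: comparison of the numbers of classes -/
theorem nc_le {S' : Finset α} {p' q' : β → α} {A A' : Finset β} (φ : α → α) (h1 : ∀ x ∈ S, φ x ∈ S')
    (h2 : ∀ x ∈ S, ∀ y ∈ S, Relation.EqvGen (ad p' q' A') (φ x) (φ y) → Relation.EqvGen (ad p q A) x y) :
    nc p q S A ≤ nc p' q' S' A' := by
  unfold nc
  refine le_trans (cimg S _ (fun a => S'.filter fun b => Relation.EqvGen (ad p' q' A') (φ a) b) ?_) ?_
  · intro a ha b hb hab
    exact cls_eq (h2 a ha b hb (eq_cls (h1 b hb) hab))
  · apply Finset.card_le_card
    intro c hc
    obtain ⟨a, ha, rfl⟩ := Finset.mem_image.1 hc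
    exact Finset.mem_image.2 ⟨φ a, h1 a ha, rfl⟩

/-- B1: one class -/
theorem nc_one {A : Finset β} (hS : S.Nonempty) : nc p q S A ≤ 1 ↔ ∀ x ∈ S, ∀ y ∈ S, Relation.EqvGen (ad p q A) x y := by
  unfold nc
  rw [Finset.card_le_one]
  constructor
  · intro h x hx y hy
    exact eq_cls hy (h _ (Finset.mem_image_of_mem _ hx) _ (Finset.mem_image_of_mem _ hy))
  · intro h c hc d hd
    obtain ⟨x, hx, rfl⟩ := Finset.mem_image.1 hc
    obtain ⟨y, hy, rfl⟩ := Finset.mem_image.1 hd
    exact cls_eq (h x hx y hy)

/-- B1: at most as many classes as vertices -/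
theorem nc_card (A : Finset β) : nc p q S A ≤ S.card := by
  exact Finset.card_image_le

/-- B1: one more vertex gives at most one more class -/
theorem nc_erase (A : Finset β) (v : α) : nc p q S A ≤ nc p q (S.erase v) A + 1 := by
  by_cases hv : v ∈ S
  · have h0 : nc p q S A ≤ ((S.erase v).image fun a => S.filter fun b => Relation.EqvGen (ad p q A) a b).card + 1 := by
      unfold nc
      calc (S.image fun a => S.filter fun b => Relation.EqvGen (ad p q A) a b).card
          = ((insert v (S.erase v)).image fun a => S.filter fun b => Relation.EqvGen (ad p q A) a b).card := by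
            rw [Finset.insert_erase hv]
        _ = (insert (S.filter fun b => Relation.EqvGen (ad p q A) v b)
            ((S.erase v).image fun a => S.filter fun b => Relation.EqvGen (ad p q A) a b)).card := by
            rw [Finset.image_insert]
        _ ≤ _ := Finset.card_insert_le _ _
    refine le_trans h0 (Nat.add_le_add_right ?_ 1)
    exact cimg (S.erase v) _ _ fun a _ b hb hab => cls_eq (eq_cls hb hab)
  · rw [Finset.erase_eq_of_notMem hv]
    exact Nat.le_succ _

end Pool.Agent.LibTF47
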