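import Mathlib
import Pool.Agent.LibTF47.Gr
import Pool.Agent.LibTF47.B1

/-! Row B2. Board TF47. Contraction of a 2-tree-connected set R, 2 ≤ |R|, R ≠ S. Fix r0 ∈ R, ρ x := if x ∈ R then r0 else x.
(1) ih for (R, ei E p q R, p, q, 0): MG restricts; Cnd R (ei R) 0: cr (ei R) κ R = cr E κ R and TC R; |R| < |S|, |ei R| ≤ |E|. We get A1, B1 ⊆ ei R disjoint, nc R A1 + nc R B1 ≤ 2; both are ≥ 1 (R nonempty), so both ≤ 1: nc_one: R is connected by A1 and by B1.
(2) ih for (S', E', p', q', δ): S' := insert r0 (S \ R), E' := E \ ei E p q R, p' := ρ ∘ p, q' := ρ ∘ q. MG: p' e ≠ q' e because not both ends are in R (and p e ≠ q e). Cnd: for κ' let κ := κ' ∘ ρ: S.image κ = S'.image κ', cr E κ S = cr E' κ' S' (edges inside R are not crossing).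
|S'| = |S| - |R| + 1 < |S|. We get A2, B2 ⊆ E' disjoint. (3) A := A1 ∪ A2, B := B1 ∪ B2: disjoint, ⊆ E. nc_le (B1) with φ := ρ: nc S A ≤ nc S' A2: if EqvGen (ad p' q' A2) u v then EqvGen (ad p q A) u v whenever u, v arbitrary (each step: p' e = ρ (p e) ~ p e ~ q e ~ ρ (q e) by A1-connection in R and e ∈ A2),
and x ~ ρ x for x ∈ S. The same for B. -/

set_option autoImplicit false

namespace Pool.Agent.LibTF47

open Finset
open scoped Classical

variable {α β : Type} {S : Finset α} {E : Finset β} {p q : β → α}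

private theorem B2_mono {A A' : Finset β} (h : A ⊆ A') {x y : α} (hxy : Relation.EqvGen (ad p q A) x y) :
    Relation.EqvGen (ad p q A') x y := by
  induction hxy with
  | rel u v huv =>
    obtain ⟨e, he, h1⟩ := huv
    exact Relation.EqvGen.rel _ _ ⟨e, h he, h1⟩
  | refl u => exact Relation.EqvGen.refl u
  | symm u v _ ih => exact Relation.EqvGen.symm _ _ ih
  | trans u v w _ _ ih1 ih2 => exact Relation.EqvGen.trans _ _ _ ih1 ih2

private theorem B2_pos {S : Finset α} {p q : β → α} (hS : S.Nonempty) (A : Finset β) : 1 ≤ nc p q S A := by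
  unfold nc
  exact Finset.card_pos.2 (hS.image _)

private theorem B2_le {R : Finset α} {r0 : α} (hr0 : r0 ∈ R) {A1 A2 : Finset β}
    (h1 : ∀ x ∈ R, ∀ y ∈ R, Relation.EqvGen (ad p q A1) x y) (ρ : α → α)
    (hρ : ∀ x, ρ x = if x ∈ R then r0 else x) :
    nc p q S (A1 ∪ A2) ≤ nc (fun e => ρ (p e)) (fun e => ρ (q e)) (insert r0 (S \ R)) A2 := by
  have e0 : ∀ x, Relation.EqvGen (ad p q (A1 ∪ A2)) x (ρ x) := by
    intro x
    rw [hρ x]
    by_cases hx : x ∈ R
    · rw [if_pos hx]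
      exact B2_mono subset_union_left (h1 x hx r0 hr0)
    · rw [if_neg hx]
      exact Relation.EqvGen.refl x
  have e1 : ∀ u v, Relation.EqvGen (ad (fun e => ρ (p e)) (fun e => ρ (q e)) A2) u v →
      Relation.EqvGen (ad p q (A1 ∪ A2)) u v := by
    intro u v huv
    induction huv with
    | rel u v huv =>
      obtain ⟨e, he, h2⟩ := huv
      have h3 : Relation.EqvGen (ad p q (A1 ∪ A2)) (p e) (q e) :=
        Relation.EqvGen.rel _ _ ⟨e, subset_union_right he, Or.inl ⟨rfl, rfl⟩⟩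
      have h4 : Relation.EqvGen (ad p q (A1 ∪ A2)) (ρ (p e)) (ρ (q e)) :=
        Relation.EqvGen.trans _ _ _ (Relation.EqvGen.symm _ _ (e0 (p e)))
          (Relation.EqvGen.trans _ _ _ h3 (e0 (q e)))
      rcases h2 with ⟨ha, hb⟩ | ⟨ha, hb⟩
      · have ha : ρ (p e) = u := ha
        have hb : ρ (q e) = v := hb
        rw [← ha, ← hb]
        exact h4
      · have ha : ρ (p e) = v := ha
        have hb : ρ (q e) = u := hb
        rw [← ha, ← hb]
        exact Relation.EqvGen.symm _ _ h4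
    | refl u => exact Relation.EqvGen.refl u
    | symm u v _ ih => exact Relation.EqvGen.symm _ _ ih
    | trans u v w _ _ ih1 ih2 => exact Relation.EqvGen.trans _ _ _ ih1 ih2
  refine nc_le ρ ?_ ?_
  · intro x hx
    rw [hρ x]
    by_cases hxR : x ∈ R
    · rw [if_pos hxR]
      exact mem_insert_self _ _
    · rw [if_neg hxR]
      exact mem_insert_of_mem (mem_sdiff.2 ⟨hx, hxR⟩)
  · intro x _ y _ hxy
    exact Relation.EqvGen.trans _ _ _ (e0 x) (Relation.EqvGen.trans _ _ _ (e1 _ _ hxy)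
      (Relation.EqvGen.symm _ _ (e0 y)))

/-- B2: contraction -/
theorem con_contract (h : MG S E p q) {δ : ℕ} (hc : Cnd S E p q δ) {R : Finset α} (hR : R ⊆ S) (hRS : R ≠ S)
    (h2 : 2 ≤ R.card) (ht : TC E p q R) (ih : IH α β (S.card + E.card)) : Con S E p q δ := by
  obtain ⟨r0, hr0⟩ := ht.1
  have hRlt : R.card < S.card := card_lt_card (Finset.ssubset_iff_subset_ne.2 ⟨hR, hRS⟩)
  have heiE : ei E p q R ⊆ E := filter_subset _ _
  -- step 1: inside R
  have hMG1 : MG R (ei E p q R) p q := by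
    refine ⟨fun e he => ?_, fun e he => ?_, fun e he => ?_⟩
    · exact (mem_filter.1 he).2.1
    · exact (mem_filter.1 he).2.2
    · exact h.ne e (mem_filter.1 he).1
  have hC1 : Cnd R (ei E p q R) p q 0 := by
    intro κ
    have e1 : cr (ei E p q R) p q κ R = cr E p q κ R := by
      ext e
      unfold cr ei
      simp only [mem_filter]
      constructor
      · rintro ⟨⟨h1, _⟩, h2⟩
        exact ⟨h1, h2⟩
      · rintro ⟨h1, h2⟩
        exact ⟨⟨h1, h2.1⟩, h2⟩
    rw [e1]
    have := ht.2 κ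
    omega
  obtain ⟨A1, B1, hA1, hB1, hd1, hn1⟩ := ih R (ei E p q R) p q 0 hMG1 ht.1 hC1
    (by have := card_le_card heiE; omega)
  have hpA := B2_pos (p := p) (q := q) ht.1 A1
  have hpB := B2_pos (p := p) (q := q) ht.1 B1
  have cA := (nc_one (p := p) (q := q) (A := A1) ht.1).1 (by omega)
  have cB := (nc_one (p := p) (q := q) (A := B1) ht.1).1 (by omega)
  -- step 2: the contracted graph
  obtain ⟨ρ, hρ⟩ : ∃ ρ : α → α, ∀ x, ρ x = if x ∈ R then r0 else x := ⟨fun x => if x ∈ R then r0 else x, fun _ => rfl⟩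
  have hρS : ∀ x ∈ S, ρ x ∈ insert r0 (S \ R) := by
    intro x hx
    rw [hρ x]
    by_cases hxR : x ∈ R
    · rw [if_pos hxR]
      exact mem_insert_self _ _
    · rw [if_neg hxR]
      exact mem_insert_of_mem (mem_sdiff.2 ⟨hx, hxR⟩)
  have hMG2 : MG (insert r0 (S \ R)) (E \ ei E p q R) (fun e => ρ (p e)) (fun e => ρ (q e)) := by
    refine ⟨fun e he => ?_, fun e he => ?_, fun e he => ?_⟩
    · exact hρS _ (h.hp e (mem_sdiff.1 he).1)
    · exact hρS _ (h.hq e (mem_sdiff.1 he).1)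
    · have heE := (mem_sdiff.1 he).1
      have hne := h.ne e heE
      change ρ (p e) ≠ ρ (q e)
      rw [hρ, hρ]
      by_cases h1 : p e ∈ R
      · by_cases h2 : q e ∈ R
        · exact absurd (mem_filter.2 ⟨heE, h1, h2⟩) (mem_sdiff.1 he).2
        · rw [if_pos h1, if_neg h2]
          intro h3
          exact h2 (h3 ▸ hr0)
      · by_cases h2 : q e ∈ R
        · rw [if_neg h1, if_pos h2]
          intro h3
          exact h1 (h3 ▸ hr0)
        · rw [if_neg h1, if_neg h2]
          exact hne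
  have hC2 : Cnd (insert r0 (S \ R)) (E \ ei E p q R) (fun e => ρ (p e)) (fun e => ρ (q e)) δ := by
    intro κ'
    have h1 := hc (fun x => κ' (ρ x))
    have e1 : (insert r0 (S \ R)).image κ' ⊆ S.image fun x => κ' (ρ x) := by
      intro c hcc
      obtain ⟨x, hx, rfl⟩ := mem_image.1 hcc
      rcases mem_insert.1 hx with rfl | hx
      · refine mem_image.2 ⟨x, hR hr0, ?_⟩
        change κ' (ρ x) = κ' x
        rw [hρ, if_pos hr0]
      · refine mem_image.2 ⟨x, (mem_sdiff.1 hx).1, ?_⟩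
        change κ' (ρ x) = κ' x
        rw [hρ, if_neg (mem_sdiff.1 hx).2]
    have e2 : cr E p q (fun x => κ' (ρ x)) S ⊆
        cr (E \ ei E p q R) (fun e => ρ (p e)) (fun e => ρ (q e)) κ' (insert r0 (S \ R)) := by
      intro e he
      obtain ⟨heE, ⟨hpe, hqe⟩, hne⟩ := mem_filter.1 he
      have hne : κ' (ρ (p e)) ≠ κ' (ρ (q e)) := hne
      refine mem_filter.2 ⟨mem_sdiff.2 ⟨heE, fun h3 => ?_⟩, ⟨hρS _ hpe, hρS _ hqe⟩, hne⟩
      obtain ⟨_, h4, h5⟩ := mem_filter.1 h3
      refine hne ?_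
      rw [hρ, hρ, if_pos h4, if_pos h5]
    have h2 := card_le_card e1
    have h3 := card_le_card e2
    omega
  have hlt2 : (insert r0 (S \ R)).card + (E \ ei E p q R).card < S.card + E.card := by
    have h1 := card_insert_le r0 (S \ R)
    have h3 := card_sdiff_add_card_eq_card hR
    have h4 : (E \ ei E p q R).card ≤ E.card := card_le_card sdiff_subset
    omega
  obtain ⟨A2, B2, hA2, hB2, hd2, hn2⟩ := ih (insert r0 (S \ R)) (E \ ei E p q R) (fun e => ρ (p e)) (fun e => ρ (q e)) δ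
    hMG2 (insert_nonempty _ _) hC2 hlt2
  have hA2E : A2 ⊆ E := hA2.trans sdiff_subset
  have hB2E : B2 ⊆ E := hB2.trans sdiff_subset
  refine ⟨A1 ∪ A2, B1 ∪ B2, union_subset (hA1.trans heiE) hA2E, union_subset (hB1.trans heiE) hB2E, ?_, ?_⟩
  · have hdis : Disjoint (ei E p q R) (E \ ei E p q R) := disjoint_sdiff
    rw [disjoint_union_left, disjoint_union_right, disjoint_union_right]
    exact ⟨⟨hd1, disjoint_of_subset_left hA1 (disjoint_of_subset_right hB2 hdis)⟩,
      (disjoint_of_subset_left hB1 (disjoint_of_subset_right hA2 hdis)).symm, hd2⟩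
  · have l1 := B2_le (S := S) (A2 := A2) hr0 cA ρ hρ
    have l2 := B2_le (S := S) (A2 := B2) hr0 cB ρ hρ
    omega

end Pool.Agent.LibTF47
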