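import Mathlib
import Pool.Agent.LibTF47.Gr
import Pool.Agent.LibTF47.B1

/-! Row B3. Board TF47. A vertex v of degree ≤ 2. S' := S.erase v (nonempty), E' := E.filter (p e ≠ v ∧ q e ≠ v), d := dg v ≤ 2, |E'| = |E| - d. Cnd with κ := 1 at v, 0 elsewhere (two colours; crossing edges = the d edges at v): 4 ≤ d + 2 + δ, so δ' := δ + d - 2 is a true subtraction.
Cnd S' E' δ': for κ' on S' let κ := κ' + 1 off v, 0 at v: |κ(S)| = |κ'(S')| + 1, |cr E κ S| = |cr E' κ' S'| + d. ih: A', B' ⊆ E' disjoint, nc S' A' + nc S' B' ≤ 2 + δ' = δ + d.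
d = 2: edges e1, e2 at v: A := insert e1 A', B := insert e2 B': nc S A ≤ nc S' A' (nc_le with φ v := the other end of e1, φ x := x: v ~ φ v by e1). d = 1: A := insert e1 A', B := B': nc S B ≤ nc S' B' + 1 (nc_erase). d = 0: both nc_erase. -/

set_option autoImplicit false

namespace Pool.Agent.LibTF47

open Finset
open scoped Classical

variable {α β : Type} {S : Finset α} {E : Finset β} {p q : β → α}

/-- B3: attaching the vertex `v` by the edge `e` -/
private theorem B3_attach (h : MG S E p q) {v w : α} {e : β} (hwS : w ∈ S) (hwv : w ≠ v)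
    (he : (p e = v ∧ q e = w) ∨ (p e = w ∧ q e = v)) (A' : Finset β) :
    nc p q S (insert e A') ≤ nc p q (S.erase v) A' := by
  refine nc_le (fun x => if x = v then w else x) ?_ ?_
  · intro x hx
    by_cases hxv : x = v
    · simp only [hxv, if_true]
      exact mem_erase.2 ⟨hwv, hwS⟩
    · simp only [hxv, if_false]
      exact mem_erase.2 ⟨hxv, hx⟩
  · have hvw : Relation.EqvGen (ad p q (insert e A')) v w :=
      Relation.EqvGen.rel _ _ ⟨e, mem_insert_self e A', he⟩
    have hself : ∀ x : α, Relation.EqvGen (ad p q (insert e A')) x (if x = v then w else x) := by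
      intro x
      by_cases hxv : x = v
      · simp only [hxv, if_true]
        exact hvw
      · simp only [hxv, if_false]
        exact Relation.EqvGen.refl x
    intro x _ y _ hxy
    have hm : Relation.EqvGen (ad p q (insert e A')) (if x = v then w else x) (if y = v then w else y) := by
      refine Relation.EqvGen.mono (r := ad p q A') ?_ _ _ hxy
      rintro a b ⟨f, hf, hab⟩
      exact ⟨f, mem_insert_of_mem hf, hab⟩
    exact Relation.EqvGen.trans _ _ _ (hself x)
      (Relation.EqvGen.trans _ _ _ hm (Relation.EqvGen.symm _ _ (hself y)))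

/-- B3: the other end of an edge at `v` -/
private theorem B3_other (h : MG S E p q) {v : α} {e : β} (heE : e ∈ E) (hev : p e = v ∨ q e = v) :
    ∃ w ∈ S, w ≠ v ∧ ((p e = v ∧ q e = w) ∨ (p e = w ∧ q e = v)) := by
  rcases hev with hev | hev
  · refine ⟨q e, h.hq e heE, ?_, Or.inl ⟨hev, rfl⟩⟩
    intro hq
    exact h.ne e heE (hev.trans hq.symm)
  · refine ⟨p e, h.hp e heE, ?_, Or.inr ⟨rfl, hev⟩⟩
    intro hp
    exact h.ne e heE (hp.trans hev.symm)

/-- B3: a vertex of degree at most two -/
theorem con_low (h : MG S E p q) {δ : ℕ} (hc : Cnd S E p q δ) (h2 : 2 ≤ S.card) {v : α} (hv : v ∈ S)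
    (hd : dg E p q v ≤ 2) (ih : IH α β (S.card + E.card)) : Con S E p q δ := by
  have hS' : (S.erase v).Nonempty := by
    rw [← card_pos, card_erase_of_mem hv]
    omega
  have hScard : (S.erase v).card + 1 = S.card := by
    rw [card_erase_of_mem hv]
    omega
  obtain ⟨D, hD⟩ : ∃ D : Finset β, D = E.filter fun e => p e = v ∨ q e = v := ⟨_, rfl⟩
  obtain ⟨E', hE'⟩ : ∃ E' : Finset β, E' = E.filter fun e => p e ≠ v ∧ q e ≠ v := ⟨_, rfl⟩
  have hDc : D.card ≤ 2 := by
    rw [hD]
    exact hd
  have hDm : ∀ e, e ∈ D ↔ e ∈ E ∧ (p e = v ∨ q e = v) := by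
    intro e
    rw [hD, mem_filter]
  have hEm : ∀ e, e ∈ E' ↔ e ∈ E ∧ (p e ≠ v ∧ q e ≠ v) := by
    intro e
    rw [hE', mem_filter]
  have hEE : E' ⊆ E := fun e he => ((hEm e).1 he).1
  -- the general bound for the crossing edges
  have hgen : ∀ κ' : α → ℕ, 2 * ((S.erase v).image κ').card + 2 ≤ (cr E' p q κ' (S.erase v)).card + D.card + 2 + δ := by
    intro κ'
    have h1 := hc (fun x => if x = v then 0 else κ' x + 1)
    have h2' : ((S.erase v).image κ').card + 1 ≤ (S.image fun x => if x = v then 0 else κ' x + 1).card := by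
      have h3 : insert 0 (((S.erase v).image κ').image fun n => n + 1) ⊆
          S.image fun x => if x = v then 0 else κ' x + 1 := by
        intro n hn
        rw [mem_insert, mem_image] at hn
        rw [mem_image]
        rcases hn with hn | ⟨m, hm, hmn⟩
        · exact ⟨v, hv, by rw [if_pos rfl, hn]⟩
        · rw [mem_image] at hm
          obtain ⟨x, hx, hxm⟩ := hm
          rw [mem_erase] at hx
          exact ⟨x, hx.2, by rw [if_neg hx.1, hxm, hmn]⟩
      have h4 : (insert 0 (((S.erase v).image κ').image fun n => n + 1)).card = ((S.erase v).image κ').card + 1 := by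
        rw [card_insert_of_notMem, card_image_of_injective _ (fun a b hab => by simpa using hab)]
        rw [mem_image]
        rintro ⟨m, _, hm⟩
        omega
      rw [← h4]
      exact card_le_card h3
    have h5 : (cr E p q (fun x => if x = v then 0 else κ' x + 1) S).card ≤ (cr E' p q κ' (S.erase v)).card + D.card := by
      refine (card_le_card ?_).trans (card_union_le _ _)
      intro e he
      unfold cr at he
      rw [mem_filter] at he
      obtain ⟨heE, ⟨hp, hq⟩, hk⟩ := he
      rw [mem_union]
      by_cases hev : p e = v ∨ q e = v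
      · exact Or.inr ((hDm e).2 ⟨heE, hev⟩)
      · left
        have hpv : p e ≠ v := fun h6 => hev (Or.inl h6)
        have hqv : q e ≠ v := fun h6 => hev (Or.inr h6)
        unfold cr
        rw [mem_filter]
        refine ⟨(hEm e).2 ⟨heE, hpv, hqv⟩, ⟨mem_erase.2 ⟨hpv, hp⟩, mem_erase.2 ⟨hqv, hq⟩⟩, ?_⟩
        intro h6
        apply hk
        simp only [hpv, hqv, if_false, h6]
    omega
  have hdel : 2 ≤ δ + D.card := by
    have h1 := hgen (fun _ => 0)
    have h3 : (cr E' p q (fun _ => 0) (S.erase v)).card = 0 := by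
      rw [card_eq_zero]
      unfold cr
      rw [filter_eq_empty_iff]
      rintro e _ ⟨_, h4⟩
      exact h4 rfl
    have h4 : 1 ≤ ((S.erase v).image fun _ => (0 : ℕ)).card := card_pos.2 (hS'.image _)
    omega
  have hMG : MG (S.erase v) E' p q := by
    refine ⟨?_, ?_, ?_⟩
    · intro e he
      exact mem_erase.2 ⟨((hEm e).1 he).2.1, h.hp e (hEE he)⟩
    · intro e he
      exact mem_erase.2 ⟨((hEm e).1 he).2.2, h.hq e (hEE he)⟩
    · intro e he
      exact h.ne e (hEE he)
  have hcnd : Cnd (S.erase v) E' p q (δ + D.card - 2) := by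
    intro κ'
    have h1 := hgen κ'
    omega
  have hlt : (S.erase v).card + E'.card < S.card + E.card := by
    have h1 := card_le_card hEE
    omega
  obtain ⟨A', B', hA, hB, hAB, hn⟩ := ih (S.erase v) E' p q (δ + D.card - 2) hMG hS' hcnd hlt
  have hDA : ∀ e ∈ D, e ∉ A' := by
    intro e he heA
    have h1 := ((hDm e).1 he).2
    have h3 := ((hEm e).1 (hA heA)).2
    rcases h1 with h1 | h1
    · exact h3.1 h1
    · exact h3.2 h1
  have hDB : ∀ e ∈ D, e ∉ B' := by
    intro e he heB
    have h1 := ((hDm e).1 he).2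
    have h3 := ((hEm e).1 (hB heB)).2
    rcases h1 with h1 | h1
    · exact h3.1 h1
    · exact h3.2 h1
  have hatt : ∀ e ∈ D, ∀ A'' : Finset β, nc p q S (insert e A'') ≤ nc p q (S.erase v) A'' := by
    intro e he A''
    obtain ⟨w, hwS, hwv, hw⟩ := B3_other h ((hDm e).1 he).1 ((hDm e).1 he).2
    exact B3_attach h hwS hwv hw A''
  have hcases : D.card = 0 ∨ D.card = 1 ∨ D.card = 2 := by omega
  rcases hcases with h0 | h1 | h22
  · refine ⟨A', B', hA.trans hEE, hB.trans hEE, hAB, ?_⟩
    have h3 := nc_erase (S := S) (p := p) (q := q) A' v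
    have h4 := nc_erase (S := S) (p := p) (q := q) B' v
    omega
  · obtain ⟨e, he⟩ := card_eq_one.1 h1
    have heD : e ∈ D := by
      rw [he]
      exact mem_singleton_self e
    refine ⟨insert e A', B', ?_, hB.trans hEE, ?_, ?_⟩
    · exact insert_subset ((hDm e).1 heD).1 (hA.trans hEE)
    · rw [disjoint_insert_left]
      exact ⟨hDB e heD, hAB⟩
    · have h3 := hatt e heD A'
      have h4 := nc_erase (S := S) (p := p) (q := q) B' v
      omega
  · obtain ⟨e, f, hef, he⟩ := card_eq_two.1 h22
    have heD : e ∈ D := by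
      rw [he]
      exact mem_insert_self e _
    have hfD : f ∈ D := by
      rw [he]
      exact mem_insert_of_mem (mem_singleton_self f)
    refine ⟨insert e A', insert f B', ?_, ?_, ?_, ?_⟩
    · exact insert_subset ((hDm e).1 heD).1 (hA.trans hEE)
    · exact insert_subset ((hDm f).1 hfD).1 (hB.trans hEE)
    · rw [disjoint_insert_left, disjoint_insert_right, mem_insert]
      refine ⟨?_, hDA f hfD, hAB⟩
      rintro (h5 | h5)
      · exact hef h5
      · exact hDB e heD h5
    · have h3 := hatt e heD A'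
      have h4 := hatt f hfD B'
      omega

end Pool.Agent.LibTF47
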