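import Mathlib
import Pool.Agent.LibTF47.Gr
import Pool.Agent.LibTF47.B1

/-! Row B4. Board TF47. Splitting off. v has exactly three edges e1, e2, e3 with other ends a1, a2, a3 (MG: ≠ v). They are not all equal: otherwise R := {v, a1} is TC (κ v = κ a: one colour; κ v ≠ κ a: 2 * 2 ≤ 3 + 2), |R| = 2 and R ≠ S (S = R gives 3 + 2 + δ ≤ E.card + 2 + δ = 4: false): contradiction to hno.
So after renaming a := a1 ≠ b := a2, c := a3 (treat the cases: if a1 ≠ a2 take (e1, e2, e3), otherwise a1 ≠ a3 and take (e1, e3, e2)). New graph: S' := S.erase v, E' := insert e1 (E.filter (p e ≠ v ∧ q e ≠ v)), p' := Function.update p e1 a, q' := Function.update q e1 b, |E'| = |E| - 2, |S'| = |S| - 1, MG.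
Cnd S' E' δ: suppose κ' violates: 2 m' ≥ |cr E' κ'| + 3 + δ. Let U := S.erase v, c'' κ := |cr E p q κ U| (edges at v do not count). For every κ: extend by a fresh colour at v: 2 (|κ(U)| + 1) ≤ c'' κ + 3 + 2 + δ, i.e. 2 |κ(U)| ≤ c'' κ + 3 + δ. |cr E' κ'| = c'' κ' + (if κ' a = κ' b then 0 else 1). So κ' a = κ' b and 2 m' = c'' κ' + 3 + δ:
κ' is minimal for U, min_tc (A3): its classes are TC, subsets of U ≠ S, so they have at most one element (hno): a = b, contradiction. ih: A', B' ⊆ E' disjoint; by symmetry e1 ∉ B'. A := insert e2 (insert e1 (A'.erase e1)), B := insert e3 B'. nc S A ≤ nc S' A' (nc_le, φ v := a): a step by e1 in (p', q') is a ~ v ~ b (e1, e2 in (p, q)); v ~ a by e1.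
nc S B ≤ nc S' B' (φ v := c): v ~ c by e3; steps in B' (e ≠ e1) are the same. If e1 ∈ B' exchange the roles of A and B. -/

set_option autoImplicit false

namespace Pool.Agent.LibTF47

open Finset
open scoped Classical

variable {α β : Type} {S : Finset α} {E : Finset β} {p q : β → α}

private theorem B4_ee_mono {p q p' q' : β → α} {A A' : Finset β}
    (hs : ∀ e ∈ A', Relation.EqvGen (ad p q A) (p' e) (q' e)) {x y : α}
    (hxy : Relation.EqvGen (ad p' q' A') x y) : Relation.EqvGen (ad p q A) x y := by
  induction hxy with
  | rel x y h =>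
    obtain ⟨e, he, h | h⟩ := h
    · rw [← h.1, ← h.2]
      exact hs e he
    · rw [← h.1, ← h.2]
      exact Relation.EqvGen.symm _ _ (hs e he)
  | refl x => exact Relation.EqvGen.refl x
  | symm x y _ ih => exact Relation.EqvGen.symm _ _ ih
  | trans x y z _ _ ih1 ih2 => exact Relation.EqvGen.trans _ _ _ ih1 ih2

private theorem B4_edge {p q : β → α} {A : Finset β} {e : β} (he : e ∈ A) :
    Relation.EqvGen (ad p q A) (p e) (q e) :=
  Relation.EqvGen.rel _ _ ⟨e, he, Or.inl ⟨rfl, rfl⟩⟩

/-- the other end of an edge at `v` -/
private noncomputable def B4_o (p q : β → α) (v : α) (e : β) : α := if p e = v then q e else p e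

private theorem B4_o_edge {p q : β → α} {v : α} {A : Finset β} {e : β} (he : e ∈ A) (hv : p e = v ∨ q e = v) :
    Relation.EqvGen (ad p q A) v (B4_o p q v e) := by
  unfold B4_o
  by_cases hp : p e = v
  · rw [if_pos hp]
    have := B4_edge (p := p) (q := q) he
    rwa [hp] at this
  · rw [if_neg hp]
    have hq : q e = v := hv.resolve_left hp
    have := B4_edge (p := p) (q := q) he
    rw [hq] at this
    exact Relation.EqvGen.symm _ _ this

private theorem B4_core (h : MG S E p q) {δ : ℕ} (hc : Cnd S E p q δ)
    (hno : ∀ R, R ⊆ S → R ≠ S → 2 ≤ R.card → ¬ TC E p q R) {v : α} (hv : v ∈ S)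
    (ih : IH α β (S.card + E.card)) {e1 e2 e3 : β} (h12 : e1 ≠ e2) (h13 : e1 ≠ e3) (h23 : e2 ≠ e3)
    (hF : (E.filter fun e => p e = v ∨ q e = v) = {e1, e2, e3}) (hab : B4_o p q v e1 ≠ B4_o p q v e2) :
    Con S E p q δ := by
  set a := B4_o p q v e1 with ha
  set b := B4_o p q v e2 with hb
  set c := B4_o p q v e3 with hcc
  have m1 : e1 ∈ E.filter fun e => p e = v ∨ q e = v := by rw [hF]; simp
  have m2 : e2 ∈ E.filter fun e => p e = v ∨ q e = v := by rw [hF]; simp
  have m3 : e3 ∈ E.filter fun e => p e = v ∨ q e = v := by rw [hF]; simp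
  rw [mem_filter] at m1 m2 m3
  have oo : ∀ e, e ∈ E → (p e = v ∨ q e = v) → B4_o p q v e ∈ S ∧ B4_o p q v e ≠ v := by
    intro e he hve
    unfold B4_o
    by_cases hp : p e = v
    · rw [if_pos hp]
      exact ⟨h.hq e he, fun hq => h.ne e he (hp.trans hq.symm)⟩
    · rw [if_neg hp]
      exact ⟨h.hp e he, hp⟩
  have oa := oo e1 m1.1 m1.2
  have ob := oo e2 m2.1 m2.2
  have oc := oo e3 m3.1 m3.2
  set G := E.filter (fun e => p e ≠ v ∧ q e ≠ v) with hG
  set p' := Function.update p e1 a with hp'
  set q' := Function.update q e1 b with hq'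
  have hGn : ∀ e ∈ G, e ≠ e1 ∧ e ≠ e2 ∧ e ≠ e3 := by
    intro e he
    rw [hG, mem_filter] at he
    refine ⟨?_, ?_, ?_⟩
    · rintro rfl; exact m1.2.elim he.2.1 he.2.2
    · rintro rfl; exact m2.2.elim he.2.1 he.2.2
    · rintro rfl; exact m3.2.elim he.2.1 he.2.2
  have p1 : p' e1 = a := by rw [hp']; simp
  have q1 : q' e1 = b := by rw [hq']; simp
  have pn : ∀ e, e ≠ e1 → p' e = p e := by intro e he; rw [hp']; simp [he]
  have qn : ∀ e, e ≠ e1 → q' e = q e := by intro e he; rw [hq']; simp [he]
  have hmg : MG (S.erase v) (insert e1 G) p' q' := by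
    refine ⟨?_, ?_, ?_⟩
    · intro e he
      rw [mem_insert] at he
      rcases he with rfl | he
      · rw [p1]; exact mem_erase.2 ⟨oa.2, oa.1⟩
      · rw [pn e (hGn e he).1]
        rw [hG, mem_filter] at he
        exact mem_erase.2 ⟨he.2.1, h.hp e he.1⟩
    · intro e he
      rw [mem_insert] at he
      rcases he with rfl | he
      · rw [q1]; exact mem_erase.2 ⟨ob.2, ob.1⟩
      · rw [qn e (hGn e he).1]
        rw [hG, mem_filter] at he
        exact mem_erase.2 ⟨he.2.2, h.hq e he.1⟩
    · intro e he
      rw [mem_insert] at he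
      rcases he with rfl | he
      · rw [p1, q1]; exact hab
      · rw [pn e (hGn e he).1, qn e (hGn e he).1]
        rw [hG, mem_filter] at he
        exact h.ne e he.1
  have hFc : (E.filter fun e => p e = v ∨ q e = v).card = 3 := by
    rw [hF]; exact card_eq_three.2 ⟨e1, e2, e3, h12, h13, h23, rfl⟩
  have hEc : E.card = 3 + G.card := by
    have := card_filter_add_card_filter_not (s := E) (fun e => p e = v ∨ q e = v)
    have hh : (E.filter fun e => ¬ (p e = v ∨ q e = v)) = G := by
      rw [hG]; apply filter_congr; intro e _; exact not_or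
    rw [hh, hFc] at this
    exact this.symm
  have hE'c : (insert e1 G).card = G.card + 1 :=
    card_insert_of_notMem (fun hm => (hGn e1 hm).1 rfl)
  have hS'c : (S.erase v).card + 1 = S.card := card_erase_add_one hv
  have hvU : v ∉ S.erase v := notMem_erase v S
  have hSi : insert v (S.erase v) = S := insert_erase hv
  -- the condition for the new graph
  have hfr : ∀ κ : α → ℕ, 2 * ((S.erase v).image κ).card ≤ (cr E p q κ (S.erase v)).card + 3 + δ := by
    intro κ
    obtain ⟨n, hn⟩ := Infinite.exists_notMem_finset ((S.erase v).image κ)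
    have hk := hc (Function.update κ v n)
    have hkn : ∀ x, x ≠ v → Function.update κ v n x = κ x := by intro x hx; simp [hx]
    have him : S.image (Function.update κ v n) = insert n ((S.erase v).image κ) := by
      rw [← hSi, image_insert, erase_insert hvU]
      congr 1
      · simp
      · apply image_congr
        intro x hx
        refine hkn x ?_
        rintro rfl
        exact hvU (mem_coe.1 hx)
    have hcr : (cr E p q (Function.update κ v n) S) ⊆
        cr E p q κ (S.erase v) ∪ (E.filter fun e => p e = v ∨ q e = v) := by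
      intro e he
      unfold cr at he ⊢
      rw [mem_filter] at he
      rw [mem_union, mem_filter, mem_filter]
      by_cases hev : p e = v ∨ q e = v
      · exact Or.inr ⟨he.1, hev⟩
      · left
        rw [not_or] at hev
        refine ⟨he.1, ⟨mem_erase.2 ⟨hev.1, he.2.1.1⟩, mem_erase.2 ⟨hev.2, he.2.1.2⟩⟩, ?_⟩
        have := he.2.2
        rwa [hkn _ hev.1, hkn _ hev.2] at this
    have h1 := (card_le_card hcr).trans (card_union_le _ _)
    rw [hFc] at h1
    rw [him, card_insert_of_notMem hn] at hk
    omega
  have hcnd : Cnd (S.erase v) (insert e1 G) p' q' δ := by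
    intro κ'
    by_contra hlt
    push Not at hlt
    have hsub : cr E p q κ' (S.erase v) ⊆ cr (insert e1 G) p' q' κ' (S.erase v) := by
      intro e he
      unfold cr at he ⊢
      rw [mem_filter] at he ⊢
      have hpv : p e ≠ v := (mem_erase.1 he.2.1.1).1
      have hqv : q e ≠ v := (mem_erase.1 he.2.1.2).1
      have heG : e ∈ G := by rw [hG, mem_filter]; exact ⟨he.1, hpv, hqv⟩
      rw [pn e (hGn e heG).1, qn e (hGn e heG).1]
      exact ⟨mem_insert_of_mem heG, he.2⟩
    have hk := hfr κ'
    have heq : κ' a = κ' b := by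
      by_contra hne
      have h1 : insert e1 (cr E p q κ' (S.erase v)) ⊆ cr (insert e1 G) p' q' κ' (S.erase v) := by
        apply insert_subset _ hsub
        unfold cr
        rw [mem_filter, p1, q1]
        exact ⟨mem_insert_self _ _, ⟨mem_erase.2 ⟨oa.2, oa.1⟩, mem_erase.2 ⟨ob.2, ob.1⟩⟩, hne⟩
      have h2 : e1 ∉ cr E p q κ' (S.erase v) := by
        unfold cr
        rw [mem_filter]
        rintro ⟨_, ⟨hx, hy⟩, _⟩
        exact m1.2.elim (mem_erase.1 hx).1 (mem_erase.1 hy).1
      have h3 := card_le_card h1
      rw [card_insert_of_notMem h2] at h3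
      omega
    have hle := card_le_card hsub
    have hm : ∀ κ : α → ℕ, (cr E p q κ' (S.erase v)).card + 2 * ((S.erase v).image κ).card ≤
        (cr E p q κ (S.erase v)).card + 2 * ((S.erase v).image κ').card := by
      intro κ
      have := hfr κ
      omega
    have haU : a ∈ S.erase v := mem_erase.2 ⟨oa.2, oa.1⟩
    have hbU : b ∈ S.erase v := mem_erase.2 ⟨ob.2, ob.1⟩
    have htc := min_tc hm (mem_image_of_mem κ' haU)
    have hsubU : cl κ' (S.erase v) (κ' a) ⊆ S.erase v := filter_subset _ _
    refine hno _ (hsubU.trans (erase_subset _ _)) ?_ ?_ htc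
    · intro hRS
      have hv' := hv
      rw [← hRS] at hv'
      exact hvU (hsubU hv')
    · have hpair : ({a, b} : Finset α) ⊆ cl κ' (S.erase v) (κ' a) := by
        intro x hx
        rw [mem_insert, mem_singleton] at hx
        unfold cl
        rw [mem_filter]
        rcases hx with rfl | rfl
        · exact ⟨haU, rfl⟩
        · exact ⟨hbU, heq.symm⟩
      have := card_le_card hpair
      rwa [card_pair hab] at this
  -- lifting the two sets
  have lift : ∀ A' B' : Finset β, A' ⊆ insert e1 G → B' ⊆ insert e1 G → Disjoint A' B' → e1 ∉ B' →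
      ∃ A B : Finset β, A ⊆ E ∧ B ⊆ E ∧ Disjoint A B ∧ nc p q S A ≤ nc p' q' (S.erase v) A' ∧
        nc p q S B ≤ nc p' q' (S.erase v) B' := by
    intro A' B' hA' hB' hd' he1
    have hGE : G ⊆ E := filter_subset _ _
    have hAm : ∀ e ∈ A'.erase e1, e ∈ G := by
      intro e he
      rw [mem_erase] at he
      exact (mem_insert.1 (hA' he.2)).resolve_left he.1
    have hBm : ∀ e ∈ B', e ∈ G := by
      intro e he
      exact (mem_insert.1 (hB' he)).resolve_left (fun hh => he1 (hh ▸ he))
    refine ⟨insert e2 (insert e1 (A'.erase e1)), insert e3 B', ?_, ?_, ?_, ?_, ?_⟩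
    · apply insert_subset m2.1
      apply insert_subset m1.1
      intro e he
      exact hGE (hAm e he)
    · apply insert_subset m3.1
      intro e he
      exact hGE (hBm e he)
    · rw [disjoint_left]
      intro e he hf
      rw [mem_insert, mem_insert] at he
      rw [mem_insert] at hf
      rcases hf with rfl | hf
      · rcases he with he | he | he
        · exact h23 he.symm
        · exact h13 he.symm
        · exact (hGn _ (hAm _ he)).2.2 rfl
      · have hg := hGn e (hBm e hf)
        rcases he with he | he | he
        · exact hg.2.1 he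
        · exact hg.1 he
        · exact (disjoint_left.1 hd') (mem_erase.1 he).2 hf
    · apply nc_le (fun x => if x = v then a else x)
      · intro x hx
        by_cases hxv : x = v
        · simp only [hxv, if_true]; exact mem_erase.2 ⟨oa.2, oa.1⟩
        · simp only [hxv, if_false]; exact mem_erase.2 ⟨hxv, hx⟩
      · intro x _ y _ hxy
        have hva : Relation.EqvGen (ad p q (insert e2 (insert e1 (A'.erase e1)))) v a :=
          B4_o_edge (mem_insert_of_mem (mem_insert_self _ _)) m1.2
        have hvb : Relation.EqvGen (ad p q (insert e2 (insert e1 (A'.erase e1)))) v b :=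
          B4_o_edge (mem_insert_self _ _) m2.2
        have hφ : ∀ z, Relation.EqvGen (ad p q (insert e2 (insert e1 (A'.erase e1)))) z
            (if z = v then a else z) := by
          intro z
          by_cases hz : z = v
          · simp only [hz, if_true]; exact hva
          · simp only [hz, if_false]; exact Relation.EqvGen.refl z
        have hst : ∀ e ∈ A', Relation.EqvGen (ad p q (insert e2 (insert e1 (A'.erase e1)))) (p' e) (q' e) := by
          intro e he
          by_cases hee : e = e1
          · subst hee
            rw [p1, q1]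
            exact Relation.EqvGen.trans _ _ _ (Relation.EqvGen.symm _ _ hva) hvb
          · rw [pn e hee, qn e hee]
            exact B4_edge (mem_insert_of_mem (mem_insert_of_mem (mem_erase.2 ⟨hee, he⟩)))
        exact Relation.EqvGen.trans _ _ _ (hφ x)
          (Relation.EqvGen.trans _ _ _ (B4_ee_mono hst hxy) (Relation.EqvGen.symm _ _ (hφ y)))
    · apply nc_le (fun x => if x = v then c else x)
      · intro x hx
        by_cases hxv : x = v
        · simp only [hxv, if_true]; exact mem_erase.2 ⟨oc.2, oc.1⟩
        · simp only [hxv, if_false]; exact mem_erase.2 ⟨hxv, hx⟩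
      · intro x _ y _ hxy
        have hvc : Relation.EqvGen (ad p q (insert e3 B')) v c :=
          B4_o_edge (mem_insert_self _ _) m3.2
        have hφ : ∀ z, Relation.EqvGen (ad p q (insert e3 B')) z (if z = v then c else z) := by
          intro z
          by_cases hz : z = v
          · simp only [hz, if_true]; exact hvc
          · simp only [hz, if_false]; exact Relation.EqvGen.refl z
        have hst : ∀ e ∈ B', Relation.EqvGen (ad p q (insert e3 B')) (p' e) (q' e) := by
          intro e he
          have hee : e ≠ e1 := fun hh => he1 (hh ▸ he)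
          rw [pn e hee, qn e hee]
          exact B4_edge (mem_insert_of_mem he)
        exact Relation.EqvGen.trans _ _ _ (hφ x)
          (Relation.EqvGen.trans _ _ _ (B4_ee_mono hst hxy) (Relation.EqvGen.symm _ _ (hφ y)))
  obtain ⟨A', B', hA', hB', hd', hn⟩ := ih (S.erase v) (insert e1 G) p' q' δ hmg
    ⟨a, mem_erase.2 ⟨oa.2, oa.1⟩⟩ hcnd (by rw [hE'c, hEc]; omega)
  by_cases he1 : e1 ∈ B'
  · have he1' : e1 ∉ A' := fun hh => (disjoint_left.1 hd') hh he1
    obtain ⟨A, B, h1, h2, h3, h4, h5⟩ := lift B' A' hB' hA' hd'.symm he1'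
    exact ⟨B, A, h2, h1, h3.symm, by omega⟩
  · obtain ⟨A, B, h1, h2, h3, h4, h5⟩ := lift A' B' hA' hB' hd' he1
    exact ⟨A, B, h1, h2, h3, by omega⟩

/-- B4: a vertex of degree three -/
theorem con_split (h : MG S E p q) {δ : ℕ} (hc : Cnd S E p q δ) (hE : E.card + 2 + δ = 2 * S.card)
    (hno : ∀ R, R ⊆ S → R ≠ S → 2 ≤ R.card → ¬ TC E p q R) {v : α} (hv : v ∈ S) (hd : dg E p q v = 3)
    (ih : IH α β (S.card + E.card)) : Con S E p q δ := by
  obtain ⟨e1, e2, e3, h12, h13, h23, hF⟩ := card_eq_three.1 hd
  by_cases hab : B4_o p q v e1 = B4_o p q v e2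
  · by_cases hac : B4_o p q v e1 = B4_o p q v e3
    · exfalso
      have hall : ∀ e ∈ E.filter (fun e => p e = v ∨ q e = v), B4_o p q v e = B4_o p q v e1 := by
        intro e he
        rw [hF, mem_insert, mem_insert, mem_singleton] at he
        rcases he with rfl | rfl | rfl
        · rfl
        · exact hab.symm
        · exact hac.symm
      have m1 : e1 ∈ E.filter fun e => p e = v ∨ q e = v := by rw [hF]; simp
      have hm1 := mem_filter.1 m1
      have hav : B4_o p q v e1 ≠ v := by
        unfold B4_o
        by_cases hp : p e1 = v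
        · rw [if_pos hp]
          exact fun hq => h.ne e1 hm1.1 (hp.trans hq.symm)
        · rw [if_neg hp]
          exact hp
      have haS : B4_o p q v e1 ∈ S := by
        unfold B4_o
        by_cases hp : p e1 = v
        · rw [if_pos hp]
          exact h.hq e1 hm1.1
        · rw [if_neg hp]
          exact h.hp e1 hm1.1
      have hE3 : 3 ≤ E.card := by
        have : (E.filter fun e => p e = v ∨ q e = v).card ≤ E.card := card_le_card (filter_subset _ _)
        unfold dg at hd
        rw [hd] at this
        exact this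
      refine hno {v, B4_o p q v e1} ?_ ?_ ?_ ?_
      · intro x hx
        rw [mem_insert, mem_singleton] at hx
        rcases hx with rfl | rfl
        · exact hv
        · exact haS
      · intro hS
        have := card_pair hav.symm
        rw [hS] at this
        omega
      · rw [card_pair hav.symm]
      · refine ⟨⟨v, mem_insert_self _ _⟩, ?_⟩
        intro κ
        rw [image_insert, image_singleton]
        by_cases hκ : κ v = κ (B4_o p q v e1)
        · rw [hκ, pair_eq_singleton, card_singleton]
          omega
        · rw [card_pair hκ]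
          have hsub : (E.filter fun e => p e = v ∨ q e = v) ⊆ cr E p q κ {v, B4_o p q v e1} := by
            intro e he
            have h1 := hall e he
            have h2 := mem_filter.1 he
            unfold cr
            rw [mem_filter]
            refine ⟨h2.1, ?_⟩
            by_cases hp : p e = v
            · have hq : q e = B4_o p q v e1 := by
                rw [← h1]; unfold B4_o; rw [if_pos hp]
              rw [hp, hq]
              exact ⟨⟨by simp, by simp⟩, hκ⟩
            · have hq : q e = v := h2.2.resolve_left hp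
              have hpe : p e = B4_o p q v e1 := by
                rw [← h1]; unfold B4_o; rw [if_neg hp]
              rw [hpe, hq]
              exact ⟨⟨by simp, by simp⟩, fun hh => hκ hh.symm⟩
          have h3 := card_le_card hsub
          unfold dg at hd
          rw [hd] at h3
          omega
    · exact B4_core h hc hno hv ih h13 h12 h23.symm (by rw [hF]; ext x; simp; tauto) hac
  · exact B4_core h hc hno hv ih h12 h13 h23 hF hab

end Pool.Agent.LibTF47
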