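import Mathlib
import Pool.Agent.LibTF47.Gr
import Pool.Agent.LibTF47.A1
import Pool.Agent.LibTF47.A3
import Pool.Agent.LibTF47.B2
import Pool.Agent.LibTF47.B3
import Pool.Agent.LibTF47.B4

/-! Row B5. Board TF47. Nash-Williams / Tutte for two trees with defect δ. -/

set_option autoImplicit false

namespace Pool.Agent.LibTF47

open Finset
open scoped Classical

variable {α β : Type} {S : Finset α} {E : Finset β} {p q : β → α}

/-- B5: if no edge can be removed and no proper part is 2-tree-connected, the number of edges is known -/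
theorem card_of_min (h : MG S E p q) {δ : ℕ} (hc : Cnd S E p q δ) (hne : E.Nonempty)
    (hr : ∀ e ∈ E, ¬ Cnd S (E.erase e) p q δ) (hno : ∀ R, R ⊆ S → R ≠ S → 2 ≤ R.card → ¬ TC E p q R) :
    E.card + 2 + δ = 2 * S.card := by
  obtain ⟨e, he⟩ := hne
  have h1 := hr e he
  unfold Cnd at h1
  push Not at h1
  obtain ⟨κ, hκ⟩ := h1
  have hcr : cr (E.erase e) p q κ S = (cr E p q κ S).erase e := by
    unfold cr
    ext x
    simp only [mem_filter, mem_erase]
    tauto
  have h2 := hc κ
  have hmem : e ∈ cr E p q κ S := by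
    by_contra hn
    rw [hcr, Finset.erase_eq_of_notMem hn] at hκ
    omega
  have h3 : (cr (E.erase e) p q κ S).card + 1 = (cr E p q κ S).card := by
    rw [hcr]
    exact Finset.card_erase_add_one hmem
  have hm : 2 * (S.image κ).card = (cr E p q κ S).card + 2 + δ := by omega
  have hmin : ∀ κ' : α → ℕ, (cr E p q κ S).card + 2 * (S.image κ').card ≤ (cr E p q κ' S).card + 2 * (S.image κ).card := by
    intro κ'
    have := hc κ'
    omega
  have hme := (mem_filter.1 hmem).2
  have hone : ∀ c ∈ S.image κ, (cl κ S c).card ≤ 1 := by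
    intro c hcc
    have ht := min_tc hmin hcc
    by_contra hn
    refine hno (cl κ S c) (filter_subset _ _) ?_ (by omega) ht
    intro hS
    have ha : p e ∈ cl κ S c := by
      rw [hS]
      exact hme.1.1
    have hb : q e ∈ cl κ S c := by
      rw [hS]
      exact hme.1.2
    exact hme.2 ((mem_filter.1 ha).2.trans (mem_filter.1 hb).2.symm)
  have hinj : ∀ x ∈ S, ∀ y ∈ S, κ x = κ y → x = y := by
    intro x hx y hy hxy
    have := hone (κ x) (mem_image_of_mem κ hx)
    exact Finset.card_le_one.1 this x (mem_filter.2 ⟨hx, rfl⟩) y (mem_filter.2 ⟨hy, hxy.symm⟩)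
  have hcard : (S.image κ).card = S.card := Finset.card_image_of_injOn fun x hx y hy hxy => hinj x hx y hy hxy
  have hall : cr E p q κ S = E := by
    unfold cr
    refine Finset.filter_true_of_mem fun f hf => ⟨⟨h.hp f hf, h.hq f hf⟩, fun hpq => h.ne f hf ?_⟩
    exact hinj _ (h.hp f hf) _ (h.hq f hf) hpq
  rw [hcard, hall] at hm
  omega

private theorem B5_ih : ∀ n : ℕ, IH α β n := by
  intro n
  induction n with
  | zero =>
    intro S E p q δ h hS hc hlt
    omega
  | succ n ih =>
    intro S E p q δ h hS hc hlt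
    by_cases hn : S.card + E.card < n
    · exact ih S E p q δ h hS hc hn
    have hn' : S.card + E.card = n := by omega
    have ih' : IH α β (S.card + E.card) := by
      rw [hn']
      exact ih
    rcases E.eq_empty_or_nonempty with hE | hE
    · obtain ⟨f, hf⟩ := Set.countable_iff_exists_injOn.1 (S.countable_toSet)
      have h1 := hc f
      have h2 : (S.image f).card = S.card := Finset.card_image_of_injOn hf
      have h3 : (cr E p q f S).card = 0 := by
        rw [hE]
        rfl
      refine ⟨∅, ∅, empty_subset _, empty_subset _, disjoint_empty_left _, ?_⟩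
      have h4 := nc_card (S := S) (p := p) (q := q) (∅ : Finset β)
      omega
    by_cases hrem : ∃ e ∈ E, Cnd S (E.erase e) p q δ
    · obtain ⟨e, he, hce⟩ := hrem
      have hlt' : S.card + (E.erase e).card < n := by
        rw [← hn']
        exact Nat.add_lt_add_left (Finset.card_erase_lt_of_mem he) _
      obtain ⟨A, B, hA, hB, hAB, hs'⟩ := ih S (E.erase e) p q δ
        ⟨fun f hf => h.hp f (mem_of_mem_erase hf), fun f hf => h.hq f (mem_of_mem_erase hf),
          fun f hf => h.ne f (mem_of_mem_erase hf)⟩ hS hce hlt'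
      exact ⟨A, B, hA.trans (erase_subset _ _), hB.trans (erase_subset _ _), hAB, hs'⟩
    push Not at hrem
    by_cases hR : ∃ R, R ⊆ S ∧ R ≠ S ∧ 2 ≤ R.card ∧ TC E p q R
    · obtain ⟨R, h1, h2, h3, h4⟩ := hR
      exact con_contract h hc h1 h2 h3 h4 ih'
    push Not at hR
    have hE2 := card_of_min h hc hE hrem hR
    have hsum := hs h S
    have hei : ei E p q S = E := Finset.filter_true_of_mem fun e he => ⟨h.hp e he, h.hq e he⟩
    have heo : (eo E p q S).card = 0 := by
      rw [Finset.card_eq_zero]
      refine Finset.filter_false_of_mem fun e he => ?_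
      have h1 := h.hp e he
      have h2 := h.hq e he
      tauto
    rw [hei, heo] at hsum
    have hv : ∃ v ∈ S, dg E p q v ≤ 3 := by
      by_contra hcon
      push Not at hcon
      have : ∑ f ∈ S, 4 ≤ ∑ f ∈ S, dg E p q f := Finset.sum_le_sum fun f hf => hcon f hf
      rw [Finset.sum_const, smul_eq_mul] at this
      omega
    obtain ⟨v, hv, hd⟩ := hv
    have h2 : 2 ≤ S.card := by
      obtain ⟨e, he⟩ := hE
      exact Finset.one_lt_card.2 ⟨p e, h.hp e he, q e, h.hq e he, h.ne e he⟩
    by_cases hd2 : dg E p q v ≤ 2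
    · exact con_low h hc h2 hv hd2 ih'
    · exact con_split h hc hE2 hR hv (by omega) ih'

/-- B5: two disjoint sets of edges -/
theorem nw (h : MG S E p q) (hS : S.Nonempty) {δ : ℕ} (hc : Cnd S E p q δ) : Con S E p q δ :=
  B5_ih (S.card + E.card + 1) S E p q δ h hS hc (by omega)

end Pool.Agent.LibTF47
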