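import Mathlib
import Pool.Agent.LibTF47.Gr
import Pool.Agent.LibTF47.B1
import Pool.Agent.LibTF47.A1

/-! Row C1. Board TF47. Joins. (path_join) induction on EqvGen: rel: P := {e}: dg {e} z = 1 iff z is an end (p e ≠ q e); refl: P := ∅; symm: the same P; trans: symmDiff of the two sets, dg_symm and parity (omega / Nat.even_add).
(dg_symm) the incident edges of symmDiff A B are the symmDiff of the incident edges: card (symmDiff X Y) + 2 card (X ∩ Y) = card X + card Y. (odd_even) double counting: ∑ z ∈ K, dg H z = 2 * (number of edges of H with p e ∈ K): hs (A1) for the graph (S, H), eo H K = ∅; the sum is even iff the number of odd terms is even. -/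

set_option autoImplicit false

namespace Pool.Agent.LibTF47

open Finset
open scoped Classical

variable {α β : Type} {S : Finset α} {E : Finset β} {p q : β → α}

private theorem C1_dg_eq {X U : Finset β} (hX : X ⊆ U) (z : α) :
    dg X p q z = ∑ e ∈ U, if e ∈ X ∧ (p e = z ∨ q e = z) then 1 else 0 := by
  rw [← Finset.card_filter]
  unfold dg
  congr 1
  ext e
  simp only [Finset.mem_filter]
  constructor
  · rintro ⟨h1, h2⟩
    exact ⟨hX h1, h1, h2⟩
  · rintro ⟨_, h1, h2⟩
    exact ⟨h1, h2⟩

private theorem C1_dg_symm (A B : Finset β) (z : α) :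
    Even (dg (symmDiff A B) p q z + dg A p q z + dg B p q z) := by
  have hs1 : symmDiff A B ⊆ A ∪ B := by
    intro e he
    rw [Finset.mem_symmDiff] at he
    rw [Finset.mem_union]
    rcases he with he | he
    · exact Or.inl he.1
    · exact Or.inr he.1
  rw [C1_dg_eq hs1 z, C1_dg_eq (Finset.subset_union_left (s₁ := A) (s₂ := B)) z,
    C1_dg_eq (Finset.subset_union_right (s₁ := A) (s₂ := B)) z, ← Finset.sum_add_distrib,
    ← Finset.sum_add_distrib]
  refine Finset.even_sum _ fun e _ => ?_
  by_cases ha : e ∈ A <;> by_cases hb : e ∈ B <;> by_cases hz : (p e = z ∨ q e = z) <;>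
    simp [Finset.mem_symmDiff, ha, hb, hz]

/-- C1: a set of edges with odd degrees exactly at the two given vertices -/
theorem path_join {A : Finset β} (hA : ∀ e ∈ A, p e ≠ q e) {x y : α} (hxy : Relation.EqvGen (ad p q A) x y) :
    ∃ P, P ⊆ A ∧ ∀ z, Even (dg P p q z + (if z = x then 1 else 0) + (if z = y then 1 else 0)) := by
  induction hxy with
  | rel x y h =>
    obtain ⟨e, heA, he⟩ := h
    refine ⟨{e}, Finset.singleton_subset_iff.2 heA, ?_⟩
    intro z
    have hd : dg {e} p q z = if (p e = z ∨ q e = z) then 1 else 0 := by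
      unfold dg
      rw [Finset.filter_singleton]
      split_ifs <;> simp
    rw [hd]
    have hne := hA e heA
    rcases he with ⟨h1, h2⟩ | ⟨h1, h2⟩
    · subst h1 h2
      by_cases hz1 : z = p e
      · have hz2 : z ≠ q e := fun h => hne (hz1.symm.trans h)
        rw [if_pos (Or.inl hz1.symm), if_pos hz1, if_neg hz2]
        exact ⟨1, rfl⟩
      · by_cases hz2 : z = q e
        · rw [if_pos (Or.inr hz2.symm), if_neg hz1, if_pos hz2]
          exact ⟨1, rfl⟩
        · rw [if_neg (fun h => h.elim (fun h => hz1 h.symm) (fun h => hz2 h.symm)), if_neg hz1, if_neg hz2]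
          exact ⟨0, rfl⟩
    · subst h1 h2
      by_cases hz1 : z = p e
      · have hz2 : z ≠ q e := fun h => hne (hz1.symm.trans h)
        rw [if_pos (Or.inl hz1.symm), if_pos hz1, if_neg hz2]
        exact ⟨1, rfl⟩
      · by_cases hz2 : z = q e
        · rw [if_pos (Or.inr hz2.symm), if_neg hz1, if_pos hz2]
          exact ⟨1, rfl⟩
        · rw [if_neg (fun h => h.elim (fun h => hz1 h.symm) (fun h => hz2 h.symm)), if_neg hz1, if_neg hz2]
          exact ⟨0, rfl⟩
  | refl x =>
    refine ⟨∅, Finset.empty_subset _, ?_⟩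
    intro z
    have hd : dg (∅ : Finset β) p q z = 0 := by
      unfold dg
      simp
    rw [hd]
    by_cases hz : z = x
    · rw [if_pos hz]
      exact ⟨1, rfl⟩
    · rw [if_neg hz]
      exact ⟨0, rfl⟩
  | symm x y _ ih =>
    obtain ⟨P, hP, h⟩ := ih
    refine ⟨P, hP, ?_⟩
    intro z
    have := h z
    rw [Nat.even_iff] at this ⊢
    omega
  | trans x y w _ _ ih1 ih2 =>
    obtain ⟨P1, hP1, h1⟩ := ih1
    obtain ⟨P2, hP2, h2⟩ := ih2
    refine ⟨symmDiff P1 P2, ?_, ?_⟩
    · intro e he
      rw [Finset.mem_symmDiff] at he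
      rcases he with he | he
      · exact hP1 he.1
      · exact hP2 he.1
    · intro z
      have a1 := h1 z
      have a2 := h2 z
      have a3 := C1_dg_symm (p := p) (q := q) P1 P2 z
      rw [Nat.even_iff] at a1 a2 a3 ⊢
      omega

/-- C1: the number of vertices of odd degree of a class is even -/
theorem odd_even (h : MG S E p q) {H : Finset β} (hH : H ⊆ E) {K : Finset α} (hK : K ⊆ S)
    (hc : ∀ e ∈ H, (p e ∈ K ↔ q e ∈ K)) : Even (K.filter fun z => ¬ Even (dg H p q z)).card := by
  have hG : MG S H p q := ⟨fun e he => h.hp e (hH he), fun e he => h.hq e (hH he), fun e he => h.ne e (hH he)⟩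
  have h0 : eo H p q K = ∅ := by
    unfold eo
    rw [Finset.filter_eq_empty_iff]
    intro e he hh
    have := hc e he
    rcases hh with hh | hh
    · exact hh.2 (this.1 hh.1)
    · exact hh.1 (this.2 hh.2)
  have h1 := hs hG K
  rw [h0, Finset.card_empty] at h1
  have h2 : Even (∑ f ∈ K, dg H p q f) := by
    rw [h1]
    exact ⟨(ei H p q K).card, by omega⟩
  rw [Finset.even_sum_iff_even_card_odd] at h2
  have h3 : (K.filter fun z => ¬ Even (dg H p q z)) = K.filter fun z => Odd (dg H p q z) := by
    apply Finset.filter_congr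
    intro z _
    exact Nat.not_even_iff_odd
  rw [h3]
  exact h2

/-- C1: degrees of a symmetric difference -/
theorem dg_symm (A B : Finset β) (z : α) : Even (dg (symmDiff A B) p q z + dg A p q z + dg B p q z) :=
  C1_dg_symm A B z

end Pool.Agent.LibTF47
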