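import Mathlib
import Pool.Agent.LibTF47.Gr
import Pool.Agent.LibTF47.B1
import Pool.Agent.LibTF47.C1

/-! Row C2. Board TF47. A connected spanning subgraph with at most two odd vertices: two almost disjoint trees, one of them can be made
connected, and the other one corrects the parities. -/

set_option autoImplicit false

namespace Pool.Agent.LibTF47

open Finset
open scoped Classical

variable {α β : Type} {S : Finset α} {E : Finset β} {p q : β → α}

private theorem c2_mono {r r' : α → α → Prop} (h : ∀ x y, r x y → Relation.EqvGen r' x y) {x y : α}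
    (hxy : Relation.EqvGen r x y) : Relation.EqvGen r' x y := by
  induction hxy with
  | rel x y h1 => exact h x y h1
  | refl x => exact Relation.EqvGen.refl x
  | symm x y _ ih => exact Relation.EqvGen.symm _ _ ih
  | trans x y z _ _ ih1 ih2 => exact Relation.EqvGen.trans _ _ _ ih1 ih2

private theorem c2_split {r : α → α → Prop} (a b : α) {x y : α}
    (hxy : Relation.EqvGen (fun x y => r x y ∨ (x = a ∧ y = b) ∨ (x = b ∧ y = a)) x y) :
    Relation.EqvGen r x y ∨ (Relation.EqvGen r x a ∧ Relation.EqvGen r b y) ∨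
      (Relation.EqvGen r x b ∧ Relation.EqvGen r a y) := by
  induction hxy with
  | rel x y h1 =>
    rcases h1 with h1 | ⟨rfl, rfl⟩ | ⟨rfl, rfl⟩
    · exact Or.inl (Relation.EqvGen.rel _ _ h1)
    · exact Or.inr (Or.inl ⟨Relation.EqvGen.refl _, Relation.EqvGen.refl _⟩)
    · exact Or.inr (Or.inr ⟨Relation.EqvGen.refl _, Relation.EqvGen.refl _⟩)
  | refl x => exact Or.inl (Relation.EqvGen.refl x)
  | symm x y _ ih =>
    rcases ih with ih | ⟨h1, h2⟩ | ⟨h1, h2⟩
    · exact Or.inl ih.symm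
    · exact Or.inr (Or.inr ⟨h2.symm, h1.symm⟩)
    · exact Or.inr (Or.inl ⟨h2.symm, h1.symm⟩)
  | trans x y z _ _ ih1 ih2 =>
    rcases ih1 with ih1 | ⟨h1, h2⟩ | ⟨h1, h2⟩
    · rcases ih2 with ih2 | ⟨h3, h4⟩ | ⟨h3, h4⟩
      · exact Or.inl (Relation.EqvGen.trans _ _ _ ih1 ih2)
      · exact Or.inr (Or.inl ⟨Relation.EqvGen.trans _ _ _ ih1 h3, h4⟩)
      · exact Or.inr (Or.inr ⟨Relation.EqvGen.trans _ _ _ ih1 h3, h4⟩)
    · rcases ih2 with ih2 | ⟨h3, h4⟩ | ⟨h3, h4⟩
      · exact Or.inr (Or.inl ⟨h1, Relation.EqvGen.trans _ _ _ h2 ih2⟩)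
      · exact Or.inr (Or.inl ⟨h1, h4⟩)
      · exact Or.inl (Relation.EqvGen.trans _ _ _ h1 h4)
    · rcases ih2 with ih2 | ⟨h3, h4⟩ | ⟨h3, h4⟩
      · exact Or.inr (Or.inr ⟨h1, Relation.EqvGen.trans _ _ _ h2 ih2⟩)
      · exact Or.inl (Relation.EqvGen.trans _ _ _ h1 h4)
      · exact Or.inr (Or.inr ⟨h1, h4⟩)

private theorem c2_cls {r : α → α → Prop} {x y : α} (hy : y ∈ S) :
    (S.filter fun b => Relation.EqvGen r x b) = (S.filter fun b => Relation.EqvGen r y b) ↔
      Relation.EqvGen r x y := by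
  constructor
  · intro h
    have h1 : y ∈ S.filter fun b => Relation.EqvGen r y b :=
      mem_filter.2 ⟨hy, Relation.EqvGen.refl y⟩
    rw [← h] at h1
    exact (mem_filter.1 h1).2
  · intro h
    ext z
    rw [mem_filter, mem_filter]
    exact ⟨fun ⟨h1, h2⟩ => ⟨h1, Relation.EqvGen.trans _ _ _ h.symm h2⟩,
      fun ⟨h1, h2⟩ => ⟨h1, Relation.EqvGen.trans _ _ _ h h2⟩⟩

/-- removing one edge raises the number of classes by at most one -/
private theorem c2_erase (B : Finset β) (e : β) : nc p q S (B.erase e) ≤ nc p q S B + 1 := by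
  set r := ad p q (B.erase e) with hr
  set r2 : α → α → Prop := fun x y => r x y ∨ (x = p e ∧ y = q e) ∨ (x = q e ∧ y = p e) with hr2
  have hB : ∀ x y, Relation.EqvGen (ad p q B) x y → Relation.EqvGen r2 x y := by
    intro x y hxy
    refine c2_mono (fun x y h1 => Relation.EqvGen.rel _ _ ?_) hxy
    obtain ⟨f, hf, h2⟩ := h1
    by_cases hfe : f = e
    · subst hfe
      rcases h2 with ⟨h3, h4⟩ | ⟨h3, h4⟩
      · exact Or.inr (Or.inl ⟨h3.symm, h4.symm⟩)
      · exact Or.inr (Or.inr ⟨h4.symm, h3.symm⟩)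
    · exact Or.inl ⟨f, mem_erase.2 ⟨hfe, hf⟩, h2⟩
  set I := S.image fun a => S.filter fun b => Relation.EqvGen r a b with hI
  set Ca := S.filter fun b => Relation.EqvGen r (p e) b with hCa
  have h1 : (I.erase Ca).card ≤ nc p q S B := by
    unfold nc
    refine Finset.card_le_card_of_injOn
      (fun C => S.filter fun y => ∃ x ∈ C, Relation.EqvGen (ad p q B) x y) ?_ ?_
    · intro C hC
      obtain ⟨x, hx, rfl⟩ := mem_image.1 (mem_erase.1 (Finset.mem_coe.1 hC)).2
      refine mem_image.2 ⟨x, hx, ?_⟩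
      ext y
      rw [mem_filter, mem_filter]
      constructor
      · rintro ⟨hy, h2⟩
        exact ⟨hy, x, mem_filter.2 ⟨hx, Relation.EqvGen.refl x⟩, h2⟩
      · rintro ⟨hy, z, hz, h2⟩
        refine ⟨hy, Relation.EqvGen.trans _ _ _ ?_ h2⟩
        refine c2_mono (fun x y h3 => Relation.EqvGen.rel _ _ ?_) (mem_filter.1 hz).2
        obtain ⟨f, hf, h4⟩ := h3
        exact ⟨f, (mem_erase.1 hf).2, h4⟩
    · intro C hC D hD hCD
      obtain ⟨hC1, hC2⟩ := mem_erase.1 (Finset.mem_coe.1 hC)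
      obtain ⟨hD1, hD2⟩ := mem_erase.1 (Finset.mem_coe.1 hD)
      obtain ⟨x, hx, rfl⟩ := mem_image.1 hC2
      obtain ⟨y, hy, rfl⟩ := mem_image.1 hD2
      have hxa : ¬ Relation.EqvGen r x (p e) := by
        intro h2
        apply hC1
        rw [hCa]
        ext z
        rw [mem_filter, mem_filter]
        exact ⟨fun ⟨h3, h4⟩ => ⟨h3, Relation.EqvGen.trans _ _ _ h2.symm h4⟩,
          fun ⟨h3, h4⟩ => ⟨h3, Relation.EqvGen.trans _ _ _ h2 h4⟩⟩
      have hya : ¬ Relation.EqvGen r (p e) y := by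
        intro h2
        apply hD1
        rw [hCa]
        exact ((c2_cls hy).2 h2).symm
      have h5 : y ∈ S.filter fun z => ∃ x ∈ (S.filter fun b => Relation.EqvGen r y b),
          Relation.EqvGen (ad p q B) x z :=
        mem_filter.2 ⟨hy, y, mem_filter.2 ⟨hy, Relation.EqvGen.refl y⟩, Relation.EqvGen.refl y⟩
      have hCD' : (S.filter fun z => ∃ x_1 ∈ (S.filter fun b => Relation.EqvGen r x b),
          Relation.EqvGen (ad p q B) x_1 z) = S.filter fun z =>
          ∃ x ∈ (S.filter fun b => Relation.EqvGen r y b), Relation.EqvGen (ad p q B) x z := hCD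
      rw [← hCD'] at h5
      obtain ⟨_, z, hz, h6⟩ := mem_filter.1 h5
      have h7 : Relation.EqvGen r2 x y := by
        refine Relation.EqvGen.trans _ _ _ ?_ (hB _ _ h6)
        exact c2_mono (fun x y h3 => Relation.EqvGen.rel _ _ (Or.inl h3)) (mem_filter.1 hz).2
      rcases c2_split (p e) (q e) h7 with h8 | ⟨h8, _⟩ | ⟨_, h8⟩
      · exact (c2_cls hy).2 h8
      · exact absurd h8 hxa
      · exact absurd h8 hya
  have h2 : nc p q S (B.erase e) = I.card := rfl
  have h3 := Finset.pred_card_le_card_erase (s := I) (a := Ca)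
  omega

private theorem c2_pos (hS : S.Nonempty) (A : Finset β) : 1 ≤ nc p q S A := by
  unfold nc
  exact Finset.card_pos.2 (hS.image _)

/-- C2: one of the two sets can be made connected -/
theorem con_one (h : MG S E p q) (hS : S.Nonempty) (hcn : ∀ x ∈ S, ∀ y ∈ S, Relation.EqvGen (ad p q E) x y)
    (hc : Con S E p q 2) : ∃ A B : Finset β, A ⊆ E ∧ B ⊆ E ∧ Disjoint A B ∧
      (∀ x ∈ S, ∀ y ∈ S, Relation.EqvGen (ad p q A) x y) ∧ nc p q S B ≤ 3 := by
  obtain ⟨A, B, hA, hB, hAB, hn⟩ := hc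
  have hA1 := c2_pos (p := p) (q := q) hS A
  have hB1 := c2_pos (p := p) (q := q) hS B
  by_cases h1 : nc p q S A ≤ 1
  · exact ⟨A, B, hA, hB, hAB, (nc_one hS).1 h1, by omega⟩
  by_cases h2 : nc p q S B ≤ 1
  · exact ⟨B, A, hB, hA, hAB.symm, (nc_one hS).1 h2, by omega⟩
  have h3 : nc p q S A = 2 := by omega
  have h4 : nc p q S B = 2 := by omega
  -- an edge between two classes
  obtain ⟨e, he, hne⟩ : ∃ e ∈ E, ¬ Relation.EqvGen (ad p q A) (p e) (q e) := by
    by_contra hcon
    push Not at hcon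
    apply h1
    rw [nc_one hS]
    intro x hx y hy
    refine c2_mono (fun x y h5 => ?_) (hcn x hx y hy)
    obtain ⟨f, hf, h6⟩ := h5
    rcases h6 with ⟨rfl, rfl⟩ | ⟨rfl, rfl⟩
    · exact hcon f hf
    · exact (hcon f hf).symm
  have hpe := h.hp e he
  have hqe := h.hq e he
  -- there are only the classes of the two ends
  have hcl : ∀ x ∈ S, Relation.EqvGen (ad p q A) x (p e) ∨ Relation.EqvGen (ad p q A) x (q e) := by
    intro x hx
    by_contra hcon
    rw [not_or] at hcon
    have h5 : 2 < nc p q S A := by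
      unfold nc
      rw [Finset.two_lt_card]
      refine ⟨_, mem_image_of_mem _ hx, _, mem_image_of_mem _ hpe, _, mem_image_of_mem _ hqe, ?_, ?_, ?_⟩
      · exact fun h6 => hcon.1 ((c2_cls hpe).1 h6)
      · exact fun h6 => hcon.2 ((c2_cls hqe).1 h6)
      · exact fun h6 => hne ((c2_cls hqe).1 h6)
    omega
  refine ⟨insert e A, B.erase e, Finset.insert_subset he hA, (Finset.erase_subset _ _).trans hB, ?_, ?_, ?_⟩
  · rw [Finset.disjoint_insert_left]
    exact ⟨Finset.notMem_erase e B, hAB.mono_right (Finset.erase_subset _ _)⟩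
  · have hm : ∀ x y, Relation.EqvGen (ad p q A) x y → Relation.EqvGen (ad p q (insert e A)) x y := by
      intro x y hxy
      refine c2_mono (fun x y h5 => Relation.EqvGen.rel _ _ ?_) hxy
      obtain ⟨f, hf, h6⟩ := h5
      exact ⟨f, mem_insert_of_mem hf, h6⟩
    have hee : Relation.EqvGen (ad p q (insert e A)) (p e) (q e) :=
      Relation.EqvGen.rel _ _ ⟨e, mem_insert_self e A, Or.inl ⟨rfl, rfl⟩⟩
    have hall : ∀ x ∈ S, Relation.EqvGen (ad p q (insert e A)) x (p e) := by
      intro x hx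
      rcases hcl x hx with h5 | h5
      · exact hm _ _ h5
      · exact Relation.EqvGen.trans _ _ _ (hm _ _ h5) hee.symm
    intro x hx y hy
    exact Relation.EqvGen.trans _ _ _ (hall x hx) (hall y hy).symm
  · have := c2_erase (S := S) (p := p) (q := q) B e
    omega

private theorem c2_dg {A J : Finset β} (hd : Disjoint A J) (z : α) :
    dg (A ∪ J) p q z = dg A p q z + dg J p q z := by
  unfold dg
  rw [Finset.filter_union, Finset.card_union_of_disjoint]
  exact Finset.disjoint_filter_filter hd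

/-- C2: at most two odd vertices -/
theorem two_odd (h : MG S E p q) (hS : S.Nonempty) (hcn : ∀ x ∈ S, ∀ y ∈ S, Relation.EqvGen (ad p q E) x y)
    (hc : Con S E p q 2) : ∃ H, H ⊆ E ∧ (∀ x ∈ S, ∀ y ∈ S, Relation.EqvGen (ad p q H) x y) ∧
      (S.filter fun z => ¬ Even (dg H p q z)).card ≤ 2 := by
  obtain ⟨A, B, hA, hB, hAB, hconn, hnB⟩ := con_one h hS hcn hc
  obtain ⟨J, hJ, hmin⟩ := Finset.exists_min_image B.powerset
    (fun J => (S.filter fun z => ¬ Even (dg (A ∪ J) p q z)).card) ⟨∅, Finset.empty_mem_powerset B⟩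
  have hJB : J ⊆ B := Finset.mem_powerset.1 hJ
  refine ⟨A ∪ J, Finset.union_subset hA (hJB.trans hB), ?_, ?_⟩
  · intro x hx y hy
    refine c2_mono (fun x y h5 => Relation.EqvGen.rel _ _ ?_) (hconn x hx y hy)
    obtain ⟨f, hf, h6⟩ := h5
    exact ⟨f, mem_union_left _ hf, h6⟩
  by_contra hcon
  push Not at hcon
  have hev : Even (S.filter fun z => ¬ Even (dg (A ∪ J) p q z)).card := by
    refine odd_even h (Finset.union_subset hA (hJB.trans hB)) (Finset.Subset.refl S) fun e he => ?_
    have heE : e ∈ E := (Finset.union_subset hA (hJB.trans hB)) he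
    exact ⟨fun _ => h.hq e heE, fun _ => h.hp e heE⟩
  set O := S.filter fun z => ¬ Even (dg (A ∪ J) p q z) with hO
  have h4 : 3 < O.card := by
    obtain ⟨k, hk⟩ := hev
    omega
  obtain ⟨x, hx, y, hy, hxy, hcl⟩ := Finset.exists_ne_map_eq_of_card_lt_of_maps_to
    (s := O) (t := S.image fun a => S.filter fun b => Relation.EqvGen (ad p q B) a b)
    (lt_of_le_of_lt hnB h4)
    (f := fun a => S.filter fun b => Relation.EqvGen (ad p q B) a b)
    (fun a ha => mem_image_of_mem _ (mem_filter.1 ha).1)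
  have hxS : x ∈ S := (mem_filter.1 hx).1
  have hyS : y ∈ S := (mem_filter.1 hy).1
  have hxyB : Relation.EqvGen (ad p q B) x y := (c2_cls hyS).1 hcl
  obtain ⟨P, hPB, hP⟩ := path_join (fun e he => h.ne e (hB he)) hxyB
  have hJ' : symmDiff J P ⊆ B := by
    intro f hf
    rcases Finset.mem_symmDiff.1 hf with ⟨h5, _⟩ | ⟨h5, _⟩
    · exact hJB h5
    · exact hPB h5
  have hlt : (S.filter fun z => ¬ Even (dg (A ∪ symmDiff J P) p q z)).card < O.card := by
    refine lt_of_le_of_lt (Finset.card_le_card ?_) (Finset.card_erase_lt_of_mem hx)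
    intro z hz
    obtain ⟨hzS, hzo⟩ := mem_filter.1 hz
    rw [c2_dg (hAB.mono_right hJ')] at hzo
    have h5 := dg_symm (p := p) (q := q) J P z
    have h6 := hP z
    have h7 := c2_dg (p := p) (q := q) (hAB.mono_right hJB) z
    rw [Finset.mem_erase]
    by_cases hzx : z = x
    · exfalso
      subst hzx
      have h8 := (mem_filter.1 hx).2
      rw [h7] at h8
      rw [if_pos rfl, if_neg hxy, add_zero, Nat.even_add] at h6
      rw [Nat.even_add, Nat.even_add] at h5
      rw [Nat.even_add] at h8 hzo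
      have h9 := Nat.not_even_one
      tauto
    · refine ⟨hzx, ?_⟩
      by_cases hzy : z = y
      · rw [hzy]
        exact hy
      · rw [if_neg hzx, if_neg hzy, add_zero, add_zero] at h6
        rw [hO, mem_filter, h7]
        refine ⟨hzS, ?_⟩
        rw [Nat.even_add, Nat.even_add] at h5
        rw [Nat.even_add] at hzo ⊢
        tauto
  have := hmin (symmDiff J P) (Finset.mem_powerset.2 hJ')
  omega

end Pool.Agent.LibTF47
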