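import Mathlib
import Pool.Agent.LibTF47.Gr
import Pool.Agent.LibTF47.C1
import Pool.Agent.LibTF47.C2

/-! Row C3. Board TF47. (rem_even) e = ab ∈ H, H' := H.erase e. K := S.filter (EqvGen (ad H') a ·). If b ∉ K: edges of H' do not cross K, odd_even for H', K: but dg H' is odd exactly at a in K (dg H a - 1; b ∉ K): contradiction. So a ~ b in H' and every H-step can be replaced.
(rem_odd) dg H s is odd and ≥ 2, so ≥ 3: two different edges e, e' ∈ H at s, other ends u, u'. Suppose neither can be removed. C := class of u for H.erase e; s ∉ C (otherwise e is replaceable). odd_even for C: dg (H.erase e) is odd in C at: u if u ≠ t (dg H u even), t if t ∈ C, t ≠ u; if u = t it is even at u. So in every case t ∈ C: t ~ u in H.erase e.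
The same for e': t ~ u' in H.erase e', and the class C' of u' for H.erase e' does not contain s, so no edge used in C' has the end s: t ~ u' in H.erase e as well (induction on EqvGen for points of C'). e' ∈ H.erase e: s ~ u' ~ t ~ u in H.erase e: contradiction (then e is replaceable).
(two_ends) two_odd (C2): take H of minimal card among the H ⊆ E which connect S and have ≤ 2 odd vertices in S. The number of odd vertices is even (odd_even, K := S). H ≠ ∅ (2 ≤ |S|). If it is 0: rem_even for any e: H.erase e has ≤ 2 odd vertices (the ends of e): contradiction. If it is 2: {s, t}. If dg H s ≥ 2: rem_odd: e = su: the odd vertices of H.erase e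
are {s, t} Δ {s, u}, at most 2: contradiction. dg H s is odd, so it is 1. The same for t (rem_odd with s, t exchanged). -/

set_option autoImplicit false

namespace Pool.Agent.LibTF47

open Finset
open scoped Classical

variable {α β : Type} {S : Finset α} {E : Finset β} {p q : β → α}

private lemma c3_replace {H : Finset β} {e : β}
    (hr : Relation.EqvGen (ad p q (H.erase e)) (p e) (q e)) {x y : α}
    (h : Relation.EqvGen (ad p q H) x y) : Relation.EqvGen (ad p q (H.erase e)) x y := by
  induction h with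
  | rel a b hab =>
    obtain ⟨f, hf, h1⟩ := hab
    by_cases hfe : f = e
    · subst hfe
      rcases h1 with ⟨h1, h2⟩ | ⟨h1, h2⟩
      · rw [h1, h2] at hr; exact hr
      · rw [h1, h2] at hr; exact Relation.EqvGen.symm _ _ hr
    · exact Relation.EqvGen.rel _ _ ⟨f, Finset.mem_erase.2 ⟨hfe, hf⟩, h1⟩
  | refl a => exact Relation.EqvGen.refl _
  | symm a b _ ih => exact Relation.EqvGen.symm _ _ ih
  | trans a b c _ _ ih1 ih2 => exact Relation.EqvGen.trans _ _ _ ih1 ih2

private lemma c3_dg {H : Finset β} {e : β} (he : e ∈ H) (z : α) :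
    dg H p q z = dg (H.erase e) p q z + (if p e = z ∨ q e = z then 1 else 0) := by
  unfold dg
  rw [Finset.filter_erase]
  by_cases hz : p e = z ∨ q e = z
  · have hm : e ∈ H.filter fun e => p e = z ∨ q e = z := Finset.mem_filter.2 ⟨he, hz⟩
    rw [if_pos hz, Finset.card_erase_add_one hm]
  · have hm : e ∉ H.filter fun e => p e = z ∨ q e = z := fun hm => hz (Finset.mem_filter.1 hm).2
    rw [if_neg hz, Finset.erase_eq_of_notMem hm, add_zero]

private lemma c3_closed (h : MG S E p q) {A : Finset β} (hA : A ⊆ E) (a : α) :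
    ∀ e ∈ A, (p e ∈ (S.filter fun z => Relation.EqvGen (ad p q A) a z) ↔
      q e ∈ (S.filter fun z => Relation.EqvGen (ad p q A) a z)) := by
  intro e he
  rw [Finset.mem_filter, Finset.mem_filter]
  have h1 : Relation.EqvGen (ad p q A) (p e) (q e) := Relation.EqvGen.rel _ _ ⟨e, he, Or.inl ⟨rfl, rfl⟩⟩
  constructor
  · rintro ⟨-, h2⟩
    exact ⟨h.hq e (hA he), Relation.EqvGen.trans _ _ _ h2 h1⟩
  · rintro ⟨-, h2⟩
    exact ⟨h.hp e (hA he), Relation.EqvGen.trans _ _ _ h2 (Relation.EqvGen.symm _ _ h1)⟩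

private lemma c3_single {K : Finset α} {D : α → ℕ} {a : α} (ha : a ∈ K)
    (hK : ∀ z ∈ K, (¬ Even (D z) ↔ z = a)) : ¬ Even (K.filter fun z => ¬ Even (D z)).card := by
  have h1 : (K.filter fun z => ¬ Even (D z)) = {a} := by
    ext z
    rw [Finset.mem_filter, Finset.mem_singleton]
    constructor
    · rintro ⟨h2, h3⟩
      exact (hK z h2).1 h3
    · rintro rfl
      exact ⟨ha, (hK z ha).2 rfl⟩
  rw [h1, Finset.card_singleton]
  decide

/-- C3: all degrees even: every edge can be removed -/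
theorem rem_even (h : MG S E p q) {H : Finset β} (hH : H ⊆ E) (hcn : ∀ x ∈ S, ∀ y ∈ S, Relation.EqvGen (ad p q H) x y)
    (hev : ∀ z ∈ S, Even (dg H p q z)) {e : β} (he : e ∈ H) :
    ∀ x ∈ S, ∀ y ∈ S, Relation.EqvGen (ad p q (H.erase e)) x y := by
  intro x hx y hy
  refine c3_replace ?_ (hcn x hx y hy)
  by_contra hno
  have hsub : H.erase e ⊆ E := (Finset.erase_subset e H).trans hH
  have hcl := c3_closed h hsub (p e)
  have hodd := odd_even h hsub (Finset.filter_subset (fun z => Relation.EqvGen (ad p q (H.erase e)) (p e) z) S) hcl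
  refine c3_single (a := p e) ?_ ?_ hodd
  · rw [Finset.mem_filter]
    exact ⟨h.hp e (hH he), Relation.EqvGen.refl _⟩
  · intro z hz
    rw [Finset.mem_filter] at hz
    have hzq : q e ≠ z := by
      intro hq
      exact hno (hq ▸ hz.2)
    have hd := c3_dg (p := p) (q := q) he z
    have hev' := hev z hz.1
    constructor
    · intro hod
      by_contra hne
      rw [if_neg (by rintro (h1 | h1); exacts [hne h1.symm, hzq h1]), add_zero] at hd
      rw [hd] at hev'
      exact hod hev'
    · rintro rfl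
      rw [if_pos (Or.inl rfl)] at hd
      rw [hd, Nat.even_add_one] at hev'
      exact hev'

private lemma c3_oth (h : MG S E p q) {H : Finset β} (hH : H ⊆ E) {s : α} {e : β} (he : e ∈ H)
    (hes : p e = s ∨ q e = s) :
    ∃ u, u ∈ S ∧ u ≠ s ∧ ((p e = s ∧ q e = u) ∨ (p e = u ∧ q e = s)) := by
  have hne := h.ne e (hH he)
  rcases hes with h1 | h1
  · exact ⟨q e, h.hq e (hH he), fun h2 => hne (h1.trans h2.symm), Or.inl ⟨h1, rfl⟩⟩
  · exact ⟨p e, h.hp e (hH he), fun h2 => hne (h2.trans h1.symm), Or.inr ⟨rfl, h1⟩⟩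

private lemma c3_key (h : MG S E p q) {H : Finset β} (hH : H ⊆ E)
    {s t : α} (hev : ∀ z ∈ S, (Even (dg H p q z) ↔ z ≠ s ∧ z ≠ t)) {e : β} (he : e ∈ H) {u : α}
    (hu : u ∈ S) (hus : u ≠ s) (hends : (p e = s ∧ q e = u) ∨ (p e = u ∧ q e = s))
    (hno : ¬ Relation.EqvGen (ad p q (H.erase e)) u s) :
    Relation.EqvGen (ad p q (H.erase e)) u t := by
  by_contra hnt
  have hsub : H.erase e ⊆ E := (Finset.erase_subset e H).trans hH
  have hcl := c3_closed h hsub u
  have hodd := odd_even h hsub (Finset.filter_subset (fun z => Relation.EqvGen (ad p q (H.erase e)) u z) S) hcl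
  refine c3_single (a := u) ?_ ?_ hodd
  · rw [Finset.mem_filter]
    exact ⟨hu, Relation.EqvGen.refl _⟩
  · intro z hz
    rw [Finset.mem_filter] at hz
    have hzs : z ≠ s := by
      rintro rfl
      exact hno hz.2
    have hzt : z ≠ t := by
      rintro rfl
      exact hnt hz.2
    have hd := c3_dg (p := p) (q := q) he z
    have hev' := (hev z hz.1).2 ⟨hzs, hzt⟩
    constructor
    · intro hod
      by_contra hne
      rw [if_neg, add_zero] at hd
      · rw [hd] at hev'
        exact hod hev'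
      · rcases hends with ⟨h1, h2⟩ | ⟨h1, h2⟩
        · rw [h1, h2]
          rintro (h3 | h3)
          exacts [hzs h3.symm, hne h3.symm]
        · rw [h1, h2]
          rintro (h3 | h3)
          exacts [hne h3.symm, hzs h3.symm]
    · rintro rfl
      rw [if_pos] at hd
      · rw [hd, Nat.even_add_one] at hev'
        exact hev'
      · rcases hends with ⟨h1, h2⟩ | ⟨h1, h2⟩
        · exact Or.inr h2
        · exact Or.inl h1

private lemma c3_away {H : Finset β} {s : α} {e e' : β} (hes : p e = s ∨ q e = s) {x y : α}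
    (hxy : Relation.EqvGen (ad p q (H.erase e')) x y) :
    ¬ Relation.EqvGen (ad p q (H.erase e')) x s → Relation.EqvGen (ad p q (H.erase e)) x y := by
  induction hxy with
  | rel a b hab =>
    intro hno
    have hab' := hab
    obtain ⟨f, hf, h1⟩ := hab
    by_cases hfe : f = e
    · exfalso
      subst hfe
      have h2 : a = s ∨ b = s := by
        rcases h1 with ⟨h3, h4⟩ | ⟨h3, h4⟩
        · rw [h3, h4] at hes; exact hes
        · rw [h3, h4] at hes; exact hes.symm
      rcases h2 with rfl | rfl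
      · exact hno (Relation.EqvGen.refl _)
      · exact hno (Relation.EqvGen.rel _ _ hab')
    · exact Relation.EqvGen.rel _ _ ⟨f, Finset.mem_erase.2 ⟨hfe, (Finset.mem_erase.1 hf).2⟩, h1⟩
  | refl a => exact fun _ => Relation.EqvGen.refl _
  | symm a b hab ih =>
    intro hno
    exact Relation.EqvGen.symm _ _ (ih fun h1 => hno (Relation.EqvGen.trans _ _ _ (Relation.EqvGen.symm _ _ hab) h1))
  | trans a b c hab _ ih1 ih2 =>
    intro hno
    exact Relation.EqvGen.trans _ _ _ (ih1 hno)
      (ih2 fun h1 => hno (Relation.EqvGen.trans _ _ _ hab h1))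

/-- C3: two odd vertices `s`, `t`: if `s` has degree at least two, some edge at `s` can be removed -/
theorem rem_odd (h : MG S E p q) {H : Finset β} (hH : H ⊆ E) (hcn : ∀ x ∈ S, ∀ y ∈ S, Relation.EqvGen (ad p q H) x y)
    {s t : α} (hs : s ∈ S) (ht : t ∈ S) (hst : s ≠ t) (hev : ∀ z ∈ S, (Even (dg H p q z) ↔ z ≠ s ∧ z ≠ t))
    (h2 : 2 ≤ dg H p q s) :
    ∃ e ∈ H, (p e = s ∨ q e = s) ∧ ∀ x ∈ S, ∀ y ∈ S, Relation.EqvGen (ad p q (H.erase e)) x y := by
  have hodd : ¬ Even (dg H p q s) := fun h1 => ((hev s hs).1 h1).1 rfl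
  obtain ⟨e, he, e', he', hne⟩ := Finset.one_lt_card.1 (show 1 < (H.filter fun e => p e = s ∨ q e = s).card from h2)
  rw [Finset.mem_filter] at he he'
  obtain ⟨u, hu, hus, hends⟩ := c3_oth h hH he.1 he.2
  obtain ⟨u', hu', hus', hends'⟩ := c3_oth h hH he'.1 he'.2
  have good : ∀ {f : β} {w : α}, f ∈ H → ((p f = s ∧ q f = w) ∨ (p f = w ∧ q f = s)) →
      Relation.EqvGen (ad p q (H.erase f)) w s →
      ∀ x ∈ S, ∀ y ∈ S, Relation.EqvGen (ad p q (H.erase f)) x y := by
    intro f w hf hfe hws x hx y hy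
    refine c3_replace ?_ (hcn x hx y hy)
    rcases hfe with ⟨h3, h4⟩ | ⟨h3, h4⟩
    · rw [h3, h4]; exact Relation.EqvGen.symm _ _ hws
    · rw [h3, h4]; exact hws
  by_cases c1 : Relation.EqvGen (ad p q (H.erase e)) u s
  · exact ⟨e, he.1, he.2, good he.1 hends c1⟩
  by_cases c2 : Relation.EqvGen (ad p q (H.erase e')) u' s
  · exact ⟨e', he'.1, he'.2, good he'.1 hends' c2⟩
  exfalso
  have k1 := c3_key h hH hev he.1 hu hus hends c1
  have k2 := c3_key h hH hev he'.1 hu' hus' hends' c2
  have k3 := c3_away he.2 k2 c2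
  apply c1
  refine Relation.EqvGen.trans _ _ _ k1 (Relation.EqvGen.trans _ _ _ (Relation.EqvGen.symm _ _ k3) ?_)
  refine Relation.EqvGen.rel _ _ ⟨e', Finset.mem_erase.2 ⟨hne.symm, he'.1⟩, ?_⟩
  exact hends'.symm.imp id And.symm |>.elim (fun h3 => Or.inl h3) (fun h3 => Or.inr h3.symm)

private lemma c3_ends (h : MG S E p q) {H : Finset β} (hH : H ⊆ E)
    (hmin : ∀ H', H' ⊆ E → (∀ x ∈ S, ∀ y ∈ S, Relation.EqvGen (ad p q H') x y) →
      (S.filter fun z => ¬ Even (dg H' p q z)).card ≤ 2 → H.card ≤ H'.card)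
    (hcn : ∀ x ∈ S, ∀ y ∈ S, Relation.EqvGen (ad p q H) x y)
    {s t : α} (hs : s ∈ S) (ht : t ∈ S) (hst : s ≠ t) (hev : ∀ z ∈ S, (Even (dg H p q z) ↔ z ≠ s ∧ z ≠ t)) :
    dg H p q s = 1 := by
  by_contra h1
  have hodd : ¬ Even (dg H p q s) := fun h1 => ((hev s hs).1 h1).1 rfl
  have h0 : dg H p q s ≠ 0 := by
    intro h0
    rw [h0] at hodd
    exact hodd Even.zero
  obtain ⟨e, he, hes, hcn'⟩ := rem_odd h hH hcn hs ht hst hev (by omega)
  obtain ⟨u, hu, hus, hends⟩ := c3_oth h hH he hes
  have hsub : (S.filter fun z => ¬ Even (dg (H.erase e) p q z)) ⊆ {t, u} := by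
    intro z hz
    rw [Finset.mem_filter] at hz
    rw [Finset.mem_insert, Finset.mem_singleton]
    by_contra hcon
    push Not at hcon
    have hd := c3_dg (p := p) (q := q) he z
    by_cases hzs : z = s
    · subst hzs
      rw [if_pos hes] at hd
      rw [hd, Nat.even_add_one, not_not] at hodd
      exact hz.2 hodd
    · have h3 := (hev z hz.1).2 ⟨hzs, hcon.1⟩
      rw [if_neg, add_zero] at hd
      · rw [hd] at h3
        exact hz.2 h3
      · rcases hends with ⟨h4, h5⟩ | ⟨h4, h5⟩
        · rw [h4, h5]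
          rintro (h6 | h6)
          exacts [hzs h6.symm, hcon.2 h6.symm]
        · rw [h4, h5]
          rintro (h6 | h6)
          exacts [hcon.2 h6.symm, hzs h6.symm]
  have h3 := hmin (H.erase e) ((Finset.erase_subset e H).trans hH) hcn'
    ((Finset.card_le_card hsub).trans Finset.card_le_two)
  have h4 := Finset.card_erase_lt_of_mem he
  omega

/-- C3: the spanning trail -/
theorem two_ends (h : MG S E p q) (h2 : 2 ≤ S.card) (hcn : ∀ x ∈ S, ∀ y ∈ S, Relation.EqvGen (ad p q E) x y)
    (hc : Con S E p q 2) : ∃ H, H ⊆ E ∧ (∀ x ∈ S, ∀ y ∈ S, Relation.EqvGen (ad p q H) x y) ∧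
      ∃ s ∈ S, ∃ t ∈ S, s ≠ t ∧ dg H p q s = 1 ∧ dg H p q t = 1 ∧ ∀ z ∈ S, z ≠ s → z ≠ t → Even (dg H p q z) := by
  obtain ⟨a, ha, b, hb, hab⟩ := Finset.one_lt_card.1 (show 1 < S.card from h2)
  obtain ⟨H0, hH0, hcn0, hod0⟩ := two_odd h ⟨a, ha⟩ hcn hc
  obtain ⟨H, hHm, hmin'⟩ := Finset.exists_min_image
    (E.powerset.filter fun H => (∀ x ∈ S, ∀ y ∈ S, Relation.EqvGen (ad p q H) x y) ∧
      (S.filter fun z => ¬ Even (dg H p q z)).card ≤ 2) Finset.card
    ⟨H0, Finset.mem_filter.2 ⟨Finset.mem_powerset.2 hH0, hcn0, hod0⟩⟩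
  rw [Finset.mem_filter, Finset.mem_powerset] at hHm
  obtain ⟨hH, hcnH, hodH⟩ := hHm
  have hmin : ∀ H', H' ⊆ E → (∀ x ∈ S, ∀ y ∈ S, Relation.EqvGen (ad p q H') x y) →
      (S.filter fun z => ¬ Even (dg H' p q z)).card ≤ 2 → H.card ≤ H'.card := by
    intro H' h3 h4 h5
    exact hmin' H' (Finset.mem_filter.2 ⟨Finset.mem_powerset.2 h3, h4, h5⟩)
  have hev2 := odd_even h hH (Finset.Subset.refl S)
    (fun e he => ⟨fun _ => h.hq e (hH he), fun _ => h.hp e (hH he)⟩)
  have hcase : (S.filter fun z => ¬ Even (dg H p q z)).card = 0 ∨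
      (S.filter fun z => ¬ Even (dg H p q z)).card = 2 := by
    obtain ⟨k, hk⟩ := hev2
    omega
  rcases hcase with h0 | h3
  · exfalso
    have hall : ∀ z ∈ S, Even (dg H p q z) := by
      intro z hz
      by_contra hz'
      have h4 := Finset.card_eq_zero.1 h0
      have h5 : z ∈ (S.filter fun z => ¬ Even (dg H p q z)) := Finset.mem_filter.2 ⟨hz, hz'⟩
      rw [h4] at h5
      exact Finset.notMem_empty z h5
    have hne : H.Nonempty := by
      by_contra hemp
      rw [Finset.not_nonempty_iff_eq_empty] at hemp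
      apply hab
      have h4 := hcnH a ha b hb
      rw [hemp] at h4
      clear hall hmin hmin' hcnH hev2 hodH h0 ha hb hab
      induction h4 with
      | rel x y hxy =>
        obtain ⟨e, he, -⟩ := hxy
        exact absurd he (Finset.notMem_empty e)
      | refl x => rfl
      | symm x y _ ih => exact ih.symm
      | trans x y z _ _ ih1 ih2 => exact ih1.trans ih2
    obtain ⟨e, he⟩ := hne
    have h4 := rem_even h hH hcnH hall he
    have hsub : (S.filter fun z => ¬ Even (dg (H.erase e) p q z)) ⊆ {p e, q e} := by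
      intro z hz
      rw [Finset.mem_filter] at hz
      rw [Finset.mem_insert, Finset.mem_singleton]
      by_contra hcon
      push Not at hcon
      have hd := c3_dg (p := p) (q := q) he z
      have h5 := hall z hz.1
      rw [if_neg (by rintro (h6 | h6); exacts [hcon.1 h6.symm, hcon.2 h6.symm]), add_zero] at hd
      rw [hd] at h5
      exact hz.2 h5
    have h5 := hmin (H.erase e) ((Finset.erase_subset e H).trans hH) h4
      ((Finset.card_le_card hsub).trans Finset.card_le_two)
    have h6 := Finset.card_erase_lt_of_mem he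
    omega
  · obtain ⟨s, t, hst, hf⟩ := Finset.card_eq_two.1 h3
    have hmem : ∀ z ∈ S, (¬ Even (dg H p q z) ↔ z = s ∨ z = t) := by
      intro z hz
      have h4 : z ∈ (S.filter fun z => ¬ Even (dg H p q z)) ↔ z ∈ ({s, t} : Finset α) := by rw [hf]
      rw [Finset.mem_filter, Finset.mem_insert, Finset.mem_singleton] at h4
      exact ⟨fun h5 => h4.1 ⟨hz, h5⟩, fun h5 => (h4.2 h5).2⟩
    have hs : s ∈ S := by
      have h4 : s ∈ (S.filter fun z => ¬ Even (dg H p q z)) := by
        rw [hf]; exact Finset.mem_insert_self s {t}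
      exact (Finset.mem_filter.1 h4).1
    have ht : t ∈ S := by
      have h4 : t ∈ (S.filter fun z => ¬ Even (dg H p q z)) := by
        rw [hf]; exact Finset.mem_insert_of_mem (Finset.mem_singleton_self t)
      exact (Finset.mem_filter.1 h4).1
    have hev : ∀ z ∈ S, (Even (dg H p q z) ↔ z ≠ s ∧ z ≠ t) := by
      intro z hz
      have h4 := hmem z hz
      constructor
      · intro h5
        exact ⟨fun h6 => h4.2 (Or.inl h6) h5, fun h6 => h4.2 (Or.inr h6) h5⟩
      · rintro ⟨h5, h6⟩
        by_contra h7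
        rcases h4.1 h7 with h8 | h8
        exacts [h5 h8, h6 h8]
    have hev' : ∀ z ∈ S, (Even (dg H p q z) ↔ z ≠ t ∧ z ≠ s) := fun z hz => (hev z hz).trans and_comm
    exact ⟨H, hH, hcnH, s, hs, t, ht, hst, c3_ends h hH hmin hcnH hs ht hst hev,
      c3_ends h hH hmin hcnH ht hs hst.symm hev', fun z hz h4 h5 => (hev z hz).2 ⟨h4, h5⟩⟩

end Pool.Agent.LibTF47
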