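import Mathlib
import Pool.Agent.LibTF47.Gr
import Pool.Agent.LibGP88.Defs

/-! # Board TF47: the facet graph of a 3-polytope (definitions)

Points: `Ed 3`. `V` is the vertex set of a 3-polytope (`Gen V`), facets `fcs V`, edges `edg V` (two-element sets of vertices).
The facet graph is the multigraph with vertex set `fcs V`, edge set `edg V` and ends `pe V`, `qe V`. -/

set_option autoImplicit false

namespace Pool.Agent.LibTF47

open Finset Pool.Agent.LibPol19 Pool.Agent.LibTet88 Pool.Agent.LibGP88
open scoped Classical

/-- the two facets containing an edge -/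
def Two (V : Finset (Ed 3)) (e F F' : Finset (Ed 3)) : Prop :=
  F ≠ F' ∧ Fct V F ∧ Fct V F' ∧ F ∩ F' = e ∧ ∀ G, Fct V G → e ⊆ G → G = F ∨ G = F'

/-- the first facet containing the edge `e` -/
noncomputable def pe (V : Finset (Ed 3)) (e : Finset (Ed 3)) : Finset (Ed 3) :=
  if h : ∃ F F', Two V e F F' then h.choose else ∅

/-- the second facet containing the edge `e` -/
noncomputable def qe (V : Finset (Ed 3)) (e : Finset (Ed 3)) : Finset (Ed 3) :=
  if h : ∃ F F', Two V e F F' then h.choose_spec.choose else ∅

/-- the edges between members of `R` -/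
noncomputable abbrev eiV (V : Finset (Ed 3)) (R : Finset (Finset (Ed 3))) : Finset (Finset (Ed 3)) := ei (edg V) (pe V) (qe V) R

/-- the sets of the facets at a vertex of degree three -/
def Tr (V : Finset (Ed 3)) (w : Finset (Finset (Ed 3))) : Prop := ∃ v ∈ V, (nb V v).card = 3 ∧ w = fat V v

/-- the vertices all of whose facets are in `R` -/
noncomputable def Vi (V : Finset (Ed 3)) (R : Finset (Finset (Ed 3))) : Finset (Ed 3) := V.filter fun v => fat V v ⊆ R

/-- the vertices of degree three all of whose facets are in `R` -/
noncomputable def tri (V : Finset (Ed 3)) (R : Finset (Finset (Ed 3))) : Finset (Ed 3) :=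
  V.filter fun v => (nb V v).card = 3 ∧ fat V v ⊆ R

/-- the number of ends, not in `Vi V R`, of the edges inside `R` -/
noncomputable def inc (V : Finset (Ed 3)) (R : Finset (Finset (Ed 3))) : ℕ :=
  ∑ e ∈ eiV V R, (e.filter fun u => ¬ fat V u ⊆ R).card

/-- the number of edges of `g` at `u` which leave `R` -/
noncomputable def bc (V : Finset (Ed 3)) (R : Finset (Finset (Ed 3))) (g : Finset (Ed 3)) (u : Ed 3) : ℕ :=
  ((bdy V R).filter fun e => e ⊆ g ∧ u ∈ e).card

/-- the number of edges of `g` which leave `R` -/
noncomputable def bn (V : Finset (Ed 3)) (R : Finset (Finset (Ed 3))) (g : Finset (Ed 3)) : ℕ :=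
  ((bdy V R).filter fun e => e ⊆ g).card

/-- the number of corners of `g` with exactly one leaving edge -/
noncomputable def a1 (V : Finset (Ed 3)) (R : Finset (Finset (Ed 3))) (g : Finset (Ed 3)) : ℕ :=
  (g.filter fun u => bc V R g u = 1).card

/-- the number of corners of `g` with two leaving edges -/
noncomputable def a2 (V : Finset (Ed 3)) (R : Finset (Finset (Ed 3))) (g : Finset (Ed 3)) : ℕ :=
  (g.filter fun u => bc V R g u = 2).card

/-- the number of classes of vertices connected by the edges in `A` -/
noncomputable def nv (V : Finset (Ed 3)) (A : Finset (Finset (Ed 3))) : ℕ := ncl V fun x y => ({x, y} : Finset (Ed 3)) ∈ A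

/-- connected sets of facets -/
abbrev CnV (V : Finset (Ed 3)) (R : Finset (Finset (Ed 3))) : Prop := Cn (edg V) (pe V) (qe V) R

end Pool.Agent.LibTF47
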