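import Mathlib
import Pool.Agent.LibTF47.Pl
import Pool.Agent.LibTF47.A1
import Pool.Agent.LibGP88.Q2
import Pool.Agent.LibGP88.E1
import Pool.Agent.LibGP88.N1
import Pool.Agent.LibGP88.N4
import Pool.Agent.LibGP88.K2

/-! Row P0. Board TF47. The facet graph of a 3-polytope with triangle-free graph.
(ends_spec) edge_two (LibGP88.Q2) gives the existence; Exists.choose_spec; for G = F, F': e = F ∩ F' ⊆ F. (mg_fcs) ends_spec, mem_fcs (LibGP88.D2). (ei_iff) e ∈ eiV V R iff e ∈ edg V and every facet containing e is in R.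
(eo_bdy) (R.filter (e ⊆ ·)) ⊆ {pe e, qe e}: card 1 iff exactly one of pe e, qe e is in R. (dg_card) the edges with an end F are the edges ⊆ F: fct_edges (N4). (c4) bdy V R is nonempty (bdy_empty, R ≠ fcs V), four_bdy (N4), eo_bdy.
(tr_fat) v of degree 3: fat_card (E1): three facets; the edges inside fat V v: both facets contain v, so e = pe e ∩ qe e contains v; conversely every edge {v, u} has both facets in fat V v: the edges at v are {v, u}, u ∈ nb V v: three of them. -/

set_option autoImplicit false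

namespace Pool.Agent.LibTF47

open Finset Pool.Agent.LibPol19 Pool.Agent.LibTet88 Pool.Agent.LibGP88
open scoped Classical

private theorem P0_mem_ei {α β : Type} {E : Finset β} {p q : β → α} {R : Finset α} {e : β} :
    e ∈ ei E p q R ↔ e ∈ E ∧ p e ∈ R ∧ q e ∈ R := by
  unfold ei
  rw [Finset.mem_filter]

private theorem P0_mem_eo {α β : Type} {E : Finset β} {p q : β → α} {R : Finset α} {e : β} :
    e ∈ eo E p q R ↔ e ∈ E ∧ ((p e ∈ R ∧ q e ∉ R) ∨ (p e ∉ R ∧ q e ∈ R)) := by
  unfold eo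
  rw [Finset.mem_filter]

private theorem P0_dg {α β : Type} {E A : Finset β} {p q : β → α} {f : α}
    (h : ∀ e, e ∈ A ↔ e ∈ E ∧ (p e = f ∨ q e = f)) : dg E p q f = A.card := by
  unfold dg
  congr 1
  ext e
  rw [Finset.mem_filter, h]

/-- P0: the two facets of an edge -/
theorem ends_spec {V : Finset (Ed 3)} (hV : Gen V) {e : Finset (Ed 3)} (he : e ∈ edg V) :
    pe V e ≠ qe V e ∧ Fct V (pe V e) ∧ Fct V (qe V e) ∧ pe V e ∩ qe V e = e ∧
      ∀ G, Fct V G → (e ⊆ G ↔ G = pe V e ∨ G = qe V e) := by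
  have h : ∃ F F', Two V e F F' := edge_two hV he
  have h1 : Two V e (pe V e) (qe V e) := by
    unfold pe qe
    rw [dif_pos h, dif_pos h]
    exact h.choose_spec.choose_spec
  obtain ⟨h2, h3, h4, h5, h6⟩ := h1
  have h7 : e ⊆ pe V e := by
    have h9 : pe V e ∩ qe V e ⊆ pe V e := Finset.inter_subset_left
    rwa [h5] at h9
  have h8 : e ⊆ qe V e := by
    have h9 : pe V e ∩ qe V e ⊆ qe V e := Finset.inter_subset_right
    rwa [h5] at h9
  refine ⟨h2, h3, h4, h5, fun G hG => ⟨h6 G hG, fun h9 => ?_⟩⟩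
  rcases h9 with h9 | h9
  · rw [h9]
    exact h7
  · rw [h9]
    exact h8

/-- P0: the facet graph -/
theorem mg_fcs {V : Finset (Ed 3)} (hV : Gen V) : MG (fcs V) (edg V) (pe V) (qe V) := by
  exact ⟨fun e he => mem_fcs.2 (ends_spec hV he).2.1, fun e he => mem_fcs.2 (ends_spec hV he).2.2.1,
    fun e he => (ends_spec hV he).1⟩

/-- P0: the edges inside a set of facets -/
theorem ei_iff {V : Finset (Ed 3)} (hV : Gen V) {R : Finset (Finset (Ed 3))} {e : Finset (Ed 3)} :
    e ∈ eiV V R ↔ e ∈ edg V ∧ ∀ G, Fct V G → e ⊆ G → G ∈ R := by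
  unfold eiV
  rw [P0_mem_ei]
  constructor
  · rintro ⟨h1, h2, h3⟩
    refine ⟨h1, fun G hG he => ?_⟩
    rcases ((ends_spec hV h1).2.2.2.2 G hG).1 he with h | h
    · rw [h]
      exact h2
    · rw [h]
      exact h3
  · rintro ⟨h1, h2⟩
    obtain ⟨-, h4, h5, -, h7⟩ := ends_spec hV h1
    exact ⟨h1, h2 _ h4 ((h7 _ h4).2 (Or.inl rfl)), h2 _ h5 ((h7 _ h5).2 (Or.inr rfl))⟩

/-- P0: the edges leaving a set of facets -/
theorem eo_bdy {V : Finset (Ed 3)} (hV : Gen V) {R : Finset (Finset (Ed 3))} (hR : R ⊆ fcs V) :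
    eo (edg V) (pe V) (qe V) R = bdy V R := by
  ext e
  unfold bdy
  rw [P0_mem_eo, Finset.mem_filter]
  refine and_congr_right fun he => ?_
  obtain ⟨h1, -, -, -, h5⟩ := ends_spec hV he
  have h6 : R.filter (fun F => e ⊆ F) = ({pe V e, qe V e} : Finset (Finset (Ed 3))).filter (fun F => F ∈ R) := by
    ext G
    rw [Finset.mem_filter, Finset.mem_filter, Finset.mem_insert, Finset.mem_singleton]
    constructor
    · rintro ⟨hG, h7⟩
      exact ⟨(h5 G (mem_fcs.1 (hR hG))).1 h7, hG⟩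
    · rintro ⟨h7, hG⟩
      exact ⟨hG, (h5 G (mem_fcs.1 (hR hG))).2 h7⟩
  rw [h6]
  by_cases hp : pe V e ∈ R <;> by_cases hq : qe V e ∈ R <;>
    simp [Finset.filter_insert, Finset.filter_singleton, hp, hq, h1]

/-- P0: degrees in the facet graph -/
theorem dg_card {V : Finset (Ed 3)} (hV : Gen V) {F : Finset (Ed 3)} (hF : Fct V F) :
    dg (edg V) (pe V) (qe V) F = F.card := by
  rw [← fct_edges hV hF]
  refine P0_dg fun e => ?_
  rw [Finset.mem_filter]
  refine and_congr_right fun he => ?_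
  rw [(ends_spec hV he).2.2.2.2 F hF]
  exact or_congr eq_comm eq_comm

/-- P0: four edges leave every proper set -/
theorem c4_fcs {V : Finset (Ed 3)} (hV : Gen V) (hT : TF V) : C4 (fcs V) (edg V) (pe V) (qe V) := by
  intro R hR hne hS
  have h1 : ∀ F ∈ R, Fct V F := fun F hF => mem_fcs.1 (hR hF)
  rw [eo_bdy hV hR]
  refine four_bdy hV hT h1 ?_
  rw [Finset.nonempty_iff_ne_empty]
  exact fun h => hS (bdy_empty hV h1 hne h)

/-- P0: the facets at a vertex of degree three -/
theorem tr_fat {V : Finset (Ed 3)} (hV : Gen V) {v : Ed 3} (hv : v ∈ V) (h3 : (nb V v).card = 3) :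
    fat V v ⊆ fcs V ∧ (fat V v).card = 3 ∧ (ei (edg V) (pe V) (qe V) (fat V v)).card = 3 := by
  refine ⟨Finset.filter_subset _ _, (fat_card hV hv).trans h3, ?_⟩
  have h1 : ei (edg V) (pe V) (qe V) (fat V v) = (nb V v).image fun u => ({v, u} : Finset (Ed 3)) := by
    ext e
    rw [P0_mem_ei, Finset.mem_image]
    constructor
    · rintro ⟨h4, h5, h6⟩
      rw [mem_fat] at h5 h6
      have h7 : v ∈ e := by
        rw [← (ends_spec hV h4).2.2.2.1]
        exact Finset.mem_inter.2 ⟨h5.2, h6.2⟩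
      obtain ⟨x, y, rfl, hxy⟩ := edg_pair h4
      have h8 := (mem_edg.1 h4).1
      rw [Finset.mem_insert, Finset.mem_singleton] at h7
      rcases h7 with h7 | h7
      · refine ⟨y, Finset.mem_filter.2 ⟨h8 (Finset.mem_insert_of_mem (Finset.mem_singleton_self _)), ?_⟩, ?_⟩
        · rw [h7]
          exact hxy
        · rw [h7]
      · refine ⟨x, Finset.mem_filter.2 ⟨h8 (Finset.mem_insert_self _ _), ?_⟩, ?_⟩
        · rw [h7]
          refine pair_mem_edg.1 ?_
          rw [Finset.pair_comm]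
          exact h4
        · rw [h7]
          exact Finset.pair_comm _ _
    · rintro ⟨u, hu, rfl⟩
      have h4 : ({v, u} : Finset (Ed 3)) ∈ edg V := pair_mem_edg.2 (Finset.mem_filter.1 hu).2
      obtain ⟨-, h5, h6, -, h8⟩ := ends_spec hV h4
      exact ⟨h4, mem_fat.2 ⟨h5, (h8 _ h5).2 (Or.inl rfl) (Finset.mem_insert_self _ _)⟩,
        mem_fat.2 ⟨h6, (h8 _ h6).2 (Or.inr rfl) (Finset.mem_insert_self _ _)⟩⟩
  rw [h1, Finset.card_image_of_injOn, h3]
  intro u hu u' hu' h
  have h2 : u ≠ v := fun h4 => (Finset.mem_filter.1 (Finset.mem_coe.1 hu)).2.1 h4.symm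
  have h4 : u ∈ ({v, u'} : Finset (Ed 3)) := by
    have h5 : ({v, u} : Finset (Ed 3)) = {v, u'} := h
    rw [← h5]
    exact Finset.mem_insert_of_mem (Finset.mem_singleton_self _)
  rw [Finset.mem_insert, Finset.mem_singleton] at h4
  rcases h4 with h4 | h4
  · exact absurd h4 h2
  · exact h4

/-- P0: the excess of a set of facets -/
theorem xx_card {V : Finset (Ed 3)} (hV : Gen V) {R : Finset (Finset (Ed 3))} (hR : R ⊆ fcs V) :
    xx (edg V) (pe V) (qe V) R = ∑ F ∈ R, ((F.card : ℤ) - 4) := by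
  unfold xx
  refine Finset.sum_congr rfl fun F hF => ?_
  rw [dg_card hV (mem_fcs.1 (hR hF))]

end Pool.Agent.LibTF47
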