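import Mathlib
import Pool.Agent.LibTF47.Pl
import Pool.Agent.LibTF47.P0
import Pool.Agent.LibTF47.B1
import Pool.Agent.LibGP88.K3
import Pool.Agent.LibGP88.Q3

/-! Row D0. Board TF47. The graph of the facets not containing w: vertices Fw V w, edges Est V w (edges on no facet through w), ends pe, qe.
(mg_fw) ends_spec (P0); e ∈ Est: both facets do not contain w. (fw_eq) fcs V \ fat V w = Fw V w. (cnd_of) not Wk: for all κ: 2 |κ(Fw)| ≤ |cr (edg V) κ Fw| + 4, and cr (edg V) κ Fw = cr (Est V w) κ Fw: an edge whose two facets do not contain w is in Est (ends_spec: every facet containing e is pe e or qe e).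
(two_le_fw) F ∈ Fw V w (fw_nonempty, LibGP88.Q3). |F| ≥ 4 (fct_four, N4): F has ≥ 4 edges (fct_edges). If Fw = {F}: the other facet of each edge of F contains w; these facets are different for different edges (inter_card: two facets have at most 2 common vertices, an edge has 2), so |fat V w| ≥ 4: contradiction to fat_card, h3.
(fw_conn) K := (Fw V w).filter (EqvGen (ad pe qe (Est V w)) F ·), a set of facets. bdy V K ⊆ Ze V w: e ∈ bdy V K has one facet in K and the other one not in K; if the other one did not contain w then e ∈ Est and it would be in K; so it contains w, and w ∉ e (a member of K contains e): e ∈ Ze V w. bdy V K ≠ ∅ (bdy_empty (N4); K is nonempty and ≠ fcs V).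
bdy V K has an even number of edges at every vertex (bdy_even, N1), Ze V w exactly two (z_two, K2): so the set W of the vertices of members of bdy V K is closed: z_conn (K3): W = Zw V w, and bdy V K = Ze V w (both Ze-edges at every x ∈ Zw are in bdy V K). The same for K' := the class of G. If G ∉ K then K ∩ K' = ∅. Take e ∈ Ze V w (nonempty): bd_one (LibGP88.Q3):
exactly one member of Fw V w contains e, but e ∈ bdy V K and e ∈ bdy V K' give a member in K and a member in K': contradiction. -/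

set_option autoImplicit false

namespace Pool.Agent.LibTF47

open Finset Pool.Agent.LibPol19 Pool.Agent.LibTet88 Pool.Agent.LibGP88
open scoped Classical

/-- D0: the facets not containing `w` -/
theorem fw_eq {V : Finset (Ed 3)} {w : Ed 3} : fcs V \ fat V w = Fw V w := by
  ext F
  rw [Finset.mem_sdiff, mem_fcs, mem_fat, mem_Fw]
  tauto

private theorem D0_cr {α β : Type} {E : Finset β} {p q : β → α} {κ : α → ℕ} {R : Finset α} {e : β} :
    e ∈ cr E p q κ R ↔ e ∈ E ∧ (p e ∈ R ∧ q e ∈ R) ∧ κ (p e) ≠ κ (q e) := by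
  unfold cr
  rw [Finset.mem_filter]

private theorem D0_sdiff {V : Finset (Ed 3)} {w : Ed 3} (i : DecidableEq (Finset (Ed 3))) :
    @SDiff.sdiff _ (@Finset.instSDiff _ i) (fcs V) (fat V w) = Fw V w := by
  ext F
  rw [Finset.mem_sdiff, mem_fcs, mem_fat, mem_Fw]
  tauto

private theorem D0_est {V : Finset (Ed 3)} (hV : Gen V) {w : Ed 3} {e : Finset (Ed 3)} (he : e ∈ edg V)
    (h1 : w ∉ pe V e) (h2 : w ∉ qe V e) : e ∈ Est V w := by
  unfold Est
  rw [Finset.mem_filter]
  refine ⟨he, fun A hA hwA heA => ?_⟩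
  rcases ((ends_spec hV he).2.2.2.2 A hA).1 heA with h | h
  · exact h1 (h ▸ hwA)
  · exact h2 (h ▸ hwA)

/-- D0: the graph of the facets not containing `w` -/
theorem mg_fw {V : Finset (Ed 3)} (hV : Gen V) {w : Ed 3} : MG (Fw V w) (Est V w) (pe V) (qe V) := by
  have key : ∀ e ∈ Est V w, pe V e ≠ qe V e ∧ pe V e ∈ Fw V w ∧ qe V e ∈ Fw V w := by
    intro e he
    unfold Est at he
    rw [Finset.mem_filter] at he
    obtain ⟨he, hno⟩ := he
    obtain ⟨h1, h2, h3, h4, h5⟩ := ends_spec hV he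
    refine ⟨h1, mem_Fw.2 ⟨h2, fun h => ?_⟩, mem_Fw.2 ⟨h3, fun h => ?_⟩⟩
    · exact hno _ h2 h ((h5 _ h2).2 (Or.inl rfl))
    · exact hno _ h3 h ((h5 _ h3).2 (Or.inr rfl))
  exact ⟨fun e he => (key e he).2.1, fun e he => (key e he).2.2, fun e he => (key e he).1⟩

/-- D0: the partition condition -/
theorem cnd_of {V : Finset (Ed 3)} (hV : Gen V) {w : Ed 3}
    (h : ¬ Wk (fcs V) (edg V) (pe V) (qe V) (fat V w)) : Cnd (Fw V w) (Est V w) (pe V) (qe V) 2 := by
  intro κ
  by_contra hcon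
  apply h
  refine ⟨κ, ?_⟩
  rw [D0_sdiff]
  have hle : (cr (edg V) (pe V) (qe V) κ (Fw V w)).card ≤ (cr (Est V w) (pe V) (qe V) κ (Fw V w)).card := by
    apply Finset.card_le_card
    intro e he
    rw [D0_cr] at he ⊢
    exact ⟨D0_est hV he.1 (mem_Fw.1 he.2.1.1).2 (mem_Fw.1 he.2.1.2).2, he.2⟩
  omega

private theorem D0_other {V : Finset (Ed 3)} (hV : Gen V) {F e : Finset (Ed 3)} (hF : Fct V F) (he : e ∈ edg V)
    (heF : e ⊆ F) : ∃ H, Fct V H ∧ H ≠ F ∧ e ⊆ H ∧ (∀ G, Fct V G → e ⊆ G → G = F ∨ G = H) ∧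
      ((pe V e = F ∧ qe V e = H) ∨ (pe V e = H ∧ qe V e = F)) := by
  obtain ⟨h1, h2, h3, h4, h5⟩ := ends_spec hV he
  rcases (h5 F hF).1 heF with h | h
  · refine ⟨qe V e, h3, fun h' => h1 (h.symm.trans h'.symm), (h5 _ h3).2 (Or.inr rfl), ?_, Or.inl ⟨h.symm, rfl⟩⟩
    intro G hG heG
    rw [h]
    exact (h5 G hG).1 heG
  · refine ⟨pe V e, h2, fun h' => h1 (h'.trans h), (h5 _ h2).2 (Or.inl rfl), ?_, Or.inr ⟨rfl, h.symm⟩⟩
    intro G hG heG
    rw [h]
    exact ((h5 G hG).1 heG).symm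

/-- D0: at least two facets do not contain `w` -/
theorem two_le_fw {V : Finset (Ed 3)} (hV : Gen V) (hT : TF V) {w : Ed 3} (hw : w ∈ V) (h3 : (nb V w).card = 3) :
    2 ≤ (Fw V w).card := by
  obtain ⟨F, hF⟩ := fw_nonempty hV hw
  by_contra hlt
  have hone : ∀ G ∈ Fw V w, G = F := by
    intro G hG
    by_contra hne
    exact hlt (Finset.one_lt_card.2 ⟨G, hG, F, hF, hne⟩)
  have hFF := (mem_Fw.1 hF).1
  have h4 := fct_four hV hT hFF
  rw [← fct_edges hV hFF] at h4
  have hfat := fat_card hV hw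
  have hex : ∀ e ∈ (edg V).filter fun e => e ⊆ F, ∃ H, Fct V H ∧ H ≠ F ∧ e ⊆ H := by
    intro e he
    rw [Finset.mem_filter] at he
    obtain ⟨H, h1, h2, h3, -⟩ := D0_other hV hFF he.1 he.2
    exact ⟨H, h1, h2, h3⟩
  choose! g hg1 hg2 hg3 using hex
  have hle : ((edg V).filter fun e => e ⊆ F).card ≤ (fat V w).card := by
    apply Finset.card_le_card_of_injOn g
    · intro e he
      have he' := Finset.mem_coe.1 he
      rw [Finset.mem_coe, mem_fat]
      refine ⟨hg1 e he', ?_⟩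
      by_contra hw'
      exact hg2 e he' (hone _ (mem_Fw.2 ⟨hg1 e he', hw'⟩))
    · intro e he e' he' hee
      have h1 := Finset.mem_coe.1 he
      have h2 := Finset.mem_coe.1 he'
      have h3 := (Finset.mem_filter.1 h1)
      have h4 := (Finset.mem_filter.1 h2)
      have h5 := (inter_edge hV (hg1 e h1) hFF (hg2 e h1) (hg3 e h1) h3.2 (mem_edg.1 h3.1).2.1).1
      have h6 := (inter_edge hV (hg1 e' h2) hFF (hg2 e' h2) (hg3 e' h2) h4.2 (mem_edg.1 h4.1).2.1).1
      rw [← h5, ← h6, hee]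
  omega

private theorem D0_class {V : Finset (Ed 3)} (hV : Gen V) {w : Ed 3} (hw : w ∈ V) {F : Finset (Ed 3)} (hF : F ∈ Fw V w)
    {K : Finset (Finset (Ed 3))}
    (hK : K = (Fw V w).filter fun G => Relation.EqvGen (ad (pe V) (qe V) (Est V w)) F G) :
    (bdy V K).Nonempty ∧ bdy V K ⊆ Ze V w ∧ Ze V w ⊆ bdy V K := by
  have hmem : ∀ G, G ∈ K ↔ G ∈ Fw V w ∧ Relation.EqvGen (ad (pe V) (qe V) (Est V w)) F G := by
    intro G
    rw [hK, Finset.mem_filter]
  have hKf : ∀ G ∈ K, Fct V G := fun G hG => (mem_Fw.1 ((hmem G).1 hG).1).1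
  have hFK : F ∈ K := (hmem F).2 ⟨hF, Relation.EqvGen.refl _⟩
  have hne : (bdy V K).Nonempty := by
    by_contra hemp
    rw [Finset.not_nonempty_iff_eq_empty] at hemp
    have h := bdy_empty hV hKf ⟨F, hFK⟩ hemp
    obtain ⟨A, hA⟩ := fat_ne hV hw
    have hA' := mem_fat.1 hA
    have : A ∈ K := by rw [h]; exact mem_fcs.2 hA'.1
    exact (mem_Fw.1 ((hmem A).1 this).1).2 hA'.2
  have hsub : bdy V K ⊆ Ze V w := by
    intro e he
    unfold bdy at he
    rw [Finset.mem_filter] at he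
    obtain ⟨he, hc⟩ := he
    obtain ⟨H, hH⟩ := Finset.card_eq_one.1 hc
    have hHm : H ∈ K.filter fun F => e ⊆ F := by rw [hH]; exact Finset.mem_singleton_self _
    rw [Finset.mem_filter] at hHm
    obtain ⟨hHK, heH⟩ := hHm
    obtain ⟨H', h1, h2, h3, h4, h5⟩ := D0_other hV (hKf H hHK) he heH
    have hH'K : H' ∉ K := by
      intro h
      have : H' ∈ K.filter fun F => e ⊆ F := Finset.mem_filter.2 ⟨h, h3⟩
      rw [hH, Finset.mem_singleton] at this
      exact h2 this
    have hwH : w ∉ H := (mem_Fw.1 ((hmem H).1 hHK).1).2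
    have hwH' : w ∈ H' := by
      by_contra hwn
      apply hH'K
      refine (hmem H').2 ⟨mem_Fw.2 ⟨h1, hwn⟩, Relation.EqvGen.trans _ _ _ ((hmem H).1 hHK).2
        (Relation.EqvGen.rel _ _ ⟨e, ?_, h5⟩)⟩
      rcases h5 with ⟨ha, hb⟩ | ⟨ha, hb⟩
      · exact D0_est hV he (by rw [ha]; exact hwH) (by rw [hb]; exact hwn)
      · exact D0_est hV he (by rw [ha]; exact hwn) (by rw [hb]; exact hwH)
    unfold Ze
    rw [Finset.mem_filter]
    exact ⟨he, fun h => hwH (heH h), H', h1, hwH', h3⟩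
  refine ⟨hne, hsub, ?_⟩
  have hall : ∀ x, (∃ e ∈ bdy V K, x ∈ e) → ∀ e ∈ Ze V w, x ∈ e → e ∈ bdy V K := by
    rintro x ⟨e0, he0, hx0⟩ e he hx
    have hxZ : x ∈ Zw V w := ze_sub (hsub he0) hx0
    have h2 := z_two hV hw hxZ
    have hev := bdy_even hV hKf x
    have hss : ((bdy V K).filter fun e => x ∈ e) ⊆ ((Ze V w).filter fun e => x ∈ e) :=
      Finset.filter_subset_filter _ hsub
    have hpos : 0 < ((bdy V K).filter fun e => x ∈ e).card :=
      Finset.card_pos.2 ⟨e0, Finset.mem_filter.2 ⟨he0, hx0⟩⟩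
    have hge : 2 ≤ ((bdy V K).filter fun e => x ∈ e).card := by
      obtain ⟨k, hk⟩ := hev
      omega
    have heq := Finset.eq_of_subset_of_card_le hss (by omega)
    have : e ∈ (Ze V w).filter fun e => x ∈ e := Finset.mem_filter.2 ⟨he, hx⟩
    rw [← heq] at this
    exact (Finset.mem_filter.1 this).1
  have hW : ((Zw V w).filter fun x => ∃ e ∈ bdy V K, x ∈ e) = Zw V w := by
    apply z_conn hV hw (Finset.filter_subset _ _)
    · obtain ⟨e0, he0⟩ := hne
      have hc : e0.card = 2 := by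
        have h := hsub he0
        unfold Ze at h
        exact (mem_edg.1 (Finset.mem_filter.1 h).1).2.1
      obtain ⟨x, hx⟩ := Finset.card_pos.1 (by omega : 0 < e0.card)
      exact ⟨x, Finset.mem_filter.2 ⟨ze_sub (hsub he0) hx, e0, he0, hx⟩⟩
    · intro x hx e he hxe y hy
      rw [Finset.mem_filter] at hx
      have heb := hall x hx.2 e he hxe
      exact Finset.mem_filter.2 ⟨ze_sub he hy, e, heb, hy⟩
  intro e he
  have hc : e.card = 2 := by
    have h := he
    unfold Ze at h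
    exact (mem_edg.1 (Finset.mem_filter.1 h).1).2.1
  obtain ⟨x, hx⟩ := Finset.card_pos.1 (by omega : 0 < e.card)
  have hxZ : x ∈ Zw V w := ze_sub he hx
  rw [← hW, Finset.mem_filter] at hxZ
  exact hall x hxZ.2 e he hx

/-- D0: the graph of the facets not containing `w` is connected -/
theorem fw_conn {V : Finset (Ed 3)} (hV : Gen V) {w : Ed 3} (hw : w ∈ V) {F G : Finset (Ed 3)} (hF : F ∈ Fw V w)
    (hG : G ∈ Fw V w) : Relation.EqvGen (ad (pe V) (qe V) (Est V w)) F G := by
  obtain ⟨hne, hs, hs'⟩ := D0_class hV hw hF rfl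
  obtain ⟨hneG, hsG, hsG'⟩ := D0_class hV hw hG rfl
  obtain ⟨e, he⟩ := hne
  have heZ := hs he
  have heG := hsG' heZ
  have hZ := heZ
  unfold Ze at hZ
  rw [Finset.mem_filter] at hZ
  obtain ⟨heE, hwe, A, hA, hwA, heA⟩ := hZ
  obtain ⟨H0, -, -, hH0⟩ := bd_one hV heE hwe hA hwA heA
  have key : ∀ {F' : Finset (Ed 3)}, e ∈ bdy V ((Fw V w).filter fun G =>
      Relation.EqvGen (ad (pe V) (qe V) (Est V w)) F' G) →
      Relation.EqvGen (ad (pe V) (qe V) (Est V w)) F' H0 := by
    intro F' h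
    unfold bdy at h
    rw [Finset.mem_filter] at h
    obtain ⟨H, hH⟩ := Finset.card_pos.1 (by omega : 0 < (((Fw V w).filter fun G =>
      Relation.EqvGen (ad (pe V) (qe V) (Est V w)) F' G).filter fun F => e ⊆ F).card)
    rw [Finset.mem_filter, Finset.mem_filter] at hH
    have : H ∈ (Fw V w).filter fun G => e ⊆ G := Finset.mem_filter.2 ⟨hH.1.1, hH.2⟩
    rw [hH0, Finset.mem_singleton] at this
    rw [← this]
    exact hH.1.2
  exact Relation.EqvGen.trans _ _ _ (key he) (Relation.EqvGen.symm _ _ (key heG))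

end Pool.Agent.LibTF47
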