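import Mathlib
import Pool.Agent.LibTet88.Basic
import Pool.Agent.LibGP88.Q3
import Pool.Agent.LibTet88.P10
import Pool.Agent.LibTet88.R1

/-! # Board TF47: trails with virtual marks (definitions) -/

set_option autoImplicit false

namespace Pool.Agent.LibTF47

open Finset Pool.Agent.LibPol19 Pool.Agent.LibTet88 Pool.Agent.LibGP88
open scoped Classical

/-- a spanning trail in the graph of the facets not containing `w`, given by the sets `X F` of marked edges of the facets;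
all marked edges are marked in two facets, except the two ends `g`, `g'`, which are marked in one facet -/
structure TrX (V : Finset (Ed 3)) (w : Ed 3) (X : Finset (Ed 3) → Finset (Finset (Ed 3))) (Γ : Finset (Finset (Ed 3)))
    (g g' : Finset (Ed 3)) : Prop where
  edge : ∀ e ∈ Γ, e ∈ edg V
  sub : ∀ F ∈ Fw V w, ∀ e ∈ X F, e ∈ Γ ∧ e ⊆ F
  two : ∀ e ∈ Γ, e ≠ g → e ≠ g' → ((Fw V w).filter fun F => e ∈ X F).card = 2
  one : ((Fw V w).filter fun F => g ∈ X F).card = 1
  one' : ((Fw V w).filter fun F => g' ∈ X F).card = 1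
  hg : g ∈ Γ
  hg' : g' ∈ Γ
  hne : g ≠ g'
  even : ∀ F ∈ Fw V w, Even (X F).card
  nonempty : ∀ F ∈ Fw V w, (X F).Nonempty
  conn : ∀ e ∈ Γ, ∀ e' ∈ Γ, Relation.EqvGen (fun a b => ∃ F ∈ Fw V w, a ∈ X F ∧ b ∈ X F) e e'

/-- the links at a stage: the facets in `S` are triangulated, the others still connect all their marks -/
def RlX (V : Finset (Ed 3)) (w : Ed 3) (X : Finset (Ed 3) → Finset (Finset (Ed 3))) (g g' : Finset (Ed 3))
    (S : Finset (Finset (Ed 3))) (Y T : Finset (Ed 3) → Finset (Finset (Ed 3))) (a b : Finset (Ed 3)) : Prop :=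
  (∃ F ∈ S, Lk (Y F) (T F) a b) ∨ (∃ F ∈ Fw V w, F ∉ S ∧ a ∈ X F ∧ b ∈ X F) ∨ (a = g ∧ b = g')

/-- the facets in `S` can be triangulated keeping the connection -/
def StX (V : Finset (Ed 3)) (w : Ed 3) (X : Finset (Ed 3) → Finset (Finset (Ed 3))) (Γ : Finset (Finset (Ed 3)))
    (g g' : Finset (Ed 3)) (S : Finset (Finset (Ed 3))) : Prop :=
  ∃ Y T : Finset (Ed 3) → Finset (Finset (Ed 3)), (∀ F ∈ S, Mark F (X F) (Y F) (T F)) ∧
    ∀ a b, (a ∈ Γ ∨ ∃ F ∈ S, a ∈ Y F) → (b ∈ Γ ∨ ∃ F ∈ S, b ∈ Y F) →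
      Relation.EqvGen (RlX V w X g g' S Y T) a b

/-- all facets not containing `w` are triangulated and all marked sides are connected -/
structure FinX (V : Finset (Ed 3)) (w : Ed 3) (X Y T : Finset (Ed 3) → Finset (Finset (Ed 3))) : Prop where
  mark : ∀ F ∈ Fw V w, Mark F (X F) (Y F) (T F)
  conn : ∀ F ∈ Fw V w, ∀ F' ∈ Fw V w, ∀ a ∈ Y F, ∀ b ∈ Y F',
    Relation.EqvGen (fun a b => ∃ F ∈ Fw V w, Lk (Y F) (T F) a b) a b

theorem trx_parity {V : Finset (Ed 3)} {w : Ed 3} {X : Finset (Ed 3) → Finset (Finset (Ed 3))}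
    {Γ : Finset (Finset (Ed 3))} {g g' : Finset (Ed 3)}
    (h : TrX V w X Γ g g') (K : Finset (Ed 3) → Prop) :
    (∑ F ∈ Fw V w, ((X F).filter K).card) % 2 = ((if K g then 1 else 0) + (if K g' then 1 else 0)) % 2 := by
  have h1 : ∑ F ∈ Fw V w, ((X F).filter K).card =
      ∑ e ∈ Γ.filter K, ((Fw V w).filter fun F => e ∈ X F).card := by
    rw [← R1_count (Γ.filter K) (Fw V w) (fun e F => e ∈ X F)]
    apply Finset.sum_congr rfl
    intro F hF
    have h2 : (X F).filter K = (Γ.filter K).filter fun e => e ∈ X F := by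
      ext e
      simp only [Finset.mem_filter]
      constructor
      · rintro ⟨h3, h4⟩
        exact ⟨⟨(h.sub F hF e h3).1, h4⟩, h3⟩
      · rintro ⟨⟨_, h4⟩, h3⟩
        exact ⟨h3, h4⟩
    rw [h2]
  have h3 : ∀ e ∈ Γ.filter K, ((Fw V w).filter fun F => e ∈ X F).card % 2 =
      ((if e = g then 1 else 0) + (if e = g' then 1 else 0)) % 2 := by
    intro e he
    rw [Finset.mem_filter] at he
    by_cases h4 : e = g
    · have h5 : ¬ e = g' := fun h5 => h.hne (h4.symm.trans h5)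
      rw [if_pos h4, if_neg h5, h4, h.one]
    · by_cases h5 : e = g'
      · rw [if_neg h4, if_pos h5, h5, h.one']
      · rw [if_neg h4, if_neg h5, h.two e he.1 h4 h5]
  rw [h1, Finset.sum_nat_mod, Finset.sum_congr rfl h3, ← Finset.sum_nat_mod,
    Finset.sum_add_distrib, Finset.sum_ite_eq', Finset.sum_ite_eq']
  have h6 : (if g ∈ Γ.filter K then 1 else 0) = (if K g then 1 else 0) := by
    by_cases h7 : K g
    · rw [if_pos h7, if_pos (Finset.mem_filter.2 ⟨h.hg, h7⟩)]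
    · rw [if_neg h7, if_neg (fun h8 => h7 (Finset.mem_filter.1 h8).2)]
  have h6' : (if g' ∈ Γ.filter K then 1 else 0) = (if K g' then 1 else 0) := by
    by_cases h7 : K g'
    · rw [if_pos h7, if_pos (Finset.mem_filter.2 ⟨h.hg', h7⟩)]
    · rw [if_neg h7, if_neg (fun h8 => h7 (Finset.mem_filter.1 h8).2)]
  rw [h6, h6']

theorem parx_one {V : Finset (Ed 3)} {w : Ed 3} {X : Finset (Ed 3) → Finset (Finset (Ed 3))}
    {Γ : Finset (Finset (Ed 3))} {g g' : Finset (Ed 3)}
    (h : TrX V w X Γ g g') (K : Finset (Ed 3) → Prop) (hK : K g ↔ K g') {F₀ : Finset (Ed 3)} (hF₀ : F₀ ∈ Fw V w)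
    (he : ∀ F ∈ Fw V w, F ≠ F₀ → Even ((X F).filter K).card) : Even ((X F₀).filter K).card := by
  have h1 := trx_parity h K
  rw [← Finset.add_sum_erase _ _ hF₀] at h1
  have h2 : Even (∑ F ∈ (Fw V w).erase F₀, ((X F).filter K).card) := by
    apply Finset.even_sum
    intro F hF
    rw [Finset.mem_erase] at hF
    exact he F hF.2 hF.1
  rw [Nat.even_iff] at h2 ⊢
  have h3 : ((if K g then 1 else 0) + (if K g' then 1 else 0)) % 2 = 0 := by
    by_cases h4 : K g
    · rw [if_pos h4, if_pos (hK.1 h4)]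
    · rw [if_neg h4, if_neg (fun h5 => h4 (hK.2 h5))]
  rw [h3] at h1
  omega

theorem parx_all {V : Finset (Ed 3)} {w : Ed 3} {X : Finset (Ed 3) → Finset (Finset (Ed 3))}
    {Γ : Finset (Finset (Ed 3))} {g g' : Finset (Ed 3)}
    (h : TrX V w X Γ g g') (K : Finset (Ed 3) → Prop)
    (he : ∀ F ∈ Fw V w, Even ((X F).filter K).card) (hg : K g) : K g' := by
  have h1 := trx_parity h K
  have h2 : Even (∑ F ∈ Fw V w, ((X F).filter K).card) := Finset.even_sum _ he
  rw [Nat.even_iff] at h2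
  by_contra h3
  rw [h2, if_pos hg, if_neg h3] at h1
  omega

end Pool.Agent.LibTF47
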