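import Mathlib
import Pool.Agent.LibTF47.Pl
import Pool.Agent.LibTF47.P0
import Pool.Agent.LibTF47.Tx

/-! Row D1. Board TF47. From a connected spanning subgraph H with exactly two odd vertices s, t, both of degree 1, to a trail with virtual marks.
For F ∈ Fw V w the edges of H with an end F are the edges e ∈ H with e ⊆ F (ends_spec, P0): |xs H F| = dg H pe qe F. xs H s = {e_s}, xs H t = {e_t}. A facet has at least three edges (fct_edges (N4), fct_poly (LibGP88.Q3): 3 ≤ F.card).
Choose g ∈ edg V, g ⊆ s, g ≠ e_s (so g ∉ H), and g' ∈ edg V, g' ⊆ t, g' ≠ e_t, g' ≠ g (so g' ∉ H). X F := xs H F ∪ (if F = s then {g} else ∅) ∪ (if F = t then {g'} else ∅), Γ := insert g (insert g' H).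
edge, sub, hg, hg', hne: clear. two: e ∈ Γ, e ≠ g, g': e ∈ H ⊆ Est V w: est_two (LibGP88.Q3): exactly two F ∈ Fw with e ⊆ F; e ∈ X F ↔ e ⊆ F. one: g ∈ X F ↔ F = s. one' the same. even: F ≠ s, t: dg H F is even; F = s: 1 + 1; F = t: 1 + 1 (s ≠ t, g ∉ xs H s, g' ∉ xs H t).
nonempty: for F ≠ s, t: F is connected to s (hcn), F ≠ s: some edge of H has the end F (EqvGen of a relation not involving F is equality: induction). conn: every e ∈ Γ lies in X F for some F ∈ Fw; for F, F' adjacent by e ∈ H the sets X F and X F' share e; so by induction along hcn all marks are related (fix one mark in each X F: they are nonempty). -/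

set_option autoImplicit false

namespace Pool.Agent.LibTF47

open Finset Pool.Agent.LibPol19 Pool.Agent.LibTet88 Pool.Agent.LibGP88
open scoped Classical


private theorem D1_ends {V : Finset (Ed 3)} (hV : Gen V) {w : Ed 3} {H : Finset (Finset (Ed 3))} (hH : H ⊆ Est V w)
    {e F : Finset (Ed 3)} (he : e ∈ H) (hF : Fct V F) : e ⊆ F ↔ pe V e = F ∨ qe V e = F := by
  have h1 : e ∈ edg V := by
    have := hH he
    unfold Est at this
    exact (Finset.mem_filter.1 this).1
  obtain ⟨-, -, -, -, h2⟩ := ends_spec hV h1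
  rw [h2 F hF]
  constructor
  · rintro (h | h)
    · exact Or.inl h.symm
    · exact Or.inr h.symm
  · rintro (h | h)
    · exact Or.inl h.symm
    · exact Or.inr h.symm

private theorem D1_endsFw {V : Finset (Ed 3)} (hV : Gen V) {w : Ed 3} {H : Finset (Finset (Ed 3))} (hH : H ⊆ Est V w)
    {e : Finset (Ed 3)} (he : e ∈ H) : pe V e ∈ Fw V w ∧ qe V e ∈ Fw V w ∧ e ⊆ pe V e ∧ e ⊆ qe V e := by
  have h0 := hH he
  unfold Est at h0
  obtain ⟨h1, hno⟩ := Finset.mem_filter.1 h0
  obtain ⟨-, h3, h4, h5, -⟩ := ends_spec hV h1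
  have h6 : e ⊆ pe V e := by
    intro x hx
    rw [← h5] at hx
    exact (Finset.mem_inter.1 hx).1
  have h7 : e ⊆ qe V e := by
    intro x hx
    rw [← h5] at hx
    exact (Finset.mem_inter.1 hx).2
  exact ⟨mem_Fw.2 ⟨h3, fun h => hno _ h3 h h6⟩, mem_Fw.2 ⟨h4, fun h => hno _ h4 h h7⟩, h6, h7⟩

private theorem D1_xs {V : Finset (Ed 3)} (hV : Gen V) {w : Ed 3} {H : Finset (Finset (Ed 3))} (hH : H ⊆ Est V w)
    {F : Finset (Ed 3)} (hF : F ∈ Fw V w) : (H.filter fun e => e ⊆ F).card = dg H (pe V) (qe V) F := by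
  unfold dg
  congr 1
  ext e
  simp only [Finset.mem_filter]
  constructor
  · rintro ⟨he, h⟩
    exact ⟨he, (D1_ends hV hH he (mem_Fw.1 hF).1).1 h⟩
  · rintro ⟨he, h⟩
    exact ⟨he, (D1_ends hV hH he (mem_Fw.1 hF).1).2 h⟩

/-- the marks of a facet -/
private noncomputable def D1_X (H : Finset (Finset (Ed 3))) (s t g g' : Finset (Ed 3)) (F : Finset (Ed 3)) :
    Finset (Finset (Ed 3)) :=
  ((H.filter fun e => e ⊆ F) ∪ if F = s then {g} else ∅) ∪ if F = t then {g'} else ∅

private theorem D1_mem {H : Finset (Finset (Ed 3))} {s t g g' F e : Finset (Ed 3)} :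
    e ∈ D1_X H s t g g' F ↔ (e ∈ H ∧ e ⊆ F) ∨ (F = s ∧ e = g) ∨ (F = t ∧ e = g') := by
  unfold D1_X
  rw [Finset.mem_union, Finset.mem_union, Finset.mem_filter, or_assoc]
  have h1 : (e ∈ if F = s then ({g} : Finset (Finset (Ed 3))) else ∅) ↔ (F = s ∧ e = g) := by
    by_cases h : F = s
    · rw [if_pos h, Finset.mem_singleton]
      exact ⟨fun k => ⟨h, k⟩, fun k => k.2⟩
    · rw [if_neg h]
      exact ⟨fun k => absurd k (Finset.notMem_empty e), fun k => absurd k.1 h⟩
  have h2 : (e ∈ if F = t then ({g'} : Finset (Finset (Ed 3))) else ∅) ↔ (F = t ∧ e = g') := by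
    by_cases h : F = t
    · rw [if_pos h, Finset.mem_singleton]
      exact ⟨fun k => ⟨h, k⟩, fun k => k.2⟩
    · rw [if_neg h]
      exact ⟨fun k => absurd k (Finset.notMem_empty e), fun k => absurd k.1 h⟩
  rw [h1, h2]

/-- D1: the trail with virtual marks -/
theorem trx_of {V : Finset (Ed 3)} (hV : Gen V) {w : Ed 3} {H : Finset (Finset (Ed 3))} (hH : H ⊆ Est V w)
    (hcn : ∀ F ∈ Fw V w, ∀ G ∈ Fw V w, Relation.EqvGen (ad (pe V) (qe V) H) F G) {s t : Finset (Ed 3)}
    (hs : s ∈ Fw V w) (ht : t ∈ Fw V w) (hst : s ≠ t) (h1 : dg H (pe V) (qe V) s = 1) (h1' : dg H (pe V) (qe V) t = 1)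
    (hev : ∀ F ∈ Fw V w, F ≠ s → F ≠ t → Even (dg H (pe V) (qe V) F)) :
    ∃ (X : Finset (Ed 3) → Finset (Finset (Ed 3))) (Γ : Finset (Finset (Ed 3))) (g g' : Finset (Ed 3)),
      TrX V w X Γ g g' := by
  rw [← D1_xs hV hH hs] at h1
  rw [← D1_xs hV hH ht] at h1'
  have hsF := (mem_Fw.1 hs).1
  have htF := (mem_Fw.1 ht).1
  have hHe : ∀ e ∈ H, e ∈ edg V := by
    intro e he
    have := hH he
    unfold Est at this
    exact (Finset.mem_filter.1 this).1
  have hcs : 3 ≤ ((edg V).filter fun e => e ⊆ s).card := by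
    rw [fct_edges hV hsF]
    exact (fct_poly hV hsF).2.1
  have hct : 3 ≤ ((edg V).filter fun e => e ⊆ t).card := by
    rw [fct_edges hV htF]
    exact (fct_poly hV htF).2.1
  obtain ⟨es, hes⟩ := Finset.card_eq_one.1 h1
  obtain ⟨et, het⟩ := Finset.card_eq_one.1 h1'
  obtain ⟨g, hg⟩ : (((edg V).filter fun e => e ⊆ s).erase es).Nonempty := by
    rw [← Finset.card_pos]
    have := Finset.pred_card_le_card_erase (s := (edg V).filter fun e => e ⊆ s) (a := es)
    omega
  obtain ⟨g', hg'⟩ : ((((edg V).filter fun e => e ⊆ t).erase et).erase g).Nonempty := by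
    rw [← Finset.card_pos]
    have := Finset.pred_card_le_card_erase (s := (edg V).filter fun e => e ⊆ t) (a := et)
    have := Finset.pred_card_le_card_erase (s := ((edg V).filter fun e => e ⊆ t).erase et) (a := g)
    omega
  obtain ⟨hge, hg2⟩ := Finset.mem_erase.1 hg
  obtain ⟨hgE, hgs⟩ := Finset.mem_filter.1 hg2
  obtain ⟨hg'g, hg3⟩ := Finset.mem_erase.1 hg'
  obtain ⟨hg'e, hg4⟩ := Finset.mem_erase.1 hg3
  obtain ⟨hg'E, hg't⟩ := Finset.mem_filter.1 hg4
  have hgH : g ∉ H := by
    intro h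
    have : g ∈ H.filter fun e => e ⊆ s := Finset.mem_filter.2 ⟨h, hgs⟩
    rw [hes, Finset.mem_singleton] at this
    exact hge this
  have hg'H : g' ∉ H := by
    intro h
    have : g' ∈ H.filter fun e => e ⊆ t := Finset.mem_filter.2 ⟨h, hg't⟩
    rw [het, Finset.mem_singleton] at this
    exact hg'e this
  have hXg : ∀ F, g ∈ D1_X H s t g g' F ↔ F = s := by
    intro F
    rw [D1_mem]
    constructor
    · rintro (⟨h, -⟩ | ⟨h, -⟩ | ⟨-, h⟩)
      · exact absurd h hgH
      · exact h
      · exact absurd h.symm hg'g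
    · intro h
      exact Or.inr (Or.inl ⟨h, rfl⟩)
  have hXg' : ∀ F, g' ∈ D1_X H s t g g' F ↔ F = t := by
    intro F
    rw [D1_mem]
    constructor
    · rintro (⟨h, -⟩ | ⟨-, h⟩ | ⟨h, -⟩)
      · exact absurd h hg'H
      · exact absurd h hg'g
      · exact h
    · intro h
      exact Or.inr (Or.inr ⟨h, rfl⟩)
  have hXe : ∀ e ∈ H, ∀ F, e ∈ D1_X H s t g g' F ↔ e ⊆ F := by
    intro e he F
    rw [D1_mem]
    constructor
    · rintro (⟨-, h⟩ | ⟨-, h⟩ | ⟨-, h⟩)
      · exact h
      · exact absurd (h ▸ he) hgH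
      · exact absurd (h ▸ he) hg'H
    · intro h
      exact Or.inl ⟨he, h⟩
  have hne : ∀ F ∈ Fw V w, (D1_X H s t g g' F).Nonempty := by
    intro F hF
    by_cases hFs : F = s
    · exact ⟨g, (hXg F).2 hFs⟩
    · by_contra hemp
      rw [Finset.not_nonempty_iff_eq_empty] at hemp
      have hno : ∀ e ∈ H, ¬ e ⊆ F := by
        intro e he hsub
        have : e ∈ D1_X H s t g g' F := (hXe e he F).2 hsub
        rw [hemp] at this
        exact absurd this (Finset.notMem_empty e)
      have hind : ∀ a b, Relation.EqvGen (ad (pe V) (qe V) H) a b → (a = F ↔ b = F) := by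
        intro a b hab
        induction hab with
        | rel x y hxy =>
          obtain ⟨e, he, hor⟩ := hxy
          obtain ⟨-, -, k1, k2⟩ := D1_endsFw hV hH he
          constructor
          · intro hx
            exfalso
            rcases hor with ⟨h, -⟩ | ⟨-, h⟩
            · exact hno e he (by rw [← hx, ← h]; exact k1)
            · exact hno e he (by rw [← hx, ← h]; exact k2)
          · intro hy
            exfalso
            rcases hor with ⟨-, h⟩ | ⟨h, -⟩
            · exact hno e he (by rw [← hy, ← h]; exact k2)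
            · exact hno e he (by rw [← hy, ← h]; exact k1)
        | refl x => exact Iff.rfl
        | symm x y _ ih => exact ih.symm
        | trans x y z _ _ ih1 ih2 => exact ih1.trans ih2
      exact hFs ((hind F s (hcn F hF s hs)).1 rfl).symm
  refine ⟨D1_X H s t g g', insert g (insert g' H), g, g', ?_⟩
  refine ⟨?_, ?_, ?_, ?_, ?_, Finset.mem_insert_self _ _, Finset.mem_insert_of_mem (Finset.mem_insert_self _ _),
    fun h => hg'g h.symm, ?_, hne, ?_⟩
  · intro e he
    rcases Finset.mem_insert.1 he with rfl | he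
    · exact hgE
    · rcases Finset.mem_insert.1 he with rfl | he
      · exact hg'E
      · exact hHe e he
  · intro F hF e he
    rw [D1_mem] at he
    rcases he with ⟨h, h'⟩ | ⟨h, h'⟩ | ⟨h, h'⟩
    · exact ⟨Finset.mem_insert_of_mem (Finset.mem_insert_of_mem h), h'⟩
    · subst h h'
      exact ⟨Finset.mem_insert_self _ _, hgs⟩
    · subst h h'
      exact ⟨Finset.mem_insert_of_mem (Finset.mem_insert_self _ _), hg't⟩
  · intro e he heg heg'
    have heH : e ∈ H := by
      rcases Finset.mem_insert.1 he with h | h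
      · exact absurd h heg
      · rcases Finset.mem_insert.1 h with h | h
        · exact absurd h heg'
        · exact h
    obtain ⟨F, F', hFF', -, -, -, hfil⟩ := est_two hV (hH heH)
    have h2 : ((Fw V w).filter fun F => e ∈ D1_X H s t g g' F) = (Fw V w).filter fun G => e ⊆ G := by
      apply Finset.filter_congr
      intro G _
      exact hXe e heH G
    rw [h2, hfil, Finset.card_pair hFF']
  · have h2 : ((Fw V w).filter fun F => g ∈ D1_X H s t g g' F) = {s} := by
      ext F
      rw [Finset.mem_filter, hXg, Finset.mem_singleton]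
      constructor
      · exact fun h => h.2
      · intro h
        exact ⟨h ▸ hs, h⟩
    rw [h2, Finset.card_singleton]
  · have h2 : ((Fw V w).filter fun F => g' ∈ D1_X H s t g g' F) = {t} := by
      ext F
      rw [Finset.mem_filter, hXg', Finset.mem_singleton]
      constructor
      · exact fun h => h.2
      · intro h
        exact ⟨h ▸ ht, h⟩
    rw [h2, Finset.card_singleton]
  · intro F hF
    by_cases hFs : F = s
    · subst hFs
      have h2 : D1_X H F t g g' F = {es, g} := by
        unfold D1_X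
        rw [hes, if_pos rfl, if_neg hst, Finset.union_empty]
        rfl
      rw [h2, Finset.card_pair (fun h => hge h.symm)]
      exact even_two
    · by_cases hFt : F = t
      · subst hFt
        have h2 : D1_X H s F g g' F = {et, g'} := by
          unfold D1_X
          rw [het, if_neg hFs, if_pos rfl, Finset.union_empty]
          rfl
        rw [h2, Finset.card_pair (fun h => hg'e h.symm)]
        exact even_two
      · have h2 : D1_X H s t g g' F = H.filter fun e => e ⊆ F := by
          unfold D1_X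
          rw [if_neg hFs, if_neg hFt, Finset.union_empty, Finset.union_empty]
        rw [h2, D1_xs hV hH hF]
        exact hev F hF hFs hFt
  · have hcl : ∀ F G, Relation.EqvGen (ad (pe V) (qe V) H) F G → (F ∈ Fw V w ↔ G ∈ Fw V w) ∧
        (F ∈ Fw V w → ∀ a ∈ D1_X H s t g g' F, ∀ b ∈ D1_X H s t g g' G,
          Relation.EqvGen (fun a b => ∃ F ∈ Fw V w, a ∈ D1_X H s t g g' F ∧ b ∈ D1_X H s t g g' F) a b) := by
      intro F G hFG
      induction hFG with
      | rel x y hxy =>
        obtain ⟨e, he, hor⟩ := hxy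
        obtain ⟨k3, k4, k1, k2⟩ := D1_endsFw hV hH he
        have hx : x ∈ Fw V w ∧ e ⊆ x := by
          rcases hor with ⟨h, -⟩ | ⟨-, h⟩
          · exact h ▸ ⟨k3, k1⟩
          · exact h ▸ ⟨k4, k2⟩
        have hy : y ∈ Fw V w ∧ e ⊆ y := by
          rcases hor with ⟨-, h⟩ | ⟨h, -⟩
          · exact h ▸ ⟨k4, k2⟩
          · exact h ▸ ⟨k3, k1⟩
        refine ⟨⟨fun _ => hy.1, fun _ => hx.1⟩, ?_⟩
        intro _ a ha b hb
        exact Relation.EqvGen.trans _ e _ (Relation.EqvGen.rel _ _ ⟨x, hx.1, ha, (hXe e he x).2 hx.2⟩)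
          (Relation.EqvGen.rel _ _ ⟨y, hy.1, (hXe e he y).2 hy.2, hb⟩)
      | refl x =>
        refine ⟨Iff.rfl, ?_⟩
        intro hx a ha b hb
        exact Relation.EqvGen.rel _ _ ⟨x, hx, ha, hb⟩
      | symm x y _ ih =>
        refine ⟨ih.1.symm, ?_⟩
        intro hy a ha b hb
        exact Relation.EqvGen.symm _ _ (ih.2 (ih.1.2 hy) b hb a ha)
      | trans x y z _ _ ih1 ih2 =>
        refine ⟨ih1.1.trans ih2.1, ?_⟩
        intro hx a ha b hb
        have hy := ih1.1.1 hx
        obtain ⟨m, hm⟩ := hne y hy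
        exact Relation.EqvGen.trans _ m _ (ih1.2 hx a ha m hm) (ih2.2 hy m hm b hb)
    have hex : ∀ e ∈ insert g (insert g' H), ∃ F ∈ Fw V w, e ∈ D1_X H s t g g' F := by
      intro e he
      rcases Finset.mem_insert.1 he with rfl | he
      · exact ⟨s, hs, (hXg s).2 rfl⟩
      · rcases Finset.mem_insert.1 he with rfl | he
        · exact ⟨t, ht, (hXg' t).2 rfl⟩
        · obtain ⟨k3, -, k1, -⟩ := D1_endsFw hV hH he
          exact ⟨_, k3, (hXe e he _).2 k1⟩
    intro e he e' he'
    obtain ⟨F, hF, heF⟩ := hex e he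
    obtain ⟨G, hG, heG⟩ := hex e' he'
    exact (hcl F G (hcn F hF G hG)).2 hF e heF e' heG

end Pool.Agent.LibTF47
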