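import Mathlib
import Pool.Agent.LibTF47.Pl
import Pool.Agent.LibGP88.Q2
import Pool.Agent.LibGP88.N0
import Pool.Agent.LibGP88.N1
import Pool.Agent.LibGP88.N2
import Pool.Agent.LibGP88.D4
import Pool.Agent.LibPol19.G17

/-! Row P1. Board TF47. The number of regions of a set A of edges: regions + |V| ≤ |A| + (classes of vertices) + 1. Induction on A (Finset.induction_on with A ⊆ edg V).
A = ∅: rE V ∅ is Nx V: one region (fct_conn, D4: ReflTransGen to EqvGen); the relation on V is empty: the classes of V are the singletons, nv = |V|.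
insert e A, e ∉ A, e = {x, y} (card_eq_two, mem_edg). Always regions (insert e A) ≤ regions A + 1 (del_one (N2) for E := insert e A, e0 := e: erase_insert). (1) If x, y are EqvGen-related by A: nv (insert e A) = nv A (ncl_mono both ways, or at least nv A ≤ nv (insert e A): ncl_mono (N0)): done.
(2) Otherwise nv A ≤ nv (insert e A) + 1 (ncl_add (N0)), and regions (insert e A) ≤ regions A: by ncl_mono: a pair F, G of rE V A is a pair of rE V (insert e A) or both contain e; in this case F and G are in one class X of rE V (insert e A):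
X := (fcs V).filter (EqvGen (rE V (insert e A)) F ·), cls_cls (N2), bdy V X ⊆ insert e A (bdy_sub, N1), bdy_even. If G ∉ X then e ∈ bdy V X (edge_two: F and G are the two facets containing e, F ≠ G). K := V.filter (the A-class of x): y ∉ K. Double counting over the vertices of K of the even numbers of edges of bdy V X:
every edge of bdy V X other than e is in A, so both or none of its ends are in K, e has exactly one end in K: the sum is odd: contradiction. -/

set_option autoImplicit false

namespace Pool.Agent.LibTF47

open Finset Pool.Agent.LibPol19 Pool.Agent.LibTet88 Pool.Agent.LibGP88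
open scoped Classical

private theorem P1_pair {A : Finset (Finset (Ed 3))} {x y a b : Ed 3}
    (h : ({a, b} : Finset (Ed 3)) ∈ insert ({x, y} : Finset (Ed 3)) A) (hxy : x ≠ y) :
    ({a, b} : Finset (Ed 3)) ∈ A ∨ (a = x ∧ b = y) ∨ (a = y ∧ b = x) := by
  rcases Finset.mem_insert.1 h with h1 | h1
  · right
    have hx : x ∈ ({a, b} : Finset (Ed 3)) := by rw [h1]; simp
    have hy : y ∈ ({a, b} : Finset (Ed 3)) := by rw [h1]; simp
    simp only [Finset.mem_insert, Finset.mem_singleton] at hx hy
    rcases hx with hx | hx <;> rcases hy with hy | hy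
    · exact absurd (hx.trans hy.symm) hxy
    · left; exact ⟨hx.symm, hy.symm⟩
    · right; exact ⟨hy.symm, hx.symm⟩
    · exact absurd (hx.trans hy.symm) hxy
  · left; exact h1

private theorem P1_one {α : Type} {S : Finset α} {r : α → α → Prop}
    (h : ∀ a ∈ S, ∀ b ∈ S, Relation.EqvGen r a b) : ncl S r ≤ 1 := by
  unfold ncl
  have hsub : (S.image fun a => S.filter fun b => Relation.EqvGen r a b) ⊆ {S} := by
    intro C hC
    obtain ⟨F, hF, rfl⟩ := Finset.mem_image.1 hC
    rw [Finset.mem_singleton]
    apply Finset.filter_true_of_mem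
    intro G hG
    exact h F hF G hG
  exact (Finset.card_le_card hsub).trans (le_of_eq (Finset.card_singleton _))

private theorem P1_discrete {α : Type} {V : Finset α} {r : α → α → Prop}
    (hr : ∀ x y, ¬ r x y) : V.card ≤ ncl V r := by
  have key : ∀ a b : α, Relation.EqvGen r a b → a = b := by
    intro a b h
    induction h with
    | rel x y h => exact absurd h (hr x y)
    | refl x => rfl
    | symm x y _ ih => exact ih.symm
    | trans x y z _ _ ih1 ih2 => exact ih1.trans ih2
  unfold ncl
  refine le_of_eq (Finset.card_image_of_injOn ?_).symm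
  intro a ha b hb hab
  have ha' : a ∈ V := ha
  have h2 : a ∈ V.filter fun c => Relation.EqvGen r a c :=
    Finset.mem_filter.2 ⟨ha', Relation.EqvGen.refl _⟩
  have h3 := hab
  simp only at h3
  rw [h3] at h2
  exact (key _ _ (Finset.mem_filter.1 h2).2).symm

private theorem P1_base {V : Finset (Ed 3)} (hV : Gen V) :
    ncl (fcs V) (rE V ∅) ≤ 1 ∧ V.card ≤ nv V ∅ := by
  constructor
  · apply P1_one
    intro F hF G hG
    have hF' : Fct V F := (Finset.mem_filter.1 hF).2
    have hG' : Fct V G := (Finset.mem_filter.1 hG).2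
    have h := fct_conn hV hF' hG'
    clear hG hG'
    induction h with
    | refl => exact Relation.EqvGen.refl _
    | tail _ h2 ih =>
      refine Relation.EqvGen.trans _ _ _ ih (Relation.EqvGen.rel _ _ ?_)
      obtain ⟨h3, h4, e, he, h5, h6⟩ := h2
      exact ⟨h3, h4, e, he, by simp, h5, h6⟩
  · unfold nv
    apply P1_discrete
    intro x y h
    exact absurd h (Finset.notMem_empty _)

private theorem P1_same {V : Finset (Ed 3)} (hV : Gen V) {A : Finset (Finset (Ed 3))}
    {x y : Ed 3} (hA : insert ({x, y} : Finset (Ed 3)) A ⊆ edg V) (hxy : x ≠ y)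
    (hn : ¬ Relation.EqvGen (fun a b => ({a, b} : Finset (Ed 3)) ∈ A) x y)
    {F G : Finset (Ed 3)} (h : rE V A F G) :
    Relation.EqvGen (rE V (insert ({x, y} : Finset (Ed 3)) A)) F G := by
  obtain ⟨hF, hG, ε, hε, hεA, hεF, hεG⟩ := h
  by_cases hεe : ε = {x, y}
  swap
  · exact Relation.EqvGen.rel _ _ ⟨hF, hG, ε, hε, by simp [hεe, hεA], hεF, hεG⟩
  subst hεe
  by_cases hFG : F = G
  · subst hFG; exact Relation.EqvGen.refl _
  by_contra hcon
  set r := rE V (insert ({x, y} : Finset (Ed 3)) A) with hr
  set X := (fcs V).filter fun G => Relation.EqvGen r F G with hXdef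
  have hX : Cls V (insert ({x, y} : Finset (Ed 3)) A) X := cls_cls
  have hFX : F ∈ X := by
    rw [hXdef, Finset.mem_filter]
    refine ⟨?_, Relation.EqvGen.refl _⟩
    exact Finset.mem_filter.2 ⟨Finset.mem_powerset.2 hF.1.2.1, hF⟩
  have hGX : G ∉ X := fun h => hcon (Finset.mem_filter.1 h).2
  obtain ⟨F1, F2, hne, h1, h2, h12, huniq⟩ := edge_two hV hε
  have hFc := huniq F hF hεF
  have hGc := huniq G hG hεG
  have hbd : ({x, y} : Finset (Ed 3)) ∈ bdy V X := by
    unfold bdy
    rw [Finset.mem_filter]
    refine ⟨hε, ?_⟩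
    rw [Finset.card_eq_one]
    refine ⟨F, ?_⟩
    ext H
    rw [Finset.mem_filter, Finset.mem_singleton]
    constructor
    · rintro ⟨hHX, hHe⟩
      have hHc := huniq H (hX.sub H hHX) hHe
      have hHG : H ≠ G := fun h => hGX (h ▸ hHX)
      rcases hFc with a | a <;> rcases hGc with b | b <;> rcases hHc with c | c
      · exact absurd (a.trans b.symm) hFG
      · exact absurd (a.trans b.symm) hFG
      · exact c.trans a.symm
      · exact absurd (c.trans b.symm) hHG
      · exact absurd (c.trans b.symm) hHG
      · exact c.trans a.symm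
      · exact absurd (a.trans b.symm) hFG
      · exact absurd (a.trans b.symm) hFG
    · rintro rfl
      exact ⟨hFX, hεF⟩
  have hbs : bdy V X ⊆ insert ({x, y} : Finset (Ed 3)) A := bdy_sub hV hX
  obtain ⟨hεV, -, -⟩ := mem_edg.1 hε
  have hxV : x ∈ V := hεV (by simp)
  set K := V.filter fun v => Relation.EqvGen (fun a b => ({a, b} : Finset (Ed 3)) ∈ A) x v with hK
  have hxK : x ∈ K := by
    rw [hK, Finset.mem_filter]; exact ⟨hxV, Relation.EqvGen.refl _⟩
  have hyK : y ∉ K := fun h => hn (Finset.mem_filter.1 h).2
  have hdc : (∑ v ∈ K, ((bdy V X).filter fun e => v ∈ e).card) =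
      ∑ e ∈ bdy V X, (K.filter fun v => v ∈ e).card := by
    exact Finset.sum_card_bipartiteAbove_eq_sum_card_bipartiteBelow
      (fun (v : Ed 3) (e : Finset (Ed 3)) => v ∈ e)
  have hev : Even (∑ v ∈ K, ((bdy V X).filter fun e => v ∈ e).card) :=
    Finset.even_sum _ fun v _ => bdy_even hV hX.sub v
  rw [hdc] at hev
  rw [← Finset.add_sum_erase _ _ hbd] at hev
  have h1c : (K.filter fun v => v ∈ ({x, y} : Finset (Ed 3))).card = 1 := by
    rw [Finset.card_eq_one]
    refine ⟨x, ?_⟩
    ext v
    rw [Finset.mem_filter, Finset.mem_singleton, Finset.mem_insert, Finset.mem_singleton]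
    constructor
    · rintro ⟨hvK, rfl | rfl⟩
      · rfl
      · exact absurd hvK hyK
    · rintro rfl; exact ⟨hxK, Or.inl rfl⟩
  have hev2 : Even (∑ e ∈ (bdy V X).erase {x, y}, (K.filter fun v => v ∈ e).card) := by
    apply Finset.even_sum
    intro e he
    rw [Finset.mem_erase] at he
    have heA : e ∈ A := by
      rcases Finset.mem_insert.1 (hbs he.2) with h | h
      · exact absurd h he.1
      · exact h
    obtain ⟨heV, hec, -⟩ := mem_edg.1 (hA (Finset.mem_insert_of_mem heA))
    obtain ⟨a, b, hab, rfl⟩ := Finset.card_eq_two.1 hec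
    have haV : a ∈ V := heV (by simp)
    have hbV : b ∈ V := heV (by simp)
    have hiff : a ∈ K ↔ b ∈ K := by
      rw [hK, Finset.mem_filter, Finset.mem_filter]
      constructor
      · rintro ⟨_, h⟩
        exact ⟨hbV, Relation.EqvGen.trans _ _ _ h (Relation.EqvGen.rel _ _ heA)⟩
      · rintro ⟨_, h⟩
        exact ⟨haV, Relation.EqvGen.trans _ _ _ h
          (Relation.EqvGen.symm _ _ (Relation.EqvGen.rel _ _ heA))⟩
    by_cases haK : a ∈ K
    · have hbK := hiff.1 haK
      have : (K.filter fun v => v ∈ ({a, b} : Finset (Ed 3))) = {a, b} := by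
        ext v
        rw [Finset.mem_filter]
        constructor
        · exact fun h => h.2
        · intro h
          refine ⟨?_, h⟩
          rw [Finset.mem_insert, Finset.mem_singleton] at h
          rcases h with rfl | rfl
          · exact haK
          · exact hbK
      rw [this, Finset.card_pair hab]
      exact even_two
    · have hbK : b ∉ K := fun h => haK (hiff.2 h)
      have : (K.filter fun v => v ∈ ({a, b} : Finset (Ed 3))) = ∅ := by
        apply Finset.filter_false_of_mem
        intro v hv h
        rw [Finset.mem_insert, Finset.mem_singleton] at h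
        rcases h with rfl | rfl
        · exact haK hv
        · exact hbK hv
      rw [this]
      simp
  rw [h1c] at hev
  rw [Nat.even_add] at hev
  exact absurd (hev.2 hev2) (by decide)

/-- P1: the number of regions -/
theorem regions_le {V : Finset (Ed 3)} (hV : Gen V) {A : Finset (Finset (Ed 3))} (hA : A ⊆ edg V) :
    ncl (fcs V) (rE V A) + V.card ≤ A.card + nv V A + 1 := by
  induction A using Finset.induction_on with
  | empty =>
    obtain ⟨h1, h2⟩ := P1_base hV
    simp only [Finset.card_empty]
    omega
  | insert e A he ih =>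
    have ih' := ih fun f hf => hA (Finset.mem_insert_of_mem hf)
    have heE : e ∈ edg V := hA (Finset.mem_insert_self _ _)
    rw [Finset.card_insert_of_notMem he]
    have hreg : ncl (fcs V) (rE V (insert e A)) ≤ ncl (fcs V) (rE V A) + 1 := by
      have h := del_one hV (E := insert e A) heE
      rwa [Finset.erase_insert he] at h
    obtain ⟨heV, hec, -⟩ := mem_edg.1 heE
    obtain ⟨x, y, hxy, rfl⟩ := Finset.card_eq_two.1 hec
    by_cases hcon : Relation.EqvGen (fun a b => ({a, b} : Finset (Ed 3)) ∈ A) x y
    · have hnv : nv V A ≤ nv V (insert ({x, y} : Finset (Ed 3)) A) := by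
        unfold nv
        apply ncl_mono
        intro a b hab
        rcases P1_pair hab hxy with h | ⟨rfl, rfl⟩ | ⟨rfl, rfl⟩
        · exact Relation.EqvGen.rel _ _ h
        · exact hcon
        · exact Relation.EqvGen.symm _ _ hcon
      omega
    · have hnv : nv V A ≤ nv V (insert ({x, y} : Finset (Ed 3)) A) + 1 := by
        unfold nv
        apply ncl_add V _ _ x y
        intro a b hab
        exact P1_pair hab hxy
      have hreg2 : ncl (fcs V) (rE V (insert ({x, y} : Finset (Ed 3)) A)) ≤
          ncl (fcs V) (rE V A) :=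
        ncl_mono _ _ _ fun F G h => P1_same hV hA hxy hcon h
      omega

end Pool.Agent.LibTF47
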