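import Mathlib
import Pool.Agent.LibTF47.Pl
import Pool.Agent.LibTF47.P0
import Pool.Agent.LibTF47.P1
import Pool.Agent.LibGP88.E4
import Pool.Agent.LibPol19.G17

/-! Row P2. Board TF47. Interior vertices of a set R of facets with connected complement Φ := fcs V \ R: e(R) + 1 ≤ |Vi(R)| + |R|.
A := (edg V) \ eiV V R (the edges on some facet of Φ), W := V \ Vi V R (the vertices on some facet of Φ). (1) nv V A ≤ |Vi V R| + 1: all vertices of W are in one class: the vertices of one facet F ∈ Φ are connected by edges ⊆ F, which are in A (conn_face, LibPol19.G17; Adj V u w, u, w ∈ F: {u, w} ∈ edg V, not in eiV V R by ei_iff);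
Φ is connected (hc): fix F0 ∈ Φ, K := the members F of Φ whose vertices are in the A-class of the vertices of F0; if K ≠ Φ then CnV gives an edge e between K and Φ \ K: its two facets share the vertices of e, so both are in K: contradiction. So nv ≤ number of classes: the image over V ⊆ {class of W} ∪ image over Vi: ≤ 1 + |Vi|.
(2) |Φ| + 1 ≤ ncl (fcs V) (rE V A): a facet F ∈ Φ has all its edges in A, so no pair of rE V A starts or ends at F: its class is {F} (see all_reg in LibGP88.N3); R is nonempty: the class of a member of R is another one (contained in R).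
(3) regions_le (P1): |Φ| + 1 + |V| ≤ |A| + |Vi| + 1 + 1. euler (E4): |edg V| + 2 ≤ |V| + |fcs V|. |A| = |edg V| - e(R), |fcs V| = |R| + |Φ|. So e(R) + |Φ| + |V| ≤ |edg V| + |Vi| + 1 ≤ |V| + |R| + |Φ| - 2 + |Vi| + 1, i.e. e(R) + 1 ≤ |R| + |Vi|. -/

set_option autoImplicit false

namespace Pool.Agent.LibTF47

open Finset Pool.Agent.LibPol19 Pool.Agent.LibTet88 Pool.Agent.LibGP88
open scoped Classical

private theorem msd {α : Type} (i : DecidableEq α) (s t : Finset α) (a : α) :
    a ∈ (@SDiff.sdiff _ (@Finset.instSDiff α i) s t) ↔ a ∈ s ∧ a ∉ t :=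
  @Finset.mem_sdiff α i s t a

private theorem ei_sub {α β : Type} (E : Finset β) (p q : β → α) (R : Finset α) : ei E p q R ⊆ E :=
  Finset.filter_subset _ _

private theorem ncl_le' {α : Type} (S T : Finset α) (r : α → α → Prop) (x0 : α)
    (h : ∀ a ∈ S, a ∉ T → Relation.EqvGen r x0 a) : ncl S r ≤ T.card + 1 := by
  have hsub : (S.image fun a => S.filter fun b => Relation.EqvGen r a b) ⊆
      insert (S.filter fun b => Relation.EqvGen r x0 b)
        (T.image fun a => S.filter fun b => Relation.EqvGen r a b) := by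
    intro C hC
    obtain ⟨a, ha, rfl⟩ := Finset.mem_image.1 hC
    by_cases hav : a ∈ T
    · exact Finset.mem_insert_of_mem (Finset.mem_image_of_mem _ hav)
    · rw [Finset.mem_insert]
      left
      have h1 := h a ha hav
      refine Finset.filter_congr fun b _ => ⟨fun h => ?_, fun h => ?_⟩
      · exact Relation.EqvGen.trans _ _ _ h1 h
      · exact Relation.EqvGen.trans _ _ _ (Relation.EqvGen.symm _ _ h1) h
  have h2 := Finset.card_le_card hsub
  have h3 := Finset.card_insert_le (S.filter fun b => Relation.EqvGen r x0 b)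
    (T.image fun a => S.filter fun b => Relation.EqvGen r a b)
  have h4 : (T.image fun a => S.filter fun b => Relation.EqvGen r a b).card ≤ T.card :=
    Finset.card_image_le
  exact h2.trans (h3.trans (Nat.add_le_add_right h4 1))

private theorem ncl_ge' {α : Type} (S Q : Finset α) (r : α → α → Prop) (g0 : α) (hg : g0 ∈ S) (hgQ : g0 ∉ Q)
    (hQ : Q ⊆ S) (hs : ∀ F G, Relation.EqvGen r F G → F = G ∨ (F ∉ Q ∧ G ∉ Q)) : Q.card + 1 ≤ ncl S r := by
  set cls : α → Finset α := fun F => S.filter fun G => Relation.EqvGen r F G with hcls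
  have hself : ∀ F ∈ S, F ∈ cls F := fun F hF => Finset.mem_filter.2 ⟨hF, Relation.EqvGen.refl _⟩
  have hinj : Set.InjOn cls (Q : Set α) := by
    intro F hF G hG hFG
    have hF' := Finset.mem_coe.1 hF
    have h1 : F ∈ cls G := by rw [← hFG]; exact hself F (hQ hF')
    rcases hs G F (Finset.mem_filter.1 h1).2 with h | h
    · exact h.symm
    · exact absurd hF' h.2
  have hnot : cls g0 ∉ Q.image cls := by
    intro h
    obtain ⟨F, hF, hFG⟩ := Finset.mem_image.1 h
    have h1 : g0 ∈ cls F := by rw [hFG]; exact hself g0 hg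
    rcases hs F g0 (Finset.mem_filter.1 h1).2 with h2 | h2
    · exact hgQ (h2 ▸ hF)
    · exact h2.1 hF
  have hsub : insert (cls g0) (Q.image cls) ⊆ S.image cls := by
    intro C hC
    rcases Finset.mem_insert.1 hC with rfl | hC
    · exact Finset.mem_image_of_mem _ hg
    · obtain ⟨F, hF, rfl⟩ := Finset.mem_image.1 hC
      exact Finset.mem_image_of_mem _ (hQ hF)
  have h2 := Finset.card_le_card hsub
  rw [Finset.card_insert_of_notMem hnot, Finset.card_image_of_injOn hinj] at h2
  exact h2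

/-- two vertices of a facet outside `R` are connected by edges which are not inside `R` -/
private theorem face_conn {V : Finset (Ed 3)} (hV : Gen V) {R : Finset (Finset (Ed 3))} {F : Finset (Ed 3)}
    (hF : Fct V F) (hFR : F ∉ R) {x y : Ed 3} (hx : x ∈ F) (hy : y ∈ F) :
    Relation.EqvGen (fun u w => ({u, w} : Finset (Ed 3)) ∈ edg V \ eiV V R) x y := by
  have h := conn_face hV.vert hF.1 hx hy
  have key : ∀ z, Relation.ReflTransGen (fun u w => Adj V u w ∧ w ∈ F) x z →
      z ∈ F ∧ Relation.EqvGen (fun u w => ({u, w} : Finset (Ed 3)) ∈ edg V \ eiV V R) x z := by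
    intro z hz
    induction hz with
    | refl => exact ⟨hx, Relation.EqvGen.refl _⟩
    | tail _ hbc ih =>
      refine ⟨hbc.2, Relation.EqvGen.trans _ _ _ ih.2 (Relation.EqvGen.rel _ _ ?_)⟩
      rw [Finset.mem_sdiff]
      refine ⟨pair_mem_edg.2 hbc.1, fun hmem => hFR ?_⟩
      refine ((ei_iff hV).1 hmem).2 F hF ?_
      intro w hw
      rw [Finset.mem_insert, Finset.mem_singleton] at hw
      rcases hw with rfl | rfl
      · exact ih.1
      · exact hbc.2
  exact (key y h).2

/-- (1) the number of classes of vertices -/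
private theorem nv_le {V : Finset (Ed 3)} (hV : Gen V) {R : Finset (Finset (Ed 3))}
    (hΦ : (fcs V \ R).Nonempty) (hc : CnV V (fcs V \ R)) : nv V (edg V \ eiV V R) ≤ (Vi V R).card + 1 := by
  obtain ⟨F0, hF0⟩ := hΦ
  have hF0' := Finset.mem_sdiff.1 hF0
  have hF0f : Fct V F0 := mem_fcs.1 hF0'.1
  obtain ⟨x0, hx0⟩ := hF0f.1.1
  have hK : (fcs V \ R).filter (fun F => ∀ x ∈ F,
      Relation.EqvGen (fun u w => ({u, w} : Finset (Ed 3)) ∈ edg V \ eiV V R) x0 x) = fcs V \ R := by
    by_contra hne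
    obtain ⟨e, he, h⟩ := hc _ (Finset.filter_subset _ _)
      ⟨F0, Finset.mem_filter.2 ⟨hF0, fun x hx => face_conn hV hF0f hF0'.2 hx0 hx⟩⟩ hne
    obtain ⟨-, hp, hq, hpq, -⟩ := ends_spec hV he
    have hz : e.Nonempty := by
      rw [← Finset.card_pos, (mem_edg.1 he).2.1]
      norm_num
    obtain ⟨z, hz⟩ := hz
    have hz' : z ∈ pe V e ∩ qe V e := by rw [hpq]; exact hz
    rw [Finset.mem_inter] at hz'
    rcases h with ⟨h1, h2⟩ | ⟨h1, h2⟩
    · have h3 := (msd _ _ _ _).1 h2
      refine h3.2 (Finset.mem_filter.2 ⟨h3.1, fun x hx => ?_⟩)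
      exact Relation.EqvGen.trans _ _ _ ((Finset.mem_filter.1 h1).2 z hz'.1)
        (face_conn hV hq (Finset.mem_sdiff.1 h3.1).2 hz'.2 hx)
    · have h3 := (msd _ _ _ _).1 h1
      refine h3.2 (Finset.mem_filter.2 ⟨h3.1, fun x hx => ?_⟩)
      exact Relation.EqvGen.trans _ _ _ ((Finset.mem_filter.1 h2).2 z hz'.2)
        (face_conn hV hp (Finset.mem_sdiff.1 h3.1).2 hz'.1 hx)
  refine ncl_le' _ _ _ x0 ?_
  intro v hv hn
  have h1 : ¬ fat V v ⊆ R := fun h => hn (Finset.mem_filter.2 ⟨hv, h⟩)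
  rw [Finset.not_subset] at h1
  obtain ⟨F, hF, hFR⟩ := h1
  obtain ⟨hF1, hF2⟩ := Finset.mem_filter.1 hF
  have hmem : F ∈ (fcs V \ R).filter (fun F => ∀ x ∈ F,
      Relation.EqvGen (fun u w => ({u, w} : Finset (Ed 3)) ∈ edg V \ eiV V R) x0 x) := by
    rw [hK]
    exact Finset.mem_sdiff.2 ⟨hF1, hFR⟩
  exact (Finset.mem_filter.1 hmem).2 v hF2

/-- (2) the number of regions -/
private theorem reg_ge {V : Finset (Ed 3)} (hV : Gen V) {R : Finset (Finset (Ed 3))} (hR : R ⊆ fcs V) (hne : R.Nonempty) :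
    (fcs V \ R).card + 1 ≤ ncl (fcs V) (rE V (edg V \ eiV V R)) := by
  obtain ⟨G0, hG0⟩ := hne
  refine ncl_ge' _ _ _ G0 (hR hG0) (fun h => (Finset.mem_sdiff.1 h).2 hG0) Finset.sdiff_subset ?_
  intro F G h
  induction h with
  | rel F G h =>
    right
    obtain ⟨hF, hG, e, he, hn, heF, heG⟩ := h
    have hei : e ∈ eiV V R := by
      by_contra h1
      exact hn (Finset.mem_sdiff.2 ⟨he, h1⟩)
    have h2 := ((ei_iff hV).1 hei).2
    exact ⟨fun h => (Finset.mem_sdiff.1 h).2 (h2 F hF heF), fun h => (Finset.mem_sdiff.1 h).2 (h2 G hG heG)⟩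
  | refl F => exact Or.inl rfl
  | symm F G _ ih =>
    rcases ih with h | h
    · exact Or.inl h.symm
    · exact Or.inr ⟨h.2, h.1⟩
  | trans F G H _ _ ih1 ih2 =>
    rcases ih1 with rfl | h1
    · exact ih2
    · rcases ih2 with rfl | h2
      · exact Or.inr h1
      · exact Or.inr ⟨h1.1, h2.2⟩

/-- P2: interior vertices -/
theorem vi_ge {V : Finset (Ed 3)} (hV : Gen V) {R : Finset (Finset (Ed 3))} (hR : R ⊆ fcs V) (hne : R.Nonempty)
    (hΦ : (fcs V \ R).Nonempty) (hc : CnV V (fcs V \ R)) : (eiV V R).card + 1 ≤ (Vi V R).card + R.card := by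
  have h1 := nv_le hV hΦ hc
  have h2 := reg_ge hV hR hne
  have h3 := regions_le hV (A := edg V \ eiV V R) Finset.sdiff_subset
  have h4 := euler hV
  have hei : eiV V R ⊆ edg V := ei_sub _ _ _ _
  have h5 := Finset.card_sdiff_add_card_eq_card hei
  have h6 := Finset.card_sdiff_add_card_eq_card hR
  omega

end Pool.Agent.LibTF47
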