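import Mathlib
import Pool.Agent.LibTF47.Pl
import Pool.Agent.LibTF47.P0
import Pool.Agent.LibTF47.P2
import Pool.Agent.LibPol19.G17
import Pool.Agent.LibPol19.G03

/-! Row P3. Board TF47. Vertices of degree three inside R.
(tri_ge) double counting of the pairs (v, e), v ∈ Vi V R, v ∈ e ∈ edg V: all edges at v ∈ Vi are in eiV V R (ei_iff: a facet containing e contains v), so ∑_{v ∈ Vi} |nb V v| + inc V R = 2 |eiV V R| (every edge has two ends; the number of edges at v is |nb V v|: e = {v, u}, u ∈ nb V v, pair_mem_edg).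
|nb V v| ≥ 3 (three_nb, E1), and ≥ 4 if v ∉ tri V R: 4 |Vi| - |tri| ≤ ∑. With vi_ge: 4 (e(R) + 1 - |R|) ≤ 4 |Vi| ≤ |tri| + 2 e(R) - inc.
(inc_pos) Vi V R is nonempty and not V (a facet outside R has a vertex); the graph of V is connected (conn_face (G17) for the face V, face_self G03): some edge {a, b} with a ∈ Vi, b ∉ Vi (induction along the chain); it is in eiV V R, so it contributes to inc.
(tri_three) Ft: 2 |R| ≤ e(R) + 1, so by tri_ge 4 + inc + 2 e(R) ≤ |tri| + 2 e(R) + 2; so 2 + inc ≤ |tri|, Vi ⊇ tri is nonempty, inc ≥ 1. -/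

set_option autoImplicit false

namespace Pool.Agent.LibTF47

open Finset Pool.Agent.LibPol19 Pool.Agent.LibTet88 Pool.Agent.LibGP88
open scoped Classical

private theorem P3_vi {V : Finset (Ed 3)} {R : Finset (Finset (Ed 3))} {v : Ed 3} :
    v ∈ Vi V R ↔ v ∈ V ∧ fat V v ⊆ R := by
  unfold Vi
  rw [Finset.mem_filter]

private theorem P3_edge {V : Finset (Ed 3)} (hV : Gen V) {R : Finset (Finset (Ed 3))} {v u : Ed 3} (hv : v ∈ Vi V R)
    (hvu : Adj V v u) : ({v, u} : Finset (Ed 3)) ∈ eiV V R := by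
  rw [ei_iff hV]
  refine ⟨pair_mem_edg.2 hvu, fun G hG hsub => (P3_vi.1 hv).2 ?_⟩
  unfold fat
  rw [Finset.mem_filter]
  exact ⟨mem_fcs.2 hG, hsub (Finset.mem_insert_self _ _)⟩

private theorem P3_star {V : Finset (Ed 3)} (hV : Gen V) {R : Finset (Finset (Ed 3))} {v : Ed 3} (hv : v ∈ Vi V R) :
    ((eiV V R).filter fun e => v ∈ e).card = (nb V v).card := by
  symm
  have hnb : ∀ {u : Ed 3}, u ∈ nb V v ↔ u ∈ V ∧ Adj V v u := by
    intro u
    unfold nb
    rw [Finset.mem_filter]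
  refine Finset.card_bij (fun u _ => ({v, u} : Finset (Ed 3))) ?_ ?_ ?_
  · intro u hu
    rw [Finset.mem_filter]
    exact ⟨P3_edge hV hv (hnb.1 hu).2, Finset.mem_insert_self _ _⟩
  · intro u hu u' _ h
    have h1 : u ∈ ({v, u'} : Finset (Ed 3)) := by
      change ({v, u} : Finset (Ed 3)) = {v, u'} at h
      rw [← h]
      exact Finset.mem_insert_of_mem (Finset.mem_singleton_self u)
    rw [Finset.mem_insert, Finset.mem_singleton] at h1
    rcases h1 with h1 | h1
    · exact absurd h1.symm (hnb.1 hu).2.1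
    · exact h1
  · intro e he
    rw [Finset.mem_filter] at he
    obtain ⟨he, hve⟩ := he
    obtain ⟨x, y, rfl, hxy⟩ := edg_pair ((ei_iff hV).1 he).1
    have hyx : Adj V y x := adj_symm hxy
    rw [Finset.mem_insert, Finset.mem_singleton] at hve
    rcases hve with rfl | rfl
    · exact ⟨y, hnb.2 ⟨hxy.2.2.1 (Finset.mem_insert_of_mem (Finset.mem_singleton_self y)), hxy⟩, rfl⟩
    · exact ⟨x, hnb.2 ⟨hxy.2.2.1 (Finset.mem_insert_self x _), hyx⟩, Finset.pair_comm _ _⟩

private theorem P3_count {V : Finset (Ed 3)} (hV : Gen V) (R : Finset (Finset (Ed 3))) :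
    ∑ v ∈ Vi V R, (nb V v).card + inc V R = 2 * (eiV V R).card := by
  have h1 : ∑ e ∈ eiV V R, e.card = 2 * (eiV V R).card := by
    rw [Finset.sum_congr rfl fun e he => (mem_edg.1 ((ei_iff hV).1 he).1).2.1, Finset.sum_const, smul_eq_mul, mul_comm]
  have h2 : ∑ e ∈ eiV V R, e.card =
      ∑ e ∈ eiV V R, (e.filter fun u => fat V u ⊆ R).card + inc V R := by
    unfold inc
    rw [← Finset.sum_add_distrib]
    exact Finset.sum_congr rfl fun e _ => (Finset.card_filter_add_card_filter_not _).symm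
  have h3 := Finset.sum_card_bipartiteAbove_eq_sum_card_bipartiteBelow (s := Vi V R) (t := eiV V R)
    (fun (v : Ed 3) (e : Finset (Ed 3)) => v ∈ e)
  have h4 : ∀ v ∈ Vi V R, ((eiV V R).bipartiteAbove (fun (v : Ed 3) (e : Finset (Ed 3)) => v ∈ e) v).card =
      (nb V v).card := fun v hv => P3_star hV hv
  have h5 : ∀ e ∈ eiV V R, ((Vi V R).bipartiteBelow (fun (v : Ed 3) (e : Finset (Ed 3)) => v ∈ e) e).card =
      (e.filter fun u => fat V u ⊆ R).card := by
    intro e he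
    congr 1
    ext u
    rw [Finset.mem_bipartiteBelow, Finset.mem_filter, P3_vi]
    have h6 : e ⊆ V := (mem_edg.1 ((ei_iff hV).1 he).1).1
    constructor
    · rintro ⟨⟨-, h7⟩, h8⟩
      exact ⟨h8, h7⟩
    · rintro ⟨h7, h8⟩
      exact ⟨⟨h6 h7, h8⟩, h7⟩
  rw [Finset.sum_congr rfl h4, Finset.sum_congr rfl h5] at h3
  rw [h3, ← h2, h1]

/-- P3: the number of vertices of degree three inside `R` -/
theorem tri_ge {V : Finset (Ed 3)} (hV : Gen V) {R : Finset (Finset (Ed 3))} (hR : R ⊆ fcs V) (hne : R.Nonempty)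
    (hΦ : (fcs V \ R).Nonempty) (hc : CnV V (fcs V \ R)) :
    2 * (eiV V R).card + 4 + inc V R ≤ (tri V R).card + 4 * R.card := by
  have h1 := P3_count hV R
  have h2 : 4 * (Vi V R).card ≤ ∑ v ∈ Vi V R, (nb V v).card + (tri V R).card := by
    have h3 : tri V R = (Vi V R).filter fun v => (nb V v).card = 3 := by
      ext v
      unfold tri
      rw [Finset.mem_filter, Finset.mem_filter, P3_vi]
      exact ⟨fun h => ⟨⟨h.1, h.2.2⟩, h.2.1⟩, fun h => ⟨h.1.1, h.2, h.1.2⟩⟩
    rw [h3, Finset.card_filter, ← Finset.sum_add_distrib, mul_comm, ← smul_eq_mul, ← Finset.sum_const]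
    refine Finset.sum_le_sum fun v hv => ?_
    have h4 := three_nb hV (P3_vi.1 hv).1
    split_ifs with h5
    · omega
    · omega
  have h3 := vi_ge hV hR hne hΦ hc
  omega

/-- P3: some edge inside `R` ends outside -/
theorem inc_pos {V : Finset (Ed 3)} (hV : Gen V) {R : Finset (Finset (Ed 3))} (hΦ : (fcs V \ R).Nonempty)
    (hi : (Vi V R).Nonempty) : 1 ≤ inc V R := by
  obtain ⟨F, hF⟩ := hΦ
  rw [Finset.mem_sdiff] at hF
  have hF1 := mem_fcs.1 hF.1
  obtain ⟨y, hy⟩ := hF1.1.1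
  have hyV : y ∈ V := hF1.1.2.1 hy
  have hyn : y ∉ Vi V R := by
    intro h
    apply hF.2
    apply (P3_vi.1 h).2
    unfold fat
    rw [Finset.mem_filter]
    exact ⟨hF.1, hy⟩
  obtain ⟨x, hx⟩ := hi
  have hc := conn_face hV.vert (face_self ⟨y, hyV⟩) (P3_vi.1 hx).1 hyV
  have key : ∀ z, Relation.ReflTransGen (fun u w => Adj V u w ∧ w ∈ V) x z → z ∉ Vi V R →
      ∃ a b, a ∈ Vi V R ∧ b ∉ Vi V R ∧ Adj V a b ∧ b ∈ V := by
    intro z hz
    induction hz with
    | refl => exact fun h => absurd hx h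
    | @tail b d _ hbd ih =>
      intro hd
      by_cases hb : b ∈ Vi V R
      · exact ⟨b, d, hb, hd, hbd.1, hbd.2⟩
      · exact ih hb
  obtain ⟨a, b, ha, hb, hab, hbV⟩ := key y hc hyn
  have he := P3_edge hV ha hab
  have h1 : 1 ≤ (({a, b} : Finset (Ed 3)).filter fun u => ¬ fat V u ⊆ R).card := by
    rw [Nat.one_le_iff_ne_zero, Ne, Finset.card_eq_zero, ← Ne, ← Finset.nonempty_iff_ne_empty]
    refine ⟨b, ?_⟩
    rw [Finset.mem_filter]
    exact ⟨Finset.mem_insert_of_mem (Finset.mem_singleton_self b), fun h => hb (P3_vi.2 ⟨hbV, h⟩)⟩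
  refine h1.trans ?_
  unfold inc
  exact Finset.single_le_sum (f := fun e : Finset (Ed 3) => (e.filter fun u => ¬ fat V u ⊆ R).card)
    (fun _ _ => Nat.zero_le _) he

/-- P3: overfull sets with connected complement -/
theorem tri_three {V : Finset (Ed 3)} (hV : Gen V) {R : Finset (Finset (Ed 3))} (hR : R ⊆ fcs V)
    (hf : Ft (edg V) (pe V) (qe V) R) (hΦ : (fcs V \ R).Nonempty) (hc : CnV V (fcs V \ R)) : 3 ≤ (tri V R).card := by
  obtain ⟨hne, h2⟩ := hf
  change 2 * R.card ≤ (eiV V R).card + 1 at h2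
  have h1 := tri_ge hV hR hne hΦ hc
  have h3 : 2 ≤ (tri V R).card := by omega
  have h4 : (tri V R).Nonempty := by
    rw [← Finset.card_pos]
    omega
  obtain ⟨v, hv⟩ := h4
  have h5 : (Vi V R).Nonempty := by
    refine ⟨v, P3_vi.2 ?_⟩
    unfold tri at hv
    rw [Finset.mem_filter] at hv
    exact ⟨hv.1, hv.2.2⟩
  have h6 := inc_pos hV hΦ h5
  omega

end Pool.Agent.LibTF47
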