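import Mathlib
import Pool.Agent.LibTF47.Pl
import Pool.Agent.LibTF47.P0
import Pool.Agent.LibPol19.G17

/-! Row P4. Board TF47. Corners of the members of R. For g ∈ R, u ∈ g there are exactly two edges of g at u (at_two, N1); bc V R g u of them leave R, so bc ≤ 2.
(bn_sum) every edge of bdy V R is contained in exactly one member of R (definition of bdy). (corner) ∑_{u ∈ g} bc V R g u = 2 bn V R g (every edge ⊆ g has two vertices, all in g), and bc ∈ {0, 1, 2}.
(corner_card) if bc V R g u ≥ 1 then an edge e ∋ u is in bdy V R: one of its facets is not in R and contains u, so not fat V u ⊆ R: the three sets {fat V u ⊆ R}, {bc = 1}, {bc = 2} of vertices u of g are disjoint.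
(a2_zero) two leaving edges at one corner are two elements of the filter of bn. (a1_zero) if a1 = 0 and some edge of g leaves R: the set of u ∈ g with bc = 2 is nonempty and closed under adjacency in g (at u both edges {u, u'} of g leave R, so bc at u' is ≥ 1, hence 2): it is g by connectivity (conn_face, G17), so all edges of g leave R. -/

set_option autoImplicit false

namespace Pool.Agent.LibTF47

open Finset Pool.Agent.LibPol19 Pool.Agent.LibTet88 Pool.Agent.LibGP88
open scoped Classical

private theorem pf_card2 {V : Finset (Ed 3)} {e : Finset (Ed 3)} (he : e ∈ edg V) : e.card = 2 := by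
  unfold edg at he
  rw [Finset.mem_filter, Finset.mem_powersetCard] at he
  exact he.1.2

private theorem pf_fat {V : Finset (Ed 3)} (hV : Gen V) {R : Finset (Finset (Ed 3))} {g : Finset (Ed 3)} {u : Ed 3}
    (hf : fat V u ⊆ R) (hb : bc V R g u ≠ 0) : False := by
  unfold bc at hb
  obtain ⟨e, he⟩ := Finset.card_pos.1 (Nat.pos_of_ne_zero hb)
  rw [Finset.mem_filter] at he
  obtain ⟨hbd, -, hue⟩ := he
  unfold bdy at hbd
  rw [Finset.mem_filter] at hbd
  obtain ⟨hee, h1⟩ := hbd
  obtain ⟨hne, hp, hq, -, hall⟩ := ends_spec hV hee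
  have hep : e ⊆ pe V e := (hall _ hp).2 (Or.inl rfl)
  have heq : e ⊆ qe V e := (hall _ hq).2 (Or.inr rfl)
  have hpR : pe V e ∈ R := hf (by
    unfold fat
    exact Finset.mem_filter.2 ⟨mem_fcs.2 hp, hep hue⟩)
  have hqR : qe V e ∈ R := hf (by
    unfold fat
    exact Finset.mem_filter.2 ⟨mem_fcs.2 hq, heq hue⟩)
  rw [Finset.card_eq_one] at h1
  obtain ⟨G, hG⟩ := h1
  have h2 : pe V e ∈ R.filter fun F => e ⊆ F := Finset.mem_filter.2 ⟨hpR, hep⟩
  have h3 : qe V e ∈ R.filter fun F => e ⊆ F := Finset.mem_filter.2 ⟨hqR, heq⟩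
  rw [hG, Finset.mem_singleton] at h2 h3
  exact hne (h2.trans h3.symm)

/-- P4: the leaving edges -/
theorem bn_sum {V : Finset (Ed 3)} (hV : Gen V) {R : Finset (Finset (Ed 3))} (hR : R ⊆ fcs V) :
    ∑ g ∈ R, bn V R g = (bdy V R).card := by
  unfold bn
  simp only [Finset.card_filter]
  rw [Finset.sum_comm, Finset.card_eq_sum_ones]
  refine Finset.sum_congr rfl fun e he => ?_
  have h := (Finset.mem_filter.1 he).2
  rwa [Finset.card_filter] at h

/-- P4: at most two leaving edges at a corner -/
theorem bc_le {V : Finset (Ed 3)} (hV : Gen V) {R : Finset (Finset (Ed 3))} (hR : R ⊆ fcs V) {g : Finset (Ed 3)} (hg : g ∈ R)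
    {u : Ed 3} (hu : u ∈ g) : bc V R g u ≤ 2 := by
  have h := at_two hV (mem_fcs.1 (hR hg)) hu
  unfold bc
  rw [← h]
  apply Finset.card_le_card
  intro e he
  rw [Finset.mem_filter] at he ⊢
  exact ⟨(Finset.mem_filter.1 he.1).1, he.2.2, he.2.1⟩

/-- P4: the corners of a facet -/
theorem corner {V : Finset (Ed 3)} (hV : Gen V) {R : Finset (Finset (Ed 3))} (hR : R ⊆ fcs V) {g : Finset (Ed 3)} (hg : g ∈ R) :
    a1 V R g + 2 * a2 V R g = 2 * bn V R g := by
  have h1 : ∑ u ∈ g, bc V R g u = 2 * bn V R g := by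
    unfold bc bn
    have h2 : ∀ u ∈ g, ((bdy V R).filter fun e => e ⊆ g ∧ u ∈ e).card
        = ∑ e ∈ (bdy V R).filter fun e => e ⊆ g, if u ∈ e then 1 else 0 := by
      intro u _
      rw [← Finset.card_filter, Finset.filter_filter]
    rw [Finset.sum_congr rfl h2, Finset.sum_comm, mul_comm, ← smul_eq_mul, ← Finset.sum_const]
    refine Finset.sum_congr rfl fun e he => ?_
    rw [Finset.mem_filter] at he
    rw [← Finset.card_filter]
    have h3 : (g.filter fun u => u ∈ e) = e := by
      ext u
      rw [Finset.mem_filter]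
      exact ⟨fun h => h.2, fun h => ⟨he.2 h, h⟩⟩
    rw [h3]
    exact pf_card2 (Finset.mem_filter.1 he.1).1
  have h4 : ∑ u ∈ g, bc V R g u = a1 V R g + 2 * a2 V R g := by
    unfold a1 a2
    rw [Finset.card_filter, Finset.card_filter, Finset.mul_sum, ← Finset.sum_add_distrib]
    refine Finset.sum_congr rfl fun u hu => ?_
    have h5 := bc_le hV hR hg hu
    rcases Nat.lt_or_ge (bc V R g u) 1 with h | h
    · have h6 : bc V R g u = 0 := by omega
      rw [h6]
      simp
    · rcases Nat.lt_or_ge (bc V R g u) 2 with h' | h'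
      · have h6 : bc V R g u = 1 := by omega
        rw [h6]
        simp
      · have h6 : bc V R g u = 2 := by omega
        rw [h6]
        simp
  rw [← h4, h1]

/-- P4: the vertices of a facet -/
theorem corner_card {V : Finset (Ed 3)} (hV : Gen V) {R : Finset (Finset (Ed 3))} (hR : R ⊆ fcs V) {g : Finset (Ed 3)}
    (hg : g ∈ R) : (g.filter fun u => fat V u ⊆ R).card + a1 V R g + a2 V R g ≤ g.card := by
  unfold a1 a2
  have h1 : Disjoint (g.filter fun u => fat V u ⊆ R) (g.filter fun u => bc V R g u = 1) := by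
    rw [Finset.disjoint_left]
    intro u hu hu'
    rw [Finset.mem_filter] at hu hu'
    exact pf_fat hV hu.2 (by rw [hu'.2]; exact one_ne_zero)
  have h2 : Disjoint ((g.filter fun u => fat V u ⊆ R) ∪ (g.filter fun u => bc V R g u = 1))
      (g.filter fun u => bc V R g u = 2) := by
    rw [Finset.disjoint_left]
    intro u hu hu'
    rw [Finset.mem_filter] at hu'
    rw [Finset.mem_union, Finset.mem_filter, Finset.mem_filter] at hu
    rcases hu with hu | hu
    · exact pf_fat hV hu.2 (by rw [hu'.2]; exact two_ne_zero)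
    · have := hu.2.symm.trans hu'.2
      exact absurd this (by norm_num)
  rw [← Finset.card_union_of_disjoint h1, ← Finset.card_union_of_disjoint h2]
  apply Finset.card_le_card
  exact Finset.union_subset (Finset.union_subset (Finset.filter_subset _ _) (Finset.filter_subset _ _))
    (Finset.filter_subset _ _)

/-- P4: one leaving edge -/
theorem a2_zero {V : Finset (Ed 3)} {R : Finset (Finset (Ed 3))} {g : Finset (Ed 3)} (h : bn V R g ≤ 1) : a2 V R g = 0 := by
  unfold a2
  rw [Finset.card_eq_zero, Finset.filter_eq_empty_iff]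
  intro u _ h2
  have h3 : bc V R g u ≤ bn V R g := by
    unfold bc bn
    apply Finset.card_le_card
    intro e he
    rw [Finset.mem_filter] at he ⊢
    exact ⟨he.1, he.2.1⟩
  omega

/-- P4: no corner with exactly one leaving edge -/
theorem a1_zero {V : Finset (Ed 3)} (hV : Gen V) {R : Finset (Finset (Ed 3))} (hR : R ⊆ fcs V) {g : Finset (Ed 3)} (hg : g ∈ R)
    (h : a1 V R g = 0) (hb : bn V R g ≠ 0) : ∀ e ∈ edg V, e ⊆ g → e ∈ bdy V R := by
  have hF : Fct V g := mem_fcs.1 (hR hg)
  have ha : ∀ u ∈ g, bc V R g u ≠ 1 := by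
    intro u hu h1
    unfold a1 at h
    rw [Finset.card_eq_zero, Finset.filter_eq_empty_iff] at h
    exact h hu h1
  have hone : ∀ e ∈ bdy V R, e ⊆ g → ∀ u ∈ e, bc V R g u = 2 := by
    intro e he heg u hu
    have h1 : 0 < bc V R g u := by
      unfold bc
      apply Finset.card_pos.2
      exact ⟨e, Finset.mem_filter.2 ⟨he, heg, hu⟩⟩
    have h2 := bc_le hV hR hg (heg hu)
    have h3 := ha u (heg hu)
    omega
  have hall : ∀ u ∈ g, bc V R g u = 2 → ∀ e ∈ edg V, e ⊆ g → u ∈ e → e ∈ bdy V R := by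
    intro u hu h2 e he heg hue
    have h3 := at_two hV hF hu
    have hsub : ((bdy V R).filter fun e => e ⊆ g ∧ u ∈ e) ⊆ ((edg V).filter fun e => u ∈ e ∧ e ⊆ g) := by
      intro e he
      rw [Finset.mem_filter] at he ⊢
      exact ⟨(Finset.mem_filter.1 he.1).1, he.2.2, he.2.1⟩
    have heq : ((bdy V R).filter fun e => e ⊆ g ∧ u ∈ e) = ((edg V).filter fun e => u ∈ e ∧ e ⊆ g) := by
      apply Finset.eq_of_subset_of_card_le hsub
      unfold bc at h2
      rw [h2, h3]
    have hmem : e ∈ ((edg V).filter fun e => u ∈ e ∧ e ⊆ g) := Finset.mem_filter.2 ⟨he, hue, heg⟩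
    rw [← heq] at hmem
    exact (Finset.mem_filter.1 hmem).1
  have hne : ((bdy V R).filter fun e => e ⊆ g).Nonempty := Finset.card_pos.1 (Nat.pos_of_ne_zero hb)
  obtain ⟨e₀, he₀⟩ := hne
  rw [Finset.mem_filter] at he₀
  obtain ⟨x, hx⟩ : e₀.Nonempty := by
    apply Finset.card_pos.1
    rw [pf_card2 (Finset.mem_filter.1 he₀.1).1]
    norm_num
  have hpath : ∀ y, Relation.ReflTransGen (fun u w => Adj V u w ∧ w ∈ g) x y → y ∈ g ∧ bc V R g y = 2 := by
    intro y hy
    induction hy with
    | refl => exact ⟨he₀.2 hx, hone e₀ he₀.1 he₀.2 x hx⟩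
    | @tail u w _ hs ih =>
      have hedg : ({u, w} : Finset (Ed 3)) ∈ edg V := by
        unfold edg
        rw [Finset.mem_filter, Finset.mem_powersetCard]
        exact ⟨⟨hs.1.2.2.1, Finset.card_pair hs.1.1⟩, hs.1.2⟩
      have hsub : ({u, w} : Finset (Ed 3)) ⊆ g := by
        intro z hz
        rw [Finset.mem_insert, Finset.mem_singleton] at hz
        rcases hz with rfl | rfl
        · exact ih.1
        · exact hs.2
      have hb1 := hall u ih.1 ih.2 _ hedg hsub (Finset.mem_insert_self _ _)
      exact ⟨hs.2, hone _ hb1 hsub w (Finset.mem_insert_of_mem (Finset.mem_singleton_self _))⟩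
  intro e he heg
  obtain ⟨u, hu⟩ : e.Nonempty := by
    apply Finset.card_pos.1
    rw [pf_card2 he]
    norm_num
  have hug := heg hu
  have hc := conn_face hV.vert hF.1 (he₀.2 hx) hug
  exact hall u hug (hpath u hc).2 e he heg hu

end Pool.Agent.LibTF47
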