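import Mathlib
import Pool.Agent.LibTF47.Pl
import Pool.Agent.LibTF47.P0
import Pool.Agent.LibTF47.P4

/-! Row P5. Board TF47. Corners with exactly one leaving edge.
P := the pairs (g, u), g ∈ R, u ∈ g, bc V R g u = 1 (∑ a1 = |P|: P as a Finset.sigma or card_sigma). For (g, u) ∈ P the other edge e'' of g at u (at_two: exactly two edges of g at u, exactly one of them leaves R) is in eiV V R (g ∈ R contains it and it is not in bdy V R, so both its facets are in R: at most two facets contain it),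
u ∈ e'', and not fat V u ⊆ R (u is on the leaving edge). N := the triples (e, u, g) with e ∈ eiV V R, u ∈ e, not fat V u ⊆ R, g ∈ R, e ⊆ g: for each (e, u) exactly two g (pe e, qe e): |N| = 2 inc V R. The map (g, u) ↦ (e'', u, g) is injective from P to N: (a1_inc).
(a1_eq) if |P| = |N| (the sum is 2 inc) the map is surjective (Finset.eq_of_subset_of_card_le for the image): a triple (e, u, g) ∈ N is (e'', u, g) for (g, u) ∈ P: bc V R g u = 1. -/

set_option autoImplicit false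

namespace Pool.Agent.LibTF47

open Finset Pool.Agent.LibPol19 Pool.Agent.LibTet88 Pool.Agent.LibGP88
open scoped Classical

private theorem other {V : Finset (Ed 3)} (hV : Gen V) {R : Finset (Finset (Ed 3))} (hR : R ⊆ fcs V)
    {g : Finset (Ed 3)} (hg : g ∈ R) {u : Ed 3} (hu : u ∈ g) (h1 : bc V R g u = 1) :
    ∃ e, e ∈ eiV V R ∧ u ∈ e ∧ e ⊆ g ∧ ¬ fat V u ⊆ R := by
  have hgF : Fct V g := mem_fcs.1 (hR hg)
  have h2 := at_two hV hgF hu
  have hsub : ((bdy V R).filter fun e => e ⊆ g ∧ u ∈ e) ⊆ ((edg V).filter fun e => u ∈ e ∧ e ⊆ g) := by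
    intro e he
    rw [mem_filter] at he ⊢
    exact ⟨(mem_filter.1 he.1).1, he.2.2, he.2.1⟩
  have hcard : ((bdy V R).filter fun e => e ⊆ g ∧ u ∈ e).card = 1 := h1
  obtain ⟨e, heA, heB⟩ : ∃ e, e ∈ ((edg V).filter fun e => u ∈ e ∧ e ⊆ g) ∧
      e ∉ ((bdy V R).filter fun e => e ⊆ g ∧ u ∈ e) := by
    by_contra hcon
    push Not at hcon
    have := card_le_card (fun e he => hcon e he : ((edg V).filter fun e => u ∈ e ∧ e ⊆ g) ⊆ _)
    omega
  rw [mem_filter] at heA heB
  obtain ⟨heE, hue, heg⟩ := heA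
  have hnb : e ∉ bdy V R := fun h => heB ⟨h, heg, hue⟩
  refine ⟨e, ?_, hue, heg, ?_⟩
  · rw [ei_iff hV]
    refine ⟨heE, ?_⟩
    intro G hG heG
    by_contra hGR
    obtain ⟨hne, hp, hq, hpq, hall⟩ := ends_spec hV heE
    apply hnb
    unfold bdy
    rw [mem_filter]
    refine ⟨heE, ?_⟩
    rw [card_eq_one]
    refine ⟨g, ?_⟩
    ext G'
    rw [mem_filter, mem_singleton]
    constructor
    · rintro ⟨hG'R, heG'⟩
      have a := (hall G' (mem_fcs.1 (hR hG'R))).1 heG'
      have b := (hall g hgF).1 heg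
      have c := (hall G hG).1 heG
      have d : G' ≠ G := fun h => hGR (h ▸ hG'R)
      have d' : g ≠ G := fun h => hGR (h ▸ hg)
      rcases a with a | a <;> rcases b with b | b <;> rcases c with c | c <;>
        first
        | exact a.trans b.symm
        | exact absurd (a.trans c.symm) d
        | exact absurd (b.trans c.symm) d'
    · intro h
      rw [h]
      exact ⟨hg, heg⟩
  · intro hfat
    have hpos : ((bdy V R).filter fun e => e ⊆ g ∧ u ∈ e).Nonempty := by
      rw [← card_pos]; omega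
    obtain ⟨e', he'⟩ := hpos
    rw [mem_filter] at he'
    obtain ⟨hb, heg', hue'⟩ := he'
    unfold bdy at hb
    rw [mem_filter] at hb
    obtain ⟨hne, hp, hq, hpq, hall⟩ := ends_spec hV hb.1
    have hpe : e' ⊆ pe V e' := (hall _ hp).2 (Or.inl rfl)
    have hqe : e' ⊆ qe V e' := (hall _ hq).2 (Or.inr rfl)
    have m1 : pe V e' ∈ R := hfat (mem_filter.2 ⟨mem_fcs.2 hp, hpe hue'⟩)
    have m2 : qe V e' ∈ R := hfat (mem_filter.2 ⟨mem_fcs.2 hq, hqe hue'⟩)
    obtain ⟨x, hx⟩ := card_eq_one.1 hb.2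
    have n1 : pe V e' ∈ R.filter fun F => e' ⊆ F := mem_filter.2 ⟨m1, hpe⟩
    have n2 : qe V e' ∈ R.filter fun F => e' ⊆ F := mem_filter.2 ⟨m2, hqe⟩
    rw [hx, mem_singleton] at n1 n2
    exact hne (n1.trans n2.symm)

/-- the corners with one leaving edge -/
private noncomputable def PP (V : Finset (Ed 3)) (R : Finset (Finset (Ed 3))) : Finset (Finset (Ed 3) × Ed 3) :=
  (R ×ˢ V).filter fun x => x.2 ∈ x.1 ∧ bc V R x.1 x.2 = 1

/-- the ends, not in `Vi V R`, of the edges inside `R`, with the two facets -/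
private noncomputable def NN (V : Finset (Ed 3)) (R : Finset (Finset (Ed 3))) :
    Finset (Finset (Ed 3) × Finset (Ed 3) × Ed 3) :=
  (eiV V R ×ˢ R ×ˢ V).filter fun x => x.2.2 ∈ x.1 ∧ (¬ fat V x.2.2 ⊆ R) ∧ x.1 ⊆ x.2.1

private theorem card_PP {V : Finset (Ed 3)} {R : Finset (Finset (Ed 3))} (hR : R ⊆ fcs V) :
    (PP V R).card = ∑ g ∈ R, a1 V R g := by
  unfold PP
  rw [card_filter, sum_product]
  apply sum_congr rfl
  intro g hg
  unfold a1
  rw [← card_filter]
  congr 1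
  ext u
  rw [mem_filter, mem_filter]
  constructor
  · rintro ⟨_, h, h'⟩
    exact ⟨h, h'⟩
  · rintro ⟨h, h'⟩
    exact ⟨(mem_fcs.1 (hR hg)).1.2.1 h, h, h'⟩

private theorem card_NN {V : Finset (Ed 3)} (hV : Gen V) {R : Finset (Finset (Ed 3))} (hR : R ⊆ fcs V) :
    (NN V R).card = 2 * inc V R := by
  unfold NN inc
  rw [card_filter, sum_product, mul_sum]
  apply sum_congr rfl
  intro e he
  have he' := (ei_iff hV).1 he
  obtain ⟨hne, hp, hq, hpq, hall⟩ := ends_spec hV he'.1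
  rw [← card_filter]
  have heV : e ⊆ V := fun x hx => hp.1.2.1 ((hall _ hp).2 (Or.inl rfl) hx)
  have : ((R ×ˢ V).filter fun x => x.2 ∈ e ∧ (¬ fat V x.2 ⊆ R) ∧ e ⊆ x.1) =
      ({pe V e, qe V e} : Finset (Finset (Ed 3))) ×ˢ (e.filter fun u => ¬ fat V u ⊆ R) := by
    ext x
    rw [mem_filter, mem_product, mem_product, mem_filter, mem_insert, mem_singleton]
    constructor
    · rintro ⟨⟨h1, h2⟩, h3, h4, h5⟩
      exact ⟨(hall _ (mem_fcs.1 (hR h1))).1 h5, h3, h4⟩
    · rintro ⟨h1, h2, h3⟩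
      have h5 : Fct V x.1 := by
        rcases h1 with h1 | h1
        · rw [h1]; exact hp
        · rw [h1]; exact hq
      have h6 := (hall _ h5).2 h1
      exact ⟨⟨he'.2 _ h5 h6, heV h2⟩, h2, h3, h6⟩
  rw [this, card_product, card_pair hne]

private noncomputable def ff (V : Finset (Ed 3)) (R : Finset (Finset (Ed 3))) (x : Finset (Ed 3) × Ed 3) :
    Finset (Ed 3) × Finset (Ed 3) × Ed 3 :=
  if h : ∃ e, e ∈ eiV V R ∧ x.2 ∈ e ∧ e ⊆ x.1 ∧ ¬ fat V x.2 ⊆ R then (h.choose, x.1, x.2) else (∅, x.1, x.2)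

private theorem ff_mem {V : Finset (Ed 3)} (hV : Gen V) {R : Finset (Finset (Ed 3))} (hR : R ⊆ fcs V)
    {x : Finset (Ed 3) × Ed 3} (hx : x ∈ PP V R) : ff V R x ∈ NN V R := by
  unfold PP at hx
  rw [mem_filter, mem_product] at hx
  have h := other hV hR hx.1.1 hx.2.1 hx.2.2
  unfold ff
  rw [dif_pos h]
  unfold NN
  rw [mem_filter, mem_product, mem_product]
  have s := h.choose_spec
  exact ⟨⟨s.1, hx.1.1, hx.1.2⟩, s.2.1, s.2.2.2, s.2.2.1⟩

private theorem ff_snd {V : Finset (Ed 3)} {R : Finset (Finset (Ed 3))} (x : Finset (Ed 3) × Ed 3) :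
    (ff V R x).2 = x := by
  unfold ff
  split_ifs <;> rfl

private theorem ff_inj {V : Finset (Ed 3)} {R : Finset (Finset (Ed 3))} : Function.Injective (ff V R) := by
  intro x y hxy
  rw [← ff_snd (V := V) (R := R) x, ← ff_snd (V := V) (R := R) y, hxy]

/-- P5: the corners with one leaving edge -/
theorem a1_inc {V : Finset (Ed 3)} (hV : Gen V) {R : Finset (Finset (Ed 3))} (hR : R ⊆ fcs V) :
    ∑ g ∈ R, a1 V R g ≤ 2 * inc V R := by
  rw [← card_PP hR, ← card_NN hV hR]
  exact card_le_card_of_injOn (ff V R) (fun x hx => ff_mem hV hR hx) (ff_inj.injOn)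

/-- P5: equality -/
theorem a1_eq {V : Finset (Ed 3)} (hV : Gen V) {R : Finset (Finset (Ed 3))} (hR : R ⊆ fcs V)
    (h : 2 * inc V R ≤ ∑ g ∈ R, a1 V R g) {e : Finset (Ed 3)} (he : e ∈ eiV V R) {u : Ed 3} (hu : u ∈ e)
    (hn : ¬ fat V u ⊆ R) {g : Finset (Ed 3)} (hg : g ∈ R) (heg : e ⊆ g) : bc V R g u = 1 := by
  rw [← card_PP hR, ← card_NN hV hR] at h
  have hsub : (PP V R).image (ff V R) ⊆ NN V R := by
    intro y hy
    obtain ⟨x, hx, rfl⟩ := mem_image.1 hy
    exact ff_mem hV hR hx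
  have heq : (PP V R).image (ff V R) = NN V R := by
    apply eq_of_subset_of_card_le hsub
    rw [card_image_of_injective _ ff_inj]
    exact h
  have huV : u ∈ V := (mem_fcs.1 (hR hg)).1.2.1 (heg hu)
  have hmem : (e, g, u) ∈ NN V R := by
    unfold NN
    rw [mem_filter, mem_product, mem_product]
    exact ⟨⟨he, hg, huV⟩, hu, hn, heg⟩
  rw [← heq] at hmem
  obtain ⟨x, hx, hxe⟩ := mem_image.1 hmem
  have h2 : x = (g, u) := by
    have := ff_snd (V := V) (R := R) x
    rw [hxe] at this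
    exact this.symm
  rw [h2] at hx
  unfold PP at hx
  rw [mem_filter] at hx
  exact hx.2.2

/-- P5: the number of vertices of degree three inside `R`, in terms of corners -/
theorem inc_ge {V : Finset (Ed 3)} (hV : Gen V) {R : Finset (Finset (Ed 3))} (hR : R ⊆ fcs V) :
    (bdy V R).card ≤ inc V R + ∑ g ∈ R, a2 V R g := by
  have h1 := a1_inc hV hR
  have h2 := bn_sum hV hR
  have h3 : ∑ g ∈ R, a1 V R g + 2 * ∑ g ∈ R, a2 V R g = 2 * ∑ g ∈ R, bn V R g := by
    rw [mul_sum, mul_sum, ← sum_add_distrib]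
    exact sum_congr rfl fun g hg => corner hV hR hg
  rw [h2] at h3
  omega

end Pool.Agent.LibTF47
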