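import Mathlib
import Pool.Agent.LibTF47.Pl
import Pool.Agent.LibTF47.P0
import Pool.Agent.LibTF47.P3
import Pool.Agent.LibTF47.P4
import Pool.Agent.LibTF47.P5

/-! Row P10. Board TF47. The minimal cut D.
(bdy_erase) the edges ⊆ g (g.card of them, fct_edges N4): bn V D g of them are in bdy V D and not in bdy V (D.erase g); the others have both facets in D and are in bdy V (D.erase g); the other edges are in both or in none.
(d_le_one) otherwise D' := D.erase g: |bdy D'| = |bdy D| + 4 - 2 bn ≤ |bdy D| and |D'| < |D|: contradiction to hmin. (d_facts) a2 V D g = 0 for g ≠ f0 (a2_zero), inc_ge (P5): |bdy D| ≤ inc + a2 f0. xx_eq, xx_card: 2 e(D) + |bdy D| - 4 |D| = xx D = |f0| - 4 (the other terms are 0).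
tri_ge (P3): 2 e(D) + 4 + inc ≤ |tri D| + 4 |D|; tri V D ⊆ f0.filter (fat V u ⊆ D): |tri D| + a1 f0 + a2 f0 ≤ |f0| (corner_card, P4). So inc + a1 f0 + a2 f0 ≤ |bdy D| ≤ inc + a2 f0: a1 V D f0 = 0 and |bdy D| = inc + a2 f0. If bn V D f0 ≠ 0: a1_zero (P4): all edges of f0 are in bdy V D: |f0| ≤ |bdy D|: contradiction to hlt.
So bn V D f0 = 0, a2 V D f0 = 0 (a2_zero), |bdy D| = inc V D, and by corner, bn_sum (P4): ∑ a1 = 2 |bdy D| = 2 inc V D. -/

set_option autoImplicit false

namespace Pool.Agent.LibTF47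

open Finset Pool.Agent.LibPol19 Pool.Agent.LibTet88 Pool.Agent.LibGP88
open scoped Classical

/-- P10: a minimal cut around a large facet -/
structure Cut (V : Finset (Ed 3)) (D : Finset (Finset (Ed 3))) (f0 : Finset (Ed 3)) : Prop where
  sub : D ⊆ fcs V
  mem : f0 ∈ D
  four : ∀ g ∈ D, g ≠ f0 → g.card = 4
  tri : ∀ v ∈ tri V D, v ∈ f0
  ne : (fcs V \ D).Nonempty
  cn : CnV V (fcs V \ D)
  lt : (bdy V D).card < f0.card
  min : ∀ D', f0 ∈ D' → D' ⊆ D → (bdy V D').card ≤ (bdy V D).card → D.card ≤ D'.card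

private theorem p10_filt {V : Finset (Ed 3)} (hV : Gen V) {D : Finset (Finset (Ed 3))} (hD : D ⊆ fcs V) {e : Finset (Ed 3)}
    (he : e ∈ edg V) : (D.filter fun F => e ⊆ F).card ≤ 2 := by
  obtain ⟨-, hp, hq, -, hall⟩ := ends_spec hV he
  have h1 : (D.filter fun F => e ⊆ F) ⊆ {pe V e, qe V e} := by
    intro F hF
    rw [Finset.mem_filter] at hF
    rw [Finset.mem_insert, Finset.mem_singleton]
    exact (hall F (mem_fcs.1 (hD hF.1))).1 hF.2
  exact (Finset.card_le_card h1).trans Finset.card_le_two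

/-- P10: removing a facet -/
theorem bdy_erase {V : Finset (Ed 3)} (hV : Gen V) {D : Finset (Finset (Ed 3))} (hD : D ⊆ fcs V) {g : Finset (Ed 3)}
    (hg : g ∈ D) : (bdy V (D.erase g)).card + 2 * bn V D g = (bdy V D).card + g.card := by
  have hE := fct_edges hV (mem_fcs.1 (hD hg))
  have hB := Finset.card_filter_add_card_filter_not (s := bdy V D) (fun e => e ⊆ g)
  have hB' := Finset.card_filter_add_card_filter_not (s := bdy V (D.erase g)) (fun e => e ⊆ g)
  have h1 : ((bdy V (D.erase g)).filter fun e => ¬ e ⊆ g) = ((bdy V D).filter fun e => ¬ e ⊆ g) := by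
    ext e
    rw [Finset.mem_filter, Finset.mem_filter]
    refine and_congr_left fun hn => ?_
    unfold bdy
    rw [Finset.mem_filter, Finset.mem_filter]
    refine and_congr_right fun _ => ?_
    have : ((D.erase g).filter fun F => e ⊆ F) = (D.filter fun F => e ⊆ F) := by
      ext F
      rw [Finset.mem_filter, Finset.mem_filter, Finset.mem_erase]
      constructor
      · rintro ⟨⟨_, h2⟩, h3⟩
        exact ⟨h2, h3⟩
      · rintro ⟨h2, h3⟩
        refine ⟨⟨?_, h2⟩, h3⟩
        rintro rfl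
        exact hn h3
    rw [this]
  have h2 : ((bdy V (D.erase g)).filter fun e => e ⊆ g) =
      ((edg V).filter fun e => e ⊆ g) \ ((bdy V D).filter fun e => e ⊆ g) := by
    ext e
    rw [Finset.mem_sdiff, Finset.mem_filter, Finset.mem_filter, Finset.mem_filter]
    unfold bdy
    rw [Finset.mem_filter, Finset.mem_filter]
    constructor
    · rintro ⟨⟨he, h3⟩, h4⟩
      refine ⟨⟨he, h4⟩, ?_⟩
      rintro ⟨⟨_, h5⟩, _⟩
      have h6 : ((D.erase g).filter fun F => e ⊆ F) = (D.filter fun F => e ⊆ F).erase g := by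
        rw [Finset.filter_erase]
      rw [h6, Finset.card_erase_of_mem (Finset.mem_filter.2 ⟨hg, h4⟩), h5] at h3
      omega
    · rintro ⟨⟨he, h4⟩, h5⟩
      refine ⟨⟨he, ?_⟩, h4⟩
      have h6 : ((D.erase g).filter fun F => e ⊆ F) = (D.filter fun F => e ⊆ F).erase g := by
        rw [Finset.filter_erase]
      have h7 : (D.filter fun F => e ⊆ F).card ≠ 1 := fun h8 => h5 ⟨⟨he, h8⟩, h4⟩
      have h8 := p10_filt hV hD he
      have h9 : 0 < (D.filter fun F => e ⊆ F).card :=
        Finset.card_pos.2 ⟨g, Finset.mem_filter.2 ⟨hg, h4⟩⟩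
      have h10 : (D.filter fun F => e ⊆ F).card = 2 := by omega
      rw [h6, Finset.card_erase_of_mem (Finset.mem_filter.2 ⟨hg, h4⟩), h10]
  have h3 : ((bdy V D).filter fun e => e ⊆ g) ⊆ ((edg V).filter fun e => e ⊆ g) := by
    intro e he
    rw [Finset.mem_filter] at he ⊢
    exact ⟨(Finset.mem_filter.1 he.1).1, he.2⟩
  have h4 := Finset.card_sdiff_add_card_eq_card h3
  rw [← h2, hE] at h4
  rw [h1] at hB'
  unfold bn
  omega

/-- P10: at most one leaving edge -/
theorem d_le_one {V : Finset (Ed 3)} (hV : Gen V) {D : Finset (Finset (Ed 3))} {f0 : Finset (Ed 3)} (hc : Cut V D f0)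
    {g : Finset (Ed 3)} (hg : g ∈ D) (hne : g ≠ f0) : bn V D g ≤ 1 := by
  by_contra hcon
  have h1 := bdy_erase hV hc.sub hg
  have h2 := hc.four g hg hne
  have h3 := hc.min (D.erase g) (Finset.mem_erase.2 ⟨hne.symm, hc.mem⟩) (Finset.erase_subset _ _) (by omega)
  rw [Finset.card_erase_of_mem hg] at h3
  have h4 : 0 < D.card := Finset.card_pos.2 ⟨g, hg⟩
  omega

/-- P10: no edge of `f0` leaves `D`, and equality in the corner inequality -/
theorem d_facts {V : Finset (Ed 3)} (hV : Gen V) (hT : TF V) {D : Finset (Finset (Ed 3))} {f0 : Finset (Ed 3)}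
    (hc : Cut V D f0) : bn V D f0 = 0 ∧ 2 * inc V D ≤ ∑ g ∈ D, a1 V D g := by
  have ha2 : ∀ g ∈ D, g ≠ f0 → a2 V D g = 0 := fun g hg hne => a2_zero (d_le_one hV hc hg hne)
  have hs2 : ∑ g ∈ D, a2 V D g = a2 V D f0 :=
    Finset.sum_eq_single f0 ha2 (fun h => absurd hc.mem h)
  have hinc := inc_ge hV hc.sub
  rw [hs2] at hinc
  have hxx := xx_eq (mg_fcs hV) D
  rw [eo_bdy hV hc.sub, xx_card hV hc.sub] at hxx
  have hs : ∑ F ∈ D, ((F.card : ℤ) - 4) = (f0.card : ℤ) - 4 := by
    refine Finset.sum_eq_single (f := fun F : Finset (Ed 3) => (F.card : ℤ) - 4) f0 ?_ (fun h => absurd hc.mem h)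
    intro g hg hne
    have := hc.four g hg hne
    show (g.card : ℤ) - 4 = 0
    omega
  rw [hs] at hxx
  have htri := tri_ge hV hc.sub ⟨f0, hc.mem⟩ hc.ne hc.cn
  have hsub : tri V D ⊆ f0.filter fun u => fat V u ⊆ D := by
    intro v hv
    rw [Finset.mem_filter]
    refine ⟨hc.tri v hv, ?_⟩
    unfold tri at hv
    exact (Finset.mem_filter.1 hv).2.2
  have hcard := Finset.card_le_card hsub
  have hcc := corner_card hV hc.sub hc.mem
  have hei : (ei (edg V) (pe V) (qe V) D).card = (eiV V D).card := rfl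
  rw [hei] at hxx
  have hkey : inc V D + a1 V D f0 + a2 V D f0 ≤ (bdy V D).card := by omega
  have ha1 : a1 V D f0 = 0 := by omega
  have hbn : bn V D f0 = 0 := by
    by_contra hb
    have h1 := a1_zero hV hc.sub hc.mem ha1 hb
    have h2 := fct_edges hV (mem_fcs.1 (hc.sub hc.mem))
    have h3 : ((edg V).filter fun e => e ⊆ f0) ⊆ bdy V D := by
      intro e he
      rw [Finset.mem_filter] at he
      exact h1 e he.1 he.2
    have h4 := Finset.card_le_card h3
    have h5 := hc.lt
    omega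
  refine ⟨hbn, ?_⟩
  have ha20 : a2 V D f0 = 0 := a2_zero (by omega)
  have hall : ∀ g ∈ D, a2 V D g = 0 := by
    intro g hg
    by_cases h : g = f0
    · rw [h]
      exact ha20
    · exact ha2 g hg h
  have h6 : ∑ g ∈ D, a1 V D g = 2 * (bdy V D).card := by
    rw [← bn_sum hV hc.sub, Finset.mul_sum]
    refine Finset.sum_congr rfl fun g hg => ?_
    have h7 := corner hV hc.sub hg
    rw [hall g hg] at h7
    omega
  rw [h6]
  omega

end Pool.Agent.LibTF47
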