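import Mathlib
import Pool.Agent.LibTF47.Pl
import Pool.Agent.LibTF47.P0
import Pool.Agent.LibTF47.P10

/-! Row P11. Board TF47. The outer layer of D. L := the g ∈ D with bn V D g = 1 (d_le_one, d_facts: every g ∈ D has bn ≤ 1, f0 has 0), D' := D \ L = D.filter (bn = 0) ∋ f0.
(layer) g ∈ L: one edge e = {a, b} ⊆ g in bdy V D. At a: the other edge e_a of g at a (at_two, N1) is not in bdy V D (bn = 1), so e_a ∈ eiV V D (g ∈ D contains it, both facets in D), a ∈ e_a, and not fat V a ⊆ D (the facet of e outside D contains a). a1_eq (P5) with d_facts for the other facet g_a of e_a (≠ g): bc V D g_a a = 1, so bn V D g_a ≥ 1: g_a ∈ L.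
The same at b: e_b, g_b ∈ L. e_a ≠ e_b (an edge of g containing a and b is e), so the three edges e, e_a, e_b of g are different, and none of them is in bdy V D'. g.card = 4 (g ≠ f0) = number of edges of g (fct_edges): at most one edge of g is in bdy V D'.
(cut_false) Every edge of bdy V D' has one facet in D', and the other facet is in L (if it were outside D, the edge would be in bdy V D and contained in a facet of D' with bn = 0). So |bdy V D'| ≤ ∑_{g ∈ L} (edges of g in bdy V D') ≤ |L| = ∑_{g ∈ D} bn V D g = |bdy V D| (bn_sum, P4). hc.min: |D| ≤ |D'|, so L = ∅, |bdy V D| = 0;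
but bdy V D ≠ ∅ (bdy_empty (N4): D ≠ fcs V). Contradiction. -/

set_option autoImplicit false

namespace Pool.Agent.LibTF47

open Finset Pool.Agent.LibPol19 Pool.Agent.LibTet88 Pool.Agent.LibGP88
open scoped Classical

/-- the leaving edges -/
private theorem P11_bdy {V : Finset (Ed 3)} (hV : Gen V) {X : Finset (Finset (Ed 3))} (hX : X ⊆ fcs V) {e : Finset (Ed 3)} :
    e ∈ bdy V X ↔ e ∈ edg V ∧ (∃ F ∈ X, e ⊆ F) ∧ ∃ G, Fct V G ∧ e ⊆ G ∧ G ∉ X := by
  unfold bdy
  rw [Finset.mem_filter]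
  refine and_congr_right fun he => ?_
  obtain ⟨hne, hp, hq, -, hall⟩ := ends_spec hV he
  have hpe : e ⊆ pe V e := (hall _ hp).2 (Or.inl rfl)
  have hqe : e ⊆ qe V e := (hall _ hq).2 (Or.inr rfl)
  constructor
  · intro h
    obtain ⟨F, hF⟩ := Finset.card_eq_one.1 h
    have hF1 : F ∈ X.filter fun F => e ⊆ F := by rw [hF]; exact Finset.mem_singleton_self F
    rw [Finset.mem_filter] at hF1
    refine ⟨⟨F, hF1.1, hF1.2⟩, ?_⟩
    have hu : ∀ G ∈ X, e ⊆ G → G = F := by
      intro G hG hG'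
      have : G ∈ X.filter fun F => e ⊆ F := Finset.mem_filter.2 ⟨hG, hG'⟩
      rw [hF] at this
      exact Finset.mem_singleton.1 this
    by_cases h1 : pe V e ∈ X
    · refine ⟨qe V e, hq, hqe, fun h2 => hne ?_⟩
      rw [hu _ h1 hpe, hu _ h2 hqe]
    · exact ⟨pe V e, hp, hpe, h1⟩
  · rintro ⟨⟨F, hFX, hF⟩, G, hG, hG', hGX⟩
    rw [Finset.card_eq_one]
    refine ⟨F, ?_⟩
    ext H
    rw [Finset.mem_filter, Finset.mem_singleton]
    constructor
    · rintro ⟨hH, hH'⟩
      have hF1 := (hall F (mem_fcs.1 (hX hFX))).1 hF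
      have hG1 := (hall G hG).1 hG'
      have hH1 := (hall H (mem_fcs.1 (hX hH))).1 hH'
      have hFG : F ≠ G := fun h => hGX (h ▸ hFX)
      have hHG : H ≠ G := fun h => hGX (h ▸ hH)
      rcases hF1 with h1 | h1 <;> rcases hG1 with h2 | h2 <;> rcases hH1 with h3 | h3
      · exact h3.trans h1.symm
      · exact absurd (h1.trans h2.symm) hFG
      · exact h3.trans h1.symm
      · exact absurd (h3.trans h2.symm) hHG
      · exact absurd (h3.trans h2.symm) hHG
      · exact h3.trans h1.symm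
      · exact absurd (h1.trans h2.symm) hFG
      · exact h3.trans h1.symm
    · rintro rfl
      exact ⟨hFX, hF⟩

/-- the other edge of `g` at a vertex of the leaving edge does not leave the inner part -/
private theorem P11_side {V : Finset (Ed 3)} (hV : Gen V) (hT : TF V) {D : Finset (Finset (Ed 3))} {f0 : Finset (Ed 3)}
    (hc : Cut V D f0) {g : Finset (Ed 3)} (hg : g ∈ D) (h1 : bn V D g = 1) {e : Finset (Ed 3)} (he : e ∈ bdy V D)
    (heg : e ⊆ g) {u : Ed 3} (hu : u ∈ e) :
    ∃ e', e' ∈ edg V ∧ e' ⊆ g ∧ u ∈ e' ∧ e' ≠ e ∧ e' ∉ bdy V (D.filter fun g => bn V D g = 0) := by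
  have hgF : Fct V g := mem_fcs.1 (hc.sub hg)
  obtain ⟨e1, he1, hu1⟩ : ∃ e1, e1 ∈ (bdy V D).filter (fun e => e ⊆ g) ∧
      ∀ x ∈ (bdy V D).filter (fun e => e ⊆ g), x = e1 := by
    obtain ⟨e1, he1⟩ := Finset.card_eq_one.1 h1
    refine ⟨e1, by rw [he1]; exact Finset.mem_singleton_self _, fun x hx => ?_⟩
    rw [he1] at hx
    exact Finset.mem_singleton.1 hx
  have hee : ∀ x ∈ bdy V D, x ⊆ g → x = e := by
    intro x hx hxg
    rw [hu1 x (Finset.mem_filter.2 ⟨hx, hxg⟩), hu1 e (Finset.mem_filter.2 ⟨he, heg⟩)]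
  have hE := (P11_bdy hV hc.sub).1 he
  -- the other edge
  have h2 := at_two hV hgF (heg hu)
  obtain ⟨e', he', hne'⟩ : ∃ e' ∈ (edg V).filter (fun e => u ∈ e ∧ e ⊆ g), e' ≠ e := by
    by_contra hcon
    push Not at hcon
    have h3 : ((edg V).filter fun e => u ∈ e ∧ e ⊆ g) ⊆ {e} := fun x hx =>
      Finset.mem_singleton.2 (hcon x hx)
    have h4 := Finset.card_le_card h3
    rw [h2, Finset.card_singleton] at h4
    omega
  rw [Finset.mem_filter] at he'
  obtain ⟨he'1, hue', he'g⟩ := he'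
  refine ⟨e', he'1, he'g, hue', hne', ?_⟩
  have hnb : e' ∉ bdy V D := fun h => hne' (hee e' h he'g)
  have hin : ∀ G, Fct V G → e' ⊆ G → G ∈ D := by
    intro G hG hG'
    by_contra hcon
    exact hnb ((P11_bdy hV hc.sub).2 ⟨he'1, ⟨g, hg, he'g⟩, G, hG, hG', hcon⟩)
  have hei : e' ∈ eiV V D := (ei_iff hV).2 ⟨he'1, hin⟩
  have hnf : ¬ fat V u ⊆ D := by
    intro h
    obtain ⟨-, -, G, hG, hG', hGD⟩ := hE
    exact hGD (h (mem_fat.2 ⟨hG, hG' hu⟩))
  have hbn : ∀ G, Fct V G → e' ⊆ G → bn V D G ≠ 0 := by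
    intro G hG hG' h0
    have h3 := a1_eq hV hc.sub (d_facts hV hT hc).2 hei hue' hnf (hin G hG hG') hG'
    have h4 : bc V D G u ≤ bn V D G := by
      unfold bc bn
      refine Finset.card_le_card fun x hx => ?_
      rw [Finset.mem_filter] at hx ⊢
      exact ⟨hx.1, hx.2.1⟩
    omega
  intro h
  obtain ⟨-, ⟨F, hF, hF'⟩, -⟩ := (P11_bdy hV ((Finset.filter_subset _ _).trans hc.sub)).1 h
  rw [Finset.mem_filter] at hF
  exact hbn F (mem_fcs.1 (hc.sub hF.1)) hF' hF.2

/-- P11: a member of the outer layer has at most one edge to the inner part -/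
theorem layer {V : Finset (Ed 3)} (hV : Gen V) (hT : TF V) {D : Finset (Finset (Ed 3))} {f0 : Finset (Ed 3)}
    (hc : Cut V D f0) {g : Finset (Ed 3)} (hg : g ∈ D) (h1 : bn V D g = 1) :
    ((bdy V (D.filter fun g => bn V D g = 0)).filter fun e => e ⊆ g).card ≤ 1 := by
  have hgF : Fct V g := mem_fcs.1 (hc.sub hg)
  have hg0 : g ≠ f0 := by
    rintro rfl
    have := (d_facts hV hT hc).1
    omega
  have h4 : g.card = 4 := hc.four g hg hg0
  have hE4 : ((edg V).filter fun e => e ⊆ g).card = 4 := by rw [fct_edges hV hgF, h4]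
  obtain ⟨e, he⟩ := Finset.card_eq_one.1 h1
  have he1 : e ∈ (bdy V D).filter fun e => e ⊆ g := by
    rw [he]
    exact Finset.mem_singleton_self _
  rw [Finset.mem_filter] at he1
  obtain ⟨heD, heg⟩ := he1
  have hEdg : e ∈ edg V := ((P11_bdy hV hc.sub).1 heD).1
  obtain ⟨a, b, hab, hab'⟩ := Finset.card_eq_two.1 (mem_edg.1 hEdg).2.1
  have hae : a ∈ e := by rw [hab']; exact Finset.mem_insert_self _ _
  have hbe : b ∈ e := by rw [hab']; exact Finset.mem_insert_of_mem (Finset.mem_singleton_self _)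
  obtain ⟨ea, ha1, ha2, ha3, ha4, ha5⟩ := P11_side hV hT hc hg h1 heD heg hae
  obtain ⟨eb', hb1, hb2, hb3, hb4, hb5⟩ := P11_side hV hT hc hg h1 heD heg hbe
  have hne : ea ≠ eb' := by
    rintro rfl
    apply ha4
    rw [hab']
    symm
    refine Finset.eq_of_subset_of_card_le ?_ ?_
    · intro x hx
      rw [Finset.mem_insert, Finset.mem_singleton] at hx
      rcases hx with rfl | rfl
      · exact ha3
      · exact hb3
    · rw [Finset.card_pair hab, (mem_edg.1 ha1).2.1]
  have he5 : e ∉ bdy V (D.filter fun g => bn V D g = 0) := by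
    intro h
    obtain ⟨-, ⟨F, hF, hF'⟩, -⟩ := (P11_bdy hV ((Finset.filter_subset _ _).trans hc.sub)).1 h
    rw [Finset.mem_filter] at hF
    have h5 : e ∈ (bdy V D).filter fun e => e ⊆ F := Finset.mem_filter.2 ⟨heD, hF'⟩
    have h6 : 0 < bn V D F := Finset.card_pos.2 ⟨e, h5⟩
    omega
  have hsub : ((bdy V (D.filter fun g => bn V D g = 0)).filter fun e => e ⊆ g) ⊆
      ((edg V).filter fun e => e ⊆ g) \ {e, ea, eb'} := by
    intro x hx
    rw [Finset.mem_filter] at hx
    rw [Finset.mem_sdiff, Finset.mem_filter]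
    refine ⟨⟨((P11_bdy hV ((Finset.filter_subset _ _).trans hc.sub)).1 hx.1).1, hx.2⟩, fun h => ?_⟩
    rw [Finset.mem_insert, Finset.mem_insert, Finset.mem_singleton] at h
    rcases h with rfl | rfl | rfl
    · exact he5 hx.1
    · exact ha5 hx.1
    · exact hb5 hx.1
  have h3 : ({e, ea, eb'} : Finset (Finset (Ed 3))).card = 3 := by
    rw [Finset.card_eq_three]
    exact ⟨e, ea, eb', ha4.symm, hb4.symm, hne, rfl⟩
  have hsub3 : ({e, ea, eb'} : Finset (Finset (Ed 3))) ⊆ (edg V).filter fun e => e ⊆ g := by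
    intro x hx
    rw [Finset.mem_insert, Finset.mem_insert, Finset.mem_singleton] at hx
    rw [Finset.mem_filter]
    rcases hx with rfl | rfl | rfl
    · exact ⟨hEdg, heg⟩
    · exact ⟨ha1, ha2⟩
    · exact ⟨hb1, hb2⟩
  have h7 := Finset.card_le_card hsub
  rw [Finset.card_sdiff_of_subset hsub3, hE4, h3] at h7
  exact h7

/-- P11: minimal cuts do not exist -/
theorem cut_false {V : Finset (Ed 3)} (hV : Gen V) (hT : TF V) {D : Finset (Finset (Ed 3))} {f0 : Finset (Ed 3)}
    (hc : Cut V D f0) : False := by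
  obtain ⟨hf0, -⟩ := d_facts hV hT hc
  have hD' : (D.filter fun g => bn V D g = 0) ⊆ D := Finset.filter_subset _ _
  have hle1 : ∀ g ∈ D, bn V D g ≤ 1 := by
    intro g hg
    by_cases h : g = f0
    · rw [h, hf0]
      exact Nat.zero_le _
    · exact d_le_one hV hc hg h
  -- the number of members of the outer layer
  have hL : (D.filter fun g => bn V D g = 1).card = (bdy V D).card := by
    rw [← bn_sum hV hc.sub, Finset.card_filter]
    refine Finset.sum_congr rfl fun g hg => ?_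
    have := hle1 g hg
    by_cases h : bn V D g = 1
    · rw [if_pos h, h]
    · rw [if_neg h]
      omega
  -- the boundary of the inner part
  have hsub : bdy V (D.filter fun g => bn V D g = 0) ⊆ (D.filter fun g => bn V D g = 1).biUnion
      fun g => (bdy V (D.filter fun g => bn V D g = 0)).filter fun e => e ⊆ g := by
    intro e he
    obtain ⟨hE, ⟨F, hF, hF'⟩, G, hG, hG', hGD⟩ := (P11_bdy hV (hD'.trans hc.sub)).1 he
    rw [Finset.mem_filter] at hF
    have hGin : G ∈ D := by
      by_contra hcon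
      have h5 : e ∈ (bdy V D).filter fun e => e ⊆ F :=
        Finset.mem_filter.2 ⟨(P11_bdy hV hc.sub).2 ⟨hE, ⟨F, hF.1, hF'⟩, G, hG, hG', hcon⟩, hF'⟩
      have h6 : 0 < bn V D F := Finset.card_pos.2 ⟨e, h5⟩
      omega
    have hG1 : bn V D G = 1 := by
      have h7 := hle1 G hGin
      have h8 : bn V D G ≠ 0 := fun h => hGD (Finset.mem_filter.2 ⟨hGin, h⟩)
      omega
    rw [Finset.mem_biUnion]
    exact ⟨G, Finset.mem_filter.2 ⟨hGin, hG1⟩, Finset.mem_filter.2 ⟨he, hG'⟩⟩
  have hle : (bdy V (D.filter fun g => bn V D g = 0)).card ≤ (bdy V D).card := by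
    refine (Finset.card_le_card hsub).trans (Finset.card_biUnion_le.trans ?_)
    rw [← hL, Finset.card_eq_sum_ones]
    refine Finset.sum_le_sum fun g hg => ?_
    rw [Finset.mem_filter] at hg
    exact layer hV hT hc hg.1 hg.2
  have hmin := hc.min (D.filter fun g => bn V D g = 0) (Finset.mem_filter.2 ⟨hc.mem, hf0⟩) hD' hle
  have heq : (D.filter fun g => bn V D g = 0) = D := Finset.eq_of_subset_of_card_le hD' hmin
  have h0 : (bdy V D).card = 0 := by
    rw [← bn_sum hV hc.sub]
    refine Finset.sum_eq_zero fun g hg => ?_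
    rw [← heq, Finset.mem_filter] at hg
    exact hg.2
  have hall : D = fcs V := bdy_empty hV (fun F hF => mem_fcs.1 (hc.sub hF)) ⟨f0, hc.mem⟩ (Finset.card_eq_zero.1 h0)
  obtain ⟨x, hx⟩ := hc.ne
  rw [hall] at hx
  simp at hx

end Pool.Agent.LibTF47
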