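import Mathlib
import Pool.Agent.LibTF47.Pl
import Pool.Agent.LibTF47.P0
import Pool.Agent.LibTF47.P3
import Pool.Agent.LibGP88.N5

/-! Row P6. Board TF47. (exists_three) planar (N5) with U := V (four_le (Q2): 4 ≤ |V|; EU V V = edg V): 2 |edg V| + 8 ≤ 4 |V|; ∑_v |nb V v| = 2 |edg V| (double counting), so some |nb V v| ≤ 3; three_nb (E1): = 3. (See exists_small in LibGP88.K9.)
(sys_of) mg: mg_fcs. c4: c4_fcs. d4: dg_card, fct_four (N4). tr: tr_fat. ftT: R ⊆ fcs V, R ≠ fcs V: fcs V \ R is nonempty; tri_three (P3): some v ∈ tri V R; w := fat V v. wk: hw. ex: exists_three. -/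

set_option autoImplicit false

namespace Pool.Agent.LibTF47

open Finset Pool.Agent.LibPol19 Pool.Agent.LibTet88 Pool.Agent.LibGP88
open scoped Classical

private theorem P6_deg {V : Finset (Ed 3)} {v : Ed 3} (hv : v ∈ V) :
    (nb V v).card = ((edg V).filter fun e => v ∈ e).card := by
  have h1 : (edg V).filter (fun e => v ∈ e) = (nb V v).image fun u => ({v, u} : Finset (Ed 3)) := by
    ext e
    rw [Finset.mem_filter, Finset.mem_image]
    constructor
    · rintro ⟨he, hve⟩
      obtain ⟨x, y, rfl, hxy⟩ : ∃ x y, e = {x, y} ∧ Adj V x y := by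
        obtain ⟨h2, h3, h4⟩ := mem_edg.1 he
        obtain ⟨x, y, hxy, rfl⟩ := Finset.card_eq_two.1 h3
        exact ⟨x, y, rfl, hxy, h4⟩
      have hs : ∀ a b : Ed 3, Adj V a b → b ∈ V := by
        intro a b hab
        exact hab.2.2.1 (Finset.mem_insert_of_mem (Finset.mem_singleton_self b))
      rcases Finset.mem_insert.1 hve with h5 | h5
      · subst h5
        exact ⟨y, by unfold nb; rw [Finset.mem_filter]; exact ⟨hs _ _ hxy, hxy⟩, rfl⟩
      · rw [Finset.mem_singleton] at h5
        subst h5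
        have h6 : Adj V v x := ⟨hxy.1.symm, by rw [Finset.pair_comm]; exact hxy.2⟩
        exact ⟨x, by unfold nb; rw [Finset.mem_filter]; exact ⟨hs _ _ h6, h6⟩, Finset.pair_comm _ _⟩
    · rintro ⟨u, hu, rfl⟩
      unfold nb at hu
      rw [Finset.mem_filter] at hu
      exact ⟨pair_mem_edg.2 hu.2, Finset.mem_insert_self _ _⟩
  rw [h1, Finset.card_image_of_injOn]
  intro a ha b hb hab
  have ha' : v ≠ a := by
    have := Finset.mem_coe.1 ha
    unfold nb at this
    exact (Finset.mem_filter.1 this).2.1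
  have h2 : a ∈ ({v, b} : Finset (Ed 3)) := by
    have h3 : ({v, a} : Finset (Ed 3)) = {v, b} := hab
    rw [← h3]
    exact Finset.mem_insert_of_mem (Finset.mem_singleton_self a)
  rcases Finset.mem_insert.1 h2 with h3 | h3
  · exact absurd h3.symm ha'
  · exact Finset.mem_singleton.1 h3

private theorem P6_sum {V : Finset (Ed 3)} : ∑ v ∈ V, (nb V v).card = 2 * (edg V).card := by
  have h1 : ∑ v ∈ V, (nb V v).card = ∑ v ∈ V, ((edg V).filter fun e => v ∈ e).card :=
    Finset.sum_congr rfl fun v hv => P6_deg hv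
  rw [h1]
  have h2 : ∑ v ∈ V, ((edg V).filter fun e => v ∈ e).card = ∑ e ∈ edg V, (V.filter fun v => v ∈ e).card := by
    simp only [Finset.card_filter]
    rw [Finset.sum_comm]
  rw [h2]
  have h3 : ∀ e ∈ edg V, (V.filter fun v => v ∈ e).card = 2 := by
    intro e he
    obtain ⟨h4, h5, -⟩ := mem_edg.1 he
    have h6 : V.filter (fun v => v ∈ e) = e := by
      ext x
      rw [Finset.mem_filter]
      exact ⟨fun h => h.2, fun h => ⟨h4 h, h⟩⟩
    rw [h6, h5]
  rw [Finset.sum_congr rfl h3, Finset.sum_const, smul_eq_mul, mul_comm]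

private theorem P6_cn {α β : Type} {E : Finset β} {p q : β → α} {S R : Finset α} (i j : DecidableEq α)
    (h : Cn E p q (@SDiff.sdiff _ (@Finset.instSDiff _ i) S R)) :
    Cn E p q (@SDiff.sdiff _ (@Finset.instSDiff _ j) S R) := by
  have hij : i = j := Subsingleton.elim _ _
  subst hij
  exact h

/-- P6: a vertex of degree three exists -/
theorem exists_three {V : Finset (Ed 3)} (hV : Gen V) (hT : TF V) : ∃ v ∈ V, (nb V v).card = 3 := by
  have h4 := four_le hV
  have hE : EU V V = edg V := by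
    unfold EU
    rw [Finset.filter_eq_self]
    intro e he
    exact (mem_edg.1 he).1
  have hp := planar hV hT (Finset.Subset.refl V) (by omega)
  rw [hE] at hp
  have h1 : ∃ v ∈ V, (nb V v).card ≤ 3 := by
    by_contra hcon
    push Not at hcon
    have h2 : V.card * 4 ≤ ∑ v ∈ V, (nb V v).card := by
      have := Finset.card_nsmul_le_sum V (fun v => (nb V v).card) 4 fun v hv => hcon v hv
      rwa [smul_eq_mul] at this
    rw [P6_sum] at h2
    omega
  obtain ⟨v, hv, h3⟩ := h1
  exact ⟨v, hv, le_antisymm h3 (three_nb hV hv)⟩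

/-- P6: the system -/
theorem sys_of {V : Finset (Ed 3)} (hV : Gen V) (hT : TF V)
    (hw : ∀ v ∈ V, (nb V v).card = 3 → Wk (fcs V) (edg V) (pe V) (qe V) (fat V v)) :
    Sys (fcs V) (edg V) (pe V) (qe V) (Tr V) := by
  refine ⟨mg_fcs hV, c4_fcs hV hT, ?_, ?_, ?_, ?_, ?_⟩
  · intro f hf
    rw [dg_card hV (mem_fcs.1 hf)]
    exact fct_four hV hT (mem_fcs.1 hf)
  · rintro w ⟨v, hv, h3, rfl⟩
    exact tr_fat hV hv h3
  · intro R hR hne _ hf hc
    have hΦ : (fcs V \ R).Nonempty := by
      rw [Finset.sdiff_nonempty]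
      exact fun h => hne (Finset.Subset.antisymm hR h)
    have h3 := tri_three hV hR hf hΦ (P6_cn _ _ hc)
    have h4 : (tri V R).Nonempty := by
      rw [← Finset.card_pos]
      omega
    obtain ⟨v, hv⟩ := h4
    unfold tri at hv
    rw [Finset.mem_filter] at hv
    exact ⟨fat V v, ⟨v, hv.1, hv.2.1, rfl⟩, hv.2.2⟩
  · rintro w ⟨v, hv, h3, rfl⟩
    exact hw v hv h3
  · obtain ⟨v, hv, h3⟩ := exists_three hV hT
    exact ⟨fat V v, v, hv, h3, rfl⟩

end Pool.Agent.LibTF47
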