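import Mathlib
import Pool.Agent.LibTF47.Pl
import Pool.Agent.LibTF47.P0
import Pool.Agent.LibTF47.P3
import Pool.Agent.LibTF47.P4
import Pool.Agent.LibTF47.P5
import Pool.Agent.LibTF47.A6

/-! Row P7. Board TF47. Q := fcs V \ Φ; fcs V \ Q = Φ is nonempty and connected (tc_cn, hx.tc). Every g ∈ Q has at most one edge leaving Q.
Suppose g ∈ Q, bn V Q g ≥ 2. The edges of bdy V Q contained in g have their other facet in Φ: |eb (edg V) pe qe g Φ| ≥ bn V Q g ≥ 2, so insert g Φ is TC (tc_insert, A2), Φ ⊂ insert g Φ ⊆ fcs V. ext_noT (A6): every v ∈ tri V Q satisfies v ∈ g (otherwise fat V v ⊆ fcs V \ insert g Φ; Tr V (fat V v)).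
fat_comp (A6): R ⊆ Q TC, Ft, connected complement; tri_three (P3): |tri V R| ≥ 3; tri V R ⊆ tri V Q. (1) If g' ≠ g in Q also has bn ≥ 2 then tri V R ⊆ g ∩ g': inter_card (LibGP88.Q2): ≤ 2, contradiction. (2) So a2 V Q g' = 0 for all g' ≠ g (a2_zero), inc_ge (P5): |bdy V Q| ≤ inc V Q + a2 V Q g.
tri_ge (P3) for Q: 2 e(Q) + 4 + inc ≤ |tri V Q| + 4 |Q|. tri V Q ⊆ g.filter (fat V u ⊆ Q): |tri V Q| + a1 + a2 ≤ |g| (corner_card, P4; a1, a2 of g). xx_eq (A1), eo_bdy: xx Q = 2 e(Q) + |bdy V Q| - 4 |Q|; xx Q ≥ |g| - 4 (xx_card and fct_four: all terms ≥ 0, or xx_mono).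
Together: xx Q + 4 ≤ |g| - a1 ≤ xx Q + 4 - a1, so a1 V Q g = 0. a1_zero (P4): all edges of g are in bdy V Q. But take v ∈ tri V R: v ∈ g, fat V v ⊆ Q; an edge e of g at v (at_two, N1): all facets containing e contain v, so they are in Q: e is in two members of Q (edge_two): e ∉ bdy V Q. Contradiction. -/

set_option autoImplicit false

namespace Pool.Agent.LibTF47

open Finset Pool.Agent.LibPol19 Pool.Agent.LibTet88 Pool.Agent.LibGP88
open scoped Classical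

private theorem w_insert {α β : Type} [d : DecidableEq α] {E : Finset β} {p q : β → α} {R : Finset α} (hR : TC E p q R)
    {v : α} (hv : v ∉ R) (h2 : 2 ≤ (eb E p q v R).card) : TC E p q (insert v R) := by
  have hd : d = fun a b => Classical.propDecidable (a = b) := Subsingleton.elim _ _
  subst hd
  exact tc_insert hR hv h2

private theorem w_noT {α β : Type} [d : DecidableEq α] {S : Finset α} {E : Finset β} {p q : β → α} {T : Finset α → Prop}
    (h : Sys S E p q T) {Φ : Finset α} (hx : Ext S E p q Φ) {Φ' : Finset α} (h1 : Φ ⊂ Φ') (h2 : Φ' ⊆ S)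
    (h3 : TC E p q Φ') {w : Finset α} (hw : T w) : ¬ w ⊆ S \ Φ' := by
  have hd : d = fun a b => Classical.propDecidable (a = b) := Subsingleton.elim _ _
  subst hd
  exact ext_noT h hx h1 h2 h3 hw

private theorem w_fat {α β : Type} [d : DecidableEq α] {S : Finset α} {E : Finset β} {p q : β → α} {T : Finset α → Prop}
    (h : Sys S E p q T) {Φ : Finset α} (hx : Ext S E p q Φ) :
    ∃ R, R ⊆ S \ Φ ∧ TC E p q R ∧ Ft E p q R ∧ Cn E p q (S \ R) := by
  have hd : d = fun a b => Classical.propDecidable (a = b) := Subsingleton.elim _ _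
  subst hd
  exact fat_comp h hx

private theorem w_eb {α β : Type} {E : Finset β} {p q : β → α} {v : α} {R : Finset α} {e : β} (hE : e ∈ E)
    (h : (p e = v ∧ q e ∈ R) ∨ (q e = v ∧ p e ∈ R)) : e ∈ eb E p q v R := Finset.mem_filter.2 ⟨hE, h⟩

private theorem p7_other {V : Finset (Ed 3)} (hV : Gen V) {Q : Finset (Finset (Ed 3))} {e : Finset (Ed 3)}
    (he : e ∈ bdy V Q) : ¬ (pe V e ∈ Q ∧ qe V e ∈ Q) := by
  rintro ⟨h1, h2⟩
  unfold bdy at he
  obtain ⟨hE, hc⟩ := Finset.mem_filter.1 he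
  obtain ⟨hne, hp, hq, hint, hG⟩ := ends_spec hV hE
  obtain ⟨a, ha⟩ := Finset.card_eq_one.1 hc
  have m1 : pe V e ∈ Q.filter fun F => e ⊆ F := Finset.mem_filter.2 ⟨h1, (hG _ hp).2 (Or.inl rfl)⟩
  have m2 : qe V e ∈ Q.filter fun F => e ⊆ F := Finset.mem_filter.2 ⟨h2, (hG _ hq).2 (Or.inr rfl)⟩
  rw [ha, Finset.mem_singleton] at m1 m2
  exact hne (m1.trans m2.symm)

private theorem p7_insert {V : Finset (Ed 3)} (hV : Gen V) {Φ : Finset (Finset (Ed 3))}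
    (hx : Ext (fcs V) (edg V) (pe V) (qe V) Φ) {g : Finset (Ed 3)} (hg : g ∈ fcs V \ Φ)
    (hb : 2 ≤ bn V (fcs V \ Φ) g) : TC (edg V) (pe V) (qe V) (insert g Φ) := by
  obtain ⟨hgf, hgΦ⟩ := Finset.mem_sdiff.1 hg
  refine w_insert hx.tc hgΦ (hb.trans (Finset.card_le_card ?_))
  intro e he
  obtain ⟨heb, heg⟩ := Finset.mem_filter.1 he
  have hno := p7_other hV heb
  have hE : e ∈ edg V := by
    unfold bdy at heb
    exact (Finset.mem_filter.1 heb).1
  obtain ⟨hne, hp, hq, hint, hG⟩ := ends_spec hV hE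
  refine w_eb hE ?_
  rcases (hG g (mem_fcs.1 hgf)).1 heg with h1 | h1
  · left
    refine ⟨h1.symm, ?_⟩
    by_contra hq'
    exact hno ⟨h1 ▸ hg, Finset.mem_sdiff.2 ⟨mem_fcs.2 hq, hq'⟩⟩
  · right
    refine ⟨h1.symm, ?_⟩
    by_contra hp'
    exact hno ⟨Finset.mem_sdiff.2 ⟨mem_fcs.2 hp, hp'⟩, h1 ▸ hg⟩

private theorem p7_mem {V : Finset (Ed 3)} (hV : Gen V) (h : Sys (fcs V) (edg V) (pe V) (qe V) (Tr V))
    {Φ : Finset (Finset (Ed 3))} (hx : Ext (fcs V) (edg V) (pe V) (qe V) Φ) {g : Finset (Ed 3)} (hg : g ∈ fcs V \ Φ)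
    (hb : 2 ≤ bn V (fcs V \ Φ) g) {v : Ed 3} (hv : v ∈ tri V (fcs V \ Φ)) : v ∈ g := by
  obtain ⟨hgf, hgΦ⟩ := Finset.mem_sdiff.1 hg
  unfold tri at hv
  obtain ⟨hvV, h3, hfat⟩ := Finset.mem_filter.1 hv
  by_contra hvg
  refine w_noT h hx (Finset.ssubset_insert hgΦ) (Finset.insert_subset hgf hx.sub) (p7_insert hV hx hg hb)
    (⟨v, hvV, h3, rfl⟩ : Tr V (fat V v)) ?_
  intro F hF
  have h1 := hfat hF
  obtain ⟨h2, h4⟩ := Finset.mem_sdiff.1 h1
  refine Finset.mem_sdiff.2 ⟨h2, fun hm => ?_⟩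
  rcases Finset.mem_insert.1 hm with h5 | h5
  · subst h5
    unfold fat at hF
    exact hvg (Finset.mem_filter.1 hF).2
  · exact h4 h5

/-- P7: every facet outside `Φ` has at most one edge in common with `Φ` -/
theorem bn_le_one {V : Finset (Ed 3)} (hV : Gen V) (hT : TF V) (h : Sys (fcs V) (edg V) (pe V) (qe V) (Tr V))
    {Φ : Finset (Finset (Ed 3))} (hx : Ext (fcs V) (edg V) (pe V) (qe V) Φ) {g : Finset (Ed 3)} (hg : g ∈ fcs V \ Φ) :
    bn V (fcs V \ Φ) g ≤ 1 := by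
  by_contra hcon
  have hb : 2 ≤ bn V (fcs V \ Φ) g := by omega
  obtain ⟨hgf, hgΦ⟩ := Finset.mem_sdiff.1 hg
  have hgF := mem_fcs.1 hgf
  have hQs : fcs V \ Φ ⊆ fcs V := Finset.sdiff_subset
  have hcomp : fcs V \ (fcs V \ Φ) = Φ := Finset.sdiff_sdiff_eq_self hx.sub
  have hΦne : Φ.Nonempty := hx.tc.1
  have hcn : Cn (edg V) (pe V) (qe V) Φ := tc_cn hx.tc
  have hmem := fun v (hv : v ∈ tri V (fcs V \ Φ)) => p7_mem hV h hx hg hb hv
  obtain ⟨R, hRQ, hRt, hRf, hRc⟩ := w_fat h hx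
  have hRs : R ⊆ fcs V := hRQ.trans hQs
  have hΦR : Φ ⊆ fcs V \ R := by
    intro F hF
    exact Finset.mem_sdiff.2 ⟨hx.sub hF, fun hFR => (Finset.mem_sdiff.1 (hRQ hFR)).2 hF⟩
  have h3 : 3 ≤ (tri V R).card := tri_three hV hRs hRf (hΦne.mono hΦR) hRc
  have htri : tri V R ⊆ tri V (fcs V \ Φ) := by
    intro v hv
    unfold tri at hv ⊢
    obtain ⟨a, b, c⟩ := Finset.mem_filter.1 hv
    exact Finset.mem_filter.2 ⟨a, b, c.trans hRQ⟩
  have hother : ∀ g' ∈ fcs V \ Φ, g' ≠ g → bn V (fcs V \ Φ) g' ≤ 1 := by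
    intro g' hg' hne
    by_contra hc'
    have hb' : 2 ≤ bn V (fcs V \ Φ) g' := by omega
    have hsub : tri V R ⊆ g' ∩ g := by
      intro v hv
      exact Finset.mem_inter.2 ⟨p7_mem hV h hx hg' hb' (htri hv), hmem v (htri hv)⟩
    have := (Finset.card_le_card hsub).trans
      (inter_card hV (mem_fcs.1 (hQs hg')) hgF hne)
    omega
  have hsum : ∑ g' ∈ fcs V \ Φ, a2 V (fcs V \ Φ) g' = a2 V (fcs V \ Φ) g :=
    Finset.sum_eq_single_of_mem g hg fun g' hg' hne => a2_zero (hother g' hg' hne)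
  have hinc := inc_ge hV hQs
  rw [hsum] at hinc
  have htg := tri_ge hV hQs ⟨g, hg⟩ (by rw [hcomp]; exact hΦne)
    (show Cn (edg V) (pe V) (qe V) (fcs V \ (fcs V \ Φ)) by rw [hcomp]; exact hcn)
  have htc : (tri V (fcs V \ Φ)).card ≤ (g.filter fun u => fat V u ⊆ fcs V \ Φ).card := by
    apply Finset.card_le_card
    intro v hv
    have h1 := hmem v hv
    unfold tri at hv
    exact Finset.mem_filter.2 ⟨h1, (Finset.mem_filter.1 hv).2.2⟩
  have hcc := corner_card hV hQs hg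
  have hxx := xx_eq (mg_fcs hV) (fcs V \ Φ)
  rw [eo_bdy hV hQs] at hxx
  have hxc := xx_card hV hQs
  have hge : ((g.card : ℤ) - 4) ≤ ∑ F ∈ fcs V \ Φ, ((F.card : ℤ) - 4) :=
    Finset.single_le_sum (f := fun F : Finset (Ed 3) => ((F.card : ℤ) - 4)) (fun F hF => by
      have := fct_four hV hT (mem_fcs.1 (hQs hF))
      omega) hg
  have ha1 : a1 V (fcs V \ Φ) g = 0 := by
    rw [hxc] at hxx
    have e1 : ((eiV V (fcs V \ Φ)).card : ℤ) = ((ei (edg V) (pe V) (qe V) (fcs V \ Φ)).card : ℤ) := rfl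
    have hinc' : ((bdy V (fcs V \ Φ)).card : ℤ) ≤ (inc V (fcs V \ Φ) : ℤ) + (a2 V (fcs V \ Φ) g : ℤ) := by exact_mod_cast hinc
    have htg' : 2 * ((eiV V (fcs V \ Φ)).card : ℤ) + 4 + (inc V (fcs V \ Φ) : ℤ) ≤
        ((tri V (fcs V \ Φ)).card : ℤ) + 4 * ((fcs V \ Φ).card : ℤ) := by exact_mod_cast htg
    have htc' : ((tri V (fcs V \ Φ)).card : ℤ) ≤ ((g.filter fun u => fat V u ⊆ fcs V \ Φ).card : ℤ) := by exact_mod_cast htc
    have hcc' : ((g.filter fun u => fat V u ⊆ fcs V \ Φ).card : ℤ) + (a1 V (fcs V \ Φ) g : ℤ) + (a2 V (fcs V \ Φ) g : ℤ) ≤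
        (g.card : ℤ) := by exact_mod_cast hcc
    have : (a1 V (fcs V \ Φ) g : ℤ) ≤ 0 := by linarith
    have : a1 V (fcs V \ Φ) g ≤ 0 := by exact_mod_cast this
    omega
  have hall := a1_zero hV hQs hg ha1 (by omega)
  obtain ⟨v, hv⟩ := Finset.card_pos.1 (by omega : 0 < (tri V R).card)
  have hvg := hmem v (htri hv)
  have hvf : fat V v ⊆ fcs V \ Φ := by
    have := htri hv
    unfold tri at this
    exact (Finset.mem_filter.1 this).2.2
  obtain ⟨e, he⟩ := Finset.card_pos.1 (by rw [at_two hV hgF hvg]; omega :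
    0 < ((edg V).filter fun e => v ∈ e ∧ e ⊆ g).card)
  obtain ⟨heE, hve, heg⟩ := Finset.mem_filter.1 he
  obtain ⟨hne, hp, hq, hint, hG⟩ := ends_spec hV heE
  have hin : ∀ F, Fct V F → e ⊆ F → F ∈ fcs V \ Φ := by
    intro F hF heF
    apply hvf
    unfold fat
    exact Finset.mem_filter.2 ⟨mem_fcs.2 hF, heF hve⟩
  exact p7_other hV (hall e heE heg) ⟨hin _ hp ((hG _ hp).2 (Or.inl rfl)), hin _ hq ((hG _ hq).2 (Or.inr rfl))⟩

end Pool.Agent.LibTF47
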