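import Mathlib
import Pool.Agent.LibTF47.Pl
import Pool.Agent.LibTF47.P0
import Pool.Agent.LibTF47.P7
import Pool.Agent.LibTF47.A8

/-! Row P8. Board TF47. Q := fcs V \ Φ. (q_ne) Q is nonempty: hx.ft. (n3_ge) bn_le_one (P7), a2_zero (P4): all a2 V Q g = 0 (g ∈ Q); inc_ge (P5): |bdy V Q| ≤ inc V Q; tri_ge (P3) for Q (fcs V \ Q = Φ nonempty and connected: tc_cn); xx_eq (A1), eo_bdy (P0): xx Q = 2 e(Q) + |bdy V Q| - 4 |Q|.
(case_one) x f := (f.card : ℤ) - 4 ≥ 0 on Q (fct_four), xx R = ∑ x (xx_card). M := x f0 maximal. For v ∈ tri V Q: final_ineq (A8; Tr V (fat V v)): 4 + xd Φ + xx Q ≤ 2 xx (fat V v), xd Φ ≥ 0 (C4: Φ nonempty, ≠ fcs V). Let X := xx Q.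
f0 ∉ fat V v0 ⊆ Q: M + xx (fat V v0) ≤ X (disjoint subsets of Q), so 2 M ≤ X - 4 - xd Φ. ∑_{v ∈ tri} xx (fat V v) = ∑_{f ∈ Q} x f * |tri ∩ f| (double counting) ≤ ∑_{f ∈ Q} x f * (x f + 4) ≤ X (M + 4).
|tri| ≥ X + 4 (n3_ge): (X + 4)(X + 4 + xd Φ) ≤ |tri| (4 + xd Φ + X) ≤ 2 X (M + 4) ≤ X (X + 4 - xd Φ): impossible for X ≥ 0, xd Φ ≥ 0 (nlinarith). -/

set_option autoImplicit false

namespace Pool.Agent.LibTF47

open Finset Pool.Agent.LibPol19 Pool.Agent.LibTet88 Pool.Agent.LibGP88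
open scoped Classical

private lemma p8_sd (A B : Finset (Finset (Ed 3))) :
    @SDiff.sdiff _ (@Finset.instSDiff (Finset (Ed 3)) (fun a b => Classical.propDecidable (a = b))) A B = A \ B := by
  ext x
  exact (@Finset.mem_sdiff _ (fun a b => Classical.propDecidable (a = b)) A B x).trans Finset.mem_sdiff.symm

private lemma p8_cn {V : Finset (Ed 3)} {Φ : Finset (Finset (Ed 3))}
    (hx : Ext (fcs V) (edg V) (pe V) (qe V) Φ) :
    (fcs V \ Φ).Nonempty ∧ (fcs V \ (fcs V \ Φ)) = Φ ∧ Φ.Nonempty ∧ Φ ≠ fcs V := by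
  obtain ⟨R, hR, hF⟩ := hx.ft
  rw [p8_sd] at hR
  have h1 : (fcs V \ Φ).Nonempty := hF.1.mono hR
  refine ⟨h1, Finset.sdiff_sdiff_eq_self hx.sub, hx.tc.1, ?_⟩
  intro h2
  rw [h2, Finset.sdiff_self] at h1
  exact Finset.not_nonempty_empty h1

/-- P8: the number of vertices of degree three outside `Φ` -/
theorem n3_ge {V : Finset (Ed 3)} (hV : Gen V) (hT : TF V) (h : Sys (fcs V) (edg V) (pe V) (qe V) (Tr V))
    {Φ : Finset (Finset (Ed 3))} (hx : Ext (fcs V) (edg V) (pe V) (qe V) Φ) :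
    xx (edg V) (pe V) (qe V) (fcs V \ Φ) + 4 ≤ ((tri V (fcs V \ Φ)).card : ℤ) := by
  obtain ⟨hQ, hQc, hΦ, -⟩ := p8_cn hx
  have hQs : fcs V \ Φ ⊆ fcs V := Finset.sdiff_subset
  have ha : ∑ g ∈ fcs V \ Φ, a2 V (fcs V \ Φ) g = 0 :=
    Finset.sum_eq_zero fun g hg => a2_zero (bn_le_one hV hT h hx hg)
  have h1 := inc_ge hV hQs
  rw [ha, add_zero] at h1
  have h2 := tri_ge hV hQs hQ (by rw [hQc]; exact hΦ) (by rw [hQc]; exact tc_cn hx.tc)
  have h3 := xx_eq (mg_fcs hV) (fcs V \ Φ)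
  rw [eo_bdy hV hQs] at h3
  rw [h3]
  have h2' : (2 * ((eiV V (fcs V \ Φ)).card : ℤ) + 4 + (inc V (fcs V \ Φ) : ℤ) ≤
      ((tri V (fcs V \ Φ)).card : ℤ) + 4 * ((fcs V \ Φ).card : ℤ)) := by exact_mod_cast h2
  have h1' : ((bdy V (fcs V \ Φ)).card : ℤ) ≤ (inc V (fcs V \ Φ) : ℤ) := by exact_mod_cast h1
  have h4 : ((ei (edg V) (pe V) (qe V) (fcs V \ Φ)).card : ℤ) = ((eiV V (fcs V \ Φ)).card : ℤ) := rfl
  rw [h4]
  linarith

/-- P8: some vertex of degree three is not on the largest facet -/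
theorem case_one {V : Finset (Ed 3)} (hV : Gen V) (hT : TF V) (h : Sys (fcs V) (edg V) (pe V) (qe V) (Tr V))
    {Φ : Finset (Finset (Ed 3))} (hx : Ext (fcs V) (edg V) (pe V) (qe V) Φ) {f0 : Finset (Ed 3)} (hf : f0 ∈ fcs V \ Φ)
    (hm : ∀ f ∈ fcs V \ Φ, f.card ≤ f0.card) {v0 : Ed 3} (hv : v0 ∈ tri V (fcs V \ Φ)) (hn : v0 ∉ f0) : False := by
  obtain ⟨-, -, hΦ, hΦne⟩ := p8_cn hx
  have hQs : fcs V \ Φ ⊆ fcs V := Finset.sdiff_subset
  have h3 := n3_ge hV hT h hx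
  have hpos : ∀ f ∈ fcs V \ Φ, (0 : ℤ) ≤ (f.card : ℤ) - 4 := by
    intro f hf
    have h1 := fct_four hV hT (mem_fcs.1 (hQs hf))
    have h2 : (4 : ℤ) ≤ (f.card : ℤ) := by exact_mod_cast h1
    linarith
  have hfat : ∀ v ∈ tri V (fcs V \ Φ), fat V v ⊆ fcs V \ Φ ∧
      fat V v = (fcs V \ Φ).filter (fun f => v ∈ f) ∧
      4 + xd (edg V) (pe V) (qe V) Φ + xx (edg V) (pe V) (qe V) (fcs V \ Φ) ≤
        2 * xx (edg V) (pe V) (qe V) (fat V v) := by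
    intro v hv
    have hv' := (Finset.mem_filter.1 hv)
    have hfi := final_ineq h hx (w := fat V v) ⟨v, hv'.1, hv'.2.1, rfl⟩ (by rw [p8_sd]; exact hv'.2.2)
    rw [p8_sd] at hfi
    refine ⟨hv'.2.2, ?_, hfi⟩
    ext f
    rw [Finset.mem_filter]
    constructor
    · intro hf
      exact ⟨hv'.2.2 hf, (mem_fat.1 hf).2⟩
    · rintro ⟨hf1, hf2⟩
      exact mem_fat.2 ⟨mem_fcs.1 (hQs hf1), hf2⟩
  have hxd : 0 ≤ xd (edg V) (pe V) (qe V) Φ := by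
    have h1 := h.c4 Φ hx.sub hΦ hΦne
    have h2 : (4 : ℤ) ≤ ((eo (edg V) (pe V) (qe V) Φ).card : ℤ) := by exact_mod_cast h1
    unfold xd
    linarith
  have hX := xx_card hV hQs
  -- the largest facet
  have hM : ((f0.card : ℤ) - 4) + xx (edg V) (pe V) (qe V) (fat V v0) ≤
      xx (edg V) (pe V) (qe V) (fcs V \ Φ) := by
    obtain ⟨h1, -, -⟩ := hfat v0 hv
    rw [hX, xx_card hV (h1.trans hQs)]
    have hnot : f0 ∉ fat V v0 := fun h2 => hn (mem_fat.1 h2).2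
    have e := Finset.sum_insert (f := fun F : Finset (Ed 3) => ((F.card : ℤ) - 4)) hnot
    rw [← e]
    refine Finset.sum_le_sum_of_subset_of_nonneg ?_ fun f hf _ => hpos f hf
    intro f hf'
    rcases Finset.mem_insert.1 hf' with rfl | h2
    · exact hf
    · exact h1 h2
  have h2M : 2 * ((f0.card : ℤ) - 4) ≤ xx (edg V) (pe V) (qe V) (fcs V \ Φ) - 4 -
      xd (edg V) (pe V) (qe V) Φ := by
    obtain ⟨-, -, h1⟩ := hfat v0 hv
    linarith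
  -- double counting
  have hsum : ∑ v ∈ tri V (fcs V \ Φ), xx (edg V) (pe V) (qe V) (fat V v) ≤
      xx (edg V) (pe V) (qe V) (fcs V \ Φ) * (((f0.card : ℤ) - 4) + 4) := by
    have e1 : ∑ v ∈ tri V (fcs V \ Φ), xx (edg V) (pe V) (qe V) (fat V v) =
        ∑ v ∈ tri V (fcs V \ Φ), ∑ f ∈ fcs V \ Φ, if v ∈ f then ((f.card : ℤ) - 4) else 0 := by
      refine Finset.sum_congr rfl fun v hv => ?_
      obtain ⟨h1, h2, -⟩ := hfat v hv
      rw [xx_card hV (h1.trans hQs), h2, Finset.sum_filter]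
    rw [e1, Finset.sum_comm, hX, Finset.sum_mul]
    refine Finset.sum_le_sum fun f hf => ?_
    rw [← Finset.sum_filter, Finset.sum_const, nsmul_eq_mul, mul_comm]
    refine mul_le_mul_of_nonneg_left ?_ (hpos f hf)
    have h1 : ((tri V (fcs V \ Φ)).filter fun v => v ∈ f).card ≤ f.card :=
      Finset.card_le_card fun v hv => (Finset.mem_filter.1 hv).2
    have h2 := hm f hf
    have h3 : (((tri V (fcs V \ Φ)).filter fun v => v ∈ f).card : ℤ) ≤ (f0.card : ℤ) := by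
      exact_mod_cast h1.trans h2
    linarith
  have hlow : ((tri V (fcs V \ Φ)).card : ℤ) * (4 + xd (edg V) (pe V) (qe V) Φ +
      xx (edg V) (pe V) (qe V) (fcs V \ Φ)) ≤
      2 * ∑ v ∈ tri V (fcs V \ Φ), xx (edg V) (pe V) (qe V) (fat V v) := by
    rw [Finset.mul_sum]
    have h1 := Finset.card_nsmul_le_sum (tri V (fcs V \ Φ))
      (fun v => 2 * xx (edg V) (pe V) (qe V) (fat V v))
      (4 + xd (edg V) (pe V) (qe V) Φ + xx (edg V) (pe V) (qe V) (fcs V \ Φ))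
      fun v hv => (hfat v hv).2.2
    rwa [nsmul_eq_mul] at h1
  have hX0 : 0 ≤ xx (edg V) (pe V) (qe V) (fcs V \ Φ) := by
    rw [hX]
    exact Finset.sum_nonneg hpos
  generalize xx (edg V) (pe V) (qe V) (fcs V \ Φ) = X at *
  generalize xd (edg V) (pe V) (qe V) Φ = D at *
  generalize (((tri V (fcs V \ Φ)).card : ℕ) : ℤ) = N at *
  generalize ∑ v ∈ tri V (fcs V \ Φ), xx (edg V) (pe V) (qe V) (fat V v) = A at *
  generalize ((f0.card : ℕ) : ℤ) = m at *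
  have k1 : (X + 4) * (4 + D + X) ≤ N * (4 + D + X) :=
    mul_le_mul_of_nonneg_right h3 (by linarith)
  have k2 : X * (2 * (m - 4) + 8) ≤ X * ((X - 4 - D) + 8) :=
    mul_le_mul_of_nonneg_left (by linarith) hX0
  have k3 : 0 ≤ X * D := mul_nonneg hX0 hxd
  nlinarith [k1, k2, k3, hlow, hsum]

end Pool.Agent.LibTF47
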