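import Mathlib
import Pool.Agent.LibTF47.Pl
import Pool.Agent.LibTF47.P0
import Pool.Agent.LibTF47.P8

/-! Row P9. Board TF47. All vertices of degree three inside Q := fcs V \ Φ are on f0 ∈ Q: tri V Q ⊆ f0, so by n3_ge (P8): xx Q + 4 ≤ |tri V Q| ≤ |f0|. xx Q = ∑_{g ∈ Q} (|g| - 4) (xx_card), all terms ≥ 0 (fct_four, N4): so the terms of g ≠ f0 are 0 and xx Q = |f0| - 4.
tri V Q is nonempty (|tri| ≥ xx Q + 4 ≥ 4): v. f0 ∈ fat V v ⊆ Q: xx (fat V v) = |f0| - 4. final_ineq (A8): 4 + xd Φ + (|f0| - 4) ≤ 2 (|f0| - 4), xd Φ = |eo Φ| - 4 = |eo Q| - 4 = |bdy V Q| - 4 (eo_compl (A1), eo_bdy (P0)): |bdy V Q| + 4 ≤ |f0|. -/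

set_option autoImplicit false

namespace Pool.Agent.LibTF47

open Finset Pool.Agent.LibPol19 Pool.Agent.LibTet88 Pool.Agent.LibGP88
open scoped Classical

private theorem p9_sd {α : Type} (i1 i2 : DecidableEq α) (A B : Finset α) :
    @SDiff.sdiff _ (@Finset.instSDiff _ i1) A B = @SDiff.sdiff _ (@Finset.instSDiff _ i2) A B := by
  cases Subsingleton.elim i1 i2
  rfl

/-- P9: all vertices of degree three outside `Φ` are on one facet -/
theorem case_two_facts {V : Finset (Ed 3)} (hV : Gen V) (hT : TF V) (h : Sys (fcs V) (edg V) (pe V) (qe V) (Tr V))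
    {Φ : Finset (Finset (Ed 3))} (hx : Ext (fcs V) (edg V) (pe V) (qe V) Φ) {f0 : Finset (Ed 3)} (hf : f0 ∈ fcs V \ Φ)
    (hall : ∀ v ∈ tri V (fcs V \ Φ), v ∈ f0) :
    (∀ g ∈ fcs V \ Φ, g ≠ f0 → g.card = 4) ∧ (bdy V (fcs V \ Φ)).card + 4 ≤ f0.card := by
  have hQ : fcs V \ Φ ⊆ fcs V := Finset.sdiff_subset
  have h4 : ∀ g ∈ fcs V \ Φ, 4 ≤ g.card := fun g hg => fct_four hV hT (mem_fcs.1 (hQ hg))
  have h4' : ∀ g ∈ fcs V \ Φ, (0 : ℤ) ≤ (g.card : ℤ) - 4 := fun g hg => by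
    have := h4 g hg
    omega
  have hn3 := n3_ge hV hT h hx
  have hxx := xx_card hV hQ
  have htri : (tri V (fcs V \ Φ)).card ≤ f0.card := Finset.card_le_card hall
  have hsplit : ∑ F ∈ fcs V \ Φ, ((F.card : ℤ) - 4) =
      ((f0.card : ℤ) - 4) + ∑ F ∈ (fcs V \ Φ).erase f0, ((F.card : ℤ) - 4) :=
    (Finset.add_sum_erase _ _ hf).symm
  have hnn : (0 : ℤ) ≤ ∑ F ∈ (fcs V \ Φ).erase f0, ((F.card : ℤ) - 4) :=
    Finset.sum_nonneg (fun g hg => h4' g (Finset.mem_of_mem_erase hg))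
  have hz : ∑ F ∈ (fcs V \ Φ).erase f0, ((F.card : ℤ) - 4) = 0 := by
    have : ((tri V (fcs V \ Φ)).card : ℤ) ≤ (f0.card : ℤ) := by exact_mod_cast htri
    omega
  have hall4 : ∀ g ∈ fcs V \ Φ, g ≠ f0 → g.card = 4 := by
    intro g hg hne
    have h1 := (Finset.sum_eq_zero_iff_of_nonneg
      (fun g hg => h4' g (Finset.mem_of_mem_erase hg))).1 hz g (Finset.mem_erase.2 ⟨hne, hg⟩)
    omega
  refine ⟨hall4, ?_⟩
  have hpos : 0 < (tri V (fcs V \ Φ)).card := by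
    have := h4 f0 hf
    omega
  obtain ⟨v, hv⟩ := Finset.card_pos.1 hpos
  have hvf := hall v hv
  obtain ⟨hvV, hv3, hvQ⟩ := Finset.mem_filter.1 hv
  have hf0 : f0 ∈ fat V v := Finset.mem_filter.2 ⟨hQ hf, hvf⟩
  have hfx : xx (edg V) (pe V) (qe V) (fat V v) = (f0.card : ℤ) - 4 := by
    rw [xx_card hV (hvQ.trans hQ), ← Finset.add_sum_erase _ _ hf0]
    have : ∑ F ∈ (fat V v).erase f0, ((F.card : ℤ) - 4) = 0 :=
      Finset.sum_eq_zero (fun g hg => by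
        have h1 := hall4 g (hvQ (Finset.mem_of_mem_erase hg)) (Finset.ne_of_mem_erase hg)
        omega)
    omega
  have hvQ' := hvQ
  rw [p9_sd _ (fun a b => Classical.propDecidable (a = b))] at hvQ'
  have hfin0 := final_ineq h hx (w := fat V v) ⟨v, hvV, hv3, rfl⟩ hvQ'
  have hfin : 4 + xd (edg V) (pe V) (qe V) Φ + xx (edg V) (pe V) (qe V) (fcs V \ Φ) ≤
      2 * xx (edg V) (pe V) (qe V) (fat V v) := by
    rw [p9_sd _ (fun a b => Classical.propDecidable (a = b))]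
    exact hfin0
  have hxd : xd (edg V) (pe V) (qe V) Φ = ((bdy V (fcs V \ Φ)).card : ℤ) - 4 := by
    unfold xd
    rw [← eo_bdy hV hQ, p9_sd _ (fun a b => Classical.propDecidable (a = b)),
      eo_compl (mg_fcs hV) hx.sub]
  omega

end Pool.Agent.LibTF47
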