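import Mathlib
import Pool.Agent.LibTF47.P6
import Pool.Agent.LibTF47.P8
import Pool.Agent.LibTF47.P9
import Pool.Agent.LibTF47.P11
import Pool.Agent.LibTF47.A9

/-! Row P12. Board TF47. Assembly. By contradiction: all vertices of degree three are weak: sys_of (P6): Sys. ext_exists (A6): Φ. Q := fcs V \ Φ is nonempty (hx.ft). f0 ∈ Q with maximal card (exists_max_image). If some v0 ∈ tri V Q is not on f0: case_one (P8). Otherwise case_two_facts (P9).
min_cut (A9; Φ nonempty and connected: tc_cn): D with f0 ∈ D ⊆ Q. Cut V D f0: four: D ⊆ Q; tri: tri V D ⊆ tri V Q; lt: |bdy V D| ≤ |bdy V Q| (eo_bdy) < |f0|; min: D' ⊆ D ⊆ Q. cut_false (P11). -/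

set_option autoImplicit false

namespace Pool.Agent.LibTF47

open Finset Pool.Agent.LibPol19 Pool.Agent.LibTet88 Pool.Agent.LibGP88
open scoped Classical

/-- P12: some vertex of degree three is not weak -/
theorem exists_good {V : Finset (Ed 3)} (hV : Gen V) (hT : TF V) :
    ∃ v ∈ V, (nb V v).card = 3 ∧ ¬ Wk (fcs V) (edg V) (pe V) (qe V) (fat V v) := by
  by_contra H
  have hs : Sys (fcs V) (edg V) (pe V) (qe V) (Tr V) := by
    refine sys_of hV hT fun v hv h3 => ?_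
    by_contra hn
    exact H ⟨v, hv, h3, hn⟩
  obtain ⟨Φ, hx⟩ := ext_exists hs
  have m1 : ∀ (i : DecidableEq (Finset (Ed 3))) (A B : Finset (Finset (Ed 3))) (x : Finset (Ed 3)),
      x ∈ @SDiff.sdiff _ (@Finset.instSDiff _ i) A B ↔ x ∈ A ∧ x ∉ B := fun i A B x => @Finset.mem_sdiff _ i A B x
  have hQ : (fcs V \ Φ).Nonempty := by
    obtain ⟨R, hR, hft⟩ := hx.ft
    obtain ⟨x, hxR⟩ := hft.1
    exact ⟨x, (m1 _ _ _ _).2 ((m1 _ _ _ _).1 (hR hxR))⟩
  obtain ⟨f0, hf0, hmax⟩ := exists_max_image (fcs V \ Φ) (fun f => f.card) hQ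
  by_cases hcase : ∃ v0 ∈ tri V (fcs V \ Φ), v0 ∉ f0
  · obtain ⟨v0, hv0, hn0⟩ := hcase
    exact case_one hV hT hs hx hf0 hmax hv0 hn0
  · have hall : ∀ v ∈ tri V (fcs V \ Φ), v ∈ f0 := by
      intro v hv
      by_contra hn
      exact hcase ⟨v, hv, hn⟩
    obtain ⟨hfour, hcard⟩ := case_two_facts hV hT hs hx hf0 hall
    obtain ⟨D, hD0, hDQ', hne', hcn', hlt', hmin'⟩ := min_cut hs.mg hs.c4 hx.sub hx.tc.1 (tc_cn hx.tc)
      ((m1 _ _ _ _).2 ((m1 _ _ _ _).1 hf0))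
    have hDQ : D ⊆ fcs V \ Φ := fun x hxD => (m1 _ _ _ _).2 ((m1 _ _ _ _).1 (hDQ' hxD))
    have hne : (fcs V \ D).Nonempty := by
      obtain ⟨x, hxD⟩ := hne'
      exact ⟨x, (m1 _ _ _ _).2 ((m1 _ _ _ _).1 hxD)⟩
    have k1 : ∀ (i j : DecidableEq (Finset (Ed 3))),
        Cn (edg V) (pe V) (qe V) (@SDiff.sdiff _ (@Finset.instSDiff _ i) (fcs V) D) →
          Cn (edg V) (pe V) (qe V) (@SDiff.sdiff _ (@Finset.instSDiff _ j) (fcs V) D) := by
      intro i j h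
      rwa [Subsingleton.elim j i]
    have k2 : ∀ (i j : DecidableEq (Finset (Ed 3))),
        eo (edg V) (pe V) (qe V) (@SDiff.sdiff _ (@Finset.instSDiff _ i) (fcs V) Φ) =
          eo (edg V) (pe V) (qe V) (@SDiff.sdiff _ (@Finset.instSDiff _ j) (fcs V) Φ) := by
      intro i j
      rw [Subsingleton.elim j i]
    have hcn : CnV V (fcs V \ D) := k1 _ _ hcn'
    have hlt : (eo (edg V) (pe V) (qe V) D).card ≤ (eo (edg V) (pe V) (qe V) (fcs V \ Φ)).card := by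
      rw [k2 _ (fun a b => Classical.propDecidable (a = b))]
      exact hlt'
    have hDS : D ⊆ fcs V := fun x hxD => (mem_sdiff.1 (hDQ hxD)).1
    have hQS : fcs V \ Φ ⊆ fcs V := fun x hxD => (mem_sdiff.1 hxD).1
    rw [eo_bdy hV hDS, eo_bdy hV hQS] at hlt
    refine cut_false hV hT (D := D) (f0 := f0) ⟨hDS, hD0, fun g hg hgne => hfour g (hDQ hg) hgne, fun v hv => ?_,
      hne, hcn, by omega, fun D' h0 hD' hle => ?_⟩
    · refine hall v ?_
      obtain ⟨h1, h2, h3⟩ := mem_filter.1 hv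
      exact mem_filter.2 ⟨h1, h2, h3.trans hDQ⟩
    · refine hmin' D' h0 (fun x hxD => hDQ' (hD' hxD)) ?_
      rw [eo_bdy hV (hD'.trans hDS), eo_bdy hV hDS]
      exact hle

end Pool.Agent.LibTF47
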