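import Mathlib
import Pool.Agent.LibTF47.Tx

/-! Board TF47: the machine of LibTet88/LibGP88 for trails with virtual marks. -/

set_option autoImplicit false

namespace Pool.Agent.LibTF47

open Finset Pool.Agent.LibPol19 Pool.Agent.LibTet88 Pool.Agent.LibGP88
open scoped Classical

variable {d : ℕ}

/-- R2: one more facet is triangulated -/
theorem stx_step {V : Finset (Ed 3)} (hV : Gen V) {w : Ed 3} {X : Finset (Ed 3) → Finset (Finset (Ed 3))} {Γ : Finset (Finset (Ed 3))} {g g' : Finset (Ed 3)}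
    (h : TrX V w X Γ g g') {S : Finset (Finset (Ed 3))} {F₀ : Finset (Ed 3)} (hF₀ : F₀ ∈ Fw V w) (hS : F₀ ∉ S)
    (hst : StX V w X Γ g g' S) : StX V w X Γ g g' (insert F₀ S) := by
  obtain ⟨Y, T, hM, hC⟩ := hst
  set r₀ : Finset (Ed 3) → Finset (Ed 3) → Prop := fun a b =>
    (∃ F ∈ S, Lk (Y F) (T F) a b) ∨
      (∃ F ∈ Fw V w, F ∉ S ∧ F ≠ F₀ ∧ a ∈ X F ∧ b ∈ X F) ∨ (a = g ∧ b = g') with hr₀
  set r : Finset (Ed 3) → Finset (Ed 3) → Prop := Relation.EqvGen r₀ with hr
  have hreq : Equivalence r := Relation.EqvGen.is_equivalence r₀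
  have hgg : r g g' := Relation.EqvGen.rel _ _ (Or.inr (Or.inr ⟨rfl, rfl⟩))
  have hfct := (mem_Fw.1 hF₀).1
  -- no class is a singleton
  have hns : NoSing (X F₀) r := by
    intro e he
    have hev : Even ((X F₀).filter (r e)).card := by
      refine parx_one h (r e) ⟨fun h1 => hreq.trans h1 hgg, fun h1 => hreq.trans h1 (hreq.symm hgg)⟩
        hF₀ ?_
      intro F hF hne
      by_cases hFS : F ∈ S
      · exact (hM F hFS).par (r e) fun e₁ e₂ hL hK =>
          hreq.trans hK (Relation.EqvGen.rel _ _ (Or.inl ⟨F, hFS, hL⟩))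
      · by_cases hx : ∃ x ∈ X F, r e x
        · obtain ⟨x, hx, hrx⟩ := hx
          have h2 : (X F).filter (r e) = X F := by
            refine Finset.filter_true_of_mem fun y hy => ?_
            exact hreq.trans hrx (Relation.EqvGen.rel _ _ (Or.inr (Or.inl ⟨F, hF, hFS, hne, hx, hy⟩)))
          rw [h2]
          exact h.even F hF
        · have h2 : (X F).filter (r e) = ∅ := by
            refine Finset.filter_false_of_mem fun y hy hry => hx ⟨y, hy, hry⟩
          rw [h2, Finset.card_empty]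
          exact Even.zero
    have hmem : e ∈ (X F₀).filter (r e) := Finset.mem_filter.2 ⟨he, hreq.refl e⟩
    have hcard : 1 < ((X F₀).filter (r e)).card := by
      have h1 : 0 < ((X F₀).filter (r e)).card := Finset.card_pos.2 ⟨e, hmem⟩
      obtain ⟨m, hm⟩ := hev
      omega
    obtain ⟨e', he', hne⟩ := Finset.exists_mem_ne hcard e
    rw [Finset.mem_filter] at he'
    exact ⟨e', he'.1, hne, he'.2⟩
  have hX : X F₀ ⊆ edg F₀ := by
    intro e he
    have h0 := h.sub F₀ hF₀ e he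
    exact ((fct_poly hV hfct).2.2 e).2 ⟨h.edge e h0.1, h0.2⟩
  obtain ⟨Y₀, T₀, hM₀, hC₀⟩ := poly_thm (fct_poly hV hfct).1 hX (h.nonempty F₀ hF₀) (h.even F₀ hF₀)
    hreq hns
  have hXY : ∀ e ∈ X F₀, e ∈ Y₀ := fun e he => (hM₀.yedge e (hX he)).2 he
  have hSne : ∀ F ∈ S, F ≠ F₀ := fun F hF hc => hS (hc ▸ hF)
  have hYo : ∀ F, F ≠ F₀ → Function.update Y F₀ Y₀ F = Y F := fun F hF => Function.update_of_ne hF _ _
  have hTo : ∀ F, F ≠ F₀ → Function.update T F₀ T₀ F = T F := fun F hF => Function.update_of_ne hF _ _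
  have hYs : Function.update Y F₀ Y₀ F₀ = Y₀ := Function.update_self _ _ _
  have hTs : Function.update T F₀ T₀ F₀ = T₀ := Function.update_self _ _ _
  set R' : Finset (Ed 3) → Finset (Ed 3) → Prop :=
    RlX V w X g g' (insert F₀ S) (Function.update Y F₀ Y₀) (Function.update T F₀ T₀) with hR'
  have hlk : ∀ a b F, F ∈ S → Lk (Y F) (T F) a b → R' a b := by
    intro a b F hF hL
    refine Or.inl ⟨F, Finset.mem_insert_of_mem hF, ?_⟩
    rw [hYo F (hSne F hF), hTo F (hSne F hF)]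
    exact hL
  have hfw : ∀ a b F, F ∈ Fw V w → F ∉ S → F ≠ F₀ → a ∈ X F → b ∈ X F → R' a b := by
    intro a b F hF hFS hne ha hb
    refine Or.inr (Or.inl ⟨F, hF, ?_, ha, hb⟩)
    rw [Finset.mem_insert, not_or]
    exact ⟨hne, hFS⟩
  have h1 : ∀ a b, r₀ a b → R' a b := by
    rintro a b (⟨F, hF, hL⟩ | ⟨F, hF, hFS, hne, ha, hb⟩ | ⟨ha, hb⟩)
    · exact hlk a b F hF hL
    · exact hfw a b F hF hFS hne ha hb
    · exact Or.inr (Or.inr ⟨ha, hb⟩)
  have h1' : ∀ a b, r a b → Relation.EqvGen R' a b :=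
    fun a b hab => Relation.EqvGen.mono h1 a b hab
  have h2 : ∀ a b, Lk Y₀ T₀ a b → R' a b := by
    intro a b hL
    refine Or.inl ⟨F₀, Finset.mem_insert_self _ _, ?_⟩
    rw [hYs, hTs]
    exact hL
  have clos : ∀ (p : Finset (Ed 3) → Finset (Ed 3) → Prop),
      (∀ a b, p a b → Relation.EqvGen R' a b) → ∀ a b, Relation.EqvGen p a b →
        Relation.EqvGen R' a b := by
    intro p hp a b hab
    induction hab with
    | rel x y h => exact hp x y h
    | refl x => exact Relation.EqvGen.refl x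
    | symm x y _ ih => exact Relation.EqvGen.symm _ _ ih
    | trans x y z _ _ ih1 ih2 => exact Relation.EqvGen.trans _ _ _ ih1 ih2
  have h3 : ∀ a ∈ Y₀, ∀ b ∈ Y₀, Relation.EqvGen R' a b := by
    intro a ha b hb
    refine clos _ ?_ a b (hC₀ a ha b hb)
    rintro p q (hpq | hpq)
    · exact h1' p q hpq
    · exact Relation.EqvGen.rel _ _ (h2 p q hpq)
  have h4 : ∀ a b, RlX V w X g g' S Y T a b → Relation.EqvGen R' a b := by
    rintro a b (⟨F, hF, hL⟩ | ⟨F, hF, hFS, ha, hb⟩ | ⟨ha, hb⟩)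
    · exact Relation.EqvGen.rel _ _ (hlk a b F hF hL)
    · by_cases hne : F = F₀
      · subst hne
        exact h3 a (hXY a ha) b (hXY b hb)
      · exact Relation.EqvGen.rel _ _ (hfw a b F hF hFS hne ha hb)
    · exact Relation.EqvGen.rel _ _ (Or.inr (Or.inr ⟨ha, hb⟩))
  refine ⟨Function.update Y F₀ Y₀, Function.update T F₀ T₀, ?_, ?_⟩
  · intro F hF
    rw [Finset.mem_insert] at hF
    rcases eq_or_ne F F₀ with rfl | hne
    · rw [hYs, hTs]
      exact hM₀
    · rw [hYo F hne, hTo F hne]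
      exact hM F (hF.resolve_left hne)
  · obtain ⟨e₀, he₀⟩ := h.nonempty F₀ hF₀
    have he₀Γ : e₀ ∈ Γ := (h.sub F₀ hF₀ e₀ he₀).1
    have key : ∀ a, (a ∈ Γ ∨ ∃ F ∈ insert F₀ S, a ∈ Function.update Y F₀ Y₀ F) →
        Relation.EqvGen R' a e₀ := by
      rintro a (ha | ⟨F, hF, ha⟩)
      · exact clos _ h4 _ _ (hC a e₀ (Or.inl ha) (Or.inl he₀Γ))
      · rcases eq_or_ne F F₀ with rfl | hne
        · rw [hYs] at ha
          exact h3 a ha e₀ (hXY e₀ he₀)
        · rw [hYo F hne] at ha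
          exact clos _ h4 _ _ (hC a e₀ (Or.inr ⟨F, (Finset.mem_insert.1 hF).resolve_left hne, ha⟩)
            (Or.inl he₀Γ))
    intro a b ha hb
    exact Relation.EqvGen.trans _ _ _ (key a ha) (Relation.EqvGen.symm _ _ (key b hb))

end Pool.Agent.LibTF47
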