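import Mathlib
import Pool.Agent.LibTF47.Tx
import Pool.Agent.LibGP88.R5

/-! Board TF47: the machine of LibTet88/LibGP88 for trails with virtual marks. -/

set_option autoImplicit false

namespace Pool.Agent.LibTF47

open Finset Pool.Agent.LibPol19 Pool.Agent.LibTet88 Pool.Agent.LibGP88
open scoped Classical

/-- `e` is a marked side of the triangle `t` -/
def XIn (V : Finset (Ed 3)) (w : Ed 3) (Y T : Finset (Ed 3) → Finset (Finset (Ed 3))) (e t : Finset (Ed 3)) : Prop :=
  ∃ F ∈ Fw V w, t ∈ T F ∧ e ∈ Y F ∧ e ⊆ t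

/-- a marked side is in at most two triangles, the end `g` in at most one -/
theorem sidex_le {V : Finset (Ed 3)} (hV : Gen V) {w : Ed 3} {X : Finset (Ed 3) → Finset (Finset (Ed 3))}
    {Γ : Finset (Finset (Ed 3))} {g g' : Finset (Ed 3)}
    (h : TrX V w X Γ g g') {Y T : Finset (Ed 3) → Finset (Finset (Ed 3))} (hf : FinX V w X Y T)
    {F e : Finset (Ed 3)} (hF : F ∈ Fw V w) (he : e ∈ Y F) :
    (((Fw V w).biUnion T).filter fun t => XIn V w Y T e t).card ≤ 2 ∧
      (e = g → (((Fw V w).biUnion T).filter fun t => XIn V w Y T e t).card ≤ 1) := by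
  obtain ⟨heF, hcard⟩ := (hf.mark F hF).ysub e he
  set N := (Fw V w).filter fun F' => e ∈ Y F' with hN
  have hsub : (((Fw V w).biUnion T).filter fun t => XIn V w Y T e t) ⊆
      N.biUnion fun F' => (T F').filter fun t => e ⊆ t := by
    intro t ht
    rw [mem_filter] at ht
    obtain ⟨F', hF', htF', heY, het⟩ := ht.2
    rw [mem_biUnion]
    exact ⟨F', mem_filter.2 ⟨hF', heY⟩, mem_filter.2 ⟨htF', het⟩⟩
  have hle : (((Fw V w).biUnion T).filter fun t => XIn V w Y T e t).card ≤
      ∑ F' ∈ N, ((T F').filter fun t => e ⊆ t).card :=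
    (card_le_card hsub).trans card_biUnion_le
  by_cases hed : e ∈ edg F
  · have h1 : e ∈ X F := ((hf.mark F hF).yedge e hed).1 he
    have heΓ : e ∈ Γ := (h.sub F hF e h1).1
    have heV : e ∈ edg V := h.edge e heΓ
    have hed' : ∀ F' ∈ N, e ∈ edg F' := by
      intro F' hF'
      rw [hN, mem_filter] at hF'
      exact ((fct_poly hV (mem_Fw.1 hF'.1).1).2.2 e).2 ⟨heV, ((hf.mark F' hF'.1).ysub e hF'.2).1⟩
    have hone : ∀ F' ∈ N, ((T F').filter fun t => e ⊆ t).card = 1 := by
      intro F' hF'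
      have h2 := hed' F' hF'
      rw [hN, mem_filter] at hF'
      exact (hf.mark F' hF'.1).tri.edge e h2
    have hNX : N ⊆ (Fw V w).filter fun F' => e ∈ X F' := by
      intro F' hF'
      have h2 := hed' F' hF'
      rw [hN, mem_filter] at hF'
      exact mem_filter.2 ⟨hF'.1, ((hf.mark F' hF'.1).yedge e h2).1 hF'.2⟩
    rw [sum_congr rfl hone, sum_const, smul_eq_mul, mul_one] at hle
    have hNc := card_le_card hNX
    by_cases hg : e = g
    · have h3 : ((Fw V w).filter fun F' => e ∈ X F').card = 1 := by rw [hg]; exact h.one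
      exact ⟨by omega, fun _ => by omega⟩
    · refine ⟨?_, fun h2 => absurd h2 hg⟩
      by_cases hg' : e = g'
      · have h3 : ((Fw V w).filter fun F' => e ∈ X F').card = 1 := by rw [hg']; exact h.one'
        omega
      · have h3 := h.two e heΓ hg hg'
        omega
  · have hne : e ≠ g := by
      rintro rfl
      exact hed (((fct_poly hV (mem_Fw.1 hF).1).2.2 e).2 ⟨h.edge e h.hg, heF⟩)
    refine ⟨?_, fun h2 => absurd h2 hne⟩
    have hNF : N ⊆ {F} := by
      intro F' hF'
      rw [hN, mem_filter] at hF'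
      rw [mem_singleton]
      by_contra hne
      have h1 := R5_edge hV hF'.1 hF hne ((hf.mark F' hF'.1).ysub e hF'.2).1 heF hcard
      exact hed (((fct_poly hV (mem_Fw.1 hF).1).2.2 e).2 ⟨h1, heF⟩)
    have h4 : ∑ F' ∈ N, ((T F').filter fun t => e ⊆ t).card ≤
        ∑ F' ∈ {F}, ((T F').filter fun t => e ⊆ t).card :=
      sum_le_sum_of_subset hNF
    rw [sum_singleton] at h4
    exact hle.trans (h4.trans ((hf.mark F hF).tri.two e hcard))

end Pool.Agent.LibTF47
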