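import Mathlib
import Pool.Agent.LibTF47.X3
import Pool.Agent.LibTF47.X6
import Pool.Agent.LibGP88.G2
import Pool.Agent.LibTet88.G3
import Pool.Agent.LibGP88.G4

/-! Board TF47: the machine of LibTet88/LibGP88 for trails with virtual marks. -/

set_option autoImplicit false

namespace Pool.Agent.LibTF47

open Finset Pool.Agent.LibPol19 Pool.Agent.LibTet88 Pool.Agent.LibGP88
open scoped Classical

variable {d : ℕ}

/-- G5: the tetrahedralization from a trail -/
theorem tet_of_trx {V : Finset (Ed 3)} (hV : Gen V) {w : Ed 3} (hw : w ∈ V) {X : Finset (Ed 3) → Finset (Finset (Ed 3))} {Γ : Finset (Finset (Ed 3))}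
    {g g' : Finset (Ed 3)} (h : TrX V w X Γ g g') :
    ∃ U : Finset (Finset (Ed 3)),
      (∀ t ∈ U, w ∈ t ∧ t ⊆ V ∧ t.card = 4 ∧ AffineIndependent ℝ (fun x : t => (x.1 : Ed 3))) ∧
      (⋃ t ∈ U, convexHull ℝ (t : Set (Ed 3))) = convexHull ℝ (V : Set (Ed 3)) ∧
      (∀ t ∈ U, ∀ u ∈ U, convexHull ℝ (t : Set (Ed 3)) ∩ convexHull ℝ (u : Set (Ed 3)) =
        convexHull ℝ ((t ∩ u : Finset (Ed 3)) : Set (Ed 3))) ∧
      ∃ f : ℕ → Finset (Ed 3), (∀ i < U.card, f i ∈ U) ∧ (∀ i < U.card, ∀ j < U.card, f i = f j → i = j) ∧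
        ∀ i, i + 1 < U.card → (f i ∩ f (i + 1)).card = 3 := by
  obtain ⟨Y, T, hf⟩ := existsx_fin hV h
  obtain ⟨f, hf1, hf2, hf3⟩ := trix_path hV h hf
  have hmem : ∀ t, t ∈ (Fw V w).biUnion T ↔ ∃ F ∈ Fw V w, t ∈ T F := fun t => Finset.mem_biUnion
  have hfct : ∀ F ∈ Fw V w, Fct V F ∧ w ∉ F := fun F hF => mem_Fw.1 hF
  have htri : ∀ F ∈ Fw V w, ∀ t ∈ T F, t ⊆ F ∧ t.card = 3 := fun F hF => (hf.mark F hF).tri.sub
  have hwt : ∀ t ∈ (Fw V w).biUnion T, w ∉ t := by
    intro t ht hw'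
    obtain ⟨F, hF, ht⟩ := (hmem t).1 ht
    exact (hfct F hF).2 ((htri F hF t ht).1 hw')
  have hinj : Set.InjOn (fun t : Finset (Ed 3) => insert w t) ((Fw V w).biUnion T : Finset (Finset (Ed 3))) := by
    intro t ht t' ht' he
    have h1 : (insert w t).erase w = (insert w t').erase w := congrArg (fun s => Finset.erase s w) he
    rwa [Finset.erase_insert (hwt t (by exact_mod_cast ht)),
      Finset.erase_insert (hwt t' (by exact_mod_cast ht'))] at h1
  have hcard : (((Fw V w).biUnion T).image (fun t : Finset (Ed 3) => insert w t)).card =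
      ((Fw V w).biUnion T).card := Finset.card_image_of_injOn hinj
  refine ⟨((Fw V w).biUnion T).image (fun t : Finset (Ed 3) => insert w t), ?_, ?_, ?_, ?_⟩
  · intro u hu
    obtain ⟨t, ht, rfl⟩ := Finset.mem_image.1 hu
    obtain ⟨F, hF, ht⟩ := (hmem t).1 ht
    obtain ⟨h1, h2⟩ := htri F hF t ht
    obtain ⟨h3, h4⟩ := tet_indep hV hw hF h1 h2
    refine ⟨Finset.mem_insert_self _ _, ?_, h3, h4⟩
    intro x hx
    rcases Finset.mem_insert.1 hx with rfl | hx
    · exact hw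
    · exact (hfct F hF).1.1.2.1 (h1 hx)
  · apply Set.Subset.antisymm
    · refine Set.iUnion₂_subset ?_
      intro u hu
      obtain ⟨t, ht, rfl⟩ := Finset.mem_image.1 hu
      obtain ⟨F, hF, ht⟩ := (hmem t).1 ht
      obtain ⟨h1, h2⟩ := htri F hF t ht
      refine hl_mono ?_
      intro x hx
      rcases Finset.mem_insert.1 hx with rfl | hx
      · exact hw
      · exact (hfct F hF).1.1.2.1 (h1 hx)
    · intro p hp
      have hp2 := cone_cover hV hw hp
      rw [Set.mem_iUnion₂] at hp2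
      obtain ⟨F, hF, hpF⟩ := hp2
      obtain ⟨q, hq, s, hs0, hs1, rfl⟩ := mem_hl_insert (hfct F hF).1.1.1 hpF
      have hq2 := (hf.mark F hF).tri.cover hq
      rw [Set.mem_iUnion₂] at hq2
      obtain ⟨t, ht, hqt⟩ := hq2
      rw [Set.mem_iUnion₂]
      exact ⟨insert w t, Finset.mem_image.2 ⟨t, (hmem t).2 ⟨F, hF, ht⟩, rfl⟩, hl_insert_mem hqt hs0 hs1⟩
  · intro u hu u' hu'
    obtain ⟨t, ht, rfl⟩ := Finset.mem_image.1 hu
    obtain ⟨t', ht', rfl⟩ := Finset.mem_image.1 hu'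
    obtain ⟨F, hF, ht⟩ := (hmem t).1 ht
    obtain ⟨F', hF', ht'⟩ := (hmem t').1 ht'
    obtain ⟨h1, h2⟩ := htri F hF t ht
    obtain ⟨h1', h2'⟩ := htri F' hF' t' ht'
    have hn : t.Nonempty := Finset.card_pos.1 (by omega)
    have hn' : t'.Nonempty := Finset.card_pos.1 (by omega)
    apply Set.Subset.antisymm
    · refine cone_inter hw hF hF' h1 h1' hn hn' ?_
      by_cases hFF : F = F'
      · subst hFF
        exact (hf.mark F hF).tri.inter t ht t' ht'
      · refine face_tri hV.vert (hfct F hF).1.1 (hfct F' hF').1.1 h1 h1' ?_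
        exact inter_card hV (hfct F hF).1 (hfct F' hF').1 hFF
    · refine Set.subset_inter (hl_mono Finset.inter_subset_left) (hl_mono Finset.inter_subset_right)
  · rw [hcard]
    refine ⟨fun i => insert w (f i), ?_, ?_, ?_⟩
    · intro i hi
      exact Finset.mem_image.2 ⟨f i, hf1 i hi, rfl⟩
    · intro i hi j hj he
      exact hf2 i hi j hj (hinj (by exact_mod_cast hf1 i hi) (by exact_mod_cast hf1 j hj) he)
    · intro i hi
      show (insert w (f i) ∩ insert w (f (i + 1))).card = 3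
      rw [← Finset.insert_inter_distrib, Finset.card_insert_of_notMem (fun hmem' =>
        hwt (f i) (hf1 i (by omega)) (Finset.mem_inter.1 hmem').1), hf3 i hi]

end Pool.Agent.LibTF47
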