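import Mathlib
import Pool.Agent.LibTF47.P12
import Pool.Agent.LibTF47.B5
import Pool.Agent.LibTF47.C3
import Pool.Agent.LibTF47.D0
import Pool.Agent.LibTF47.D1
import Pool.Agent.LibTF47.X7

/-! # Board TF47: every 3-polytope with triangle-free graph has a Hamiltonian tetrahedralization -/

set_option autoImplicit false

namespace Pool.Agent.LibTF47

open Finset Pool.Agent.LibPol19 Pool.Agent.LibTet88 Pool.Agent.LibGP88
open scoped Classical

/-- every 3-polytope with triangle-free graph has a Hamiltonian tetrahedralization all of whose cells contain one vertex `w` -/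
theorem triangle_free_ham {V : Finset (Ed 3)} (hV : Gen V) (hT : TF V) :
    ∃ w ∈ V, ∃ U : Finset (Finset (Ed 3)),
      (∀ t ∈ U, w ∈ t ∧ t ⊆ V ∧ t.card = 4 ∧ AffineIndependent ℝ (fun x : t => (x.1 : Ed 3))) ∧
      (⋃ t ∈ U, convexHull ℝ (t : Set (Ed 3))) = convexHull ℝ (V : Set (Ed 3)) ∧
      (∀ t ∈ U, ∀ u ∈ U, convexHull ℝ (t : Set (Ed 3)) ∩ convexHull ℝ (u : Set (Ed 3)) =
        convexHull ℝ ((t ∩ u : Finset (Ed 3)) : Set (Ed 3))) ∧
      ∃ f : ℕ → Finset (Ed 3), (∀ i < U.card, f i ∈ U) ∧ (∀ i < U.card, ∀ j < U.card, f i = f j → i = j) ∧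
        ∀ i, i + 1 < U.card → (f i ∩ f (i + 1)).card = 3 := by
  obtain ⟨w, hw, h3, hwk⟩ := exists_good hV hT
  have h2 := two_le_fw hV hT hw h3
  have hmg := mg_fw (w := w) hV
  have hne : (Fw V w).Nonempty := card_pos.1 (by omega)
  have hcon := nw hmg hne (cnd_of hV hwk)
  obtain ⟨H, hH, hcn, s, hs, t, ht, hst, hds, hdt, hev⟩ :=
    two_ends hmg h2 (fun F hF G hG => fw_conn hV hw hF hG) hcon
  obtain ⟨X, Γ, g, g', hX⟩ := trx_of hV hH hcn hs ht hst hds hdt hev
  exact ⟨w, hw, tet_of_trx hV hw hX⟩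

end Pool.Agent.LibTF47
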